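import Pool.Agent.Lib_helper19.STT.Inst

/-!
# An extension computes a path
-/

namespace Pool.Agent.STT

open TuringIdeal Encodable

variable {M : TuringIdeal} {R T : List Bool → Bool}

/-- Approximation of the values of a continuous function at the leftmost paths. -/
theorem approx (hR : Space M R) {F : (ℕ → Bool) → ℝ} (hF : ContOn M (Pt M R) F) :
    ∃ G : ℕ × List Bool → ℕ × ℕ × ℕ, M.Has G ∧ ∀ j σ, R σ = true →
      |F (xs R σ) - dy (G (j, σ)).1 (G (j, σ)).2.1 (G (j, σ)).2.2| ≤ 1 / 2 ^ j := by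
  obtain ⟨c, hc, h1, h2⟩ := hF
  set d : List Bool × ℕ × ℕ × ℕ × ℕ := ([], 0, 0, 0, 0) with hd
  have hcd : ∀ {α : Type} [Primcodable α] {f : α → ℕ}, M.Has f →
      M.Has (fun a => (c (f a)).getD d) := by
    intro α _ f hf
    exact Has.comp₂ Primrec.option_getD (hc.comp hf) (Has.const d)
  have hp : M.Dec (fun q : (ℕ × List Bool) × ℕ => R q.1.2 = false ∨
      ((c q.2).isSome = true ∧ q.1.1 ≤ ((c q.2).getD d).2.2.2.2 ∧
        pre (xs R q.1.2) ((c q.2).getD d).1.length = ((c q.2).getD d).1)) := by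
    have hv : M.Has (fun q : (ℕ × List Bool) × ℕ => (c q.2).getD d) := hcd Has.snd
    refine Dec.or (Dec.eq (hR.has.comp (Has.snd.comp Has.fst)) (Has.const false)) (Dec.and ?_
      (Dec.and ?_ ?_))
    · exact Dec.eq_true ((Has.of_primrec Primrec.option_isSome).comp (hc.comp Has.snd))
    · exact Dec.le (Has.fst.comp Has.fst)
        (Has.snd.comp (Has.snd.comp (Has.snd.comp (Has.snd.comp hv))))
    · exact Dec.eq (Has.pre_xs hR.has (Has.snd.comp Has.fst) (Has.length (Has.fst.comp hv)))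
        (Has.fst.comp hv)
  obtain ⟨g, hg, hg'⟩ := Has.find hp (by
    rintro ⟨j, σ⟩
    cases hσ : R σ with
    | false => exact ⟨0, Or.inl hσ⟩
    | true =>
      obtain ⟨n, θ, a, b, e, l, h3, h4, h5⟩ := h2 (xs R σ)
        ⟨Has.xs_one hR.has σ, hR.mem_xs hσ⟩ j
      refine ⟨n, Or.inr ⟨?_, ?_, ?_⟩⟩
      · simp [h3]
      · simpa [h3] using h5
      · simpa [h3] using h4)
  refine ⟨fun q => (((c (g q)).getD d).2.1, ((c (g q)).getD d).2.2.1,
    ((c (g q)).getD d).2.2.2.1), ?_, ?_⟩
  · have hv : M.Has (fun q : ℕ × List Bool => (c (g q)).getD d) := hcd hg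
    exact Has.pair (Has.fst.comp (Has.snd.comp hv)) (Has.pair
      (Has.fst.comp (Has.snd.comp (Has.snd.comp hv)))
      (Has.fst.comp (Has.snd.comp (Has.snd.comp (Has.snd.comp hv)))))
  · intro j σ hσ
    rcases (hg' (j, σ)).1 with h | ⟨h3, h4, h5⟩
    · rw [show R (j, σ).2 = R σ from rfl, hσ] at h
      exact absurd h (by simp)
    · rw [Option.isSome_iff_exists] at h3
      obtain ⟨v, hv⟩ := h3
      obtain ⟨θ, a, b, e, l⟩ := v
      simp only [hv, Option.getD_some] at h4 h5 ⊢
      refine (h1 _ θ a b e l hv _ ⟨Has.xs_one hR.has σ, hR.mem_xs hσ⟩ h5).trans ?_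
      exact one_div_le_one_div_of_le (by positivity) (pow_le_pow_right₀ (by norm_num) h4)

theorem dy_lt_iff {a b e j : ℕ} : 1 / 2 ^ j < dy a b e ↔ 2 ^ j * b + 2 ^ e < 2 ^ j * a := by
  unfold dy
  rw [div_lt_div_iff₀ (by positivity) (by positivity), one_mul]
  constructor
  · intro h
    have : ((2 ^ j * b + 2 ^ e : ℕ) : ℝ) < ((2 ^ j * a : ℕ) : ℝ) := by
      push_cast
      linarith
    exact_mod_cast this
  · intro h
    have : ((2 ^ j * b + 2 ^ e : ℕ) : ℝ) < ((2 ^ j * a : ℕ) : ℝ) := by exact_mod_cast h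
    push_cast at this
    linarith

/-- If the function `ff` on `KK` has an extension, there is a path. -/
theorem decode_path (hR : Space M R) (hTM : M.Has T) (hTR : ∀ σ, T σ = true → R σ = true)
    (hT : IsTree T) (hinf : ∀ n, ∃ σ : List Bool, σ.length = n ∧ T σ = true)
    (hno : ¬ ∃ x ∈ Pt M R, ∀ n, T (pre x n) = true) {F : (ℕ → Bool) → ℝ}
    (hF : InC M (Pt M R) F) (hFf : ∀ x ∈ KK R T, F x = ff R T x) : False := by
  classical
  obtain ⟨hFc, h, hh, hmod⟩ := hF
  obtain ⟨G, hG, hG'⟩ := approx hR hFc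
  -- the level
  set H : ℕ → ℕ := fun j => h (j + 3) + (j + 3) with hHdef
  have hH : M.Has H := by
    have h3 : M.Has (fun j : ℕ => j + 3) := Has.of_primrec (Primrec.succ.comp (Primrec.succ.comp
      Primrec.succ))
    exact Has.comp₂ Primrec.nat_add (hh.comp h3) h3
  -- the colour
  set L : ℕ × List Bool → Prop := fun q => 2 ^ (q.1 + 1) * (G (q.1 + 3, q.2)).2.1
    + 2 ^ (G (q.1 + 3, q.2)).2.2 < 2 ^ (q.1 + 1) * (G (q.1 + 3, q.2)).1 with hLdef
  have hL : M.Dec L := by
    have h3 : M.Has (fun q : ℕ × List Bool => G (q.1 + 3, q.2)) :=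
      hG.comp (Has.pair ((Has.of_primrec (Primrec.succ.comp (Primrec.succ.comp
      Primrec.succ))).comp Has.fst) Has.snd)
    have h4 : M.Has (fun q : ℕ × List Bool => 2 ^ (q.1 + 1)) :=
      (Has.of_primrec primrec_pow2).comp (Has.succ Has.fst)
    exact Dec.lt (Has.comp₂ Primrec.nat_add (Has.comp₂ Primrec.nat_mul h4
      (Has.fst.comp (Has.snd.comp h3))) ((Has.of_primrec primrec_pow2).comp
        (Has.snd.comp (Has.snd.comp h3)))) (Has.comp₂ Primrec.nat_mul h4 (Has.fst.comp h3))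
  have hLiff : ∀ j σ, L (j, σ) ↔ 1 / 2 ^ (j + 1) < dy (G (j + 3, σ)).1 (G (j + 3, σ)).2.1
      (G (j + 3, σ)).2.2 := fun j σ => dy_lt_iff.symm
  have hpow : ∀ j : ℕ, (2 : ℝ) ^ (j + 3) = 8 * 2 ^ j := fun j => by rw [pow_add]; ring
  have hpow1 : ∀ j : ℕ, (2 : ℝ) ^ (j + 1) = 2 * 2 ^ j := fun j => by rw [pow_succ]; ring
  have hbig : ∀ j σ, R σ = true → 1 / 2 ^ j - 1 / 2 ^ (j + 3) ≤ F (xs R σ) → L (j, σ) := by
    intro j σ hσ h3
    rw [hLiff]
    have h4 := (abs_le.mp (hG' (j + 3) σ hσ)).2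
    rw [hpow] at h3 h4
    rw [hpow1]
    have h5 : (0 : ℝ) < 1 / 2 ^ j := by positivity
    have h6 : (1 : ℝ) / (8 * 2 ^ j) = 1 / 8 * (1 / 2 ^ j) := by field_simp
    have h7 : (1 : ℝ) / (2 * 2 ^ j) = 1 / 2 * (1 / 2 ^ j) := by field_simp
    rw [h6] at h3 h4
    rw [h7]
    linarith
  have hsmall : ∀ j σ, R σ = true → F (xs R σ) ≤ 2 * (1 / 2 ^ (j + 3)) → ¬ L (j, σ) := by
    intro j σ hσ h3
    rw [hLiff, not_lt]
    have h4 := (abs_le.mp (hG' (j + 3) σ hσ)).1
    rw [hpow] at h3 h4
    rw [hpow1]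
    have h5 : (0 : ℝ) < 1 / 2 ^ j := by positivity
    have h6 : (1 : ℝ) / (8 * 2 ^ j) = 1 / 8 * (1 / 2 ^ j) := by field_simp
    have h7 : (1 : ℝ) / (2 * 2 ^ j) = 1 / 2 * (1 / 2 ^ j) := by field_simp
    rw [h6] at h3 h4
    rw [h7]
    linarith
  -- oscillation
  have hosc : ∀ j, ∀ x ∈ Pt M R, ∀ y ∈ Pt M R, pre x (H j) = pre y (H j) →
      |F x - F y| ≤ 1 / 2 ^ (j + 3) := by
    intro j x hx y hy hxy
    exact hmod (j + 3) x hx y hy (pre_eq_of_le (by simp [hHdef]) hxy)
  have hKP : ∀ x ∈ KK R T, x ∈ Pt M R := fun x hx => KK_subset hR hTR hx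
  -- nodes which live forever are small
  have hfor : ∀ j (τ : List Bool), τ.length = H j → Ext T τ → ¬ L (j, τ) := by
    intro j τ hτ hE
    obtain ⟨σ, h3, h4, h5, h6⟩ := exists_near hTM hTR hT hinf hno hE
    have hK : xs R σ ∈ KK R T := ⟨σ, h3, h4, rfl⟩
    have hPτ : xs R τ ∈ Pt M R := ⟨Has.xs_one hR.has τ, hR.mem_xs (hTR _ (hE.mem hT))⟩
    have hlen : τ.length ≤ σ.length := by
      have := congrArg List.length h5
      simp only [List.length_take] at this
      omega
    have h7 : pre (xs R τ) (H j) = pre (xs R σ) (H j) := by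
      rw [← hτ, pre_xs_self, pre_xs_take _ hlen, h5]
    have h8 := (abs_le.mp (hosc j _ hPτ _ (hKP _ hK) h7)).2
    have h9 : F (xs R σ) ≤ 1 / 2 ^ (j + 3) := by
      rw [hFf _ hK, ff_xs hT h3]
      refine one_div_le_one_div_of_le (by positivity) (pow_le_pow_right₀ (by norm_num) ?_)
      have : j + 3 ≤ H j := by simp [hHdef]
      omega
    exact hsmall j τ (hTR _ (hE.mem hT)) (by linarith)
  -- the last generation of a dying child of a node which lives forever is large
  have hlast : ∀ (ρ : List Bool) b s, Ext T ρ → ¬ A T (s + 1) (ρ ++ [b]) →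
      ∀ σ : List Bool, σ.length = s → σ.take (ρ.length + 1) = ρ ++ [b] → T σ = true →
      H ρ.length ≤ s → L (ρ.length, σ.take (H ρ.length)) := by
    intro ρ b s hE hA σ hσ hσ' hσT hs
    obtain ⟨h3, h4, h5⟩ := last_leaf hinf hE hA hσ hσ' hσT
    have hK : xs R σ ∈ KK R T := ⟨σ, h3, h5, rfl⟩
    have hTt : T (σ.take (H ρ.length)) = true := hT.take hσT _
    have hPt : xs R (σ.take (H ρ.length)) ∈ Pt M R :=
      ⟨Has.xs_one hR.has _, hR.mem_xs (hTR _ hTt)⟩
    have hlen : (σ.take (H ρ.length)).length = H ρ.length := by simp; omega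
    have h7 : pre (xs R (σ.take (H ρ.length))) (H ρ.length) = pre (xs R σ) (H ρ.length) := by
      rw [pre_xs_take σ (by omega)]
      conv_lhs => rw [← hlen]
      rw [hlen, pre_xs_take _ hlen.ge, List.take_take, min_self]
    have h8 := (abs_le.mp (hosc ρ.length _ hPt _ (hKP _ hK) h7)).1
    have h9 : F (xs R σ) = 1 / 2 ^ ρ.length := by rw [hFf _ hK, ff_xs hT h3, h4]
    exact hbig _ _ (hTR _ hTt) (by linarith)
  -- the search
  have hDA : M.Dec (fun r : ((List Bool × Bool) × ℕ) × List Bool =>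
      r.2.take (r.1.1.1.length + 1) = r.1.1.1 ++ [r.1.1.2] ∧ A T r.1.2 r.2) := by
    have hρ : M.Has (fun r : ((List Bool × Bool) × ℕ) × List Bool => r.1.1.1) :=
      Has.fst.comp (Has.fst.comp Has.fst)
    have hb : M.Has (fun r : ((List Bool × Bool) × ℕ) × List Bool => r.1.1.2) :=
      Has.snd.comp (Has.fst.comp Has.fst)
    exact Dec.and (Dec.eq (Has.take (Has.succ (Has.length hρ)) Has.snd)
      (Has.append hρ (Has.single hb)))
      ((dec_A hTM).comp ((Has.snd.comp Has.fst).pair Has.snd))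
  have hDL : M.Dec (fun r : ((List Bool × Bool) × ℕ) × List Bool =>
      L (r.1.1.1.length, r.2)) :=
    hL.comp (Has.pair (Has.length (Has.fst.comp (Has.fst.comp Has.fst))) Has.snd)
  have hHq : M.Has (fun q : (List Bool × Bool) × ℕ => H q.1.1.length) :=
    hH.comp (Has.length (Has.fst.comp Has.fst))
  have hsearch : M.Dec (fun q : (List Bool × Bool) × ℕ =>
      (H q.1.1.length ≤ q.2 ∧
        ((∀ τ : List Bool, τ.length = H q.1.1.length →
            (τ.take (q.1.1.length + 1) = q.1.1 ++ [q.1.2] ∧ A T q.2 τ) → L (q.1.1.length, τ)) ∨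
          (∀ τ : List Bool, τ.length = H q.1.1.length →
            (τ.take (q.1.1.length + 1) = q.1.1 ++ [q.1.2] ∧ A T q.2 τ) →
              ¬ L (q.1.1.length, τ)))) ∨
      (q.1.1.length ≤ q.2 ∧ ¬ A T q.2 q.1.1)) := by
    refine Dec.or (Dec.and (Dec.le hHq Has.snd) (Dec.or ?_ ?_)) (Dec.and ?_ ?_)
    · exact Dec.forall_len (p := fun r : ((List Bool × Bool) × ℕ) × List Bool =>
        (r.2.take (r.1.1.1.length + 1) = r.1.1.1 ++ [r.1.1.2] ∧ A T r.1.2 r.2) →
          L (r.1.1.1.length, r.2)) (Dec.imp hDA hDL) hHq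
    · exact Dec.forall_len (p := fun r : ((List Bool × Bool) × ℕ) × List Bool =>
        (r.2.take (r.1.1.1.length + 1) = r.1.1.1 ++ [r.1.1.2] ∧ A T r.1.2 r.2) →
          ¬ L (r.1.1.1.length, r.2)) (Dec.imp hDA hDL.not) hHq
    · exact Dec.le (Has.length (Has.fst.comp Has.fst)) Has.snd
    · exact ((dec_A hTM).comp (Has.snd.pair (Has.fst.comp Has.fst))).not
  -- the search is successful
  have hfin : ∀ (S : Finset (List Bool)), (∀ τ ∈ S, ¬ Ext T τ) →
      ∃ t0, ∀ τ ∈ S, ∀ t, t0 ≤ t → ¬ A T t τ := by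
    intro S
    induction S using Finset.induction_on with
    | empty => exact fun _ => ⟨0, by simp⟩
    | insert τ S _ ih =>
      intro hS
      obtain ⟨t0, ht0⟩ := ih fun τ' h' => hS τ' (Finset.mem_insert_of_mem h')
      have h3 := hS τ (Finset.mem_insert_self _ _)
      unfold Ext at h3
      push Not at h3
      obtain ⟨t1, h4, h5⟩ := h3
      refine ⟨max t0 t1, fun τ' h' t ht => ?_⟩
      rcases Finset.mem_insert.mp h' with rfl | h'
      · exact fun hA => h5 (hA.mono hT ((le_max_right _ _).trans ht) h4)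
      · exact ht0 τ' h' t ((le_max_left _ _).trans ht)
  obtain ⟨g, hg, hg'⟩ := Has.find hsearch (by
    rintro ⟨ρ, b⟩
    by_cases hρ : Ext T ρ
    · by_cases hb : Ext T (ρ ++ [b])
      · -- wait until all nodes which do not live forever are dead
        obtain ⟨t0, ht0⟩ := hfin ((Finset.univ : Finset (List.Vector Bool (H ρ.length))).image
          (fun v => v.toList) |>.filter fun τ => ¬ Ext T τ) (by
            intro τ hτ
            exact (Finset.mem_filter.mp hτ).2)
        refine ⟨max t0 (H ρ.length), Or.inl ⟨le_max_right _ _, Or.inr ?_⟩⟩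
        rintro τ hτ ⟨-, hτA⟩
        apply hfor _ _ hτ
        by_contra hne
        refine ht0 τ ?_ _ (le_max_left _ _) hτA
        rw [Finset.mem_filter]
        exact ⟨Finset.mem_image.mpr ⟨⟨τ, hτ⟩, Finset.mem_univ _, rfl⟩, hne⟩
      · unfold Ext at hb
        push Not at hb
        obtain ⟨t, ht1, ht2⟩ := hb
        refine ⟨max t (H ρ.length), Or.inl ⟨le_max_right _ _, Or.inl ?_⟩⟩
        rintro τ hτ ⟨hτ1, hτA⟩
        exfalso
        have h3 := hτA.take (ρ.length + 1)
        rw [hτ1] at h3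
        exact ht2 (h3.mono hT (le_max_left _ _) ht1)
    · unfold Ext at hρ
      push Not at hρ
      obtain ⟨t, ht1, ht2⟩ := hρ
      exact ⟨t, Or.inr ⟨ht1, ht2⟩⟩)
  -- the verdict
  set V : List Bool × Bool → Prop := fun q => ∃ τ : List Bool, τ.length = H q.1.length ∧
    ((τ.take (q.1.length + 1) = q.1 ++ [q.2] ∧ A T (g q) τ) ∧ ¬ L (q.1.length, τ)) with hVdef
  have hV : M.Dec V := by
    have hq : M.Has (fun r : (List Bool × Bool) × List Bool => ((r.1, g r.1), r.2)) :=
      Has.pair (Has.pair Has.fst (hg.comp Has.fst)) Has.snd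
    exact Dec.exists_len (p := fun r : (List Bool × Bool) × List Bool =>
      (r.2.take (r.1.1.length + 1) = r.1.1 ++ [r.1.2] ∧ A T (g r.1) r.2) ∧
        ¬ L (r.1.1.length, r.2)) (Dec.and (hDA.comp hq) (hDL.comp hq).not)
      (hH.comp (Has.length Has.fst))
  have hverdict : ∀ ρ b, Ext T ρ → (V (ρ, b) ↔ Ext T (ρ ++ [b])) := by
    intro ρ b hρ
    obtain ⟨hs, -⟩ := hg' (ρ, b)
    simp only at hs
    rcases hs with ⟨hle, hmono⟩ | ⟨h3, h4⟩
    swap
    · exact absurd (hρ _ h3) h4
    constructor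
    · rintro ⟨τ, hτ1, ⟨hτ2, hτ3⟩, hτ4⟩
      simp only at hτ1 hτ2 hτ3 hτ4
      by_contra hb
      -- all living nodes are small
      have hall : ∀ τ : List Bool, τ.length = H ρ.length →
          (τ.take (ρ.length + 1) = ρ ++ [b] ∧ A T (g (ρ, b)) τ) → ¬ L (ρ.length, τ) := by
        rcases hmono with h5 | h5
        · exact absurd (h5 τ hτ1 ⟨hτ2, hτ3⟩) hτ4
        · exact h5
      have hTb : T (ρ ++ [b]) = true := by
        rw [← hτ2]
        exact hT.take (hτ3.mem hT) _
      obtain ⟨s, hs1, ⟨σ, hσ1, hσ2, hσ3⟩, hs2⟩ := last_level hTb hb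
      rw [List.length_append, List.length_singleton] at hσ2 hs1
      -- the child is alive at the stage of the verdict, so this stage is at most `s`
      have hgs : g (ρ, b) ≤ s := by
        by_contra hc
        push Not at hc
        have h6 := hτ3.take (ρ.length + 1)
        rw [hτ2] at h6
        exact hs2 (h6.mono hT hc (by simp; omega))
      have hHs : H ρ.length ≤ s := hle.trans hgs
      have hbig' := hlast ρ b s hρ hs2 σ hσ1 hσ2 hσ3 hHs
      refine hall (σ.take (H ρ.length)) (by simp; omega) ⟨?_, ?_⟩ hbig'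
      · rw [List.take_take, min_eq_left, hσ2]
        simp only [hHdef]
        omega
      · refine A.mono hT hgs (by simp; omega) ?_
        rw [← hσ1]
        exact A.of_extends hσ3 (by rw [List.length_take, min_eq_left (by omega)])
    · intro hb
      -- a node which lives forever
      obtain ⟨τ, hτ1, hτ2⟩ : ∃ τ : List Bool, τ.length = H ρ.length ∧ Ext T τ ∧
          τ.take (ρ.length + 1) = ρ ++ [b] := by
        have h5 : ∀ k, ∃ τ : List Bool, τ.length = ρ.length + 1 + k ∧ Ext T τ ∧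
            τ.take (ρ.length + 1) = ρ ++ [b] := by
          intro k
          induction k with
          | zero =>
            refine ⟨ρ ++ [b], by simp, hb, ?_⟩
            rw [List.take_of_length_le (by simp)]
          | succ k ih =>
            obtain ⟨τ, h6, h7, h8⟩ := ih
            rcases Ext.child hT h7 with h9 | h9
            · exact ⟨_, by simp; omega, h9, by rw [List.take_append_of_le_length (by omega), h8]⟩
            · exact ⟨_, by simp; omega, h9, by rw [List.take_append_of_le_length (by omega), h8]⟩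
        have h10 : ρ.length + 1 ≤ H ρ.length := by simp only [hHdef]; omega
        obtain ⟨τ, h6, h7⟩ := h5 (H ρ.length - (ρ.length + 1))
        exact ⟨τ, by omega, h7⟩
      refine ⟨τ, hτ1, ⟨hτ2.2, hτ2.1 _ (by rw [hτ1]; exact hle)⟩, hfor _ _ hτ1 hτ2.1⟩
  -- the path
  obtain ⟨v, hv, hv'⟩ := hV
  set P : ℕ → List Bool := fun n => Nat.rec [] (fun _ ρ => ρ ++ [!(v (ρ, false))]) n with hP
  have hPM : M.Has P := by
    have h3 : M.Has (fun r : ℕ × (ℕ × List Bool) => r.2.2 ++ [!(v (r.2.2, false))]) := by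
      refine Has.append (Has.snd.comp Has.snd) (Has.single ?_)
      exact (Has.of_primrec Primrec.not).comp (hv.comp (Has.pair (Has.snd.comp Has.snd)
        (Has.const false)))
    exact Has.nat_rec' (f := fun _ : ℕ => ([] : List Bool)) (Has.const []) h3 Has.id
  have hPE : ∀ n, Ext T (P n) ∧ (P n).length = n := by
    intro n
    induction n with
    | zero => exact ⟨Ext.nil hinf, rfl⟩
    | succ n ih =>
      have h3 : P (n + 1) = P n ++ [!(v (P n, false))] := rfl
      refine ⟨?_, by rw [h3, List.length_append, ih.2]; rfl⟩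
      rw [h3]
      cases hb : v (P n, false) with
      | true => exact (hverdict _ _ ih.1).mp ((hv' _).mp hb)
      | false =>
        rcases Ext.child hT ih.1 with h4 | h4
        · have := (hv' _).mpr ((hverdict _ _ ih.1).mpr h4)
          rw [hb] at this
          exact absurd this (by simp)
        · exact h4
  set x : ℕ → Bool := fun n => !(v (P n, false)) with hx
  have hxM : M.Has x := (Has.of_primrec Primrec.not).comp (hv.comp (Has.pair hPM
    (Has.const false)))
  have hxP : ∀ n, pre x n = P n := by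
    intro n
    induction n with
    | zero => rfl
    | succ n ih => rw [pre_succ, ih]
  have hxT : ∀ n, T (pre x n) = true := by
    intro n
    rw [hxP]
    exact (hPE n).1.mem hT
  exact hno ⟨x, ⟨hxM, fun n => hTR _ (hxT n)⟩, hxT⟩

/-- **The reversal.** -/
theorem wkl_of_discrete (hR : Space M R) (h : StrongTietzeDiscrete M R) : WKLin M R := by
  intro T hTM hTR hT hinf
  by_contra hno
  obtain ⟨F, hF, hFf⟩ := h (KK R T) (KK_closed hR hTM hTR hT hinf hno) (KK_discrete hT)
    (ff R T) (ff_cont hR hTM hT hinf) (fun x _ => ff_range x) (ff_lip hT hinf)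
  exact decode_path hR hTM hTR hT hinf hno hF hFf

end Pool.Agent.STT
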