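import Pool.Agent.Lib_helper19.STT.Ideal

/-!
# The strong Tietze theorem in the spaces of paths of binary trees
-/

namespace Pool.Agent.STT

/-- The initial segment of length `n` of the sequence `x`. -/
def pre (x : ℕ → Bool) (n : ℕ) : List Bool := (List.range n).map x

/-- `R` is (the characteristic function of) a nonempty binary tree without dead ends which belongs
to the ideal `M`. -/
structure Space (M : TuringIdeal) (R : List Bool → Bool) : Prop where
  has : M.Has R
  nil : R [] = true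
  down : ∀ σ b, R (σ ++ [b]) = true → R σ = true
  up : ∀ σ, R σ = true → ∃ b, R (σ ++ [b]) = true

/-- The points of the compact metric space given by `R`: the paths of `R` which belong to `M`. -/
def Pt (M : TuringIdeal) (R : List Bool → Bool) : Set (ℕ → Bool) :=
  {x | M.Has x ∧ ∀ n, R (pre x n) = true}

/-- `K` is a closed set of the model: its complement is the union of a sequence of basic open
sets, the sequence being in `M`. -/
def IsClosedIn (M : TuringIdeal) (R : List Bool → Bool) (K : Set (ℕ → Bool)) : Prop :=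
  K ⊆ Pt M R ∧ ∃ w : ℕ → Option (List Bool), M.Has w ∧
    ∀ x ∈ Pt M R, x ∈ K ↔ ∀ n σ, w n = some σ → pre x σ.length ≠ σ

/-- The dyadic rational `(a - b) / 2 ^ e`. -/
noncomputable def dy (a b e : ℕ) : ℝ := ((a : ℝ) - (b : ℝ)) / 2 ^ e

/-- `f` is a continuous real function on `K` with a code in `M`: a sequence of conditions
`(σ, a, b, e, k)`, each saying that `f` differs from `(a - b) / 2 ^ e` by at most `2 ^ (-k)` on the
points of `K` extending `σ`, which determine `f` on `K`. -/
def ContOn (M : TuringIdeal) (K : Set (ℕ → Bool)) (f : (ℕ → Bool) → ℝ) : Prop :=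
  ∃ c : ℕ → Option (List Bool × ℕ × ℕ × ℕ × ℕ), M.Has c ∧
    (∀ n σ a b e k, c n = some (σ, a, b, e, k) → ∀ x ∈ K, pre x σ.length = σ →
      |f x - dy a b e| ≤ 1 / 2 ^ k) ∧
    ∀ x ∈ K, ∀ k, ∃ n σ a b e l, c n = some (σ, a, b, e, l) ∧ pre x σ.length = σ ∧ k ≤ l

/-- `f` has a modulus of uniform continuity on `K` in `M`. -/
def HasModulus (M : TuringIdeal) (K : Set (ℕ → Bool)) (f : (ℕ → Bool) → ℝ) : Prop :=
  ∃ h : ℕ → ℕ, M.Has h ∧ ∀ k, ∀ x ∈ K, ∀ y ∈ K, pre x (h k) = pre y (h k) →
    |f x - f y| ≤ 1 / 2 ^ k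

/-- The space `C(K)` of the model `M`. -/
def InC (M : TuringIdeal) (K : Set (ℕ → Bool)) (f : (ℕ → Bool) → ℝ) : Prop :=
  ContOn M K f ∧ HasModulus M K f

/-- The strong Tietze theorem for closed subsets of the space of `R`, in the model `M`. -/
def StrongTietze (M : TuringIdeal) (R : List Bool → Bool) : Prop :=
  ∀ K, IsClosedIn M R K → ∀ f, InC M K f → ∃ F, InC M (Pt M R) F ∧ ∀ x ∈ K, F x = f x

/-- The strong Tietze theorem for the closed subsets of the space of `R` without accumulation
points and for `1`-Lipschitz functions with values in `[0, 1]`, in the model `M`. -/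
def StrongTietzeDiscrete (M : TuringIdeal) (R : List Bool → Bool) : Prop :=
  ∀ K, IsClosedIn M R K → (∀ x ∈ K, ∃ n, ∀ y ∈ K, pre y n = pre x n → y = x) →
    ∀ f, ContOn M K f → (∀ x ∈ K, 0 ≤ f x ∧ f x ≤ 1) →
      (∀ x ∈ K, ∀ y ∈ K, ∀ n, pre x n = pre y n → |f x - f y| ≤ 1 / 2 ^ n) →
      ∃ F, InC M (Pt M R) F ∧ ∀ x ∈ K, F x = f x

/-- Weak König's lemma for the subtrees of `R`, in the model `M`. -/
def WKLin (M : TuringIdeal) (R : List Bool → Bool) : Prop :=
  ∀ T : List Bool → Bool, M.Has T → (∀ σ, T σ = true → R σ = true) →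
    (∀ σ b, T (σ ++ [b]) = true → T σ = true) → (∀ n, ∃ σ, σ.length = n ∧ T σ = true) →
    ∃ x ∈ Pt M R, ∀ n, T (pre x n) = true

end Pool.Agent.STT
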