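import Pool.Agent.Lib_helper19.STT.Paths

/-!
# Compact spaces satisfy the strong Tietze theorem
-/

namespace Pool.Agent.STT

open TuringIdeal Encodable Filter Topology

variable {M : TuringIdeal} {R : List Bool → Bool}

/-- Comparison of dyadic rationals. -/
def Close (k : ℕ) (u v : ℕ × ℕ × ℕ) : Prop :=
  2 ^ k * (u.1 * 2 ^ v.2.2 + v.2.1 * 2 ^ u.2.2)
      ≤ 2 ^ k * (u.2.1 * 2 ^ v.2.2 + v.1 * 2 ^ u.2.2) + 2 * (2 ^ u.2.2 * 2 ^ v.2.2) ∧
    2 ^ k * (v.1 * 2 ^ u.2.2 + u.2.1 * 2 ^ v.2.2)
      ≤ 2 ^ k * (v.2.1 * 2 ^ u.2.2 + u.1 * 2 ^ v.2.2) + 2 * (2 ^ u.2.2 * 2 ^ v.2.2)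

theorem close_iff (k : ℕ) (u v : ℕ × ℕ × ℕ) :
    Close k u v ↔ |dy u.1 u.2.1 u.2.2 - dy v.1 v.2.1 v.2.2| ≤ 2 / 2 ^ k := by
  obtain ⟨a, b, e⟩ := u
  obtain ⟨a', b', e'⟩ := v
  simp only [Close, dy]
  have hp : (0 : ℝ) < 2 ^ k := by positivity
  have hp1 : (0 : ℝ) < 2 ^ e := by positivity
  have hp2 : (0 : ℝ) < 2 ^ e' := by positivity
  have key : ((a : ℝ) - b) / 2 ^ e - (a' - b') / 2 ^ e'
      = ((a - b) * 2 ^ e' - (a' - b') * 2 ^ e) / (2 ^ e * 2 ^ e') := by
    field_simp
  rw [key, abs_le, ← Nat.cast_le (α := ℝ), ← Nat.cast_le (α := ℝ)]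
  push_cast
  rw [← neg_div, div_le_div_iff₀ hp (by positivity), div_le_div_iff₀ (by positivity) hp]
  constructor
  · rintro ⟨h1, h2⟩
    constructor <;> nlinarith
  · rintro ⟨h1, h2⟩
    constructor <;> nlinarith

variable {α : Type} [Primcodable α]

theorem dec_close {k : α → ℕ} {u v : α → ℕ × ℕ × ℕ} (hk : M.Has k) (hu : M.Has u)
    (hv : M.Has v) : M.Dec (fun a => Close (k a) (u a) (v a)) := by
  unfold Close
  have p2 : ∀ {f : α → ℕ}, M.Has f → M.Has (fun a => 2 ^ f a) := fun hf =>
    (Has.of_primrec primrec_pow2).comp hf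
  have mul : ∀ {f g : α → ℕ}, M.Has f → M.Has g → M.Has (fun a => f a * g a) := fun hf hg =>
    Has.comp₂ Primrec.nat_mul hf hg
  have add : ∀ {f g : α → ℕ}, M.Has f → M.Has g → M.Has (fun a => f a + g a) := fun hf hg =>
    Has.comp₂ Primrec.nat_add hf hg
  have a1 := Has.fst.comp hu
  have b1 := Has.fst.comp (Has.snd.comp hu)
  have e1 := Has.snd.comp (Has.snd.comp hu)
  have a2 := Has.fst.comp hv
  have b2 := Has.fst.comp (Has.snd.comp hv)
  have e2 := Has.snd.comp (Has.snd.comp hv)
  refine Dec.and (Dec.le ?_ ?_) (Dec.le ?_ ?_)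
  · exact mul (p2 hk) (add (mul a1 (p2 e2)) (mul b2 (p2 e1)))
  · exact add (mul (p2 hk) (add (mul b1 (p2 e2)) (mul a2 (p2 e1))))
      (mul (Has.const 2) (mul (p2 e1) (p2 e2)))
  · exact mul (p2 hk) (add (mul a2 (p2 e1)) (mul b1 (p2 e2)))
  · exact add (mul (p2 hk) (add (mul b2 (p2 e1)) (mul a1 (p2 e2))))
      (mul (Has.const 2) (mul (p2 e1) (p2 e2)))

/-- **Compactness implies the strong Tietze theorem.** -/
theorem tietze_of_wkl (hR : Space M R) (hW : WKLin M R) : StrongTietze M R := by
  classical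
  rintro K ⟨hKP, w, hw, hKw⟩ f ⟨⟨c, hc, hc1, hc2⟩, -⟩
  -- the basic open sets which are removed, the conditions
  set rem : List Bool × ℕ → Prop := fun q => ∃ n < q.2, (w n).isSome = true ∧
    q.1.take ((w n).getD []).length = (w n).getD [] with hrem
  set d : List Bool × ℕ × ℕ × ℕ × ℕ := ([], 0, 0, 0, 0) with hd
  set con : (ℕ × List Bool) × ℕ → Prop := fun q => (c q.2).isSome = true ∧
    q.1.1 ≤ ((c q.2).getD d).2.2.2.2 ∧
    q.1.2.take ((c q.2).getD d).1.length = ((c q.2).getD d).1 with hcon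
  have hremD : M.Dec rem := by
    refine Dec.exists_lt (p := fun q : (List Bool × ℕ) × ℕ => (w q.2).isSome = true ∧
      q.1.1.take ((w q.2).getD []).length = (w q.2).getD []) ?_ Has.snd
    have h1 : M.Has (fun q : (List Bool × ℕ) × ℕ => (w q.2).getD []) :=
      Has.comp₂ Primrec.option_getD (hw.comp Has.snd) (Has.const [])
    exact Dec.and (Dec.eq_true ((Has.of_primrec Primrec.option_isSome).comp (hw.comp Has.snd)))
      (Dec.eq (Has.take (Has.length h1) (Has.fst.comp Has.fst)) h1)
  have hcD : ∀ {α : Type} [Primcodable α] {g : α → ℕ}, M.Has g →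
      M.Has (fun a => (c (g a)).getD d) := by
    intro α _ g hg
    exact Has.comp₂ Primrec.option_getD (hc.comp hg) (Has.const d)
  have hconD : M.Dec con := by
    have h1 : M.Has (fun q : (ℕ × List Bool) × ℕ => (c q.2).getD d) := hcD Has.snd
    refine Dec.and (Dec.eq_true ((Has.of_primrec Primrec.option_isSome).comp (hc.comp Has.snd)))
      (Dec.and ?_ ?_)
    · exact Dec.le (Has.fst.comp Has.fst)
        (Has.snd.comp (Has.snd.comp (Has.snd.comp (Has.snd.comp h1))))
    · exact Dec.eq (Has.take (Has.length (Has.fst.comp h1)) (Has.snd.comp Has.fst))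
        (Has.fst.comp h1)
  -- the trees
  set TT : ℕ × List Bool → Prop := fun q => R q.2 = true ∧ ¬ rem (q.2, q.2.length) ∧
    ¬ ∃ n < q.2.length, con (q, n) with hTT
  have hTTD : M.Dec TT := by
    refine Dec.and (Dec.eq_true (hR.has.comp Has.snd)) (Dec.and ?_ ?_)
    · exact (hremD.comp (Has.snd.pair (Has.length Has.snd))).not
    · exact (Dec.exists_lt (p := con) hconD (Has.length Has.snd)).not
  have hTTmono : ∀ k (σ : List Bool) b, TT (k, σ ++ [b]) → TT (k, σ) := by
    rintro k σ b ⟨h1, h2, h3⟩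
    refine ⟨hR.down _ _ h1, fun h4 => h2 ?_, fun h4 => h3 ?_⟩
    · obtain ⟨n, hn, h5, h6⟩ := h4
      have hn' : n < σ.length := hn
      refine ⟨n, ?_, h5, ?_⟩
      · show n < (σ ++ [b]).length
        rw [List.length_append]
        omega
      have hl : ((w n).getD []).length ≤ σ.length := by
        have := congrArg List.length h6
        simp only [List.length_take] at this
        omega
      simp only
      rw [List.take_append_of_le_length hl]
      exact h6
    · obtain ⟨n, hn, h5, h6, h7⟩ := h4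
      refine ⟨n, by simp only [List.length_append, List.length_singleton]; simp only at hn; omega,
        h5, h6, ?_⟩
      have hl : ((c n).getD d).1.length ≤ σ.length := by
        have := congrArg List.length h7
        simp only [List.length_take] at this
        omega
      simp only
      rw [List.take_append_of_le_length hl]
      exact h7
  -- points are not removed and satisfy conditions
  have hKrem : ∀ x ∈ K, ∀ m L, ¬ rem (pre x m, L) := by
    rintro x hx m L ⟨n, -, h5, h6⟩
    rw [Option.isSome_iff_exists] at h5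
    obtain ⟨θ, hθ⟩ := h5
    simp only [hθ, Option.getD_some] at h6
    have hl : θ.length ≤ m := by
      have := congrArg List.length h6
      simp only [List.length_take, pre_length] at this
      omega
    rw [pre_take x hl] at h6
    exact (hKw x (hKP hx)).mp hx n θ hθ h6
  have hcon_val : ∀ x ∈ K, ∀ k m n, con ((k, pre x m), n) →
      |f x - dy ((c n).getD d).2.1 ((c n).getD d).2.2.1 ((c n).getD d).2.2.2.1| ≤ 1 / 2 ^ k := by
    rintro x hx k m n ⟨h5, h6, h7⟩
    rw [Option.isSome_iff_exists] at h5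
    obtain ⟨⟨θ, a, b, e, l⟩, hθ⟩ := h5
    simp only [hθ, Option.getD_some] at h6 h7 ⊢
    have hl : θ.length ≤ m := by
      have := congrArg List.length h7
      simp only [List.length_take, pre_length] at this
      omega
    rw [pre_take x hl] at h7
    refine (hc1 n θ a b e l hθ x hx h7).trans ?_
    exact one_div_le_one_div_of_le (by positivity) (pow_le_pow_right₀ (by norm_num) h6)
  -- the trees are finite
  have hfin : ∀ k, ∃ n, ∀ σ : List Bool, σ.length = n → ¬ TT (k, σ) := by
    intro k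
    by_contra hcc
    push Not at hcc
    obtain ⟨t, ht, ht'⟩ := hTTD.comp ((Has.const k).pair (Has.id (α := List Bool)))
    obtain ⟨x, hxP, hx⟩ := hW t ht (fun σ hσ => ((ht' σ).mp hσ).1)
      (fun σ b hσ => (ht' σ).mpr (hTTmono k σ b ((ht' _).mp hσ)))
      (fun n => by
        obtain ⟨σ, h1, h2⟩ := hcc n
        exact ⟨σ, h1, (ht' σ).mpr h2⟩)
    have hx' : ∀ n, TT (k, pre x n) := fun n => (ht' _).mp (hx n)
    have hxK : x ∈ K := by
      rw [hKw x hxP]
      intro n θ hθ heq
      obtain ⟨-, h2, -⟩ := hx' (max (n + 1) θ.length)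
      apply h2
      refine ⟨n, ?_, by simp [hθ], ?_⟩
      · simp only [pre_length]
        exact lt_of_lt_of_le (Nat.lt_succ_self n) (le_max_left _ _)
      · simp only [hθ, Option.getD_some]
        rw [pre_take x (le_max_right _ _), heq]
    obtain ⟨n, θ, a, b, e, l, h1, h2, h3⟩ := hc2 x hxK k
    obtain ⟨-, -, h4⟩ := hx' (max (n + 1) θ.length)
    apply h4
    refine ⟨n, ?_, ?_, ?_, ?_⟩
    · simp only [pre_length]
      exact lt_of_lt_of_le (Nat.lt_succ_self n) (le_max_left _ _)
    · simp [h1]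
    · simpa [h1] using h3
    · simp only [h1, Option.getD_some]
      rw [pre_take x (le_max_right _ _), h2]
  obtain ⟨L, hL, hL'⟩ := Has.find (p := fun q : ℕ × ℕ => ∀ σ : List Bool, σ.length = q.2 →
    ¬ TT (q.1, σ)) (Dec.forall_len (p := fun r : (ℕ × ℕ) × List Bool => ¬ TT (r.1.1, r.2))
      (hTTD.comp ((Has.fst.comp Has.fst).pair Has.snd)).not Has.snd) hfin
  -- the levels
  set Λ : ℕ → ℕ := fun k => Nat.rec (L 0) (fun y IH => IH + L (y + 1)) k with hΛ
  have hΛM : M.Has Λ := by
    have h1 : M.Has (fun r : ℕ × (ℕ × ℕ) => r.2.2 + L (r.2.1 + 1)) :=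
      Has.comp₂ Primrec.nat_add (Has.snd.comp Has.snd)
        (hL.comp (Has.succ (Has.fst.comp Has.snd)))
    exact Has.nat_rec' (f := fun _ : ℕ => L 0) (Has.const _) h1 Has.id
  have hΛL : ∀ k, L k ≤ Λ k := by
    intro k
    cases k with
    | zero => exact le_rfl
    | succ k => exact Nat.le_add_left _ _
  have hΛmono : Monotone Λ := monotone_nat_of_le_succ fun k => Nat.le_add_right _ _
  have hlevel : ∀ k (σ : List Bool), Λ k ≤ σ.length → R σ = true →
      rem (σ.take (Λ k), Λ k) ∨ ∃ n < Λ k, con ((k, σ.take (Λ k)), n) := by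
    intro k σ hσ hRσ
    by_contra hcc
    push Not at hcc
    have hlen : (σ.take (Λ k)).length = Λ k := by simp; omega
    have h1 : TT (k, σ.take (Λ k)) := by
      refine ⟨hR.tree.take hRσ _, ?_, ?_⟩
      · rw [hlen]
        exact hcc.1
      · rintro ⟨n, hn, h2⟩
        rw [show ((k, σ.take (Λ k)) : ℕ × List Bool).2.length = Λ k from hlen] at hn
        exact hcc.2 n hn h2
    -- the tree is closed under initial segments
    have h2 : ∀ (τ : List Bool) m, TT (k, τ) → TT (k, τ.take m) := by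
      intro τ m hτ
      obtain ⟨t, -, ht'⟩ := hTTD.comp ((Has.const k).pair (Has.id (α := List Bool)))
      have h3 : IsTree t := fun σ b hσ => (ht' σ).mpr (hTTmono k σ b ((ht' _).mp hσ))
      exact (ht' _).mp (h3.take ((ht' τ).mpr hτ) m)
    have h3 := h2 _ (L k) h1
    rw [List.take_take, min_eq_left (hΛL k)] at h3
    exact (hL' k).1 _ (by simp; exact (hΛL k).trans hσ) h3
  -- the first condition
  obtain ⟨ν, hν, hν'⟩ := Has.find (p := fun q : (ℕ × List Bool) × ℕ =>
      con ((q.1.1, q.1.2.take (Λ q.1.1)), q.2) ∨ q.2 = Λ q.1.1)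
    (Dec.or (hconD.comp (Has.pair (Has.pair (Has.fst.comp Has.fst)
      (Has.take (hΛM.comp (Has.fst.comp Has.fst)) (Has.snd.comp Has.fst))) Has.snd))
      (Dec.eq Has.snd (hΛM.comp (Has.fst.comp Has.fst))))
    (fun q => ⟨Λ q.1, Or.inr rfl⟩)
  set val : ℕ × List Bool → ℕ × ℕ × ℕ := fun q => (((c (ν q)).getD d).2.1,
    ((c (ν q)).getD d).2.2.1, ((c (ν q)).getD d).2.2.2.1) with hval
  have hvalM : M.Has val := by
    have h1 : M.Has (fun q : ℕ × List Bool => (c (ν q)).getD d) := hcD hν
    exact Has.pair (Has.fst.comp (Has.snd.comp h1)) (Has.pair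
      (Has.fst.comp (Has.snd.comp (Has.snd.comp h1)))
      (Has.fst.comp (Has.snd.comp (Has.snd.comp (Has.snd.comp h1)))))
  -- the values
  set ok : ℕ × List Bool → Prop := fun q => ¬ rem (q.2.take (Λ q.1), Λ q.1) ∧ ν q < Λ q.1 with hok
  have hokD : M.Dec ok := by
    refine Dec.and ?_ (Dec.lt hν (hΛM.comp Has.fst))
    exact (hremD.comp (Has.pair (Has.take (hΛM.comp Has.fst) Has.snd) (hΛM.comp Has.fst))).not
  set u : ℕ → List Bool → ℕ × ℕ × ℕ := fun k σ => Nat.rec
    (if ok (0, σ) then val (0, σ) else (0, 0, 0))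
    (fun y IH => if ok (y + 1, σ) ∧ Close y IH (val (y + 1, σ)) then val (y + 1, σ) else IH) k
    with hu
  have huM : M.Has (fun q : ℕ × List Bool => u q.1 q.2) := by
    have h0 : M.Has (fun σ : List Bool => if ok (0, σ) then val (0, σ) else (0, 0, 0)) :=
      Has.ite (hokD.comp ((Has.const 0).pair Has.id)) (hvalM.comp ((Has.const 0).pair Has.id))
        (Has.const (0, 0, 0))
    have h1 : M.Has (fun r : List Bool × (ℕ × (ℕ × ℕ × ℕ)) =>
        if ok (r.2.1 + 1, r.1) ∧ Close r.2.1 r.2.2 (val (r.2.1 + 1, r.1))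
          then val (r.2.1 + 1, r.1) else r.2.2) := by
      have h2 : M.Has (fun r : List Bool × (ℕ × (ℕ × ℕ × ℕ)) => (r.2.1 + 1, r.1)) :=
        Has.pair (Has.succ (Has.fst.comp Has.snd)) Has.fst
      exact Has.ite (p := fun r : List Bool × (ℕ × (ℕ × ℕ × ℕ)) =>
        ok (r.2.1 + 1, r.1) ∧ Close r.2.1 r.2.2 (val (r.2.1 + 1, r.1)))
        (Dec.and (hokD.comp h2) (dec_close (Has.fst.comp Has.snd) (Has.snd.comp Has.snd)
          (hvalM.comp h2))) (hvalM.comp h2) (Has.snd.comp Has.snd)
    exact (Has.nat_rec h0 h1).comp (Has.snd.pair Has.fst)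
  have hu0 : ∀ σ, u 0 σ = if ok (0, σ) then val (0, σ) else (0, 0, 0) := fun _ => rfl
  have husucc : ∀ k σ, u (k + 1) σ = if ok (k + 1, σ) ∧ Close k (u k σ) (val (k + 1, σ))
      then val (k + 1, σ) else u k σ := fun _ _ => rfl
  -- the values depend on an initial segment only
  have hνtake : ∀ k (σ τ : List Bool), σ.take (Λ k) = τ.take (Λ k) → ν (k, σ) = ν (k, τ) := by
    intro k σ τ hst
    obtain ⟨h1, h2⟩ := hν' (k, σ)
    obtain ⟨h3, h4⟩ := hν' (k, τ)
    simp only at h1 h2 h3 h4
    rw [hst] at h1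
    simp only [hst] at h2
    rcases lt_trichotomy (ν (k, σ)) (ν (k, τ)) with h | h | h
    · exact absurd h1 (h4 _ h)
    · exact h
    · exact absurd h3 (h2 _ h)
  have hutake : ∀ k (σ τ : List Bool), σ.take (Λ k) = τ.take (Λ k) → u k σ = u k τ := by
    intro k
    induction k with
    | zero =>
      intro σ τ hst
      rw [hu0, hu0]
      have h1 : ok (0, σ) ↔ ok (0, τ) := by
        simp only [hok]
        rw [hst, hνtake 0 σ τ hst]
      have h2 : val (0, σ) = val (0, τ) := by simp only [hval]; rw [hνtake 0 σ τ hst]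
      rw [h2]
      simp only [h1]
    | succ k ih =>
      intro σ τ hst
      have hst' : σ.take (Λ k) = τ.take (Λ k) := by
        have := congrArg (List.take (Λ k)) hst
        rwa [List.take_take, List.take_take, min_eq_left (hΛmono (Nat.le_succ k))] at this
      rw [husucc, husucc, ih σ τ hst']
      have h1 : ok (k + 1, σ) ↔ ok (k + 1, τ) := by
        simp only [hok]
        rw [hst, hνtake (k + 1) σ τ hst]
      have h2 : val (k + 1, σ) = val (k + 1, τ) := by
        simp only [hval]
        rw [hνtake (k + 1) σ τ hst]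
      rw [h2]
      simp only [h1]
  -- the approximations
  set D : ℕ → (ℕ → Bool) → ℝ := fun k x => dy (u k (pre x (Λ k))).1 (u k (pre x (Λ k))).2.1
    (u k (pre x (Λ k))).2.2 with hD
  have hstep : ∀ k x, |D k x - D (k + 1) x| ≤ 2 / 2 ^ k := by
    intro k x
    have h1 : u k (pre x (Λ k)) = u k (pre x (Λ (k + 1))) := by
      apply hutake
      rw [pre_take x le_rfl, pre_take x (hΛmono (Nat.le_succ k))]
    simp only [hD]
    rw [h1, husucc]
    split
    · rename_i h2
      exact (close_iff _ _ _).mp h2.2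
    · simp only [sub_self, abs_zero]
      positivity
  have hdist : ∀ k m x, k ≤ m → |D k x - D m x| ≤ 4 / 2 ^ k - 4 / 2 ^ m := by
    intro k m x hkm
    induction m, hkm using Nat.le_induction with
    | base => simp
    | succ m _ ih =>
      have h1 := hstep m x
      have h2 : |D k x - D (m + 1) x| ≤ |D k x - D m x| + |D m x - D (m + 1) x| :=
        abs_sub_le _ _ _
      have h3 : (4 : ℝ) / 2 ^ (m + 1) = 4 / 2 ^ m - 2 / 2 ^ m := by
        rw [pow_succ]
        field_simp
        norm_num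
      rw [h3]
      linarith
  have hcauchy : ∀ x, CauchySeq (fun k => D k x) := by
    intro x
    refine cauchySeq_of_le_geometric_two (C := 4) fun n => ?_
    rw [Real.dist_eq]
    refine (hstep n x).trans (le_of_eq ?_)
    norm_num
  have hlim : ∀ x, ∃ l, Tendsto (fun k => D k x) atTop (𝓝 l) := fun x =>
    cauchySeq_tendsto_of_complete (hcauchy x)
  choose F hF using hlim
  have hFD : ∀ k x, |F x - D k x| ≤ 4 / 2 ^ k := by
    intro k x
    have h1 : Tendsto (fun m => |D m x - D k x|) atTop (𝓝 |F x - D k x|) :=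
      ((hF x).sub_const _).abs
    refine le_of_tendsto h1 ?_
    filter_upwards [eventually_ge_atTop k] with m hm
    have h2 := hdist k m x hm
    have h3 : (0 : ℝ) < 4 / 2 ^ m := by positivity
    rw [abs_sub_comm]
    linarith
  refine ⟨F, ⟨?_, ?_⟩, ?_⟩
  · -- a code
    refine cont_intro (γ := ℕ × List Bool) (fun q => if q.2.length = Λ (q.1 + 2) then
      some (q.2, (u (q.1 + 2) q.2).1, (u (q.1 + 2) q.2).2.1, (u (q.1 + 2) q.2).2.2, q.1)
      else none) ?_ ?_ ?_
    · have h2 : M.Has (fun q : ℕ × List Bool => q.1 + 2) := Has.succ (Has.succ Has.fst)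
      have h3 : M.Has (fun q : ℕ × List Bool => u (q.1 + 2) q.2) :=
        huM.comp (Has.pair h2 Has.snd)
      refine Has.ite (Dec.eq (Has.length Has.snd) (hΛM.comp h2)) ?_ (Has.const none)
      refine (Has.of_primrec Primrec.option_some).comp (Has.pair Has.snd (Has.pair
        (Has.fst.comp h3) (Has.pair (Has.fst.comp (Has.snd.comp h3)) (Has.pair
          (Has.snd.comp (Has.snd.comp h3)) Has.fst))))
    · rintro ⟨k, σ⟩ ρ a b e l hg x _ hx'
      simp only at hg
      split at hg
      · rename_i hlen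
        simp only [Option.some.injEq, Prod.mk.injEq] at hg
        obtain ⟨rfl, rfl, rfl, rfl, rfl⟩ := hg
        have h1 := hFD (k + 2) x
        simp only [hD] at h1
        rw [← hlen, hx'] at h1
        refine h1.trans (le_of_eq ?_)
        rw [pow_add]
        field_simp
        norm_num
      · exact absurd hg (by simp)
    · intro x _ k
      refine ⟨(k, pre x (Λ (k + 2))), pre x (Λ (k + 2)), (u (k + 2) (pre x (Λ (k + 2)))).1,
        (u (k + 2) (pre x (Λ (k + 2)))).2.1, (u (k + 2) (pre x (Λ (k + 2)))).2.2, k, ?_, ?_,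
        le_rfl⟩
      · exact if_pos (pre_length _ _)
      · rw [pre_length]
  · -- a modulus
    refine ⟨fun k => Λ (k + 3), hΛM.comp (Has.succ (Has.succ (Has.succ Has.id))), ?_⟩
    intro k x _ y _ hxy
    have h1 := hFD (k + 3) x
    have h2 := hFD (k + 3) y
    have h3 : D (k + 3) x = D (k + 3) y := by simp only [hD]; rw [hxy]
    rw [h3] at h1
    have h4 : |F x - F y| ≤ |F x - D (k + 3) y| + |D (k + 3) y - F y| := abs_sub_le _ _ _
    rw [abs_sub_comm (D (k + 3) y)] at h4
    have h5 : (1 : ℝ) / 2 ^ k = 4 / 2 ^ (k + 3) + 4 / 2 ^ (k + 3) := by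
      rw [pow_add]
      field_simp
      norm_num
    rw [h5]
    linarith
  · -- the extension property
    intro x hx
    have hkey : ∀ k, |f x - D k x| ≤ 1 / 2 ^ k := by
      intro k
      have hν1 : ∀ j m, Λ j ≤ m → ok (j, pre x m) ∧
          |f x - dy (val (j, pre x m)).1 (val (j, pre x m)).2.1 (val (j, pre x m)).2.2|
            ≤ 1 / 2 ^ j := by
        intro j m hm
        have h1 : ¬ rem ((pre x m).take (Λ j), Λ j) := by
          rw [pre_take x hm]
          exact hKrem x hx _ _
        have h2 : ∃ n < Λ j, con ((j, (pre x m).take (Λ j)), n) := by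
          rcases hlevel j (pre x m) (by rw [pre_length]; exact hm) ((hKP hx).2 m) with h | h
          · exact absurd h h1
          · exact h
        obtain ⟨n, hn, hn'⟩ := h2
        obtain ⟨h3, h4⟩ := hν' (j, pre x m)
        have h5 : ν (j, pre x m) ≤ n := by
          by_contra hcc
          push Not at hcc
          exact h4 n hcc (Or.inl hn')
        have h6 : ν (j, pre x m) < Λ j := lt_of_le_of_lt h5 hn
        refine ⟨⟨h1, h6⟩, ?_⟩
        rcases h3 with h3 | h3
        · simp only at h3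
          rw [pre_take x hm] at h3
          exact hcon_val x hx j _ _ h3
        · exact absurd h3 h6.ne
      induction k with
      | zero =>
        obtain ⟨h1, h2⟩ := hν1 0 (Λ 0) le_rfl
        simp only [hD]
        rw [hu0, if_pos h1]
        exact h2
      | succ k ih =>
        obtain ⟨h1, h2⟩ := hν1 (k + 1) (Λ (k + 1)) le_rfl
        have h3 : u k (pre x (Λ k)) = u k (pre x (Λ (k + 1))) := by
          apply hutake
          rw [pre_take x le_rfl, pre_take x (hΛmono (Nat.le_succ k))]
        simp only [hD] at ih ⊢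
        rw [h3] at ih
        have h4 : Close k (u k (pre x (Λ (k + 1)))) (val (k + 1, pre x (Λ (k + 1)))) := by
          rw [close_iff]
          have h5 := abs_sub_le (dy (u k (pre x (Λ (k + 1)))).1 (u k (pre x (Λ (k + 1)))).2.1
            (u k (pre x (Λ (k + 1)))).2.2) (f x) (dy (val (k + 1, pre x (Λ (k + 1)))).1
              (val (k + 1, pre x (Λ (k + 1)))).2.1 (val (k + 1, pre x (Λ (k + 1)))).2.2)
          rw [abs_sub_comm _ (f x)] at h5
          have h6 : (1 : ℝ) / 2 ^ (k + 1) ≤ 1 / 2 ^ k :=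
            one_div_le_one_div_of_le (by positivity)
              (pow_le_pow_right₀ (by norm_num) (Nat.le_succ k))
          have h7 : (2 : ℝ) / 2 ^ k = 1 / 2 ^ k + 1 / 2 ^ k := by ring
          rw [h7]
          linarith
        rw [husucc, if_pos ⟨h1, h4⟩]
        exact h2
    have h1 : Tendsto (fun k => D k x) atTop (𝓝 (f x)) := by
      rw [tendsto_iff_dist_tendsto_zero]
      refine squeeze_zero (fun _ => dist_nonneg) (fun k => ?_)
        (tendsto_pow_atTop_nhds_zero_of_lt_one (r := (1 / 2 : ℝ)) (by norm_num) (by norm_num))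
      rw [Real.dist_eq, abs_sub_comm, one_div_pow]
      exact hkey k
    exact tendsto_nhds_unique (hF x) h1

end Pool.Agent.STT
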