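import Pool.Agent.Lib_helper19.STT.Paths

/-!
# The instance of the strong Tietze theorem given by a tree
-/

namespace Pool.Agent.STT

open TuringIdeal Encodable

variable {M : TuringIdeal} {R T : List Bool → Bool}

/-- A dead end has no proper extension in the tree. -/
theorem leaf_max (hT : IsTree T) {σ τ : List Bool} (hσ : Leaf T σ) (hτ : T τ = true)
    (h : τ.take σ.length = σ) : τ.length ≤ σ.length := by
  by_contra hc
  push Not at hc
  apply hσ.2
  refine ⟨τ.take (σ.length + 1), by simp; omega, ?_, hT.take hτ _⟩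
  rw [List.take_take, min_eq_left (Nat.le_succ _), h]

theorem leaf_unique (hT : IsTree T) {σ τ : List Bool} {x : ℕ → Bool} (hσ : Leaf T σ)
    (hτ : Leaf T τ) (h1 : pre x σ.length = σ) (h2 : pre x τ.length = τ) : σ = τ := by
  rcases le_total σ.length τ.length with h | h
  · have h3 := leaf_max hT hσ hτ.1 (by rw [← h2, pre_take _ h, h1])
    rw [← h1, ← h2, le_antisymm h h3]
  · have h3 := leaf_max hT hτ hσ.1 (by rw [← h1, pre_take _ h, h2])
    rw [← h1, ← h2, le_antisymm h3 h]

theorem xs_leaf_inj (hT : IsTree T) {σ τ : List Bool} (hσ : Leaf T σ) (hτ : Leaf T τ)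
    (h : xs R σ = xs R τ) : σ = τ :=
  leaf_unique hT hσ hτ (pre_xs_self (R := R) σ) (by rw [h]; exact pre_xs_self τ)

variable (R T) in
/-- The closed set. -/
def KK : Set (ℕ → Bool) := {x | ∃ σ, Leaf T σ ∧ Good T σ ∧ x = xs R σ}

open Classical in
variable (R T) in
/-- The function. -/
noncomputable def ff (x : ℕ → Bool) : ℝ :=
  if h : ∃ σ, Leaf T σ ∧ x = xs R σ then 1 / 2 ^ bt T h.choose else 0

theorem ff_xs (hT : IsTree T) {σ : List Bool} (hσ : Leaf T σ) :
    ff R T (xs R σ) = 1 / 2 ^ bt T σ := by
  have h : ∃ τ, Leaf T τ ∧ xs R σ = xs R τ := ⟨σ, hσ, rfl⟩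
  unfold ff
  rw [dif_pos h]
  have h2 := h.choose_spec
  rw [← xs_leaf_inj hT hσ h2.1 h2.2]

theorem ff_range (x : ℕ → Bool) : 0 ≤ ff R T x ∧ ff R T x ≤ 1 := by
  unfold ff
  split
  · refine ⟨by positivity, ?_⟩
    rw [div_le_one (by positivity)]
    exact one_le_pow₀ (by norm_num)
  · exact ⟨le_rfl, zero_le_one⟩

/-- The first node of a path outside of the tree comes right after a dead end, if at all. -/
theorem leaf_prefix (hT : IsTree T) {σ τ : List Bool} {x : ℕ → Bool} (hσ : Leaf T σ)
    (h1 : pre x σ.length = σ) (hτ : T τ = false) (h2 : pre x τ.length = τ) :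
    σ.length < τ.length := by
  by_contra hc
  push Not at hc
  have h3 := hT.take hσ.1 τ.length
  rw [← h1, pre_take _ hc, h2, hτ] at h3
  exact absurd h3 (by simp)

theorem KK_subset (hR : Space M R) (hTR : ∀ σ, T σ = true → R σ = true) : KK R T ⊆ Pt M R := by
  rintro x ⟨σ, hσ, -, rfl⟩
  exact ⟨Has.xs_one hR.has σ, hR.mem_xs (hTR σ hσ.1)⟩

/-- The basic open set of `τ` is removed from `K` at the stage `t`. -/
def Kill (R T : List Bool → Bool) (τ : List Bool) (t : ℕ) : Prop :=
  T τ = false ∧ ∀ i < τ.length, (Leaf T (τ.take i) ∧ pre (xs R (τ.take i)) τ.length = τ) →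
    ((τ.take i).take (bt T (τ.take i))).length ≤ t ∧
      ¬ A T t ((τ.take i).take (bt T (τ.take i)))

theorem KK_closed (hR : Space M R) (hTM : M.Has T) (hTR : ∀ σ, T σ = true → R σ = true)
    (hT : IsTree T) (hinf : ∀ n, ∃ σ : List Bool, σ.length = n ∧ T σ = true)
    (hno : ¬ ∃ x ∈ Pt M R, ∀ n, T (pre x n) = true) : IsClosedIn M R (KK R T) := by
  classical
  refine closed_intro (γ := List Bool × ℕ) (KK_subset hR hTR)
    (fun q => if Kill R T q.1 q.2 then some q.1 else none) ?_ ?_
  · refine Has.ite (p := fun q : List Bool × ℕ => Kill R T q.1 q.2) ?_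
      ((Has.of_primrec Primrec.option_some).comp Has.fst) (Has.const none)
    unfold Kill
    have h0 : M.Has (fun r : (List Bool × ℕ) × ℕ => r.1.1.take r.2) :=
      Has.take Has.snd (Has.fst.comp Has.fst)
    have h1 : M.Has (fun r : (List Bool × ℕ) × ℕ => (r.1.1.take r.2).take (bt T (r.1.1.take r.2))) :=
      Has.take ((has_bt hTM hinf).comp h0) h0
    refine Dec.and ?_ (Dec.forall_lt (p := fun r : (List Bool × ℕ) × ℕ =>
      (Leaf T (r.1.1.take r.2) ∧ pre (xs R (r.1.1.take r.2)) r.1.1.length = r.1.1) →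
      ((r.1.1.take r.2).take (bt T (r.1.1.take r.2))).length ≤ r.1.2 ∧
      ¬ A T r.1.2 ((r.1.1.take r.2).take (bt T (r.1.1.take r.2)))) ?_ (Has.length Has.fst))
    · exact Dec.eq (hTM.comp Has.fst) (Has.const false)
    · refine Dec.imp (Dec.and ((dec_Leaf hTM).comp h0) (Dec.eq (Has.pre_xs hR.has h0
        (Has.length (Has.fst.comp Has.fst))) (Has.fst.comp Has.fst))) (Dec.and ?_ ?_)
      · exact Dec.le (Has.length h1) (Has.snd.comp Has.fst)
      · exact ((dec_A hTM).comp ((Has.snd.comp Has.fst).pair h1)).not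
  · intro x hx
    constructor
    · rintro ⟨σ, hσ, hg, rfl⟩ ⟨τ, t⟩ ρ hρ
      simp only at hρ
      split at hρ
      · rename_i hK
        simp only [Option.some.injEq] at hρ
        subst hρ
        intro heq
        have hlt := leaf_prefix hT hσ (pre_xs_self (R := R) σ) hK.1 heq
        have h3 : τ.take σ.length = σ := by
          rw [← heq, pre_take _ hlt.le, pre_xs_self]
        have h4 := hK.2 σ.length hlt
        rw [h3] at h4
        obtain ⟨h5, h6⟩ := h4 ⟨hσ, heq⟩
        exact h6 (hg t h5)
      · exact absurd hρ (by simp)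
    · intro h
      by_contra hxK
      -- the path leaves the tree
      have hex : ∃ n, T (pre x n) = false := by
        by_contra hc
        push Not at hc
        exact hno ⟨x, hx, fun n => by simpa using hc n⟩
      obtain ⟨n, hn⟩ := hex
      -- it is enough to find a stage at which it is removed
      suffices hs : ∃ m t, n ≤ m ∧ Kill R T (pre x m) t by
        obtain ⟨m, t, -, hk⟩ := hs
        refine h (pre x m, t) (pre x m) (by simp [hk]) ?_
        rw [pre_length]
      have hmono : ∀ m, n ≤ m → T (pre x m) = false := by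
        intro m hm
        rw [← Bool.not_eq_true]
        intro hc
        have := hT.take hc n
        rw [pre_take x hm, hn] at this
        exact absurd this (by simp)
      by_cases hl : ∃ i, Leaf T (pre x i)
      · obtain ⟨i, hi⟩ := hl
        have huniq : ∀ j, Leaf T (pre x j) → j = i := by
          intro j hj
          have := congrArg List.length (leaf_unique hT hj hi
            (by rw [pre_length]) (by rw [pre_length]))
          rwa [pre_length, pre_length] at this
        by_cases hxs : x = xs R (pre x i)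
        · -- the estimate is wrong
          have hng : ¬ Good T (pre x i) := fun hg => hxK ⟨pre x i, hi, hg, hxs⟩
          unfold Good Ext at hng
          push Not at hng
          obtain ⟨t, ht1, ht2⟩ := hng
          refine ⟨n, t, le_rfl, hn, ?_⟩
          intro j hj hj'
          rw [pre_length] at hj
          rw [pre_take x hj.le] at hj' ⊢
          have := huniq j hj'.1
          subst this
          exact ⟨ht1, ht2⟩
        · obtain ⟨m, hm⟩ := exists_pre_ne hxs
          refine ⟨max n m, 0, le_max_left _ _, hmono _ (le_max_left _ _), ?_⟩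
          intro j hj hj'
          exfalso
          rw [pre_length] at hj
          rw [pre_take x hj.le] at hj'
          have := huniq j hj'.1
          subst this
          apply hm
          apply pre_eq_of_le (le_max_right n m)
          have h3 := hj'.2
          rw [pre_length] at h3
          exact h3.symm
      · refine ⟨n, 0, le_rfl, hn, ?_⟩
        intro j hj hj'
        exfalso
        rw [pre_length] at hj
        rw [pre_take x hj.le] at hj'
        exact hl ⟨j, hj'.1⟩

theorem KK_discrete (hT : IsTree T) :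
    ∀ x ∈ KK R T, ∃ n, ∀ y ∈ KK R T, pre y n = pre x n → y = x := by
  rintro x ⟨σ, hσ, -, rfl⟩
  refine ⟨σ.length + 1, ?_⟩
  rintro y ⟨τ, hτ, -, rfl⟩ h
  have h1 : pre (xs R τ) σ.length = σ := by
    rw [pre_eq_of_le (Nat.le_succ _) h, pre_xs_self]
  rw [leaf_unique hT hσ hτ h1 (pre_xs_self τ)]

theorem ff_cont (hR : Space M R) (hTM : M.Has T) (hT : IsTree T)
    (hinf : ∀ n, ∃ σ : List Bool, σ.length = n ∧ T σ = true) : ContOn M (KK R T) (ff R T) := by
  classical
  refine cont_intro (γ := List Bool × ℕ) (fun q => if Leaf T q.1 then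
    some (pre (xs R q.1) (q.1.length + 1), 1, 0, bt T q.1, q.2) else none) ?_ ?_ ?_
  · refine Has.ite (p := fun q : List Bool × ℕ => Leaf T q.1) ((dec_Leaf hTM).comp Has.fst) ?_
      (Has.const none)
    refine (Has.of_primrec Primrec.option_some).comp ?_
    refine Has.pair (Has.pre_xs hR.has Has.fst (Has.succ (Has.length Has.fst))) ?_
    refine Has.pair (Has.const 1) (Has.pair (Has.const 0) (Has.pair ?_ Has.snd))
    exact (has_bt hTM hinf).comp Has.fst
  · rintro ⟨σ, k⟩ ρ a b e l hg x ⟨τ, hτ, -, rfl⟩ hx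
    simp only at hg
    split at hg
    · rename_i hσ
      simp only [Option.some.injEq, Prod.mk.injEq] at hg
      obtain ⟨rfl, rfl, rfl, rfl, rfl⟩ := hg
      rw [pre_length] at hx
      have h1 : pre (xs R τ) σ.length = σ := by
        rw [pre_eq_of_le (Nat.le_succ _) hx, pre_xs_self]
      have h2 := leaf_unique hT hσ hτ h1 (pre_xs_self τ)
      rw [← h2, ff_xs hT hσ]
      unfold dy
      simp
    · exact absurd hg (by simp)
  · rintro x ⟨σ, hσ, -, rfl⟩ k
    refine ⟨(σ, k), pre (xs R σ) (σ.length + 1), 1, 0, bt T σ, k, by simp [hσ], ?_, le_rfl⟩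
    rw [pre_length]

theorem ff_lip (hT : IsTree T) (hinf : ∀ n, ∃ σ : List Bool, σ.length = n ∧ T σ = true) :
    ∀ x ∈ KK R T, ∀ y ∈ KK R T, ∀ n, pre x n = pre y n → |ff R T x - ff R T y| ≤ 1 / 2 ^ n := by
  -- the main point
  have key : ∀ σ τ : List Bool, Leaf T σ → Good T σ → Leaf T τ → Good T τ → ∀ n,
      pre (xs R σ) n = pre (xs R τ) n → bt T σ < bt T τ → n ≤ bt T σ := by
    intro σ τ hσ _ hτ hgτ n h hlt
    by_contra hc
    push Not at hc
    have h1 := hσ.bt_lt hinf
    have h2 := bt_le (T := T) τ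
    have h3 : σ.take (bt T σ + 1) = τ.take (bt T σ + 1) := by
      rw [← pre_xs_take (R := R) σ (by omega), ← pre_xs_take (R := R) τ (by omega)]
      exact pre_eq_of_le (by omega) h
    have h4 : Ext T (τ.take (bt T σ + 1)) := by
      have := Ext.take hT hgτ (bt T σ + 1)
      rwa [List.take_take, min_eq_left (by omega)] at this
    have h5 : bt T σ + 1 ≤ bt T σ := by
      apply le_bt (by omega)
      rw [h3]
      apply h4
      simp
      omega
    omega
  have hb : ∀ b b' n : ℕ, n ≤ b → n ≤ b' → |(1 : ℝ) / 2 ^ b - 1 / 2 ^ b'| ≤ 1 / 2 ^ n := by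
    intro b b' n h1 h2
    have h3 : (1 : ℝ) / 2 ^ b ≤ 1 / 2 ^ n :=
      one_div_le_one_div_of_le (by positivity) (pow_le_pow_right₀ (by norm_num) h1)
    have h4 : (1 : ℝ) / 2 ^ b' ≤ 1 / 2 ^ n :=
      one_div_le_one_div_of_le (by positivity) (pow_le_pow_right₀ (by norm_num) h2)
    have h5 : (0 : ℝ) < 1 / 2 ^ b := by positivity
    have h6 : (0 : ℝ) < 1 / 2 ^ b' := by positivity
    rw [abs_le]
    constructor <;> linarith
  rintro x ⟨σ, hσ, hgσ, rfl⟩ y ⟨τ, hτ, hgτ, rfl⟩ n h
  rw [ff_xs hT hσ, ff_xs hT hτ]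
  rcases lt_trichotomy (bt T σ) (bt T τ) with h1 | h1 | h1
  · have h2 := key σ τ hσ hgσ hτ hgτ n h h1
    exact hb _ _ _ h2 (h2.trans h1.le)
  · rw [h1]
    simp
  · have h2 := key τ σ hτ hgτ hσ hgσ n h.symm h1
    exact hb _ _ _ (h2.trans h1.le) h2

/-- Near each node with extensions at all levels there are points of `K`. -/
theorem exists_near (hTM : M.Has T) (hTR : ∀ σ, T σ = true → R σ = true)
    (hT : IsTree T) (hinf : ∀ n, ∃ σ : List Bool, σ.length = n ∧ T σ = true)
    (hno : ¬ ∃ x ∈ Pt M R, ∀ n, T (pre x n) = true) {τ : List Bool} (hτ : Ext T τ) :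
    ∃ σ, Leaf T σ ∧ Good T σ ∧ σ.take τ.length = τ ∧ τ.length ≤ bt T σ := by
  -- some node above `τ` dies
  have hex : ∃ n, ∃ ν : List Bool, ν.length = n ∧ T ν = true ∧ ν.take τ.length = τ ∧
      ¬ Ext T ν := by
    by_contra hc
    push Not at hc
    apply hno
    have hg : ∀ n, T (gext T τ n) = true ∧ (gext T τ n).take τ.length = τ := by
      intro n
      induction n with
      | zero => exact ⟨hτ.mem hT, by show τ.take τ.length = τ; simp⟩
      | succ n ih =>
        have hE := hc _ _ rfl ih.1 ih.2
        refine ⟨?_, ?_⟩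
        · rw [gext_succ, stp]
          cases hb : T (gext T τ n ++ [false]) with
          | true => exact hb
          | false =>
            rcases Ext.child hT hE with h | h
            · have := h.mem hT
              rw [hb] at this
              exact absurd this (by simp)
            · exact h.mem hT
        · rw [gext_succ, stp, List.take_append_of_le_length (by rw [gext_length]; omega)]
          exact ih.2
    have hall : ∀ n, T (pre (xs T τ) n) = true := mem_xs_of hT fun n => (hg n).1
    exact ⟨xs T τ, ⟨Has.xs_one hTM τ, fun n => hTR _ (hall n)⟩, hall⟩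
  classical
  obtain ⟨ν, hν1, hν2, hν3, hν4⟩ := Nat.find_spec hex
  have hlt : τ.length < ν.length := by
    by_contra hc
    push Not at hc
    rw [List.take_of_length_le hc] at hν3
    rw [hν3] at hν4
    exact hν4 hτ
  obtain ⟨ρ, b, rfl⟩ : ∃ ρ b, ν = ρ ++ [b] := by
    rcases List.eq_nil_or_concat ν with h | ⟨ρ, b, h⟩
    · rw [h] at hlt
      simp at hlt
    · exact ⟨ρ, b, by rw [h, List.concat_eq_append]⟩
  have hρlen : τ.length ≤ ρ.length := by
    rw [List.length_append, List.length_singleton] at hlt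
    omega
  have hρ3 : ρ.take τ.length = τ := by
    rw [List.take_append_of_le_length hρlen] at hν3
    exact hν3
  have hρE : Ext T ρ := by
    by_contra hc
    have := Nat.find_min' hex ⟨ρ, rfl, hT _ _ hν2, hρ3, hc⟩
    rw [← hν1, List.length_append, List.length_singleton] at this
    omega
  obtain ⟨s, hs1, ⟨σ, hσ1, hσ2, hσ3⟩, hs2⟩ := last_level hν2 hν4
  rw [List.length_append, List.length_singleton] at hσ2
  obtain ⟨h1, h2, h3⟩ := last_leaf hinf hρE hs2 hσ1 hσ2 hσ3
  refine ⟨σ, h1, h3, ?_, by rw [h2]; exact hρlen⟩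
  have h4 := congrArg (List.take τ.length) hσ2
  rw [List.take_take, min_eq_left (by omega), List.take_append_of_le_length hρlen, hρ3] at h4
  exact h4

end Pool.Agent.STT
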