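import Pool.Agent.Lib_helper19.STT.GPre
import Pool.Agent.Lib_helper19.STT.Inst

/-!
# Tools for compact metric spaces of a Turing ideal
-/

namespace Pool.Agent.STT

open TuringIdeal Encodable

variable {X : Type} [MetricSpace X] {M : TuringIdeal} {γ : Type} [Primcodable γ]

/-- The data of a presentation. -/
structure Pr (M : TuringIdeal) (α : ℕ → X) (D : ℕ × ℕ × ℕ → ℕ) (N : ℕ → ℕ) : Prop where
  hD : M.Has D
  app : ∀ i j k, |dist (α i) (α j) - (D (i, j, k) : ℝ) / 2 ^ k| ≤ 1 / 2 ^ k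
  hN : M.Has N
  mono : Monotone N
  net : ∀ k x, ∃ i < N k, dist x (α i) ≤ 1 / 2 ^ k

theorem exists_mono {N : ℕ → ℕ} (hN : M.Has N) :
    ∃ N' : ℕ → ℕ, M.Has N' ∧ Monotone N' ∧ ∀ k, N k ≤ N' k := by
  refine ⟨fun k => Nat.rec (N 0) (fun y IH => IH + N (y + 1)) k, ?_, ?_, ?_⟩
  · have h1 : M.Has (fun r : ℕ × (ℕ × ℕ) => r.2.2 + N (r.2.1 + 1)) :=
      Has.comp₂ Primrec.nat_add (Has.snd.comp Has.snd)
        (hN.comp (Has.succ (Has.fst.comp Has.snd)))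
    exact Has.nat_rec' (f := fun _ : ℕ => N 0) (Has.const _) h1 Has.id
  · exact monotone_nat_of_le_succ fun k => Nat.le_add_right _ _
  · intro k
    cases k with
    | zero => exact le_rfl
    | succ k => exact Nat.le_add_left _ _

theorem Presented.data {α : ℕ → X} (h : Presented M α) : ∃ D N, Pr M α D N := by
  obtain ⟨⟨D, hD, h1⟩, N, hN, h2⟩ := h
  obtain ⟨N', hN', h3, h4⟩ := exists_mono hN
  refine ⟨D, N', hD, h1, hN', h3, fun k x => ?_⟩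
  obtain ⟨i, hi, hi'⟩ := h2 k x
  exact ⟨i, lt_of_lt_of_le hi (h4 k), hi'⟩

theorem MPt.base (M : TuringIdeal) (α : ℕ → X) (i : ℕ) : α i ∈ MPt M α :=
  ⟨fun _ => i, Has.const i, fun k => by rw [dist_self]; positivity⟩

theorem xclosed_intro {α : ℕ → X} {K : Set X} (hK : K ⊆ MPt M α) (w : γ → Option (ℕ × ℕ × ℕ))
    (hw : M.Has w)
    (h : ∀ x ∈ MPt M α, x ∈ K ↔ ∀ g i a e, w g = some (i, a, e) → rad a e ≤ dist x (α i)) :
    XClosed M α K := by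
  refine ⟨hK, _, Has.reindex hw, fun x hx => (h x hx).trans ?_⟩
  constructor
  · intro h1 n i a e hn
    obtain ⟨g, hg⟩ := reindex_iff.mp ⟨n, hn⟩
    exact h1 g i a e hg
  · intro h1 g i a e hg
    obtain ⟨n, hn⟩ := reindex_iff.mpr ⟨g, hg⟩
    exact h1 n i a e hn

theorem xcont_intro {α : ℕ → X} {K : Set X} {f : X → ℝ}
    (c : γ → Option ((ℕ × ℕ × ℕ) × (ℕ × ℕ × ℕ × ℕ))) (hc : M.Has c)
    (h1 : ∀ g i r s a b e k, c g = some ((i, r, s), (a, b, e, k)) → ∀ x ∈ K,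
      dist x (α i) < rad r s → |f x - dy a b e| ≤ 1 / 2 ^ k)
    (h2 : ∀ x ∈ K, ∀ k, ∃ g i r s a b e l, c g = some ((i, r, s), (a, b, e, l)) ∧
      dist x (α i) < rad r s ∧ k ≤ l) :
    PCont M α K f := by
  refine ⟨_, Has.reindex hc, ?_, ?_⟩
  · intro n i r s a b e k hn
    obtain ⟨g, hg⟩ := reindex_iff.mp ⟨n, hn⟩
    exact h1 g i r s a b e k hg
  · intro x hx k
    obtain ⟨g, i, r, s, a, b, e, l, hg, h3, h4⟩ := h2 x hx k
    obtain ⟨n, hn⟩ := reindex_iff.mpr ⟨g, hg⟩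
    exact ⟨n, i, r, s, a, b, e, l, hn, h3, h4⟩

theorem rad_one (e : ℕ) : rad 1 e = 1 / 2 ^ e := by simp [rad]

theorem Has.pow2 {α : Type} [Primcodable α] {f : α → ℕ} (hf : M.Has f) :
    M.Has (fun a => 2 ^ f a) := (Has.of_primrec primrec_pow2).comp hf

theorem Has.add {α : Type} [Primcodable α] {f g : α → ℕ} (hf : M.Has f) (hg : M.Has g) :
    M.Has (fun a => f a + g a) := Has.comp₂ Primrec.nat_add hf hg

theorem Has.mul {α : Type} [Primcodable α] {f g : α → ℕ} (hf : M.Has f) (hg : M.Has g) :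
    M.Has (fun a => f a * g a) := Has.comp₂ Primrec.nat_mul hf hg

theorem Has.sub {α : Type} [Primcodable α] {f g : α → ℕ} (hf : M.Has f) (hg : M.Has g) :
    M.Has (fun a => f a - g a) := Has.comp₂ Primrec.nat_sub hf hg

theorem Has.max {α : Type} [Primcodable α] {f g : α → ℕ} (hf : M.Has f) (hg : M.Has g) :
    M.Has (fun a => max (f a) (g a)) := Has.comp₂ Primrec.nat_max hf hg

theorem Has.addc {α : Type} [Primcodable α] {f : α → ℕ} (hf : M.Has f) (c : ℕ) :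
    M.Has (fun a => f a + c) := Has.add hf (Has.const c)

theorem pow_pos2 (k : ℕ) : (0 : ℝ) < 2 ^ k := by positivity

/-- A comparison with a dyadic number which implies the strict inequality. -/
theorem Pr.lt_of {α : ℕ → X} {D : ℕ × ℕ × ℕ → ℕ} {N : ℕ → ℕ} (hp : Pr M α D N)
    {i j q r s : ℕ} (h : (D (i, j, q) + 1) * 2 ^ s < r * 2 ^ q) :
    dist (α i) (α j) < rad r s := by
  have h1 := (abs_le.mp (hp.app i j q)).2
  have h2 : ((D (i, j, q) : ℝ) + 1) * 2 ^ s < r * 2 ^ q := by exact_mod_cast h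
  have h3 : ((D (i, j, q) : ℝ) + 1) / 2 ^ q < (r : ℝ) / 2 ^ s := by
    rw [div_lt_div_iff₀ (pow_pos2 q) (pow_pos2 s)]
    exact h2
  have h4 : ((D (i, j, q) : ℝ) + 1) / 2 ^ q = (D (i, j, q) : ℝ) / 2 ^ q + 1 / 2 ^ q := by
    rw [add_div]
  unfold rad
  linarith

theorem exists_pow_lt {ε : ℝ} (hε : 0 < ε) : ∃ q : ℕ, (1 : ℝ) / 2 ^ q < ε := by
  obtain ⟨q, hq⟩ := exists_pow_lt_of_lt_one hε (by norm_num : (1 / 2 : ℝ) < 1)
  exact ⟨q, by rwa [one_div_pow] at hq⟩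

theorem Pr.exists_of_lt {α : ℕ → X} {D : ℕ × ℕ × ℕ → ℕ} {N : ℕ → ℕ} (hp : Pr M α D N)
    {i j r s : ℕ} (h : dist (α i) (α j) < rad r s) :
    ∃ q, (D (i, j, q) + 1) * 2 ^ s < r * 2 ^ q := by
  obtain ⟨q, hq⟩ := exists_pow_lt (ε := (rad r s - dist (α i) (α j)) / 2) (by linarith)
  refine ⟨q, ?_⟩
  have h1 := (abs_le.mp (hp.app i j q)).1
  have h3 : ((D (i, j, q) : ℝ) + 1) / 2 ^ q < (r : ℝ) / 2 ^ s := by
    rw [add_div]
    unfold rad at hq h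
    linarith
  rw [div_lt_div_iff₀ (pow_pos2 q) (pow_pos2 s)] at h3
  exact_mod_cast h3

theorem Pr.near {α : ℕ → X} {D : ℕ × ℕ × ℕ → ℕ} {N : ℕ → ℕ} {x : X} (hp : Pr M α D N)
    {q j i : ℕ} (h : dist x (α j) ≤ 1 / 2 ^ q) :
    |dist x (α i) - (D (j, i, q) : ℝ) / 2 ^ q| ≤ 2 / 2 ^ q := by
  have h1 := hp.app j i q
  have h2 : |dist x (α i) - dist (α j) (α i)| ≤ dist x (α j) := abs_dist_sub_le _ _ _
  have h3 := abs_sub_le (dist x (α i)) (dist (α j) (α i)) ((D (j, i, q) : ℝ) / 2 ^ q)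
  have h4 : (2 : ℝ) / 2 ^ q = 1 / 2 ^ q + 1 / 2 ^ q := by ring
  rw [h4]
  linarith

theorem inv_pow_le {a b : ℕ} (h : a ≤ b) : (1 : ℝ) / 2 ^ b ≤ 1 / 2 ^ a :=
  one_div_le_one_div_of_le (by positivity) (pow_le_pow_right₀ (by norm_num) h)

/-- Approximation of the values of a continuous function at the points `α i`. -/
theorem xapprox {α : ℕ → X} {D : ℕ × ℕ × ℕ → ℕ} {N : ℕ → ℕ} (hp : Pr M α D N) {F : X → ℝ}
    (hF : PCont M α (MPt M α) F) :
    ∃ G : ℕ × ℕ → ℕ × ℕ × ℕ, M.Has G ∧ ∀ k j,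
      |F (α j) - dy (G (k, j)).1 (G (k, j)).2.1 (G (k, j)).2.2| ≤ 1 / 2 ^ k := by
  obtain ⟨c, hc, h1, h2⟩ := hF
  set d : (ℕ × ℕ × ℕ) × (ℕ × ℕ × ℕ × ℕ) := ((0, 0, 0), (0, 0, 0, 0)) with hd
  have hcd : ∀ {β : Type} [Primcodable β] {f : β → ℕ}, M.Has f →
      M.Has (fun a => (c (f a)).getD d) := by
    intro β _ f hf
    exact Has.comp₂ Primrec.option_getD (hc.comp hf) (Has.const d)
  have hn : M.Has (fun q : (ℕ × ℕ) × ℕ => q.2.unpair.1) :=
    (Has.of_primrec (Primrec.fst.comp Primrec.unpair)).comp Has.snd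
  have hm : M.Has (fun q : (ℕ × ℕ) × ℕ => q.2.unpair.2) :=
    (Has.of_primrec (Primrec.snd.comp Primrec.unpair)).comp Has.snd
  have hv := hcd hn
  have hpd : M.Dec (fun q : (ℕ × ℕ) × ℕ => (c q.2.unpair.1).isSome = true ∧
      q.1.1 ≤ ((c q.2.unpair.1).getD d).2.2.2.2 ∧
      (D (q.1.2, ((c q.2.unpair.1).getD d).1.1, q.2.unpair.2) + 1) *
        2 ^ ((c q.2.unpair.1).getD d).1.2.2 <
        ((c q.2.unpair.1).getD d).1.2.1 * 2 ^ q.2.unpair.2) := by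
    refine Dec.and ?_ (Dec.and ?_ ?_)
    · exact Dec.eq_true ((Has.of_primrec Primrec.option_isSome).comp (hc.comp hn))
    · exact Dec.le (Has.fst.comp Has.fst)
        (Has.snd.comp (Has.snd.comp (Has.snd.comp (Has.snd.comp hv))))
    · refine Dec.lt (Has.mul (Has.succ (hp.hD.comp ?_)) (Has.pow2 ?_)) (Has.mul ?_ (Has.pow2 hm))
      · exact Has.pair (Has.snd.comp Has.fst) (Has.pair (Has.fst.comp (Has.fst.comp hv)) hm)
      · exact Has.snd.comp (Has.snd.comp (Has.fst.comp hv))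
      · exact Has.fst.comp (Has.snd.comp (Has.fst.comp hv))
  obtain ⟨g, hg, hg'⟩ := Has.find hpd (by
    rintro ⟨k, j⟩
    obtain ⟨n, i, r, s, a, b, e, l, h3, h4, h5⟩ := h2 (α j) (MPt.base M α j) k
    obtain ⟨q, hq⟩ := hp.exists_of_lt h4
    refine ⟨Nat.pair n q, ?_⟩
    simp only [Nat.unpair_pair, h3, Option.getD_some, Option.isSome_some, true_and]
    exact ⟨h5, hq⟩)
  refine ⟨fun q => (((c (g q).unpair.1).getD d).2.1, ((c (g q).unpair.1).getD d).2.2.1,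
    ((c (g q).unpair.1).getD d).2.2.2.1), ?_, ?_⟩
  · have hv : M.Has (fun q : ℕ × ℕ => (c (g q).unpair.1).getD d) :=
      hcd ((Has.of_primrec (Primrec.fst.comp Primrec.unpair)).comp hg)
    exact Has.pair (Has.fst.comp (Has.snd.comp hv)) (Has.pair
      (Has.fst.comp (Has.snd.comp (Has.snd.comp hv)))
      (Has.fst.comp (Has.snd.comp (Has.snd.comp (Has.snd.comp hv)))))
  · intro k j
    obtain ⟨h3, h4, h5⟩ := (hg' (k, j)).1
    rw [Option.isSome_iff_exists] at h3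
    obtain ⟨v, hv⟩ := h3
    obtain ⟨⟨i, r, s⟩, a, b, e, l⟩ := v
    simp only [hv, Option.getD_some] at h4 h5 ⊢
    refine (h1 _ i r s a b e l hv _ (MPt.base M α j) (hp.lt_of h5)).trans ?_
    exact inv_pow_le h4

end Pool.Agent.STT
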