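import Pool.Agent.Lib_helper19.STT.GBasic

/-!
# The tree of a cover without finite subcovers
-/

namespace Pool.Agent.STT

open TuringIdeal Encodable Filter Topology

variable {X : Type} [MetricSpace X] {M : TuringIdeal} {α : ℕ → X}
  {D : ℕ × ℕ × ℕ → ℕ} {N : ℕ → ℕ}

/-- The point `α j` agrees with the bits of `σ` and is outside of the first balls, up to the
precision given by the length of `σ`. -/
def Cnd (D : ℕ × ℕ × ℕ → ℕ) (w : ℕ → Option (ℕ × ℕ × ℕ)) (σ : List Bool) (j : ℕ) : Prop :=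
  (∀ m < σ.length,
    (σ.getD m false = true → D (j, m.unpair.1, σ.length) * 2 ^ m.unpair.2 ≤
      2 ^ σ.length + 2 * 2 ^ m.unpair.2) ∧
    (σ.getD m false = false → 2 ^ σ.length ≤
      (D (j, m.unpair.1, σ.length) + 2) * 2 ^ m.unpair.2)) ∧
  ∀ m < σ.length, (w m).isSome = true →
    ¬ (D (j, ((w m).getD (0, 0, 0)).1, σ.length) + 2) * 2 ^ ((w m).getD (0, 0, 0)).2.2 <
      ((w m).getD (0, 0, 0)).2.1 * 2 ^ σ.length

theorem dec_cnd (hD : M.Has D) {w : ℕ → Option (ℕ × ℕ × ℕ)} (hw : M.Has w) :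
    M.Dec (fun q : List Bool × ℕ => Cnd D w q.1 q.2) := by
  unfold Cnd
  have hlen : M.Has (fun q : List Bool × ℕ => q.1.length) := Has.length Has.fst
  have hσ : M.Has (fun r : (List Bool × ℕ) × ℕ => r.1.1) := Has.fst.comp Has.fst
  have hl : M.Has (fun r : (List Bool × ℕ) × ℕ => r.1.1.length) := Has.length hσ
  have hj : M.Has (fun r : (List Bool × ℕ) × ℕ => r.1.2) := Has.snd.comp Has.fst
  have hm : M.Has (fun r : (List Bool × ℕ) × ℕ => r.2) := Has.snd
  have hm1 : M.Has (fun r : (List Bool × ℕ) × ℕ => r.2.unpair.1) :=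
    (Has.of_primrec (Primrec.fst.comp Primrec.unpair)).comp hm
  have hm2 : M.Has (fun r : (List Bool × ℕ) × ℕ => r.2.unpair.2) :=
    (Has.of_primrec (Primrec.snd.comp Primrec.unpair)).comp hm
  have hget : M.Has (fun r : (List Bool × ℕ) × ℕ => r.1.1.getD r.2 false) :=
    Has.comp₂ (Primrec.list_getD false) hσ hm
  have hDD : M.Has (fun r : (List Bool × ℕ) × ℕ => D (r.1.2, r.2.unpair.1, r.1.1.length)) :=
    hD.comp (Has.pair hj (Has.pair hm1 hl))
  have hwm : M.Has (fun r : (List Bool × ℕ) × ℕ => (w r.2).getD (0, 0, 0)) :=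
    Has.comp₂ Primrec.option_getD (hw.comp hm) (Has.const (0, 0, 0))
  refine Dec.and ?_ ?_
  · refine Dec.forall_lt (p := fun r : (List Bool × ℕ) × ℕ =>
      (r.1.1.getD r.2 false = true → D (r.1.2, r.2.unpair.1, r.1.1.length) * 2 ^ r.2.unpair.2 ≤
        2 ^ r.1.1.length + 2 * 2 ^ r.2.unpair.2) ∧
      (r.1.1.getD r.2 false = false → 2 ^ r.1.1.length ≤
        (D (r.1.2, r.2.unpair.1, r.1.1.length) + 2) * 2 ^ r.2.unpair.2)) ?_ hlen
    refine Dec.and (Dec.imp (Dec.eq_true hget) (Dec.le (Has.mul hDD (Has.pow2 hm2))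
      (Has.add (Has.pow2 hl) (Has.mul (Has.const 2) (Has.pow2 hm2)))))
      (Dec.imp (Dec.eq hget (Has.const false)) (Dec.le (Has.pow2 hl)
        (Has.mul (Has.addc hDD 2) (Has.pow2 hm2))))
  · refine Dec.forall_lt (p := fun r : (List Bool × ℕ) × ℕ => (w r.2).isSome = true →
      ¬ (D (r.1.2, ((w r.2).getD (0, 0, 0)).1, r.1.1.length) + 2) *
          2 ^ ((w r.2).getD (0, 0, 0)).2.2 <
        ((w r.2).getD (0, 0, 0)).2.1 * 2 ^ r.1.1.length) ?_ hlen
    refine Dec.imp (Dec.eq_true ((Has.of_primrec Primrec.option_isSome).comp (hw.comp hm)))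
      (Dec.not (Dec.lt (Has.mul (Has.addc (hD.comp (Has.pair hj (Has.pair (Has.fst.comp hwm)
        hl))) 2) (Has.pow2 (Has.snd.comp (Has.snd.comp hwm)))) (Has.mul (Has.fst.comp
          (Has.snd.comp hwm)) (Has.pow2 hl))))

theorem pre_getD (b : ℕ → Bool) {m n : ℕ} (h : m < n) : (pre b n).getD m false = b m := by
  rw [List.getD_eq_getElem _ _ (by rw [pre_length]; exact h)]
  simp [pre]

theorem tree_of_not_hb [CompactSpace X] (hp : Pr M α D N) (h : ¬ XHeineBorel M α) :
    ∃ T : List Bool → Bool, M.Has T ∧ IsTree T ∧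
      (∀ n, ∃ σ : List Bool, σ.length = n ∧ T σ = true) ∧
      ¬ ∃ x : ℕ → Bool, M.Has x ∧ ∀ n, T (pre x n) = true := by
  classical
  unfold XHeineBorel at h
  push Not at h
  obtain ⟨w, hw, hcov, hno⟩ := h
  have hTD : M.Dec (fun σ : List Bool => ∀ l < σ.length + 1, ∃ j < N l, Cnd D w (σ.take l) j) := by
    refine Dec.forall_lt (p := fun r : List Bool × ℕ => ∃ j < N r.2, Cnd D w (r.1.take r.2) j) ?_
      (Has.succ (Has.length Has.id))
    refine Dec.exists_lt (p := fun r : (List Bool × ℕ) × ℕ => Cnd D w (r.1.1.take r.1.2) r.2) ?_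
      (hp.hN.comp Has.snd)
    exact (dec_cnd hp.hD hw).comp (Has.pair (Has.take (Has.snd.comp Has.fst)
      (Has.fst.comp Has.fst)) Has.snd)
  obtain ⟨T, hT, hT'⟩ := hTD
  refine ⟨T, hT, ?_, ?_, ?_⟩
  · intro σ b hσ
    rw [hT'] at hσ ⊢
    intro l hl
    have h1 := hσ l (by rw [List.length_append]; simp; omega)
    rwa [List.take_append_of_le_length (by omega)] at h1
  · intro n
    obtain ⟨x, hx, hx'⟩ := hno n
    set b : ℕ → Bool := fun m => decide (dist x (α m.unpair.1) ≤ 1 / 2 ^ m.unpair.2) with hb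
    refine ⟨pre b n, pre_length b n, ?_⟩
    rw [hT']
    intro l hl
    rw [pre_length] at hl
    have hln : l ≤ n := by omega
    rw [pre_take b hln]
    obtain ⟨j, hj, hj'⟩ := hp.net l x
    refine ⟨j, hj, ?_, ?_⟩
    · intro m hm
      rw [pre_length] at hm ⊢
      rw [pre_getD b hm]
      have h1 := abs_le.mp (hp.near (i := m.unpair.1) hj')
      constructor
      · intro h2
        have h3 : dist x (α m.unpair.1) ≤ 1 / 2 ^ m.unpair.2 := by simpa [hb] using h2
        have h4 : (D (j, m.unpair.1, l) : ℝ) / 2 ^ l ≤ 1 / 2 ^ m.unpair.2 + 2 / 2 ^ l := by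
          linarith [h1.1]
        rw [div_add_div _ _ (pow_pos2 _).ne' (pow_pos2 _).ne', div_le_div_iff₀ (pow_pos2 _)
          (by positivity)] at h4
        have h5 : (D (j, m.unpair.1, l) : ℝ) * 2 ^ m.unpair.2 ≤ 2 ^ l + 2 * 2 ^ m.unpair.2 := by
          have h6 : (0 : ℝ) < 2 ^ l := pow_pos2 l
          have h7 : (D (j, m.unpair.1, l) : ℝ) * 2 ^ m.unpair.2 * 2 ^ l ≤
              (2 ^ l + 2 * 2 ^ m.unpair.2) * 2 ^ l := by nlinarith
          exact le_of_mul_le_mul_right h7 h6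
        exact_mod_cast h5
      · intro h2
        have h3 : 1 / 2 ^ m.unpair.2 < dist x (α m.unpair.1) := by simpa [hb] using h2
        have h4 : (1 : ℝ) / 2 ^ m.unpair.2 ≤ ((D (j, m.unpair.1, l) : ℝ) + 2) / 2 ^ l := by
          rw [add_div]
          linarith [h1.2]
        rw [div_le_div_iff₀ (pow_pos2 _) (pow_pos2 _), one_mul] at h4
        exact_mod_cast h4
    · intro m hm hs
      rw [pre_length] at hm ⊢
      rw [Option.isSome_iff_exists] at hs
      obtain ⟨⟨i, a, e⟩, hv⟩ := hs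
      simp only [hv, Option.getD_some]
      intro h2
      have h3 := hx' m (by omega) i a e hv
      have h1 := abs_le.mp (hp.near (i := i) hj')
      have h4 : ((D (j, i, l) : ℝ) + 2) / 2 ^ l < (a : ℝ) / 2 ^ e := by
        rw [div_lt_div_iff₀ (pow_pos2 _) (pow_pos2 _)]
        exact_mod_cast h2
      rw [add_div] at h4
      unfold rad at h3
      linarith [h1.2]
  · rintro ⟨b, hbM, hb⟩
    have hC : ∀ l, ∃ j < N l, Cnd D w (pre b l) j := by
      intro l
      have h1 := (hT' _).mp (hb l) l (by rw [pre_length]; omega)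
      rwa [pre_take b le_rfl] at h1
    choose j hjN hj using hC
    obtain ⟨z, φ, hφ, hz⟩ := CompactSpace.tendsto_subseq (fun l => α (j l))
    have hcl : ∀ δ : ℝ, 0 < δ → ∀ L, ∃ l, L ≤ l ∧ dist (α (j l)) z < δ ∧ (3 : ℝ) / 2 ^ l < δ := by
      intro δ hδ L
      have h1 : ∀ᶠ n in atTop, dist (α (j (φ n))) z < δ := by
        have := (Metric.tendsto_nhds.mp hz) δ hδ
        simpa using this
      obtain ⟨q, hq⟩ := exists_pow_lt (ε := δ / 3) (by linarith)
      obtain ⟨n, hn1, hn2⟩ := (h1.and (eventually_ge_atTop (max L q))).exists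
      have h2 : max L q ≤ φ n := hn2.trans (hφ.id_le n)
      refine ⟨φ n, (le_max_left _ _).trans h2, hn1, ?_⟩
      have h3 := inv_pow_le ((le_max_right L q).trans h2)
      have h4 : (3 : ℝ) / 2 ^ φ n = 3 * (1 / 2 ^ φ n) := by ring
      rw [h4]
      linarith
    -- positive bits
    have hA : ∀ i k, b (Nat.pair i k) = true → dist z (α i) ≤ 1 / 2 ^ k := by
      intro i k hbit
      by_contra hc
      push Not at hc
      obtain ⟨l, hl, h1, h2⟩ := hcl ((dist z (α i) - 1 / 2 ^ k) / 2) (by linarith)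
        (Nat.pair i k + 1)
      have h3 := ((hj l).1 (Nat.pair i k) (by rw [pre_length]; omega)).1
        (by rw [pre_getD b (by omega)]; exact hbit)
      rw [pre_length, Nat.unpair_pair] at h3
      have h4 : (D (j l, i, l) : ℝ) * 2 ^ k ≤ 2 ^ l + 2 * 2 ^ k := by exact_mod_cast h3
      have h5 : (D (j l, i, l) : ℝ) / 2 ^ l ≤ 1 / 2 ^ k + 2 / 2 ^ l := by
        rw [div_add_div _ _ (pow_pos2 _).ne' (pow_pos2 _).ne', div_le_div_iff₀ (pow_pos2 _)
          (by positivity)]
        nlinarith [pow_pos2 l]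
      have h6 := (abs_le.mp (hp.app (j l) i l)).2
      have h7 := dist_triangle z (α (j l)) (α i)
      rw [dist_comm z (α (j l))] at h7
      have h8 : (3 : ℝ) / 2 ^ l = 2 / 2 ^ l + 1 / 2 ^ l := by ring
      linarith
    -- negative bits
    have hB : ∀ i k, b (Nat.pair i k) = false → 1 / 2 ^ k ≤ dist z (α i) := by
      intro i k hbit
      by_contra hc
      push Not at hc
      obtain ⟨l, hl, h1, h2⟩ := hcl ((1 / 2 ^ k - dist z (α i)) / 2) (by linarith)
        (Nat.pair i k + 1)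
      have h3 := ((hj l).1 (Nat.pair i k) (by rw [pre_length]; omega)).2
        (by rw [pre_getD b (by omega)]; exact hbit)
      rw [pre_length, Nat.unpair_pair] at h3
      have h4 : (2 : ℝ) ^ l ≤ ((D (j l, i, l) : ℝ) + 2) * 2 ^ k := by exact_mod_cast h3
      have h5 : (1 : ℝ) / 2 ^ k ≤ (D (j l, i, l) : ℝ) / 2 ^ l + 2 / 2 ^ l := by
        rw [← add_div, div_le_div_iff₀ (pow_pos2 _) (pow_pos2 _), one_mul]
        exact h4
      have h6 := (abs_le.mp (hp.app (j l) i l)).1
      have h7 := dist_triangle (α (j l)) z (α i)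
      have h8 : (3 : ℝ) / 2 ^ l = 2 / 2 ^ l + 1 / 2 ^ l := by ring
      linarith
    have hsome : ∀ k, ∃ i, b (Nat.pair i k) = true := by
      intro k
      obtain ⟨i, -, hi⟩ := hp.net (k + 1) z
      refine ⟨i, ?_⟩
      by_contra hc
      rw [Bool.not_eq_true] at hc
      have h1 := hB i k hc
      have h2 : (1 : ℝ) / 2 ^ (k + 1) = 1 / 2 ^ k / 2 := by rw [pow_succ]; field_simp
      have h3 : (0 : ℝ) < 1 / 2 ^ k := by positivity
      linarith
    have hzM : z ∈ MPt M α := by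
      obtain ⟨p, hpM, hp'⟩ := Has.find (p := fun q : ℕ × ℕ => b (Nat.pair q.2 q.1) = true)
        (Dec.eq_true (hbM.comp (Has.comp₂ Primrec₂.natPair Has.snd Has.fst))) hsome
      exact ⟨p, hpM, fun k => hA _ _ (hp' k).1⟩
    obtain ⟨m, i, a, e, hv, hd⟩ := hcov z hzM
    obtain ⟨l, hl, h1, h2⟩ := hcl ((rad a e - dist z (α i)) / 2) (by linarith) (m + 1)
    have h3 := (hj l).2 m (by rw [pre_length]; omega) (by rw [hv]; rfl)
    rw [pre_length, hv] at h3
    simp only [Option.getD_some] at h3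
    apply h3
    have h6 := (abs_le.mp (hp.app (j l) i l)).1
    have h7 := dist_triangle (α (j l)) z (α i)
    have h8 : (3 : ℝ) / 2 ^ l = 2 / 2 ^ l + 1 / 2 ^ l := by ring
    have h9 : ((D (j l, i, l) : ℝ) + 2) / 2 ^ l < (a : ℝ) / 2 ^ e := by
      rw [add_div]
      unfold rad at h1 h2
      linarith
    rw [div_lt_div_iff₀ (pow_pos2 _) (pow_pos2 _)] at h9
    exact_mod_cast h9

end Pool.Agent.STT
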