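import Pool.Agent.Lib_helper19.STT.GScheme
import Pool.Agent.Lib_helper19.STT.GTreeN

/-!
# The scheme of a space in which the distances from a point are dense in an interval
-/

namespace Pool.Agent.STT

open TuringIdeal Encodable

variable {X : Type} [MetricSpace X] {M : TuringIdeal} {α : ℕ → X}
  {D : ℕ × ℕ × ℕ → ℕ} {N s : ℕ → ℕ} {u : ℕ × ℕ → ℕ} {i0 s0 P : ℕ}

/-- The left end of the left subinterval. -/
def RR (N s : ℕ → ℕ) (u : ℕ × ℕ → ℕ) (l p : ℕ) : ℕ :=
  p * 2 ^ (N (s l + 3) + 10) + 2 ^ (N (s l + 3) + 8) + u (l, p)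

/-- The left ends of the intervals of a Cantor scheme. -/
def qq (N s : ℕ → ℕ) (u : ℕ × ℕ → ℕ) (P : ℕ) (b : ℕ → Bool) (l : ℕ) : ℕ :=
  Nat.rec P (fun y p => RR N s u y p + if b y = true then 3 else 0) l

theorem qq_zero (b : ℕ → Bool) : qq N s u P b 0 = P := rfl

theorem qq_succ (b : ℕ → Bool) (l : ℕ) : qq N s u P b (l + 1) =
    RR N s u l (qq N s u P b l) + if b l = true then 3 else 0 := rfl

theorem qq_congr {b b' : ℕ → Bool} {l : ℕ} (h : ∀ m < l, b m = b' m) :
    qq N s u P b l = qq N s u P b' l := by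
  induction l with
  | zero => rfl
  | succ l ih =>
    rw [qq_succ, qq_succ, ih fun m hm => h m (by omega), h l (by omega)]

/-- The number `ζ` belongs to the interval of `b` of the level `l`. -/
def InJ (N s : ℕ → ℕ) (u : ℕ × ℕ → ℕ) (P : ℕ) (b : ℕ → Bool) (l : ℕ) (ζ : ℝ) : Prop :=
  (qq N s u P b l : ℝ) - 1 / 2 ≤ ζ * 2 ^ s l ∧ ζ * 2 ^ s l ≤ (qq N s u P b l : ℝ) + 3 / 2

/-- The data of the case. -/
structure CN (M : TuringIdeal) (α : ℕ → X) (D : ℕ × ℕ × ℕ → ℕ) (N s : ℕ → ℕ) (u : ℕ × ℕ → ℕ)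
    (i0 s0 P : ℕ) : Prop where
  pr : Pr M α D N
  val : ∀ p t : ℕ, P * 2 ^ t ≤ p → p + 1 ≤ (P + 1) * 2 ^ t →
    ∃ x : X, (p : ℝ) / 2 ^ (s0 + t) ≤ dist x (α i0) ∧ dist x (α i0) ≤ (p + 1 : ℝ) / 2 ^ (s0 + t)
  hs : M.Has s
  s_zero : s 0 = s0
  s_succ : ∀ l, s (l + 1) = s l + (N (s l + 3) + 10)
  hu : M.Has u
  u_le : ∀ l p, u (l, p) ≤ 11 * N (s l + 3)
  u_free : ∀ l p, ∀ j < N (s l + 3), D (j, i0, s (l + 1)) + 3 < RR N s u l p ∨
    RR N s u l p + 7 < D (j, i0, s (l + 1))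

namespace CN

theorem pow_s (C : CN M α D N s u i0 s0 P) (l : ℕ) :
    (2 : ℝ) ^ s (l + 1) = 2 ^ s l * (1024 * 2 ^ N (s l + 3)) := by
  rw [C.s_succ, pow_add, pow_add]
  ring

theorem RR_real (l p : ℕ) : (RR N s u l p : ℝ) =
    p * (1024 * 2 ^ N (s l + 3)) + 256 * 2 ^ N (s l + 3) + u (l, p) := by
  unfold RR
  push_cast
  rw [pow_add, pow_add]
  ring

theorem u_real (C : CN M α D N s u i0 s0 P) (l p : ℕ) :
    (u (l, p) : ℝ) ≤ 11 * 2 ^ N (s l + 3) := by
  have h1 : (u (l, p) : ℝ) ≤ 11 * (N (s l + 3) : ℝ) := by exact_mod_cast C.u_le l p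
  have h2 : ((N (s l + 3) : ℕ) : ℝ) ≤ 2 ^ N (s l + 3) := by
    exact_mod_cast (Nat.lt_two_pow_self (n := N (s l + 3))).le
  linarith

theorem nest (C : CN M α D N s u i0 s0 P) {b : ℕ → Bool} {l : ℕ} {ζ : ℝ}
    (h : InJ N s u P b (l + 1) ζ) : (qq N s u P b l : ℝ) + 3 / 16 ≤ ζ * 2 ^ s l ∧
      ζ * 2 ^ s l ≤ (qq N s u P b l : ℝ) + 3 / 4 := by
  obtain ⟨h1, h2⟩ := h
  rw [qq_succ] at h1 h2
  push_cast at h1 h2
  rw [RR_real, C.pow_s, ← mul_assoc] at h1 h2
  have h3 := C.u_real l (qq N s u P b l)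
  have h4 : (0 : ℝ) ≤ u (l, qq N s u P b l) := Nat.cast_nonneg _
  have h5 : (1 : ℝ) ≤ 2 ^ N (s l + 3) := one_le_pow₀ (by norm_num)
  have h6 : (0 : ℝ) ≤ (if b l = true then (3 : ℝ) else 0) ∧
      (if b l = true then (3 : ℝ) else 0) ≤ 3 := by
    split <;> norm_num
  set A : ℝ := 2 ^ N (s l + 3) with hA
  set q : ℝ := (qq N s u P b l : ℝ) with hq
  set y : ℝ := ζ * 2 ^ s l with hy
  have hApos : 0 < A := by linarith
  constructor
  · have h7 : (q + 3 / 16) * (1024 * A) ≤ y * (1024 * A) := by nlinarith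
    exact le_of_mul_le_mul_right h7 (by linarith)
  · have h7 : y * (1024 * A) ≤ (q + 3 / 4) * (1024 * A) := by nlinarith
    exact le_of_mul_le_mul_right h7 (by linarith)

theorem nest' (C : CN M α D N s u i0 s0 P) {b : ℕ → Bool} {l : ℕ} {ζ : ℝ}
    (h : InJ N s u P b (l + 1) ζ) : InJ N s u P b l ζ := by
  obtain ⟨h1, h2⟩ := C.nest h
  constructor <;> linarith

theorem nest_le (C : CN M α D N s u i0 s0 P) {b : ℕ → Bool} {l m : ℕ} {ζ : ℝ} (hm : m ≤ l)
    (h : InJ N s u P b l ζ) : InJ N s u P b m ζ := by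
  induction l, hm using Nat.le_induction with
  | base => exact h
  | succ l _ ih => exact ih (C.nest' h)

theorem s_mono (C : CN M α D N s u i0 s0 P) : StrictMono s :=
  strictMono_nat_of_lt_succ fun l => by rw [C.s_succ]; omega

/-- Different intervals of the same level are apart. -/
theorem sep (C : CN M α D N s u i0 s0 P) {b b' : ℕ → Bool} {ζ ζ' : ℝ} : ∀ {l : ℕ},
    (∃ m < l, b m ≠ b' m) → InJ N s u P b l ζ → InJ N s u P b' l ζ' →
    1 / 2 ^ s l ≤ |ζ - ζ'| := by
  -- the main case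
  have key : ∀ (b b' : ℕ → Bool) (ζ ζ' : ℝ) (l : ℕ), (∀ m < l, b m = b' m) → b l = false →
      b' l = true → InJ N s u P b (l + 1) ζ → InJ N s u P b' (l + 1) ζ' →
      1 / 2 ^ s (l + 1) ≤ |ζ - ζ'| := by
    intro b b' ζ ζ' l h h0 h1 hJ hJ'
    have h2 := hJ.2
    have h3 := hJ'.1
    rw [qq_succ, h0] at h2
    rw [qq_succ, h1, ← qq_congr h] at h3
    push_cast at h2 h3
    simp only [if_true] at h2 h3
    rw [div_le_iff₀ (pow_pos2 _)]
    have h4 : (ζ' - ζ) * 2 ^ s (l + 1) ≤ |ζ - ζ'| * 2 ^ s (l + 1) := by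
      refine mul_le_mul_of_nonneg_right ?_ (pow_pos2 _).le
      rw [abs_sub_comm]
      exact le_abs_self _
    linarith [sub_mul ζ' ζ (2 ^ s (l + 1))]
  intro l
  induction l with
  | zero => rintro ⟨m, hm, -⟩; omega
  | succ l ih =>
    rintro ⟨m, hm, hne⟩ hJ hJ'
    by_cases h : ∃ m < l, b m ≠ b' m
    · exact (inv_pow_le (C.s_mono.monotone (Nat.le_succ l))).trans
        (ih h (C.nest' hJ) (C.nest' hJ'))
    · push Not at h
      have hml : m = l := by
        by_contra hne'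
        exact hne (h m (by omega))
      subst hml
      cases hb : b m with
      | false =>
        cases hb' : b' m with
        | false => rw [hb, hb'] at hne; exact absurd rfl hne
        | true => exact key b b' ζ ζ' m h hb hb' hJ hJ'
      | true =>
        cases hb' : b' m with
        | true => rw [hb, hb'] at hne; exact absurd rfl hne
        | false =>
          rw [abs_sub_comm]
          exact key b' b ζ' ζ m (fun k hk => (h k hk).symm) hb' hb hJ' hJ

/-- The bits of a string. -/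
def bf (σ : List Bool) (m : ℕ) : Bool := σ.getD m false

/-- The points at the node `σ`. -/
def EN (D : ℕ × ℕ × ℕ → ℕ) (N s : ℕ → ℕ) (u : ℕ × ℕ → ℕ) (i0 P : ℕ) (σ : List Bool) (j : ℕ) :
    Prop :=
  j < N (s σ.length + 3) ∧
    qq N s u P (bf σ) σ.length * 2 ^ (N (s σ.length + 3) + 10) ≤ D (j, i0, s (σ.length + 1)) ∧
    D (j, i0, s (σ.length + 1)) ≤
      (qq N s u P (bf σ) σ.length + 1) * 2 ^ (N (s σ.length + 3) + 10)

theorem D_real (C : CN M α D N s u i0 s0 P) (j l : ℕ) :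
    |dist (α j) (α i0) * 2 ^ s (l + 1) - D (j, i0, s (l + 1))| ≤ 1 := by
  have h1 := C.pr.app j i0 (s (l + 1))
  have h2 : dist (α j) (α i0) * 2 ^ s (l + 1) - D (j, i0, s (l + 1)) =
      (dist (α j) (α i0) - (D (j, i0, s (l + 1)) : ℝ) / 2 ^ s (l + 1)) * 2 ^ s (l + 1) := by
    rw [sub_mul, div_mul_cancel₀ _ (pow_pos2 _).ne']
  rw [h2, abs_mul, abs_of_pos (pow_pos2 (s (l + 1)))]
  calc _ ≤ 1 / 2 ^ s (l + 1) * 2 ^ s (l + 1) :=
        mul_le_mul_of_nonneg_right h1 (pow_pos2 _).le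
    _ = 1 := div_mul_cancel₀ _ (pow_pos2 _).ne'

theorem inJ_of (C : CN M α D N s u i0 s0 P) {σ : List Bool} {j : ℕ} (h : EN D N s u i0 P σ j) :
    InJ N s u P (bf σ) σ.length (dist (α j) (α i0)) := by
  obtain ⟨-, h1, h2⟩ := h
  have h3 := abs_le.mp (C.D_real j σ.length)
  have h4 : ((qq N s u P (bf σ) σ.length : ℝ)) * (1024 * 2 ^ N (s σ.length + 3)) ≤
      D (j, i0, s (σ.length + 1)) := by
    have : ((qq N s u P (bf σ) σ.length * 2 ^ (N (s σ.length + 3) + 10) : ℕ) : ℝ) ≤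
      (D (j, i0, s (σ.length + 1)) : ℕ) := by exact_mod_cast h1
    push_cast at this
    rw [pow_add] at this
    linarith
  have h5 : (D (j, i0, s (σ.length + 1)) : ℝ) ≤
      ((qq N s u P (bf σ) σ.length : ℝ) + 1) * (1024 * 2 ^ N (s σ.length + 3)) := by
    have : ((D (j, i0, s (σ.length + 1)) : ℕ) : ℝ) ≤
      (((qq N s u P (bf σ) σ.length + 1) * 2 ^ (N (s σ.length + 3) + 10) : ℕ) : ℝ) := by
        exact_mod_cast h2
    push_cast at this
    rw [pow_add] at this
    linarith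
  rw [C.pow_s, ← mul_assoc] at h3
  unfold InJ
  set A : ℝ := 2 ^ N (s σ.length + 3) with hA
  have hA1 : 1 ≤ A := one_le_pow₀ (by norm_num)
  set q : ℝ := (qq N s u P (bf σ) σ.length : ℝ) with hq
  set y : ℝ := dist (α j) (α i0) * 2 ^ s σ.length with hy
  set d : ℝ := (D (j, i0, s (σ.length + 1)) : ℝ) with hd
  constructor
  · have h7 : (q - 1 / 2) * (1024 * A) ≤ y * (1024 * A) := by nlinarith
    exact le_of_mul_le_mul_right h7 (by linarith)
  · have h7 : y * (1024 * A) ≤ (q + 3 / 2) * (1024 * A) := by nlinarith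
    exact le_of_mul_le_mul_right h7 (by linarith)

theorem EN_of_near (C : CN M α D N s u i0 s0 P) {σ : List Bool} {x : X}
    (h1 : (qq N s u P (bf σ) σ.length : ℝ) + 3 / 16 ≤ dist x (α i0) * 2 ^ s σ.length)
    (h2 : dist x (α i0) * 2 ^ s σ.length ≤ (qq N s u P (bf σ) σ.length : ℝ) + 3 / 4) :
    ∃ j, EN D N s u i0 P σ j ∧ dist x (α j) ≤ 1 / 2 ^ (s σ.length + 3) := by
  obtain ⟨j, hj, hj'⟩ := C.pr.net (s σ.length + 3) x
  refine ⟨j, ⟨hj, ?_⟩, hj'⟩
  have h3 := abs_le.mp (C.D_real j σ.length)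
  have h4 : |dist x (α i0) - dist (α j) (α i0)| ≤ 1 / 2 ^ (s σ.length + 3) :=
    (abs_dist_sub_le _ _ _).trans hj'
  have h5 : |dist x (α i0) * 2 ^ s σ.length - dist (α j) (α i0) * 2 ^ s σ.length| ≤ 1 / 8 := by
    rw [← sub_mul, abs_mul, abs_of_pos (pow_pos2 (s σ.length))]
    calc _ ≤ 1 / 2 ^ (s σ.length + 3) * 2 ^ s σ.length :=
          mul_le_mul_of_nonneg_right h4 (pow_pos2 _).le
      _ = 1 / 8 := by rw [pow_add]; field_simp; norm_num
  rw [abs_le] at h5
  rw [C.pow_s, ← mul_assoc] at h3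
  set A : ℝ := 2 ^ N (s σ.length + 3) with hA
  have hA1 : 1 ≤ A := one_le_pow₀ (by norm_num)
  set q : ℝ := (qq N s u P (bf σ) σ.length : ℝ) with hq
  set y : ℝ := dist (α j) (α i0) * 2 ^ s σ.length with hy
  set d : ℝ := (D (j, i0, s (σ.length + 1)) : ℝ) with hd
  have h6 : q * (1024 * A) ≤ d := by
    have : (q + 1 / 16) * (1024 * A) ≤ y * (1024 * A) :=
      mul_le_mul_of_nonneg_right (by linarith) (by linarith)
    nlinarith
  have h7 : d ≤ (q + 1) * (1024 * A) := by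
    have : y * (1024 * A) ≤ (q + 7 / 8) * (1024 * A) :=
      mul_le_mul_of_nonneg_right (by linarith) (by linarith)
    nlinarith
  have e : (1024 * A) = ((2 ^ (N (s σ.length + 3) + 10) : ℕ) : ℝ) := by
    push_cast
    rw [pow_add, hA]
    ring
  rw [e] at h6 h7
  rw [hq, hd] at h6 h7
  constructor
  · exact_mod_cast h6
  · exact_mod_cast h7

theorem q_bounds (C : CN M α D N s u i0 s0 P) (b : ℕ → Bool) (l : ℕ) :
    ∃ t, s l = s0 + t ∧ P * 2 ^ t ≤ qq N s u P b l ∧ qq N s u P b l + 1 ≤ (P + 1) * 2 ^ t := by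
  induction l with
  | zero => exact ⟨0, by rw [C.s_zero]; rfl, by simp [qq_zero], by simp [qq_zero]⟩
  | succ l ih =>
    obtain ⟨t, h1, h2, h3⟩ := ih
    refine ⟨t + (N (s l + 3) + 10), by rw [C.s_succ, h1]; ring, ?_, ?_⟩
    · rw [qq_succ, RR, pow_add (2 : ℕ) t, ← mul_assoc]
      have := Nat.mul_le_mul_right (2 ^ (N (s l + 3) + 10)) h2
      refine this.trans ?_
      rw [add_assoc, add_assoc]
      exact Nat.le_add_right _ _
    · rw [qq_succ, RR, pow_add (2 : ℕ) t, ← mul_assoc]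
      have h4 := Nat.mul_le_mul_right (2 ^ (N (s l + 3) + 10)) h3
      rw [add_mul, one_mul] at h4
      have h5 := C.u_le l (qq N s u P b l)
      have h6 : N (s l + 3) < 2 ^ N (s l + 3) := Nat.lt_two_pow_self
      have h7 : 2 ^ (N (s l + 3) + 10) = 1024 * 2 ^ N (s l + 3) := by rw [pow_add]; ring
      have h8 : 2 ^ (N (s l + 3) + 8) = 256 * 2 ^ N (s l + 3) := by rw [pow_add]; ring
      have h9 : (if b l = true then 3 else 0) ≤ 3 := by split <;> omega
      omega

theorem S0 (C : CN M α D N s u i0 s0 P) (σ : List Bool) : ∃ j, EN D N s u i0 P σ j := by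
  obtain ⟨t, h1, h2, h3⟩ := C.q_bounds (bf σ) σ.length
  set q := qq N s u P (bf σ) σ.length with hq
  obtain ⟨x, hx1, hx2⟩ := C.val (4 * q + 1) (t + 2) (by rw [pow_add]; nlinarith)
    (by rw [pow_add]; nlinarith)
  have hpow : (2 : ℝ) ^ (s0 + (t + 2)) = 4 * 2 ^ s σ.length := by
    rw [h1, ← add_assoc, pow_add]
    ring
  rw [hpow, div_le_iff₀ (by positivity)] at hx1
  rw [hpow, le_div_iff₀ (by positivity)] at hx2
  push_cast at hx1 hx2
  obtain ⟨j, hj, -⟩ := C.EN_of_near (σ := σ) (x := x) (by rw [← hq]; linarith)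
    (by rw [← hq]; linarith)
  exact ⟨j, hj⟩

theorem bf_take (σ : List Bool) {l m : ℕ} (h : m < l) : bf (σ.take l) m = bf σ m := by
  unfold bf
  rw [List.getD_eq_getElem?_getD, List.getD_eq_getElem?_getD, List.getElem?_take_of_lt h]

theorem S1 (C : CN M α D N s u i0 s0 P) {σ : List Bool} {l y : ℕ} (hl : l ≤ σ.length)
    (hy : EN D N s u i0 P σ y) :
    ∃ x, EN D N s u i0 P (σ.take l) x ∧ dist (α x) (α y) ≤ 1 / 2 ^ (s l + 3) := by
  rcases Nat.lt_or_ge l σ.length with h | h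
  · have h1 := C.nest (C.nest_le (m := l + 1) h (C.inJ_of hy))
    have h2 : (σ.take l).length = l := by simp; omega
    have h3 : qq N s u P (bf (σ.take l)) l = qq N s u P (bf σ) l :=
      qq_congr fun m hm => bf_take σ hm
    obtain ⟨x, hx1, hx2⟩ := C.EN_of_near (σ := σ.take l) (x := α y)
      (by rw [h2, h3]; exact h1.1) (by rw [h2, h3]; exact h1.2)
    refine ⟨x, hx1, ?_⟩
    rw [h2] at hx2
    rw [dist_comm]
    exact hx2
  · have h1 : l = σ.length := by omega
    refine ⟨y, by rw [h1, List.take_length]; exact hy, ?_⟩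
    rw [dist_self]
    positivity

theorem exists_ne_of_take {σ σ' : List Bool} {l : ℕ} (h1 : l ≤ σ.length) (h2 : l ≤ σ'.length)
    (h : σ.take l ≠ σ'.take l) : ∃ m < l, bf σ m ≠ bf σ' m := by
  by_contra hc
  push Not at hc
  apply h
  apply List.ext_getElem
  · simp; omega
  · intro m hm hm'
    have hml : m < l := by simp only [List.length_take] at hm; omega
    have h3 := hc m hml
    unfold bf at h3
    rw [List.getD_eq_getElem _ _ (by omega), List.getD_eq_getElem _ _ (by omega)] at h3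
    simp [h3]

theorem S2_aux (C : CN M α D N s u i0 s0 P) {σ σ' : List Bool} {i j j' : ℕ}
    (hi : σ.length ≤ i) (hle : σ.length ≤ σ'.length)
    (hne : σ.take (i + 1) ≠ σ'.take (i + 1)) (h1 : EN D N s u i0 P σ j)
    (h2 : EN D N s u i0 P σ' j') :
    1 / 2 ^ s (i + 1) ≤ |dist (α j) (α i0) - dist (α j') (α i0)| := by
  by_cases h : σ'.take σ.length = σ
  · -- a proper initial segment
    have hlt : σ.length < σ'.length := by
      by_contra hc
      push Not at hc
      rw [List.take_of_length_le hc] at h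
      exact hne (by rw [h])
    have h3 : qq N s u P (bf σ) σ.length = qq N s u P (bf σ') σ.length := by
      refine qq_congr fun m hm => ?_
      conv_lhs => rw [← h]
      exact bf_take σ' hm
    have h4 := C.nest_le (m := σ.length + 1) hlt (C.inJ_of h2)
    have h5 := abs_le.mp (C.D_real j σ.length)
    unfold InJ at h4
    rw [qq_succ] at h4
    push_cast at h4
    have h6 : (0 : ℝ) ≤ (if bf σ' σ.length = true then (3 : ℝ) else 0) ∧
        (if bf σ' σ.length = true then (3 : ℝ) else 0) ≤ 3 := by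
      split <;> norm_num
    refine (inv_pow_le (C.s_mono.monotone (by omega : σ.length + 1 ≤ i + 1))).trans ?_
    rw [div_le_iff₀ (pow_pos2 _)]
    have h7 : |(dist (α j) (α i0) - dist (α j') (α i0)) * 2 ^ s (σ.length + 1)| =
        |dist (α j) (α i0) - dist (α j') (α i0)| * 2 ^ s (σ.length + 1) := by
      rw [abs_mul, abs_of_pos (pow_pos2 (s (σ.length + 1)))]
    rw [← h7, sub_mul]
    rcases C.u_free σ.length (qq N s u P (bf σ') σ.length) j h1.1 with h8 | h8
    · have h9 : ((D (j, i0, s (σ.length + 1)) : ℝ)) + 4 ≤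
          RR N s u σ.length (qq N s u P (bf σ') σ.length) := by
        exact_mod_cast Nat.succ_le_of_lt h8
      rw [abs_sub_comm]
      refine le_trans ?_ (le_abs_self _)
      linarith
    · have h9 : (RR N s u σ.length (qq N s u P (bf σ') σ.length) : ℝ) + 8 ≤
          (D (j, i0, s (σ.length + 1)) : ℝ) := by
        exact_mod_cast Nat.succ_le_of_lt h8
      refine le_trans ?_ (le_abs_self _)
      linarith
  · have h3 : σ.take σ.length ≠ σ'.take σ.length := by
      rw [List.take_length]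
      exact fun h' => h h'.symm
    have h4 := C.sep (exists_ne_of_take le_rfl hle h3) (C.inJ_of h1)
      (C.nest_le hle (C.inJ_of h2))
    exact (inv_pow_le (C.s_mono.monotone (by omega : σ.length ≤ i + 1))).trans h4

theorem S2 (C : CN M α D N s u i0 s0 P) {σ σ' : List Bool} {i j j' : ℕ}
    (hne : σ.take (i + 1) ≠ σ'.take (i + 1)) (h1 : EN D N s u i0 P σ j)
    (h2 : EN D N s u i0 P σ' j') : 1 / 2 ^ s (i + 1) ≤ dist (α j) (α j') := by
  have h0 : 1 / 2 ^ s (i + 1) ≤ |dist (α j) (α i0) - dist (α j') (α i0)| := by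
    rcases Nat.lt_or_ge i σ.length with h | h
    · rcases Nat.lt_or_ge i σ'.length with h' | h'
      · exact C.sep (exists_ne_of_take h h' hne) (C.nest_le h (C.inJ_of h1))
          (C.nest_le h' (C.inJ_of h2))
      · rw [abs_sub_comm]
        exact C.S2_aux h' (by omega) hne.symm h2 h1
    · rcases Nat.lt_or_ge σ'.length σ.length with h' | h'
      · rw [abs_sub_comm]
        exact C.S2_aux (by omega) h'.le hne.symm h2 h1
      · exact C.S2_aux h h' hne h1 h2
  exact h0.trans (abs_dist_sub_le _ _ _)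

end CN

end Pool.Agent.STT
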