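import Pool.Agent.Lib_helper19.STT.GCaseN

/-!
# The scheme in the first case
-/

namespace Pool.Agent.STT

open TuringIdeal Encodable

variable {X : Type} [MetricSpace X] {M : TuringIdeal} {α : ℕ → X}
  {D : ℕ × ℕ × ℕ → ℕ} {N s : ℕ → ℕ} {u : ℕ × ℕ → ℕ} {i0 s0 P : ℕ} {T : List Bool → Bool}

namespace CN

theorem has_RR (C : CN M α D N s u i0 s0 P) : M.Has (fun q : ℕ × ℕ => RR N s u q.1 q.2) := by
  have hn : M.Has (fun q : ℕ × ℕ => N (s q.1 + 3)) :=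
    C.pr.hN.comp (Has.addc (C.hs.comp Has.fst) 3)
  exact Has.add (Has.add (Has.mul Has.snd (Has.pow2 (Has.addc hn 10)))
    (Has.pow2 (Has.addc hn 8))) (C.hu.comp (Has.pair Has.fst Has.snd))

theorem has_qq (C : CN M α D N s u i0 s0 P) :
    M.Has (fun q : List Bool × ℕ => qq N s u P (bf q.1) q.2) := by
  have h1 : M.Has (fun r : List Bool × (ℕ × ℕ) => RR N s u r.2.1 r.2.2 +
      if bf r.1 r.2.1 = true then 3 else 0) := by
    refine Has.add (C.has_RR.comp Has.snd) ?_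
    refine Has.ite (Dec.eq_true ?_) (Has.const 3) (Has.const 0)
    exact Has.comp₂ (Primrec.list_getD false) Has.fst (Has.fst.comp Has.snd)
  exact Has.nat_rec (f := fun _ : List Bool => P) (Has.const P) h1

theorem dec_EN (C : CN M α D N s u i0 s0 P) :
    M.Dec (fun q : List Bool × ℕ => EN D N s u i0 P q.1 q.2) := by
  have hl : M.Has (fun q : List Bool × ℕ => q.1.length) := Has.length Has.fst
  have hn : M.Has (fun q : List Bool × ℕ => N (s q.1.length + 3)) :=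
    C.pr.hN.comp (Has.addc (C.hs.comp hl) 3)
  have hD : M.Has (fun q : List Bool × ℕ => D (q.2, i0, s (q.1.length + 1))) :=
    C.pr.hD.comp (Has.pair Has.snd (Has.pair (Has.const i0) (C.hs.comp (Has.addc hl 1))))
  have hq : M.Has (fun q : List Bool × ℕ => qq N s u P (bf q.1) q.1.length) :=
    C.has_qq.comp (Has.pair Has.fst hl)
  exact Dec.and (Dec.lt Has.snd hn) (Dec.and (Dec.le (Has.mul hq (Has.pow2 (Has.addc hn 10))) hD)
    (Dec.le hD (Has.mul (Has.addc hq 1) (Has.pow2 (Has.addc hn 10)))))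

/-- The ball `B(α i, 2 ^ (-r))` is away from the points of the nodes of the level `l`. -/
def AwN (D : ℕ × ℕ × ℕ → ℕ) (N s : ℕ → ℕ) (u : ℕ × ℕ → ℕ) (i0 P : ℕ) (T : List Bool → Bool)
    (i r l : ℕ) : Prop :=
  ∀ σ : List Bool, σ.length = l → T σ = true →
    D (i, i0, s l + r + 3) + 1 + 2 ^ (s l + 3) + 2 ^ (r + 2) ≤
      2 * qq N s u P (bf σ) l * 2 ^ (r + 2) ∨
    (2 * qq N s u P (bf σ) l + 3) * 2 ^ (r + 2) + 1 + 2 ^ (s l + 3) ≤ D (i, i0, s l + r + 3)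

theorem dec_AwN (C : CN M α D N s u i0 s0 P) (hT : M.Has T) :
    M.Dec (fun q : ℕ × ℕ × ℕ => AwN D N s u i0 P T q.1 q.2.1 q.2.2) := by
  unfold AwN
  refine Dec.forall_len (p := fun r : (ℕ × ℕ × ℕ) × List Bool => T r.2 = true →
    D (r.1.1, i0, s r.1.2.2 + r.1.2.1 + 3) + 1 + 2 ^ (s r.1.2.2 + 3) + 2 ^ (r.1.2.1 + 2) ≤
      2 * qq N s u P (bf r.2) r.1.2.2 * 2 ^ (r.1.2.1 + 2) ∨
    (2 * qq N s u P (bf r.2) r.1.2.2 + 3) * 2 ^ (r.1.2.1 + 2) + 1 + 2 ^ (s r.1.2.2 + 3) ≤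
      D (r.1.1, i0, s r.1.2.2 + r.1.2.1 + 3)) ?_ (Has.snd.comp Has.snd)
  have hi : M.Has (fun r : (ℕ × ℕ × ℕ) × List Bool => r.1.1) := Has.fst.comp Has.fst
  have hr : M.Has (fun r : (ℕ × ℕ × ℕ) × List Bool => r.1.2.1) :=
    Has.fst.comp (Has.snd.comp Has.fst)
  have hl : M.Has (fun r : (ℕ × ℕ × ℕ) × List Bool => r.1.2.2) :=
    Has.snd.comp (Has.snd.comp Has.fst)
  have hs := C.hs.comp hl
  have hD : M.Has (fun r : (ℕ × ℕ × ℕ) × List Bool => D (r.1.1, i0, s r.1.2.2 + r.1.2.1 + 3)) :=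
    C.pr.hD.comp (Has.pair hi (Has.pair (Has.const i0) (Has.addc (Has.add hs hr) 3)))
  have hq : M.Has (fun r : (ℕ × ℕ × ℕ) × List Bool => 2 * qq N s u P (bf r.2) r.1.2.2) :=
    Has.mul (Has.const 2) (C.has_qq.comp (Has.pair Has.snd hl))
  refine Dec.imp (Dec.eq_true (hT.comp Has.snd)) (Dec.or ?_ ?_)
  · exact Dec.le (Has.add (Has.add (Has.addc hD 1) (Has.pow2 (Has.addc hs 3)))
      (Has.pow2 (Has.addc hr 2))) (Has.mul hq (Has.pow2 (Has.addc hr 2)))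
  · exact Dec.le (Has.add (Has.addc (Has.mul (Has.addc hq 3) (Has.pow2 (Has.addc hr 2))) 1)
      (Has.pow2 (Has.addc hs 3))) hD

theorem inJ_congr {b b' : ℕ → Bool} {l : ℕ} {ζ : ℝ} (h : ∀ m < l, b m = b' m)
    (hJ : InJ N s u P b l ζ) : InJ N s u P b' l ζ := by
  unfold InJ
  rw [← qq_congr h]
  exact hJ

theorem S3a (C : CN M α D N s u i0 s0 P) (hT : IsTree T) {i r l y : ℕ} {σ : List Bool}
    (hA : AwN D N s u i0 P T i r l) (hσ : T σ = true) (hl : l ≤ σ.length)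
    (hy : EN D N s u i0 P σ y) : 1 / 2 ^ r ≤ dist (α i) (α y) := by
  have h1 := C.nest_le hl (C.inJ_of hy)
  have h2 := hA (σ.take l) (by simp; omega) (hT.take hσ l)
  have h3 : qq N s u P (bf (σ.take l)) l = qq N s u P (bf σ) l :=
    qq_congr fun m hm => bf_take σ hm
  rw [h3] at h2
  refine le_trans ?_ (abs_dist_sub_le _ _ (α i0))
  have h4 := C.pr.app i i0 (s l + r + 3)
  unfold InJ at h1
  have hQ : (2 : ℝ) ^ (s l + r + 3) = 2 ^ s l * (2 * 2 ^ (r + 2)) := by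
    rw [pow_add, pow_add, pow_add 2 r]
    ring
  have hr : (2 : ℝ) ^ (s l + r + 3) = 2 ^ r * 2 ^ (s l + 3) := by
    rw [pow_add, pow_add, pow_add 2 (s l) 3]
    ring
  have h5 : |dist (α i) (α i0) * 2 ^ (s l + r + 3) - D (i, i0, s l + r + 3)| ≤ 1 := by
    have h6 : dist (α i) (α i0) * 2 ^ (s l + r + 3) - D (i, i0, s l + r + 3) =
        (dist (α i) (α i0) - (D (i, i0, s l + r + 3) : ℝ) / 2 ^ (s l + r + 3)) *
          2 ^ (s l + r + 3) := by
      rw [sub_mul, div_mul_cancel₀ _ (pow_pos2 _).ne']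
    rw [h6, abs_mul, abs_of_pos (pow_pos2 (s l + r + 3))]
    calc _ ≤ 1 / 2 ^ (s l + r + 3) * 2 ^ (s l + r + 3) :=
          mul_le_mul_of_nonneg_right h4 (pow_pos2 _).le
      _ = 1 := div_mul_cancel₀ _ (pow_pos2 _).ne'
  rw [abs_le] at h5
  set W : ℝ := 2 ^ (r + 2) with hW
  have hWpos : 0 < W := pow_pos2 _
  set S : ℝ := 2 ^ (s l + 3) with hS
  set q : ℝ := (qq N s u P (bf σ) l : ℝ) with hq
  set d : ℝ := (D (i, i0, s l + r + 3) : ℝ) with hd
  set y' : ℝ := dist (α y) (α i0) with hy'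
  set x' : ℝ := dist (α i) (α i0) with hx'
  rw [div_le_iff₀ (pow_pos2 _)]
  have hgoal : S ≤ |x' - y'| * 2 ^ (s l + r + 3) → 1 ≤ |x' - y'| * 2 ^ r := by
    intro h6
    rw [hr, ← mul_assoc] at h6
    have hSpos : 0 < S := pow_pos2 _
    have h7 : 1 * S ≤ |x' - y'| * 2 ^ r * S := by linarith
    exact le_of_mul_le_mul_right h7 hSpos
  apply hgoal
  have habs : |x' - y'| * 2 ^ (s l + r + 3) = |x' * 2 ^ (s l + r + 3) - y' * 2 ^ (s l + r + 3)| := by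
    rw [← sub_mul, abs_mul, abs_of_pos (pow_pos2 (s l + r + 3))]
  rw [habs]
  have hy2 : y' * 2 ^ (s l + r + 3) = y' * 2 ^ s l * (2 * W) := by rw [hQ]; ring
  rcases h2 with h2 | h2
  · have h6 : d + 1 + S + W ≤ 2 * q * W := by
      have : ((D (i, i0, s l + r + 3) + 1 + 2 ^ (s l + 3) + 2 ^ (r + 2) : ℕ) : ℝ) ≤
        ((2 * qq N s u P (bf σ) l * 2 ^ (r + 2) : ℕ) : ℝ) := by exact_mod_cast h2
      push_cast at this
      exact this
    rw [abs_sub_comm]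
    refine le_trans ?_ (le_abs_self _)
    have h7 : (q - 1 / 2) * (2 * W) ≤ y' * 2 ^ s l * (2 * W) :=
      mul_le_mul_of_nonneg_right h1.1 (by linarith)
    rw [hy2]
    nlinarith
  · have h6 : (2 * q + 3) * W + 1 + S ≤ d := by
      have : (((2 * qq N s u P (bf σ) l + 3) * 2 ^ (r + 2) + 1 + 2 ^ (s l + 3) : ℕ) : ℝ) ≤
        ((D (i, i0, s l + r + 3) : ℕ) : ℝ) := by exact_mod_cast h2
      push_cast at this
      exact this
    refine le_trans ?_ (le_abs_self _)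
    have h7 : y' * 2 ^ s l * (2 * W) ≤ (q + 3 / 2) * (2 * W) :=
      mul_le_mul_of_nonneg_right h1.2 (by linarith)
    rw [hy2]
    nlinarith

end CN

end Pool.Agent.STT
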