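import Pool.Agent.Lib_helper19.STT.GCaseN2

/-!
# The first case: balls around the points outside; the scheme
-/

namespace Pool.Agent.STT

open TuringIdeal Encodable

variable {X : Type} [MetricSpace X] {M : TuringIdeal} {α : ℕ → X}
  {D : ℕ × ℕ × ℕ → ℕ} {N s : ℕ → ℕ} {u : ℕ × ℕ → ℕ} {i0 s0 P : ℕ} {T : List Bool → Bool}

theorem fin_min {β : Type} (Q : Finset β) (f : β → ℝ) (h : ∀ a ∈ Q, 0 < f a) :
    ∃ δ > 0, ∀ a ∈ Q, δ ≤ f a := by
  classical
  induction Q using Finset.induction_on with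
  | empty => exact ⟨1, one_pos, by simp⟩
  | insert a Q _ ih =>
    obtain ⟨δ, hδ, h'⟩ := ih fun b hb => h b (Finset.mem_insert_of_mem hb)
    refine ⟨min δ (f a), lt_min hδ (h a (Finset.mem_insert_self _ _)), fun b hb => ?_⟩
    rcases Finset.mem_insert.mp hb with rfl | hb
    · exact min_le_right _ _
    · exact (min_le_left _ _).trans (h' b hb)

theorem exists_strings (l : ℕ) : ∃ Q : Finset (List Bool), ∀ σ, σ ∈ Q ↔ σ.length = l := by
  classical
  refine ⟨(Finset.univ : Finset (List.Vector Bool l)).image (fun w => w.toList), fun σ => ?_⟩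
  rw [Finset.mem_image]
  constructor
  · rintro ⟨w, -, rfl⟩
    exact w.toList_length
  · intro h
    exact ⟨⟨σ, h⟩, Finset.mem_univ _, rfl⟩

namespace CN

theorem leaves (C : CN M α D N s u i0 s0 P)
    (hno : ¬ ∃ x : ℕ → Bool, M.Has x ∧ ∀ n, T (pre x n) = true) {z : X} (hz : z ∈ MPt M α) :
    ∃ l, ∀ σ : List Bool, σ.length = l → T σ = true →
      ¬ InJ N s u P (bf σ) l (dist z (α i0)) := by
  by_contra hcc
  push Not at hcc
  obtain ⟨pt, hpt, hpt'⟩ := hz
  set ζ : ℝ := dist z (α i0) with hζ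
  have hwD : M.Dec (fun ρ : List Bool => 8 * (RR N s u ρ.length (qq N s u P (bf ρ) ρ.length) + 2) ≤
      D (pt (s (ρ.length + 1) + 3), i0, s (ρ.length + 1) + 3)) := by
    have hl : M.Has (fun ρ : List Bool => ρ.length) := Has.length Has.id
    have hQ : M.Has (fun ρ : List Bool => s (ρ.length + 1) + 3) :=
      Has.addc (C.hs.comp (Has.addc hl 1)) 3
    refine Dec.le (Has.mul (Has.const 8) (Has.addc (C.has_RR.comp (Has.pair hl
      (C.has_qq.comp (Has.pair Has.id hl)))) 2)) (C.pr.hD.comp (Has.pair (hpt.comp hQ)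
        (Has.pair (Has.const i0) hQ)))
  obtain ⟨w, hw, hw'⟩ := hwD
  set Pn : ℕ → List Bool := fun n => Nat.rec [] (fun _ ρ => ρ ++ [w ρ]) n with hPn
  have hPM : M.Has Pn := by
    have h3 : M.Has (fun r : ℕ × (ℕ × List Bool) => r.2.2 ++ [w r.2.2]) :=
      Has.append (Has.snd.comp Has.snd) (Has.single (hw.comp (Has.snd.comp Has.snd)))
    exact Has.nat_rec' (f := fun _ : ℕ => ([] : List Bool)) (Has.const []) h3 Has.id
  have hall : ∀ n, (Pn n).length = n ∧ T (Pn n) = true ∧ InJ N s u P (bf (Pn n)) n ζ := by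
    intro n
    induction n with
    | zero =>
      obtain ⟨σ, h1, h2, h3⟩ := hcc 0
      have h4 : σ = [] := List.length_eq_zero_iff.mp h1
      subst h4
      exact ⟨rfl, h2, h3⟩
    | succ n ih =>
      obtain ⟨h1, h2, h3⟩ := ih
      obtain ⟨σ, h4, h5, h6⟩ := hcc (n + 1)
      have h7 : σ.take n = Pn n := by
        by_contra hne
        have h8 : σ.take n ≠ (Pn n).take n := by
          rw [List.take_of_length_le (l := Pn n) (by omega)]
          exact hne
        have h9 := C.sep (exists_ne_of_take (by omega) (by omega) h8) (C.nest' h6) h3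
        rw [sub_self, abs_zero] at h9
        have : (0 : ℝ) < 1 / 2 ^ s n := by positivity
        linarith
      have hlt : n < σ.length := by omega
      have h8 : σ = Pn n ++ [σ[n]] := by
        have := List.take_concat_get' σ n hlt
        rw [h7] at this
        rw [this, List.take_of_length_le (by omega)]
      have hbf : bf σ n = σ[n] := by
        unfold bf
        rw [List.getD_eq_getElem _ _ hlt]
      have hq : qq N s u P (bf σ) n = qq N s u P (bf (Pn n)) n := by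
        rw [← h7]
        exact qq_congr fun m hm => (bf_take σ hm).symm
      -- the bit is correct
      have hbit : σ[n] = w (Pn n) := by
        have h9 := abs_le.mp (C.pr.near (i := i0) (hpt' (s (n + 1) + 3)))
        rw [← hζ] at h9
        have h10 : |ζ * 2 ^ s (n + 1) * 8 - D (pt (s (n + 1) + 3), i0, s (n + 1) + 3)| ≤ 2 := by
          have h11 : ζ * 2 ^ s (n + 1) * 8 - D (pt (s (n + 1) + 3), i0, s (n + 1) + 3) =
              (ζ - (D (pt (s (n + 1) + 3), i0, s (n + 1) + 3) : ℝ) / 2 ^ (s (n + 1) + 3)) *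
                2 ^ (s (n + 1) + 3) := by
            rw [sub_mul, div_mul_cancel₀ _ (pow_pos2 _).ne', pow_add]
            ring
          rw [h11, abs_mul, abs_of_pos (pow_pos2 (s (n + 1) + 3))]
          calc _ ≤ 2 / 2 ^ (s (n + 1) + 3) * 2 ^ (s (n + 1) + 3) :=
                mul_le_mul_of_nonneg_right (abs_le.mpr h9) (pow_pos2 _).le
            _ = 2 := div_mul_cancel₀ _ (pow_pos2 _).ne'
        rw [abs_le] at h10
        have h12 : w (Pn n) = true ↔ 8 * (RR N s u (Pn n).length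
            (qq N s u P (bf (Pn n)) (Pn n).length) + 2) ≤
              D (pt (s ((Pn n).length + 1) + 3), i0, s ((Pn n).length + 1) + 3) := hw' (Pn n)
        rw [h1] at h12
        obtain ⟨h13, h14⟩ := h6
        rw [qq_succ, hq, hbf] at h13 h14
        push_cast at h13 h14
        set R := RR N s u n (qq N s u P (bf (Pn n)) n) with hR
        set d := D (pt (s (n + 1) + 3), i0, s (n + 1) + 3) with hd
        cases hb : σ[n] with
        | false =>
          rw [hb] at h14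
          simp only [Bool.false_eq_true, if_false] at h14
          symm
          rw [← Bool.not_eq_true, h12, not_le]
          have h15 : (d : ℝ) < 8 * ((R : ℝ) + 2) := by linarith
          exact_mod_cast h15
        | true =>
          rw [hb] at h13
          simp only [if_true] at h13
          symm
          rw [h12]
          have h15 : 8 * ((R : ℝ) + 2) ≤ (d : ℝ) := by linarith
          exact_mod_cast h15
      have h9 : Pn (n + 1) = σ := by
        show Pn n ++ [w (Pn n)] = σ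
        rw [← hbit]
        exact h8.symm
      rw [h9]
      exact ⟨h4, h5, h6⟩
  have hxP : ∀ n, pre (fun n => w (Pn n)) n = Pn n := by
    intro n
    induction n with
    | zero => rfl
    | succ n ih => rw [pre_succ, ih]
  refine hno ⟨fun n => w (Pn n), hw.comp hPM, fun n => ?_⟩
  rw [hxP]
  exact (hall n).2.1

theorem S3b (C : CN M α D N s u i0 s0 P)
    (hno : ¬ ∃ x : ℕ → Bool, M.Has x ∧ ∀ n, T (pre x n) = true) {z : X} (hz : z ∈ MPt M α)
    (r0 : ℕ) : ∃ i r l, r0 ≤ r ∧ AwN D N s u i0 P T i r l ∧ dist z (α i) < 1 / 2 ^ r := by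
  obtain ⟨l, hl⟩ := C.leaves hno hz
  obtain ⟨Q, hQ⟩ := exists_strings l
  classical
  obtain ⟨δ, hδ, hδ'⟩ := fin_min (Q.filter fun σ => T σ = true)
    (fun σ => max ((qq N s u P (bf σ) l : ℝ) - 1 / 2 - dist z (α i0) * 2 ^ s l)
      (dist z (α i0) * 2 ^ s l - (qq N s u P (bf σ) l : ℝ) - 3 / 2)) (by
        intro σ hσ
        rw [Finset.mem_filter, hQ] at hσ
        have h1 := hl σ hσ.1 hσ.2
        rw [lt_max_iff]
        by_contra hc
        push Not at hc
        exact h1 ⟨by linarith, by linarith⟩)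
  have hS : (0 : ℝ) < 2 ^ (s l + 3) + 1 := by positivity
  obtain ⟨q, hq⟩ := exists_pow_lt (ε := δ / (2 ^ (s l + 3) + 1)) (by positivity)
  rw [div_lt_div_iff₀ (pow_pos2 _) hS, one_mul] at hq
  set r := max r0 q with hr
  obtain ⟨i, -, hi⟩ := C.pr.net (r + 1) z
  have hi' : dist z (α i) < 1 / 2 ^ r := by
    refine lt_of_le_of_lt hi ?_
    rw [pow_succ, div_lt_div_iff₀ (by positivity) (by positivity)]
    have := pow_pos2 r
    linarith
  refine ⟨i, r, l, le_max_left _ _, ?_, hi'⟩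
  intro σ hσ hσT
  have h1 := hδ' σ (by rw [Finset.mem_filter, hQ]; exact ⟨hσ, hσT⟩)
  have hW : δ * 2 ^ q ≤ δ * 2 ^ (r + 2) := by
    refine mul_le_mul_of_nonneg_left (pow_le_pow_right₀ (by norm_num) ?_) hδ.le
    have := le_max_right r0 q
    omega
  have h4 := C.pr.app i i0 (s l + r + 3)
  have hQ' : (2 : ℝ) ^ (s l + r + 3) = 2 ^ s l * (2 * 2 ^ (r + 2)) := by
    rw [pow_add, pow_add, pow_add 2 r]
    ring
  have hr' : (2 : ℝ) ^ (s l + r + 3) = 2 ^ r * 2 ^ (s l + 3) := by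
    rw [pow_add, pow_add, pow_add 2 (s l) 3]
    ring
  have h5 : |dist (α i) (α i0) * 2 ^ (s l + r + 3) - D (i, i0, s l + r + 3)| ≤ 1 := by
    have h6 : dist (α i) (α i0) * 2 ^ (s l + r + 3) - D (i, i0, s l + r + 3) =
        (dist (α i) (α i0) - (D (i, i0, s l + r + 3) : ℝ) / 2 ^ (s l + r + 3)) *
          2 ^ (s l + r + 3) := by
      rw [sub_mul, div_mul_cancel₀ _ (pow_pos2 _).ne']
    rw [h6, abs_mul, abs_of_pos (pow_pos2 (s l + r + 3))]
    calc _ ≤ 1 / 2 ^ (s l + r + 3) * 2 ^ (s l + r + 3) :=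
          mul_le_mul_of_nonneg_right h4 (pow_pos2 _).le
      _ = 1 := div_mul_cancel₀ _ (pow_pos2 _).ne'
  have h6 : |dist z (α i0) * 2 ^ (s l + r + 3) - dist (α i) (α i0) * 2 ^ (s l + r + 3)| ≤
      2 ^ (s l + 3) := by
    rw [← sub_mul, abs_mul, abs_of_pos (pow_pos2 (s l + r + 3))]
    calc _ ≤ 1 / 2 ^ r * 2 ^ (s l + r + 3) :=
          mul_le_mul_of_nonneg_right ((abs_dist_sub_le _ _ _).trans hi'.le) (pow_pos2 _).le
      _ = 2 ^ (s l + 3) := by rw [hr']; field_simp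
  rw [abs_le] at h5 h6
  have h7 : dist z (α i0) * 2 ^ (s l + r + 3) = dist z (α i0) * 2 ^ s l * (2 * 2 ^ (r + 2)) := by
    rw [hQ']; ring
  rw [h7] at h6
  have h2 := le_max_iff.mp h1
  have hWpos : (0 : ℝ) < 2 ^ (r + 2) := pow_pos2 _
  rcases h2 with h2 | h2
  · left
    have h8 : (D (i, i0, s l + r + 3) : ℝ) + 1 + 2 ^ (s l + 3) + 2 ^ (r + 2) ≤
        2 * (qq N s u P (bf σ) l : ℝ) * 2 ^ (r + 2) := by
      have h9 : dist z (α i0) * 2 ^ s l * (2 * 2 ^ (r + 2)) ≤
          ((qq N s u P (bf σ) l : ℝ) - 1 / 2 - δ) * (2 * 2 ^ (r + 2)) :=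
        mul_le_mul_of_nonneg_right (by linarith) (by linarith)
      nlinarith
    exact_mod_cast h8
  · right
    have h8 : (2 * (qq N s u P (bf σ) l : ℝ) + 3) * 2 ^ (r + 2) + 1 + 2 ^ (s l + 3) ≤
        (D (i, i0, s l + r + 3) : ℝ) := by
      have h9 : ((qq N s u P (bf σ) l : ℝ) + 3 / 2 + δ) * (2 * 2 ^ (r + 2)) ≤
          dist z (α i0) * 2 ^ s l * (2 * 2 ^ (r + 2)) :=
        mul_le_mul_of_nonneg_right (by linarith) (by linarith)
      nlinarith
    exact_mod_cast h8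

/-- The scheme. -/
theorem scheme (C : CN M α D N s u i0 s0 P) (hT : M.Has T) (htree : IsTree T)
    (hinf : ∀ n, ∃ σ : List Bool, σ.length = n ∧ T σ = true)
    (hno : ¬ ∃ x : ℕ → Bool, M.Has x ∧ ∀ n, T (pre x n) = true) :
    Scheme M α T (fun l => N (s l + 3)) (EN D N s u i0 P) (fun σ => T σ = true)
      (fun i => s (i + 1)) (fun k => k) (AwN D N s u i0 P T) where
  hT := hT
  tree := htree
  inf := hinf
  nopath := hno
  hn := C.pr.hN.comp (Has.addc C.hs 3)
  decE := C.dec_EN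
  Elt := fun _ _ h => h.1
  decCm := Dec.eq_true hT
  CmT := fun _ h => h
  CmLeaf := fun _ h => h.1
  hv := C.hs.comp (Has.addc Has.id 1)
  vmono := fun _ _ h => C.s_mono (Nat.succ_lt_succ h)
  hlv := Has.id
  decAw := C.dec_AwN hT
  S0 := fun σ _ => C.S0 σ
  S1 := by
    intro k l σ y hk hl _ hy
    obtain ⟨x, hx, hx'⟩ := C.S1 hl hy
    refine ⟨x, hx, hx'.trans (inv_pow_le ?_)⟩
    have := C.s_mono.le_apply (x := l)
    omega
  S2 := fun σ σ' i j j' _ _ hne h1 h2 => C.S2 hne h1 h2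
  S3a := fun i r l σ y hA hσ hl hy => C.S3a htree hA hσ hl hy
  S3b := fun z hz r0 => C.S3b hno hz r0
  S4 := by
    intro τ x k hτ hx _
    have hb : bt T τ = τ.length := by
      apply le_antisymm (bt_le τ)
      apply le_bt le_rfl
      rw [List.take_length]
      exact hτ _ (Nat.le_succ _)
    refine ⟨τ, x, hτ.mem htree, ?_, hb.ge, hx, ?_⟩
    · unfold Good
      rw [hb, List.take_length]
      exact hτ
    · rw [dist_self]
      positivity

end CN

/-- A free window. -/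
theorem free_window (n B : ℕ) (g : ℕ → ℕ) :
    ∃ v, v ≤ 11 * n ∧ ∀ j < n, g j + 3 < B + v ∨ B + v + 7 < g j := by
  by_contra hc
  push Not at hc
  have h1 : ∀ k, k ≤ n → ∃ j < n, B + 11 * k ≤ g j + 3 ∧ g j ≤ B + 11 * k + 7 :=
    fun k hk => hc (11 * k) (by omega)
  choose! f hf1 hf2 hf3 using h1
  obtain ⟨a, ha, b, hb, hab, hfab⟩ := Finset.exists_ne_map_eq_of_card_lt_of_maps_to
    (s := Finset.range (n + 1)) (t := Finset.range n) (f := f) (by simp)
    (by
      intro k hk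
      simp only [Finset.coe_range, Set.mem_Iio] at hk ⊢
      exact hf1 k (by omega))
  simp only [Finset.mem_range] at ha hb
  have h2 := hf2 a (by omega)
  have h3 := hf3 a (by omega)
  have h4 := hf2 b (by omega)
  have h5 := hf3 b (by omega)
  rw [hfab] at h2 h3
  omega

theorem exists_CN {N : ℕ → ℕ} (hp : Pr M α D N) (hval : ∀ p t : ℕ, P * 2 ^ t ≤ p →
      p + 1 ≤ (P + 1) * 2 ^ t → ∃ x : X, (p : ℝ) / 2 ^ (s0 + t) ≤ dist x (α i0) ∧
        dist x (α i0) ≤ (p + 1 : ℝ) / 2 ^ (s0 + t)) :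
    ∃ s u, CN M α D N s u i0 s0 P := by
  set s : ℕ → ℕ := fun l => Nat.rec s0 (fun _ IH => IH + (N (IH + 3) + 10)) l with hs
  have hsM : M.Has s := by
    have h1 : M.Has (fun r : ℕ × (ℕ × ℕ) => r.2.2 + (N (r.2.2 + 3) + 10)) :=
      Has.add (Has.snd.comp Has.snd) (Has.addc (hp.hN.comp (Has.addc (Has.snd.comp Has.snd) 3)) 10)
    exact Has.nat_rec' (f := fun _ : ℕ => s0) (Has.const _) h1 Has.id
  have hfree : ∀ a : ℕ × ℕ, ∃ v, v ≤ 11 * N (s a.1 + 3) ∧ ∀ j < N (s a.1 + 3),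
      D (j, i0, s (a.1 + 1)) + 3 <
        a.2 * 2 ^ (N (s a.1 + 3) + 10) + 2 ^ (N (s a.1 + 3) + 8) + v ∨
      a.2 * 2 ^ (N (s a.1 + 3) + 10) + 2 ^ (N (s a.1 + 3) + 8) + v + 7 <
        D (j, i0, s (a.1 + 1)) := fun a => free_window _ _ _
  have hdec : M.Dec (fun q : (ℕ × ℕ) × ℕ => ∀ j < N (s q.1.1 + 3),
      D (j, i0, s (q.1.1 + 1)) + 3 <
        q.1.2 * 2 ^ (N (s q.1.1 + 3) + 10) + 2 ^ (N (s q.1.1 + 3) + 8) + q.2 ∨
      q.1.2 * 2 ^ (N (s q.1.1 + 3) + 10) + 2 ^ (N (s q.1.1 + 3) + 8) + q.2 + 7 <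
        D (j, i0, s (q.1.1 + 1))) := by
    refine Dec.forall_lt (p := fun r : ((ℕ × ℕ) × ℕ) × ℕ =>
      D (r.2, i0, s (r.1.1.1 + 1)) + 3 <
        r.1.1.2 * 2 ^ (N (s r.1.1.1 + 3) + 10) + 2 ^ (N (s r.1.1.1 + 3) + 8) + r.1.2 ∨
      r.1.1.2 * 2 ^ (N (s r.1.1.1 + 3) + 10) + 2 ^ (N (s r.1.1.1 + 3) + 8) + r.1.2 + 7 <
        D (r.2, i0, s (r.1.1.1 + 1))) ?_
      (hp.hN.comp (Has.addc (hsM.comp (Has.fst.comp Has.fst)) 3))
    have hl : M.Has (fun r : ((ℕ × ℕ) × ℕ) × ℕ => r.1.1.1) :=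
      Has.fst.comp (Has.fst.comp Has.fst)
    have hpp : M.Has (fun r : ((ℕ × ℕ) × ℕ) × ℕ => r.1.1.2) :=
      Has.snd.comp (Has.fst.comp Has.fst)
    have hn : M.Has (fun r : ((ℕ × ℕ) × ℕ) × ℕ => N (s r.1.1.1 + 3)) :=
      hp.hN.comp (Has.addc (hsM.comp hl) 3)
    have hDD : M.Has (fun r : ((ℕ × ℕ) × ℕ) × ℕ => D (r.2, i0, s (r.1.1.1 + 1))) :=
      hp.hD.comp (Has.pair Has.snd (Has.pair (Has.const i0) (hsM.comp (Has.addc hl 1))))
    have hB : M.Has (fun r : ((ℕ × ℕ) × ℕ) × ℕ =>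
        r.1.1.2 * 2 ^ (N (s r.1.1.1 + 3) + 10) + 2 ^ (N (s r.1.1.1 + 3) + 8) + r.1.2) :=
      Has.add (Has.add (Has.mul hpp (Has.pow2 (Has.addc hn 10))) (Has.pow2 (Has.addc hn 8)))
        (Has.snd.comp Has.fst)
    exact Dec.or (Dec.lt (Has.addc hDD 3) hB) (Dec.lt (Has.addc hB 7) hDD)
  obtain ⟨u, hu, hu'⟩ := Has.find hdec (fun a => by
    obtain ⟨v, -, hv⟩ := hfree a
    exact ⟨v, hv⟩)
  refine ⟨s, u, hp, hval, hsM, rfl, fun l => rfl, hu, ?_, ?_⟩
  · intro l p
    obtain ⟨v, hv1, hv2⟩ := hfree (l, p)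
    by_contra hc
    push Not at hc
    exact (hu' (l, p)).2 v (lt_of_le_of_lt hv1 hc) hv2
  · intro l p
    exact (hu' (l, p)).1

end Pool.Agent.STT
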