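import Pool.Agent.Lib_helper19.STT.GScheme
import Pool.Agent.Lib_helper19.STT.GTreeN

/-!
# The scheme of a space in which the distances from each point have gaps
-/

namespace Pool.Agent.STT

open TuringIdeal Encodable Filter Topology

variable {X : Type} [MetricSpace X] {M : TuringIdeal} {α : ℕ → X}
  {D : ℕ × ℕ × ℕ → ℕ} {N pg sg : ℕ → ℕ}

/-- The data of the case. -/
structure CZ (M : TuringIdeal) (α : ℕ → X) (D : ℕ × ℕ × ℕ → ℕ) (N pg sg : ℕ → ℕ) : Prop where
  pr : Pr M α D N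
  hpg : M.Has pg
  hsg : M.Has sg
  left : ∀ i k, 2 ^ sg (Nat.pair i k) ≤ pg (Nat.pair i k) * 2 ^ (k + 1)
  right : ∀ i k, (pg (Nat.pair i k) + 1) * 2 ^ k ≤ 2 ^ sg (Nat.pair i k)
  gap : ∀ c (x : X), dist x (α c.unpair.1) * 2 ^ sg c < pg c ∨
    (pg c : ℝ) + 1 < dist x (α c.unpair.1) * 2 ^ sg c

open Classical in
/-- The side of the gap number `c` on which the point `x` is. -/
noncomputable def zb (α : ℕ → X) (pg sg : ℕ → ℕ) (x : X) (c : ℕ) : Bool :=
  decide (dist x (α c.unpair.1) * 2 ^ sg c < pg c)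

/-- The precision needed for the first `l` gaps. -/
def vz (sg : ℕ → ℕ) (l : ℕ) : ℕ := Nat.rec 0 (fun y IH => IH + sg y + 1) l

theorem vz_succ (l : ℕ) : vz sg (l + 1) = vz sg l + sg l + 1 := rfl

theorem vz_mono : StrictMono (vz sg) := strictMono_nat_of_lt_succ fun l => by
  rw [vz_succ]; omega

theorem sg_lt_vz {c l : ℕ} (h : c < l) : sg c < vz sg l := by
  have h1 : vz sg (c + 1) ≤ vz sg l := vz_mono.monotone h
  rw [vz_succ] at h1
  omega

theorem has_vz (hsg : M.Has sg) : M.Has (vz sg) := by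
  have h1 : M.Has (fun r : ℕ × (ℕ × ℕ) => r.2.2 + sg r.2.1 + 1) :=
    Has.addc (Has.add (Has.snd.comp Has.snd) (hsg.comp (Has.fst.comp Has.snd))) 1
  exact Has.nat_rec' (f := fun _ : ℕ => 0) (Has.const _) h1 Has.id

namespace CZ

theorem bit_ne (C : CZ M α D N pg sg) {x y : X} {c : ℕ}
    (h : zb α pg sg x c ≠ zb α pg sg y c) : 1 / 2 ^ sg c ≤ dist x y := by
  have key : ∀ x y : X, zb α pg sg x c = true → zb α pg sg y c = false →
      1 / 2 ^ sg c ≤ dist x y := by
    intro x y hx hy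
    have h1 : dist x (α c.unpair.1) * 2 ^ sg c < pg c := by simpa [zb] using hx
    have h2 : ¬ dist y (α c.unpair.1) * 2 ^ sg c < pg c := by
      intro h
      have : zb α pg sg y c = true := by simpa [zb] using h
      rw [hy] at this
      exact absurd this (by simp)
    have h3 := (C.gap c y).resolve_left h2
    have h4 : dist y (α c.unpair.1) - dist x (α c.unpair.1) ≤ dist x y := by
      rw [dist_comm x y]
      exact (le_abs_self _).trans (abs_dist_sub_le _ _ _)
    have h5 : (dist y (α c.unpair.1) - dist x (α c.unpair.1)) * 2 ^ sg c ≤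
        dist x y * 2 ^ sg c := mul_le_mul_of_nonneg_right h4 (pow_pos2 _).le
    rw [div_le_iff₀ (pow_pos2 _)]
    linarith [sub_mul (dist y (α c.unpair.1)) (dist x (α c.unpair.1)) (2 ^ sg c)]
  cases hx : zb α pg sg x c with
  | true =>
    cases hy : zb α pg sg y c with
    | true => rw [hx, hy] at h; exact absurd rfl h
    | false => exact key x y hx hy
  | false =>
    cases hy : zb α pg sg y c with
    | false => rw [hx, hy] at h; exact absurd rfl h
    | true => rw [dist_comm]; exact key y x hy hx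

theorem pre_ne (C : CZ M α D N pg sg) {x y : X} {l : ℕ}
    (h : pre (zb α pg sg x) l ≠ pre (zb α pg sg y) l) : 1 / 2 ^ vz sg l ≤ dist x y := by
  have h1 : ∃ c < l, zb α pg sg x c ≠ zb α pg sg y c := by
    by_contra hc
    push Not at hc
    exact h (pre_eq_iff.mpr hc)
  obtain ⟨c, hc, h2⟩ := h1
  exact (inv_pow_le (sg_lt_vz hc).le).trans (C.bit_ne h2)

theorem pre_eq (C : CZ M α D N pg sg) {x y : X} {l : ℕ} (h : dist x y < 1 / 2 ^ vz sg l) :
    pre (zb α pg sg x) l = pre (zb α pg sg y) l := by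
  by_contra hne
  have := C.pre_ne hne
  linarith

/-- The number of gaps which locates a point with the precision `k`. -/
def dm (N : ℕ → ℕ) (k : ℕ) : ℕ := Nat.pair (N (k + 3)) (k + 1)

theorem close (C : CZ M α D N pg sg) {x y : X} {l k : ℕ} (hl : dm N k ≤ l)
    (h : pre (zb α pg sg x) l = pre (zb α pg sg y) l) : dist x y ≤ 1 / 2 ^ k := by
  obtain ⟨i, hi, hi'⟩ := C.pr.net (k + 3) x
  have h1 : Nat.pair i (k + 1) < l := lt_of_lt_of_le (Nat.pair_lt_pair_left (k + 1) hi) hl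
  have h2 := pre_eq_iff.mp h _ h1
  set c := Nat.pair i (k + 1) with hc
  have hci : c.unpair.1 = i := by rw [hc, Nat.unpair_pair]
  have h3 : (2 : ℝ) ^ sg c ≤ pg c * 2 ^ (k + 1 + 1) := by exact_mod_cast C.left i (k + 1)
  have h4 : ((pg c : ℝ) + 1) * 2 ^ (k + 1) ≤ 2 ^ sg c := by exact_mod_cast C.right i (k + 1)
  have hk : (0 : ℝ) < 2 ^ k := pow_pos2 k
  have hsg : (0 : ℝ) < 2 ^ sg c := pow_pos2 _
  have e3 : (2 : ℝ) ^ (k + 3) = 8 * 2 ^ k := by rw [pow_add]; ring
  have e2 : (2 : ℝ) ^ (k + 1 + 1) = 4 * 2 ^ k := by rw [pow_add, pow_add]; ring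
  have e1 : (2 : ℝ) ^ (k + 1) = 2 * 2 ^ k := by rw [pow_add]; ring
  rw [e2] at h3
  rw [e1] at h4
  rw [e3, le_div_iff₀ (by positivity)] at hi'
  have hpg : (0 : ℝ) < pg c := by
    by_contra hn
    have h5 : (pg c : ℝ) * (4 * 2 ^ k) ≤ 0 := mul_nonpos_of_nonpos_of_nonneg (by linarith)
      (by positivity)
    linarith
  have hx : zb α pg sg x c = true := by
    have : dist x (α c.unpair.1) * 2 ^ sg c < pg c := by
      rw [hci]
      have h5 : dist x (α i) * 2 ^ sg c ≤ dist x (α i) * (pg c * (4 * 2 ^ k)) :=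
        mul_le_mul_of_nonneg_left h3 dist_nonneg
      have h6 : dist x (α i) * (pg c * (4 * 2 ^ k)) = (dist x (α i) * (8 * 2 ^ k)) * (pg c / 2) := by
        ring
      have h7 : (dist x (α i) * (8 * 2 ^ k)) * (pg c / 2) ≤ 1 * (pg c / 2) :=
        mul_le_mul_of_nonneg_right hi' (by linarith)
      linarith
    simpa [zb] using this
  have hy : dist y (α i) * 2 ^ sg c < pg c := by
    rw [hx] at h2
    have h5 : dist y (α c.unpair.1) * 2 ^ sg c < pg c := by simpa [zb] using h2.symm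
    rwa [hci] at h5
  have hy2 : dist y (α i) * (2 * 2 ^ k) ≤ 1 := by
    by_contra hn
    push Not at hn
    have h5 : dist y (α i) * 2 ^ sg c < pg c := hy
    have h6 : dist y (α i) * (((pg c : ℝ) + 1) * (2 * 2 ^ k)) ≤ dist y (α i) * 2 ^ sg c :=
      mul_le_mul_of_nonneg_left h4 dist_nonneg
    have h7 : dist y (α i) * (((pg c : ℝ) + 1) * (2 * 2 ^ k)) =
        (dist y (α i) * (2 * 2 ^ k)) * ((pg c : ℝ) + 1) := by ring
    have h8 : 1 * ((pg c : ℝ) + 1) ≤ (dist y (α i) * (2 * 2 ^ k)) * ((pg c : ℝ) + 1) :=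
      mul_le_mul_of_nonneg_right hn.le (by linarith)
    linarith
  have h5 := dist_triangle x (α i) y
  rw [dist_comm (α i) y] at h5
  rw [le_div_iff₀ hk]
  nlinarith

theorem has_bit (C : CZ M α D N pg sg) :
    M.Has (fun q : ℕ × ℕ => zb α pg sg (α q.1) q.2) := by
  have hc : M.Has (fun q : ℕ × ℕ => q.2.unpair.1) :=
    (Has.of_primrec (Primrec.fst.comp Primrec.unpair)).comp Has.snd
  have h1 : M.Dec (fun q : ℕ × ℕ => D (q.1, q.2.unpair.1, sg q.2 + 2) ≤ 4 * pg q.2 + 1) :=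
    Dec.le (C.pr.hD.comp (Has.pair Has.fst (Has.pair hc (Has.addc (C.hsg.comp Has.snd) 2))))
      (Has.addc (Has.mul (Has.const 4) (C.hpg.comp Has.snd)) 1)
  obtain ⟨f, hf, hf'⟩ := h1
  have e : (fun q : ℕ × ℕ => zb α pg sg (α q.1) q.2) = f := by
    funext ⟨j, c⟩
    have h2 := hf' (j, c)
    simp only at h2
    have h3 := C.pr.app j c.unpair.1 (sg c + 2)
    have h4 : |dist (α j) (α c.unpair.1) * 2 ^ sg c * 4 - D (j, c.unpair.1, sg c + 2)| ≤ 1 := by
      have h5 : dist (α j) (α c.unpair.1) * 2 ^ sg c * 4 - D (j, c.unpair.1, sg c + 2) =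
          (dist (α j) (α c.unpair.1) - (D (j, c.unpair.1, sg c + 2) : ℝ) / 2 ^ (sg c + 2)) *
            2 ^ (sg c + 2) := by
        rw [sub_mul, div_mul_cancel₀ _ (pow_pos2 _).ne', pow_add]
        ring
      rw [h5, abs_mul, abs_of_pos (pow_pos2 (sg c + 2))]
      calc _ ≤ 1 / 2 ^ (sg c + 2) * 2 ^ (sg c + 2) :=
            mul_le_mul_of_nonneg_right h3 (pow_pos2 _).le
        _ = 1 := div_mul_cancel₀ _ (pow_pos2 _).ne'
    rw [abs_le] at h4
    rcases C.gap c (α j) with h5 | h5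
    · have h6 : zb α pg sg (α j) c = true := by simpa [zb] using h5
      show zb α pg sg (α j) c = f (j, c)
      rw [h6]
      symm
      rw [h2]
      have h7 : (D (j, c.unpair.1, sg c + 2) : ℝ) ≤ 4 * pg c + 1 := by linarith
      exact_mod_cast h7
    · have h6 : zb α pg sg (α j) c = false := by
        have : ¬ dist (α j) (α c.unpair.1) * 2 ^ sg c < pg c := by linarith
        simpa [zb] using this
      show zb α pg sg (α j) c = f (j, c)
      rw [h6]
      symm
      rw [← Bool.not_eq_true, h2, not_le]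
      have h7 : (4 * pg c + 1 : ℝ) < D (j, c.unpair.1, sg c + 2) := by linarith
      exact_mod_cast h7
  rw [e]
  exact hf

theorem has_pre (C : CZ M α D N pg sg) {β : Type} [Primcodable β] {f g : β → ℕ} (hf : M.Has f)
    (hg : M.Has g) : M.Has (fun a => pre (zb α pg sg (α (f a))) (g a)) :=
  Has.pre_two (x := fun p : β × ℕ => zb α pg sg (α (f p.1)) p.2)
    (C.has_bit.comp ((hf.comp Has.fst).pair Has.snd)) hg

/-- The number of points at the nodes of the level `l`. -/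
def nz (N sg : ℕ → ℕ) (l : ℕ) : ℕ := N (vz sg l + 2)

theorem has_nz (C : CZ M α D N pg sg) : M.Has (nz N sg) :=
  C.pr.hN.comp (Has.addc (has_vz C.hsg) 2)

/-- The points at the node `σ`. -/
def EZ (α : ℕ → X) (N pg sg : ℕ → ℕ) (σ : List Bool) (j : ℕ) : Prop :=
  j < nz N sg σ.length ∧ pre (zb α pg sg (α j)) σ.length = σ

theorem dec_EZ (C : CZ M α D N pg sg) :
    M.Dec (fun q : List Bool × ℕ => EZ α N pg sg q.1 q.2) := by
  have hl : M.Has (fun q : List Bool × ℕ => q.1.length) := Has.length Has.fst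
  exact Dec.and (Dec.lt Has.snd (C.has_nz.comp hl)) (Dec.eq (C.has_pre Has.snd hl) Has.fst)

theorem EZ_of_near (C : CZ M α D N pg sg) {x : X} {l : ℕ} :
    ∃ j, EZ α N pg sg (pre (zb α pg sg x) l) j ∧ dist x (α j) ≤ 1 / 2 ^ (vz sg l + 2) := by
  obtain ⟨j, hj, hj'⟩ := C.pr.net (vz sg l + 2) x
  refine ⟨j, ⟨by rw [pre_length]; exact hj, ?_⟩, hj'⟩
  rw [pre_length]
  refine C.pre_eq ?_
  rw [dist_comm]
  refine lt_of_le_of_lt hj' ?_
  rw [pow_add, div_lt_div_iff₀ (by positivity) (by positivity)]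
  have := pow_pos2 (vz sg l)
  norm_num

/-- The ball number `m` contains all points of the node `τ`. -/
def Cov (D : ℕ × ℕ × ℕ → ℕ) (α : ℕ → X) (N pg sg : ℕ → ℕ) (w : ℕ → Option (ℕ × ℕ × ℕ))
    (τ : List Bool) (m : ℕ) : Prop :=
  (w m).isSome = true ∧ ∀ j < nz N sg τ.length, pre (zb α pg sg (α j)) τ.length = τ →
    (D (j, ((w m).getD (0, 0, 0)).1, vz sg τ.length + 2) + 2) *
        2 ^ ((w m).getD (0, 0, 0)).2.2 <
      ((w m).getD (0, 0, 0)).2.1 * 2 ^ (vz sg τ.length + 2)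

theorem dec_Cov (C : CZ M α D N pg sg) {w : ℕ → Option (ℕ × ℕ × ℕ)} (hw : M.Has w) :
    M.Dec (fun q : List Bool × ℕ => Cov D α N pg sg w q.1 q.2) := by
  unfold Cov
  have hl : M.Has (fun q : List Bool × ℕ => q.1.length) := Has.length Has.fst
  refine Dec.and (Dec.eq_true ((Has.of_primrec Primrec.option_isSome).comp (hw.comp Has.snd))) ?_
  refine Dec.forall_lt (p := fun r : (List Bool × ℕ) × ℕ =>
    pre (zb α pg sg (α r.2)) r.1.1.length = r.1.1 →
    (D (r.2, ((w r.1.2).getD (0, 0, 0)).1, vz sg r.1.1.length + 2) + 2) *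
        2 ^ ((w r.1.2).getD (0, 0, 0)).2.2 <
      ((w r.1.2).getD (0, 0, 0)).2.1 * 2 ^ (vz sg r.1.1.length + 2)) ?_ (C.has_nz.comp hl)
  have hτ : M.Has (fun r : (List Bool × ℕ) × ℕ => r.1.1) := Has.fst.comp Has.fst
  have hlr : M.Has (fun r : (List Bool × ℕ) × ℕ => r.1.1.length) := Has.length hτ
  have hv : M.Has (fun r : (List Bool × ℕ) × ℕ => vz sg r.1.1.length + 2) :=
    Has.addc ((has_vz C.hsg).comp hlr) 2
  have hwm : M.Has (fun r : (List Bool × ℕ) × ℕ => (w r.1.2).getD (0, 0, 0)) :=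
    Has.comp₂ Primrec.option_getD (hw.comp (Has.snd.comp Has.fst)) (Has.const (0, 0, 0))
  refine Dec.imp (Dec.eq (C.has_pre Has.snd hlr) hτ) (Dec.lt (Has.mul (Has.addc (C.pr.hD.comp
    (Has.pair Has.snd (Has.pair (Has.fst.comp hwm) hv))) 2) (Has.pow2 (Has.snd.comp
      (Has.snd.comp hwm)))) (Has.mul (Has.fst.comp (Has.snd.comp hwm)) (Has.pow2 hv)))

/-- If the node is covered, then all points with its pattern are in the ball. -/
theorem Cov.mem (C : CZ M α D N pg sg) {w : ℕ → Option (ℕ × ℕ × ℕ)} {x : X} {l m : ℕ}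
    (h : Cov D α N pg sg w (pre (zb α pg sg x) l) m) :
    ∃ i a e, w m = some (i, a, e) ∧ dist x (α i) < rad a e := by
  obtain ⟨h1, h2⟩ := h
  rw [Option.isSome_iff_exists] at h1
  obtain ⟨⟨i, a, e⟩, hv⟩ := h1
  refine ⟨i, a, e, hv, ?_⟩
  obtain ⟨j, hj, hj'⟩ := C.EZ_of_near (x := x) (l := l)
  have h3 := h2 j hj.1 hj.2
  rw [hv, pre_length] at h3
  simp only [Option.getD_some] at h3
  have h4 := (abs_le.mp (C.pr.near (i := i) hj')).2
  have h5 : ((D (j, i, vz sg l + 2) : ℝ) + 2) / 2 ^ (vz sg l + 2) < (a : ℝ) / 2 ^ e := by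
    rw [div_lt_div_iff₀ (pow_pos2 _) (pow_pos2 _)]
    exact_mod_cast h3
  rw [add_div] at h5
  unfold rad
  linarith

/-- The bits of a point of the model. -/
theorem has_zb (C : CZ M α D N pg sg) {z : X} (hz : z ∈ MPt M α) : M.Has (zb α pg sg z) := by
  obtain ⟨pt, hpt, hpt'⟩ := hz
  have e : zb α pg sg z = fun c => zb α pg sg (α (pt (sg c + 1))) c := by
    funext c
    by_contra hne
    have h1 := C.bit_ne hne
    have h2 := hpt' (sg c + 1)
    rw [pow_succ] at h2
    have h3 : (1 : ℝ) / (2 ^ sg c * 2) = 1 / 2 ^ sg c / 2 := by field_simp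
    have h4 : (0 : ℝ) < 1 / 2 ^ sg c := by positivity
    linarith
  rw [e]
  exact C.has_bit.comp (Has.pair (hpt.comp (Has.addc C.hsg 1)) Has.id)

theorem vz_ge (l : ℕ) : l ≤ vz sg l := vz_mono.le_apply

/-- The tree. -/
theorem tree [CompactSpace X] (C : CZ M α D N pg sg) (h : ¬ XHeineBorel M α) :
    ∃ T : List Bool → Bool, M.Has T ∧ IsTree T ∧
      (∀ n, ∃ σ : List Bool, σ.length = n ∧ T σ = true) ∧
      (¬ ∃ x : ℕ → Bool, M.Has x ∧ ∀ n, T (pre x n) = true) ∧
      ∀ σ, T σ = true → ∃ j, EZ α N pg sg σ j := by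
  classical
  unfold XHeineBorel at h
  push Not at h
  obtain ⟨w, hw, hcov, hno⟩ := h
  have hTD : M.Dec (fun σ : List Bool => (∃ j < nz N sg σ.length,
      pre (zb α pg sg (α j)) σ.length = σ) ∧
      ∀ l < σ.length + 1, ∀ m < l, ¬ Cov D α N pg sg w (σ.take l) m) := by
    refine Dec.and ?_ ?_
    · exact Dec.exists_lt (p := fun r : List Bool × ℕ =>
        pre (zb α pg sg (α r.2)) r.1.length = r.1)
        (Dec.eq (C.has_pre Has.snd (Has.length Has.fst)) Has.fst) (C.has_nz.comp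
          (Has.length Has.id))
    · refine Dec.forall_lt (p := fun r : List Bool × ℕ => ∀ m < r.2,
        ¬ Cov D α N pg sg w (r.1.take r.2) m) ?_ (Has.succ (Has.length Has.id))
      refine Dec.forall_lt (p := fun r : (List Bool × ℕ) × ℕ =>
        ¬ Cov D α N pg sg w (r.1.1.take r.1.2) r.2) ?_ Has.snd
      exact ((C.dec_Cov hw).comp (Has.pair (Has.take (Has.snd.comp Has.fst)
        (Has.fst.comp Has.fst)) Has.snd)).not
  obtain ⟨T, hT, hT'⟩ := hTD
  refine ⟨T, hT, ?_, ?_, ?_, ?_⟩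
  · intro σ b hσ
    rw [hT'] at hσ ⊢
    obtain ⟨⟨j, -, hj⟩, h2⟩ := hσ
    constructor
    · have h3 : pre (zb α pg sg (α j)) σ.length = σ := by
        have h4 := congrArg (List.take σ.length) hj
        rw [pre_take _ (by simp)] at h4
        simpa using h4
      obtain ⟨j', hj', -⟩ := C.EZ_of_near (x := α j) (l := σ.length)
      rw [h3] at hj'
      exact ⟨j', hj'.1, hj'.2⟩
    · intro l hl m hm
      have h1 := h2 l (by rw [List.length_append]; simp; omega) m hm
      rwa [List.take_append_of_le_length (by omega)] at h1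
  · intro n
    obtain ⟨x, hx, hx'⟩ := hno n
    refine ⟨pre (zb α pg sg x) n, pre_length _ _, ?_⟩
    rw [hT']
    constructor
    · obtain ⟨j, hj, -⟩ := C.EZ_of_near (x := x) (l := n)
      exact ⟨j, hj.1, hj.2⟩
    · intro l hl m hm hc
      rw [pre_length] at hl
      rw [pre_take _ (by omega)] at hc
      obtain ⟨i, a, e, h1, h2⟩ := Cov.mem C hc
      have h3 := hx' m (by omega) i a e h1
      linarith
  · rintro ⟨b, hbM, hb⟩
    have hE : ∀ l, ∃ j, pre (zb α pg sg (α j)) l = pre b l := by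
      intro l
      obtain ⟨⟨j, -, hj⟩, -⟩ := (hT' _).mp (hb l)
      rw [pre_length] at hj
      exact ⟨j, hj⟩
    have hdec : M.Dec (fun q : ℕ × ℕ => pre (zb α pg sg (α q.2)) q.1 = pre b q.1) :=
      Dec.eq (C.has_pre Has.snd Has.fst)
        (Has.pre_two (x := fun p : (ℕ × ℕ) × ℕ => b p.2) (hbM.comp Has.snd) Has.fst)
    obtain ⟨js, hjs, hjs'⟩ := Has.find hdec hE
    obtain ⟨z, φ, hφ, hz⟩ := CompactSpace.tendsto_subseq (fun l => α (js l))
    have hzb : ∀ l, pre (zb α pg sg z) l = pre b l := by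
      intro l
      have h1 : ∀ᶠ n in atTop, dist (α (js (φ n))) z < 1 / 2 ^ vz sg l := by
        have := (Metric.tendsto_nhds.mp hz) (1 / 2 ^ vz sg l) (by positivity)
        simpa using this
      obtain ⟨n, hn1, hn2⟩ := (h1.and (eventually_ge_atTop l)).exists
      have h2 : l ≤ φ n := hn2.trans (hφ.id_le n)
      rw [← C.pre_eq hn1, ← pre_take _ h2, (hjs' (φ n)).1, pre_take _ h2]
    have hzM : z ∈ MPt M α := by
      refine ⟨fun k => js (dm N k), hjs.comp ?_, fun k => ?_⟩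
      · exact Has.comp₂ Primrec₂.natPair (C.pr.hN.comp (Has.addc Has.id 3)) (Has.addc Has.id 1)
      · refine C.close (l := dm N k) le_rfl ?_
        rw [hzb, (hjs' (dm N k)).1]
    obtain ⟨m, i, a, e, hv, hd⟩ := hcov z hzM
    obtain ⟨k, hk⟩ := exists_pow_lt (ε := (rad a e - dist z (α i)) / 4) (by linarith)
    set l := max (m + 1) (max (dm N k) k) with hl
    have hT2 := ((hT' _).mp (hb l)).2 l (by rw [pre_length]; omega) m (by omega)
    rw [pre_take _ le_rfl] at hT2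
    apply hT2
    refine ⟨by rw [hv]; rfl, fun j _ hj => ?_⟩
    rw [pre_length] at hj ⊢
    rw [hv]
    simp only [Option.getD_some]
    have h1 : dist (α j) z ≤ 1 / 2 ^ k :=
      C.close (l := l) (by omega) (by rw [hj, hzb])
    have h6 := (abs_le.mp (C.pr.app j i (vz sg l + 2))).1
    have h7 := dist_triangle (α j) z (α i)
    have h8 : (3 : ℝ) / 2 ^ (vz sg l + 2) ≤ 3 * (1 / 2 ^ k) := by
      have h9 : (3 : ℝ) / 2 ^ (vz sg l + 2) = 3 * (1 / 2 ^ (vz sg l + 2)) := by ring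
      rw [h9]
      have h10 : k ≤ vz sg l + 2 := by
        have := vz_ge (sg := sg) l
        omega
      linarith [inv_pow_le h10]
    have h9 : ((D (j, i, vz sg l + 2) : ℝ) + 2) / 2 ^ (vz sg l + 2) < (a : ℝ) / 2 ^ e := by
      rw [add_div]
      have h10 : (3 : ℝ) / 2 ^ (vz sg l + 2) =
          2 / 2 ^ (vz sg l + 2) + 1 / 2 ^ (vz sg l + 2) := by ring
      unfold rad at hk
      linarith
    rw [div_lt_div_iff₀ (pow_pos2 _) (pow_pos2 _)] at h9
    exact_mod_cast h9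
  · intro σ hσ
    obtain ⟨⟨j, hj1, hj2⟩, -⟩ := (hT' _).mp hσ
    exact ⟨j, hj1, hj2⟩

end CZ

end Pool.Agent.STT
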