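import Pool.Agent.Lib_helper19.STT.GForward

/-!
# Consistent codes
-/

namespace Pool.Agent.STT

open TuringIdeal Encodable

variable {M : TuringIdeal} {X : Type} [MetricSpace X] {α : ℕ → X}
  {D : ℕ × ℕ × ℕ → ℕ} {N : ℕ → ℕ} {K : Set X} {f : X → ℝ}

/-- The values `(a, b, e, k)` and `(a', b', e', k')` are consistent. -/
def Cons (u v : ℕ × ℕ × ℕ × ℕ) : Prop :=
  tle (u.1, u.2.1, u.2.2.1) (tadd (v.1, v.2.1, v.2.2.1) (tadd (1, 0, u.2.2.2) (1, 0, v.2.2.2))) ∧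
  tle (v.1, v.2.1, v.2.2.1) (tadd (u.1, u.2.1, u.2.2.1) (tadd (1, 0, u.2.2.2) (1, 0, v.2.2.2)))

theorem cons_iff (u v : ℕ × ℕ × ℕ × ℕ) : Cons u v ↔
    |dy u.1 u.2.1 u.2.2.1 - dy v.1 v.2.1 v.2.2.1| ≤ 1 / 2 ^ u.2.2.2 + 1 / 2 ^ v.2.2.2 := by
  unfold Cons
  have h1 : ∀ k : ℕ, dyt (1, 0, k) = 1 / 2 ^ k := fun k => by unfold dyt dy; push_cast; ring
  simp only [tle_iff, dyt_tadd, h1, abs_le]
  show dy u.1 u.2.1 u.2.2.1 ≤ dy v.1 v.2.1 v.2.2.1 + _ ∧
    dy v.1 v.2.1 v.2.2.1 ≤ dy u.1 u.2.1 u.2.2.1 + _ ↔ _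
  constructor
  · rintro ⟨h2, h3⟩
    constructor <;> linarith
  · rintro ⟨h2, h3⟩
    constructor <;> linarith

theorem Cons.symm {u v : ℕ × ℕ × ℕ × ℕ} (h : Cons u v) : Cons v u := by
  rw [cons_iff] at h ⊢
  rw [abs_sub_comm, add_comm]
  exact h

theorem Dec.cons {β : Type} [Primcodable β] {f g : β → ℕ × ℕ × ℕ × ℕ} (hf : M.Has f)
    (hg : M.Has g) : M.Dec (fun a => Cons (f a) (g a)) := by
  unfold Cons
  have f3 : M.Has (fun a => ((f a).1, (f a).2.1, (f a).2.2.1)) :=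
    Has.pair (Has.fst.comp hf) (Has.pair (Has.fst.comp (Has.snd.comp hf))
      (Has.fst.comp (Has.snd.comp (Has.snd.comp hf))))
  have g3 : M.Has (fun a => ((g a).1, (g a).2.1, (g a).2.2.1)) :=
    Has.pair (Has.fst.comp hg) (Has.pair (Has.fst.comp (Has.snd.comp hg))
      (Has.fst.comp (Has.snd.comp (Has.snd.comp hg))))
  have hk : M.Has (fun a => tadd (1, 0, (f a).2.2.2) (1, 0, (g a).2.2.2)) :=
    Has.tadd (Has.pair (Has.const 1) (Has.pair (Has.const 0)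
      (Has.snd.comp (Has.snd.comp (Has.snd.comp hf))))) (Has.pair (Has.const 1)
      (Has.pair (Has.const 0) (Has.snd.comp (Has.snd.comp (Has.snd.comp hg)))))
  exact Dec.and (Dec.tle f3 (Has.tadd g3 hk)) (Dec.tle g3 (Has.tadd f3 hk))

theorem xcont_of_pcont (hp : Pr M α D N) (h : PCont M α K f) : XCont M α K f := by
  classical
  obtain ⟨c, hc, hc1, hc2⟩ := h
  set d : (ℕ × ℕ × ℕ) × (ℕ × ℕ × ℕ × ℕ) := ((0, 0, 0), (0, 0, 0, 0)) with hd
  set C : ℕ → (ℕ × ℕ × ℕ) × (ℕ × ℕ × ℕ × ℕ) := fun m => (c m).getD d with hCdef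
  have hC : M.Has C := Has.comp₂ Primrec.option_getD hc (Has.const d)
  have hS : M.Dec (fun m => (c m).isSome = true) :=
    Dec.eq_true ((Has.of_primrec Primrec.option_isSome).comp hc)
  set P : (ℕ × ℕ) × ℕ → Prop := fun q => (c q.1.2).isSome = true ∧ q.1.2 ≤ q.1.1 ∧
    (D (q.2, (C q.1.2).1.1, q.1.1 + 2) + 6) * 2 ^ (C q.1.2).1.2.2 ≤
      (C q.1.2).1.2.1 * 2 ^ (q.1.1 + 2) ∧
    ∀ m < q.1.1 + 1, (c m).isSome = true → ¬ Cons (C q.1.2).2 (C m).2 →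
      (C m).1.2.1 * 2 ^ (q.1.1 + 2) ≤ (D (q.2, (C m).1.1, q.1.1 + 2) + 2) * 2 ^ (C m).1.2.2
    with hPdef
  have hP : M.Dec P := by
    have e1 : M.Has (fun q : (ℕ × ℕ) × ℕ => q.1.2) := Has.snd.comp Has.fst
    have e2 : M.Has (fun q : (ℕ × ℕ) × ℕ => q.1.1) := Has.fst.comp Has.fst
    have e3 : M.Has (fun q : (ℕ × ℕ) × ℕ => q.1.1 + 2) := Has.addc e2 2
    have e4 := hC.comp e1
    refine Dec.and (hS.comp e1) (Dec.and (Dec.le e1 e2) (Dec.and (Dec.le (Has.mul (Has.addc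
      (hp.hD.comp (Has.pair Has.snd (Has.pair (Has.fst.comp (Has.fst.comp e4)) e3))) 6)
      (Has.pow2 (Has.snd.comp (Has.snd.comp (Has.fst.comp e4))))) (Has.mul
      (Has.fst.comp (Has.snd.comp (Has.fst.comp e4))) (Has.pow2 e3))) ?_))
    refine Dec.forall_lt (p := fun r : ((ℕ × ℕ) × ℕ) × ℕ => (c r.2).isSome = true →
      ¬ Cons (C r.1.1.2).2 (C r.2).2 → (C r.2).1.2.1 * 2 ^ (r.1.1.1 + 2) ≤
        (D (r.1.2, (C r.2).1.1, r.1.1.1 + 2) + 2) * 2 ^ (C r.2).1.2.2) ?_ (Has.addc e2 1)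
    have g1 : M.Has (fun r : ((ℕ × ℕ) × ℕ) × ℕ => r.1.1.2) := e1.comp Has.fst
    have g3 : M.Has (fun r : ((ℕ × ℕ) × ℕ) × ℕ => r.1.1.1 + 2) := e3.comp Has.fst
    have g4 : M.Has (fun r : ((ℕ × ℕ) × ℕ) × ℕ => C r.2) := hC.comp Has.snd
    exact Dec.imp (hS.comp Has.snd) (Dec.imp (Dec.not (Dec.cons (Has.snd.comp (hC.comp g1))
      (Has.snd.comp g4))) (Dec.le (Has.mul (Has.fst.comp (Has.snd.comp (Has.fst.comp g4)))
      (Has.pow2 g3)) (Has.mul (Has.addc (hp.hD.comp (Has.pair (Has.snd.comp Has.fst)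
      (Has.pair (Has.fst.comp (Has.fst.comp g4)) g3))) 2) (Has.pow2
      (Has.snd.comp (Has.snd.comp (Has.fst.comp g4)))))))
  set g : (ℕ × ℕ) × ℕ → Option ((ℕ × ℕ × ℕ) × (ℕ × ℕ × ℕ × ℕ)) := fun q =>
    if P q then some ((q.2, 1, q.1.1 + 2), (C q.1.2).2) else none with hgdef
  have hg : M.Has g := by
    refine Has.ite (p := P) hP ((Has.of_primrec Primrec.option_some).comp (Has.pair (Has.pair
      Has.snd (Has.pair (Has.const 1) (Has.addc (Has.fst.comp Has.fst) 2))) (Has.snd.comp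
      (hC.comp (Has.snd.comp Has.fst))))) (Has.const none)
  have hgs : ∀ q i r s a b e k, g q = some ((i, r, s), (a, b, e, k)) →
      P q ∧ i = q.2 ∧ rad r s = 1 / 2 ^ (q.1.1 + 2) ∧ (C q.1.2).2 = (a, b, e, k) := by
    intro q i r s a b e k h
    simp only [hgdef] at h
    split at h
    · rename_i hPq
      simp only [Option.some.injEq, Prod.mk.injEq] at h
      obtain ⟨⟨rfl, rfl, rfl⟩, h2⟩ := h
      exact ⟨hPq, rfl, rad_one _, h2⟩
    · exact absurd h (by simp)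
  -- the balls of the conditions
  have hin : ∀ q, P q → ∀ x, dist x (α q.2) < 1 / 2 ^ (q.1.1 + 2) →
      dist x (α (C q.1.2).1.1) < rad (C q.1.2).1.2.1 (C q.1.2).1.2.2 - 1 / 2 ^ q.1.1 := by
    rintro q ⟨-, -, h, -⟩ x hx
    have h1 := (abs_le.mp (hp.app q.2 (C q.1.2).1.1 (q.1.1 + 2))).2
    have h2 := dist_triangle x (α q.2) (α (C q.1.2).1.1)
    have h3 : ((D (q.2, (C q.1.2).1.1, q.1.1 + 2) : ℝ) + 6) * 2 ^ (C q.1.2).1.2.2 ≤
      (C q.1.2).1.2.1 * 2 ^ (q.1.1 + 2) := by exact_mod_cast h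
    have h4 : ((D (q.2, (C q.1.2).1.1, q.1.1 + 2) : ℝ) + 6) / 2 ^ (q.1.1 + 2) ≤
        rad (C q.1.2).1.2.1 (C q.1.2).1.2.2 := by
      unfold rad
      rw [div_le_div_iff₀ (pow_pos2 _) (pow_pos2 _)]
      exact h3
    have h5 : (1 : ℝ) / 2 ^ q.1.1 = 4 * (1 / 2 ^ (q.1.1 + 2)) := by
      rw [pow_add]
      field_simp
      norm_num
    have h6 : ((D (q.2, (C q.1.2).1.1, q.1.1 + 2) : ℝ) + 6) / 2 ^ (q.1.1 + 2) =
        (D (q.2, (C q.1.2).1.1, q.1.1 + 2) : ℝ) / 2 ^ (q.1.1 + 2) +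
          6 * (1 / 2 ^ (q.1.1 + 2)) := by ring
    rw [h5]
    linarith
  have hout : ∀ q, P q → ∀ m ≤ q.1.1, (c m).isSome = true → ¬ Cons (C q.1.2).2 (C m).2 →
      ∀ x, dist x (α q.2) < 1 / 2 ^ (q.1.1 + 2) →
        rad (C m).1.2.1 (C m).1.2.2 - 1 / 2 ^ q.1.1 < dist x (α (C m).1.1) := by
    rintro q ⟨-, -, -, h⟩ m hm hms hcons x hx
    have h := h m (by omega) hms hcons
    have h1 := (abs_le.mp (hp.app q.2 (C m).1.1 (q.1.1 + 2))).1
    have h2 := dist_triangle (α q.2) x (α (C m).1.1)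
    rw [dist_comm (α q.2) x] at h2
    have h3 : ((C m).1.2.1 : ℝ) * 2 ^ (q.1.1 + 2) ≤
      ((D (q.2, (C m).1.1, q.1.1 + 2) : ℝ) + 2) * 2 ^ (C m).1.2.2 := by exact_mod_cast h
    have h4 : rad (C m).1.2.1 (C m).1.2.2 ≤
        ((D (q.2, (C m).1.1, q.1.1 + 2) : ℝ) + 2) / 2 ^ (q.1.1 + 2) := by
      unfold rad
      rw [div_le_div_iff₀ (pow_pos2 _) (pow_pos2 _)]
      exact h3
    have h5 : (1 : ℝ) / 2 ^ q.1.1 = 4 * (1 / 2 ^ (q.1.1 + 2)) := by
      rw [pow_add]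
      field_simp
      norm_num
    have h6 : ((D (q.2, (C m).1.1, q.1.1 + 2) : ℝ) + 2) / 2 ^ (q.1.1 + 2) =
        (D (q.2, (C m).1.1, q.1.1 + 2) : ℝ) / 2 ^ (q.1.1 + 2) +
          2 * (1 / 2 ^ (q.1.1 + 2)) := by ring
    rw [h5]
    linarith
  have key : ∀ q q', P q → P q' → q.1.1 ≤ q'.1.1 → ∀ x, dist x (α q.2) < 1 / 2 ^ (q.1.1 + 2) →
      dist x (α q'.2) < 1 / 2 ^ (q'.1.1 + 2) → Cons (C q'.1.2).2 (C q.1.2).2 := by
    intro q q' h h' hqq x hx hx'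
    by_contra hcons
    have h1 := hin q h x hx
    have h2 := hout q' h' q.1.2 (h.2.1.trans hqq) h.1 hcons x hx'
    have h3 := inv_pow_le hqq
    linarith
  have hCs : ∀ n i r s a b e k, c n = some ((i, r, s), (a, b, e, k)) →
      C n = ((i, r, s), (a, b, e, k)) := fun n i r s a b e k h => by simp [hCdef, h]
  refine ⟨_, Has.reindex hg, ?_, ?_, ?_⟩
  · intro n i r s a b e k hn n' i' r' s' a' b' e' k' hn' hx
    obtain ⟨x, hx, hx'⟩ := hx
    obtain ⟨q, hq⟩ := reindex_iff.mp ⟨n, hn⟩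
    obtain ⟨q', hq'⟩ := reindex_iff.mp ⟨n', hn'⟩
    obtain ⟨h1, rfl, h2, h3⟩ := hgs _ _ _ _ _ _ _ _ hq
    obtain ⟨h1', rfl, h2', h3'⟩ := hgs _ _ _ _ _ _ _ _ hq'
    rw [h2] at hx
    rw [h2'] at hx'
    have h4 : Cons (C q.1.2).2 (C q'.1.2).2 := by
      rcases le_total q.1.1 q'.1.1 with h | h
      · exact (key q q' h1 h1' h x hx hx').symm
      · exact key q' q h1' h1 h x hx' hx
    rw [cons_iff, h3, h3'] at h4
    exact h4
  · intro n i r s a b e k hn x hx hxd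
    obtain ⟨q, hq⟩ := reindex_iff.mp ⟨n, hn⟩
    obtain ⟨h1, rfl, h2, h3⟩ := hgs _ _ _ _ _ _ _ _ hq
    rw [h2] at hxd
    have h4 := hin q h1 x hxd
    obtain ⟨v, hv⟩ := Option.isSome_iff_exists.mp h1.1
    obtain ⟨⟨i, r', s'⟩, a', b', e', k'⟩ := v
    rw [hCs _ _ _ _ _ _ _ _ hv] at h3 h4
    simp only [Prod.mk.injEq] at h3 h4
    obtain ⟨rfl, rfl, rfl, rfl⟩ := h3
    have h5 : (0 : ℝ) < 1 / 2 ^ q.1.1 := by positivity
    exact hc1 _ _ _ _ _ _ _ _ hv x hx (by linarith)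
  · intro x hx k
    obtain ⟨m, i, r, s, a, b, e, l, hm, h1, h2⟩ := hc2 x hx k
    obtain ⟨n₀, hn₀⟩ := exists_pow_lt (ε := (rad r s - dist x (α i)) / 2) (by linarith)
    set n := max m n₀ with hndef
    have hn : (1 : ℝ) / 2 ^ n < (rad r s - dist x (α i)) / 2 :=
      lt_of_le_of_lt (inv_pow_le (le_max_right _ _)) hn₀
    obtain ⟨j, -, hj⟩ := hp.net (n + 3) x
    have hj' : dist x (α j) < 1 / 2 ^ (n + 2) := by
      refine lt_of_le_of_lt hj ?_
      rw [pow_succ 2 (n + 2), div_lt_div_iff₀ (by positivity) (by positivity)]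
      have := pow_pos2 (n + 2)
      linarith
    have hPq : P ((n, m), j) := by
      refine ⟨by simp [hm], le_max_left _ _, ?_, ?_⟩
      · simp only [hCs _ _ _ _ _ _ _ _ hm]
        have h3 := (abs_le.mp (hp.near (i := i) hj'.le)).1
        have h4 : ((D (j, i, n + 2) : ℝ) + 6) / 2 ^ (n + 2) ≤ (r : ℝ) / 2 ^ s := by
          have h5 : ((D (j, i, n + 2) : ℝ) + 6) / 2 ^ (n + 2) =
            (D (j, i, n + 2) : ℝ) / 2 ^ (n + 2) + 6 * (1 / 2 ^ (n + 2)) := by ring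
          have h6 : (1 : ℝ) / 2 ^ n = 4 * (1 / 2 ^ (n + 2)) := by
            rw [pow_add]
            field_simp
            norm_num
          have h7 : (2 : ℝ) / 2 ^ (n + 2) = 2 * (1 / 2 ^ (n + 2)) := by ring
          rw [h5]
          unfold rad at hn
          rw [h6] at hn
          rw [h7] at h3
          linarith
        rw [div_le_div_iff₀ (pow_pos2 _) (pow_pos2 _)] at h4
        exact_mod_cast h4
      · intro m' _ hm' hcons
        simp only at hm' hcons ⊢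
        obtain ⟨v, hv⟩ := Option.isSome_iff_exists.mp hm'
        obtain ⟨⟨i', r', s'⟩, a', b', e', k'⟩ := v
        rw [hCs _ _ _ _ _ _ _ _ hm, hCs _ _ _ _ _ _ _ _ hv, cons_iff] at hcons
        rw [hCs _ _ _ _ _ _ _ _ hv]
        simp only at hcons ⊢
        have h3 : rad r' s' ≤ dist x (α i') := by
          by_contra hlt
          push Not at hlt
          refine hcons ?_
          have h4 := hc1 _ _ _ _ _ _ _ _ hm x hx h1
          have h5 := hc1 _ _ _ _ _ _ _ _ hv x hx hlt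
          have h6 := abs_sub_le (dy a b e) (f x) (dy a' b' e')
          rw [abs_sub_comm (f x)] at h4
          linarith
        have h4 := (abs_le.mp (hp.near (i := i') hj'.le)).2
        have h5 : (r' : ℝ) / 2 ^ s' ≤ ((D (j, i', n + 2) : ℝ) + 2) / 2 ^ (n + 2) := by
          have h6 : ((D (j, i', n + 2) : ℝ) + 2) / 2 ^ (n + 2) =
            (D (j, i', n + 2) : ℝ) / 2 ^ (n + 2) + 2 / 2 ^ (n + 2) := by ring
          rw [h6]
          unfold rad at h3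
          linarith
        rw [div_le_div_iff₀ (pow_pos2 _) (pow_pos2 _)] at h5
        exact_mod_cast h5
    have hgq : g ((n, m), j) = some ((j, 1, n + 2), (a, b, e, l)) := by
      simp only [hgdef]
      rw [if_pos hPq, hCs _ _ _ _ _ _ _ _ hm]
    obtain ⟨n', hn'⟩ := reindex_iff.mpr ⟨((n, m), j), hgq⟩
    refine ⟨n', j, 1, n + 2, a, b, e, l, hn', ?_, h2⟩
    rw [rad_one]
    exact hj'

theorem pcont_of_xcont (h : XCont M α K f) : PCont M α K f := by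
  obtain ⟨c, hc, -, h1, h2⟩ := h
  exact ⟨c, hc, h1, h2⟩

theorem xcont_iff (hX : Presented M α) : XCont M α K f ↔ PCont M α K f := by
  obtain ⟨D, N, hp⟩ := hX.data
  exact ⟨pcont_of_xcont, xcont_of_pcont hp⟩

theorem xinC_iff (hX : Presented M α) : XInC M α K f ↔ PInC M α K f := by
  unfold XInC PInC
  rw [xcont_iff hX]

theorem xtietze_iff (hX : Presented M α) : XTietze M α ↔ PTietze M α := by
  unfold XTietze PTietze
  simp only [xinC_iff hX]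

theorem xmcShane_iff (hX : Presented M α) : XMcShane M α ↔ PMcShane M α := by
  unfold XMcShane PMcShane
  simp only [xcont_iff hX]

theorem xtietzeDiscrete_iff (hX : Presented M α) :
    XTietzeDiscrete M α ↔ PTietzeDiscrete M α := by
  unfold XTietzeDiscrete PTietzeDiscrete
  simp only [xcont_iff hX, xinC_iff hX]

end Pool.Agent.STT
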