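import Pool.Agent.Lib_helper19.STT.GForward

/-!
# Finite covers of the model
-/

namespace Pool.Agent.STT

open TuringIdeal Encodable Filter Topology

variable {M : TuringIdeal} {X : Type} [MetricSpace X] {α : ℕ → X}
  {D : ℕ × ℕ × ℕ → ℕ} {N : ℕ → ℕ} {K : Set X} {f : X → ℝ}

theorem shrink {y : ℝ} (hy : 0 ≤ y) {a e : ℕ} (h : y < rad a e) :
    ∃ t, y < rad (a * 2 ^ t - 2 ^ e) (e + t) := by
  obtain ⟨t, ht⟩ := exists_pow_lt (ε := rad a e - y) (by linarith)
  refine ⟨t, ?_⟩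
  have h1 : (1 : ℝ) / 2 ^ t < (a : ℝ) / 2 ^ e := by unfold rad at ht; linarith
  have h2 : 2 ^ e ≤ a * 2 ^ t := by
    rw [div_lt_div_iff₀ (pow_pos2 _) (pow_pos2 _), one_mul] at h1
    exact_mod_cast h1.le
  have h3 : rad (a * 2 ^ t - 2 ^ e) (e + t) = rad a e - 1 / 2 ^ t := by
    unfold rad
    rw [Nat.cast_sub h2, pow_add]
    push_cast
    field_simp
  rw [h3]
  linarith

theorem unshrink {y : ℝ} (hy : 0 ≤ y) {a e t : ℕ} (h : y < rad (a * 2 ^ t - 2 ^ e) (e + t)) :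
    y < rad a e - 1 / 2 ^ t := by
  have h2 : 2 ^ e ≤ a * 2 ^ t := by
    by_contra hc
    push Not at hc
    rw [Nat.sub_eq_zero_of_le hc.le] at h
    unfold rad at h
    simp only [Nat.cast_zero, zero_div] at h
    linarith
  have h3 : rad (a * 2 ^ t - 2 ^ e) (e + t) = rad a e - 1 / 2 ^ t := by
    unfold rad
    rw [Nat.cast_sub h2, pow_add]
    push_cast
    field_simp
  rw [← h3]
  exact h

theorem exists_FD (hp : Pr M α D N) (HB : XHeineBorel M α) (hK : XClosed M α K)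
    (hf : PCont M α K f) : ∃ vl ok L B, FD M α K f vl ok L B := by
  classical
  obtain ⟨hKP, w, hw, hKw⟩ := hK
  obtain ⟨c, hc, hc1, hc2⟩ := hf
  set d : (ℕ × ℕ × ℕ) × (ℕ × ℕ × ℕ × ℕ) := ((0, 0, 0), (0, 0, 0, 0)) with hd
  have hdiv : Primrec (fun m : ℕ => m / 2) := Primrec.nat_div.comp Primrec.id (Primrec.const 2)
  have hcd : ∀ {β : Type} [Primcodable β] {g : β → ℕ}, M.Has g →
      M.Has (fun a => (c (g a / 2)).getD d) := by
    intro β _ g hg
    exact Has.comp₂ Primrec.option_getD (hc.comp ((Has.of_primrec hdiv).comp hg)) (Has.const d)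
  have hwd : ∀ {β : Type} [Primcodable β] {g : β → ℕ}, M.Has g →
      M.Has (fun a => (w (g a / 2)).getD (0, 0, 0)) := by
    intro β _ g hg
    exact Has.comp₂ Primrec.option_getD (hw.comp ((Has.of_primrec hdiv).comp hg))
      (Has.const (0, 0, 0))
  have hmod : ∀ {β : Type} [Primcodable β] {g : β → ℕ}, M.Has g → ∀ r,
      M.Dec (fun a => g a % 2 = r) := by
    intro β _ g hg r
    exact Dec.eq (Has.comp₂ Primrec.nat_mod hg (Has.const 2)) (Has.const r)
  -- the balls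
  set WB : ℕ × ℕ → ℕ × ℕ × ℕ := fun q => if q.2 % 2 = 0 then (w (q.2 / 2)).getD (0, 0, 0)
    else if q.1 ≤ ((c (q.2 / 2)).getD d).2.2.2.2 then ((c (q.2 / 2)).getD d).1 else (0, 0, 0)
    with hWB
  have hWBM : M.Has WB := by
    refine Has.ite (p := fun q : ℕ × ℕ => q.2 % 2 = 0) (hmod Has.snd 0) (hwd Has.snd) ?_
    refine Has.ite (p := fun q : ℕ × ℕ => q.1 ≤ ((c (q.2 / 2)).getD d).2.2.2.2)
      (Dec.le Has.fst (Has.snd.comp (Has.snd.comp (Has.snd.comp (Has.snd.comp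
        (hcd Has.snd)))))) (Has.fst.comp (hcd Has.snd)) (Has.const (0, 0, 0))
  have hcov : ∀ k, ∀ x ∈ MPt M α, ∃ m, dist x (α (WB (k, m)).1) <
      rad (WB (k, m)).2.1 (WB (k, m)).2.2 := by
    intro k x hx
    by_cases hxK : x ∈ K
    · obtain ⟨n, i, r, s, a, b, e, l, h1, h2, h3⟩ := hc2 x hxK k
      refine ⟨2 * n + 1, ?_⟩
      have h4 : WB (k, 2 * n + 1) = (i, r, s) := by
        simp only [hWB]
        have h5 : (2 * n + 1) / 2 = n := by omega
        rw [if_neg (by omega), h5, h1]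
        simp only [Option.getD_some]
        rw [if_pos h3]
      rw [h4]
      exact h2
    · have h1 := (hKw x hx).not.mp hxK
      push Not at h1
      obtain ⟨n, i, a, e, h2, h3⟩ := h1
      refine ⟨2 * n, ?_⟩
      have h4 : WB (k, 2 * n) = (i, a, e) := by
        simp only [hWB]
        have h5 : 2 * n / 2 = n := by omega
        rw [if_pos (by omega), h5, h2]
        rfl
      rw [h4]
      exact h3
  -- finite covers, uniformly
  have hVer : ∀ k, ∃ L, ∀ j < N (L + 2), ∃ m < L,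
      (D (j, (WB (k, m)).1, L + 2) + 3) * 2 ^ (WB (k, m)).2.2 <
        (WB (k, m)).2.1 * 2 ^ (L + 2) := by
    intro k
    have hg : M.Has (fun g : ℕ => (some ((WB (k, g.unpair.1)).1,
        (WB (k, g.unpair.1)).2.1 * 2 ^ g.unpair.2 - 2 ^ (WB (k, g.unpair.1)).2.2,
        (WB (k, g.unpair.1)).2.2 + g.unpair.2) : Option (ℕ × ℕ × ℕ))) := by
      have u1 : M.Has (fun g : ℕ => WB (k, g.unpair.1)) := hWBM.comp (Has.pair (Has.const k)
        (Has.of_primrec (Primrec.fst.comp Primrec.unpair)))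
      have u2 : M.Has (fun g : ℕ => g.unpair.2) :=
        Has.of_primrec (Primrec.snd.comp Primrec.unpair)
      exact (Has.of_primrec Primrec.option_some).comp (Has.pair (Has.fst.comp u1) (Has.pair
        (Has.sub (Has.mul (Has.fst.comp (Has.snd.comp u1)) (Has.pow2 u2)) (Has.pow2
          (Has.snd.comp (Has.snd.comp u1)))) (Has.add (Has.snd.comp (Has.snd.comp u1)) u2)))
    obtain ⟨L, hL⟩ := HB _ hg (by
      intro x hx
      obtain ⟨m, hm⟩ := hcov k x hx
      obtain ⟨t, ht⟩ := shrink dist_nonneg hm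
      refine ⟨Nat.pair m t, _, _, _, rfl, ?_⟩
      simp only [Nat.unpair_pair]
      exact ht)
    refine ⟨L, fun j _ => ?_⟩
    obtain ⟨g, hg1, i, a, e, hg2, hg3⟩ := hL (α j) (MPt.base M α j)
    simp only [Option.some.injEq, Prod.mk.injEq] at hg2
    obtain ⟨rfl, rfl, rfl⟩ := hg2
    refine ⟨g.unpair.1, lt_of_le_of_lt (Nat.unpair_left_le g) hg1, ?_⟩
    have h1 := unshrink dist_nonneg hg3
    have h2 : (1 : ℝ) / 2 ^ L ≤ 1 / 2 ^ g.unpair.2 :=
      inv_pow_le ((Nat.unpair_right_le g).trans hg1.le)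
    have h3 := (abs_le.mp (hp.app j (WB (k, g.unpair.1)).1 (L + 2))).1
    have h4 : ((D (j, (WB (k, g.unpair.1)).1, L + 2) : ℝ) + 3) / 2 ^ (L + 2) <
        ((WB (k, g.unpair.1)).2.1 : ℝ) / 2 ^ (WB (k, g.unpair.1)).2.2 := by
      have h5 : (1 : ℝ) / 2 ^ L = 4 / 2 ^ (L + 2) := by
        rw [pow_add]
        field_simp
        norm_num
      rw [h5] at h2
      have h6 : (4 : ℝ) / 2 ^ (L + 2) = 3 / 2 ^ (L + 2) + 1 / 2 ^ (L + 2) := by ring
      rw [add_div]
      unfold rad at h1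
      linarith
    rw [div_lt_div_iff₀ (pow_pos2 _) (pow_pos2 _)] at h4
    exact_mod_cast h4
  have hVerD : M.Dec (fun q : ℕ × ℕ => ∀ j < N (q.2 + 2), ∃ m < q.2,
      (D (j, (WB (q.1, m)).1, q.2 + 2) + 3) * 2 ^ (WB (q.1, m)).2.2 <
        (WB (q.1, m)).2.1 * 2 ^ (q.2 + 2)) := by
    refine Dec.forall_lt (p := fun r : (ℕ × ℕ) × ℕ => ∃ m < r.1.2,
      (D (r.2, (WB (r.1.1, m)).1, r.1.2 + 2) + 3) * 2 ^ (WB (r.1.1, m)).2.2 <
        (WB (r.1.1, m)).2.1 * 2 ^ (r.1.2 + 2)) ?_ (hp.hN.comp (Has.addc Has.snd 2))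
    refine Dec.exists_lt (p := fun r : ((ℕ × ℕ) × ℕ) × ℕ =>
      (D (r.1.2, (WB (r.1.1.1, r.2)).1, r.1.1.2 + 2) + 3) * 2 ^ (WB (r.1.1.1, r.2)).2.2 <
        (WB (r.1.1.1, r.2)).2.1 * 2 ^ (r.1.1.2 + 2)) ?_ (Has.snd.comp Has.fst)
    have hW : M.Has (fun r : ((ℕ × ℕ) × ℕ) × ℕ => WB (r.1.1.1, r.2)) :=
      hWBM.comp (Has.pair (Has.fst.comp (Has.fst.comp Has.fst)) Has.snd)
    have hl : M.Has (fun r : ((ℕ × ℕ) × ℕ) × ℕ => r.1.1.2 + 2) :=
      Has.addc (Has.snd.comp (Has.fst.comp Has.fst)) 2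
    exact Dec.lt (Has.mul (Has.addc (hp.hD.comp (Has.pair (Has.snd.comp Has.fst) (Has.pair
      (Has.fst.comp hW) hl))) 3) (Has.pow2 (Has.snd.comp (Has.snd.comp hW))))
      (Has.mul (Has.fst.comp (Has.snd.comp hW)) (Has.pow2 hl))
  obtain ⟨L, hL, hL'⟩ := Has.find hVerD hVer
  -- each point of the sequence is in one of the balls, with a margin
  have hcert : ∀ q : ℕ × ℕ, ∃ m < L q.1,
      (D (q.2, (WB (q.1, m)).1, L q.1 + 4) + 3) * 2 ^ (WB (q.1, m)).2.2 <
        (WB (q.1, m)).2.1 * 2 ^ (L q.1 + 4) := by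
    rintro ⟨k, j⟩
    obtain ⟨j', hj', hj''⟩ := hp.net (L k + 2) (α j)
    obtain ⟨m, hm, hm'⟩ := (hL' k).1 j' hj'
    refine ⟨m, hm, ?_⟩
    simp only
    have h1 : ((D (j', (WB (k, m)).1, L k + 2) : ℝ) + 3) / 2 ^ (L k + 2) <
        ((WB (k, m)).2.1 : ℝ) / 2 ^ (WB (k, m)).2.2 := by
      rw [div_lt_div_iff₀ (pow_pos2 _) (pow_pos2 _)]
      exact_mod_cast hm'
    have h2 := (abs_le.mp (hp.app j' (WB (k, m)).1 (L k + 2))).2
    have h3 := (abs_le.mp (hp.app j (WB (k, m)).1 (L k + 4))).1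
    have h4 := dist_triangle (α j) (α j') (α (WB (k, m)).1)
    have h5 : ((D (j, (WB (k, m)).1, L k + 4) : ℝ) + 3) / 2 ^ (L k + 4) <
        ((WB (k, m)).2.1 : ℝ) / 2 ^ (WB (k, m)).2.2 := by
      rw [add_div] at h1 ⊢
      have e1 : (1 : ℝ) / 2 ^ (L k + 2) = 4 * (1 / 2 ^ (L k + 4)) := by
        rw [pow_add, pow_add]
        field_simp
        norm_num
      have e2 : (3 : ℝ) / 2 ^ (L k + 2) = 12 * (1 / 2 ^ (L k + 4)) := by
        rw [pow_add, pow_add]
        field_simp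
        norm_num
      have e3 : (3 : ℝ) / 2 ^ (L k + 4) = 3 * (1 / 2 ^ (L k + 4)) := by ring
      have e4 : (0 : ℝ) < 1 / 2 ^ (L k + 4) := by positivity
      rw [e1] at h2 hj''
      rw [e2] at h1
      rw [e3]
      linarith
    rw [div_lt_div_iff₀ (pow_pos2 _) (pow_pos2 _)] at h5
    exact_mod_cast h5
  have hcertD : M.Dec (fun r : (ℕ × ℕ) × ℕ =>
      (D (r.1.2, (WB (r.1.1, r.2)).1, L r.1.1 + 4) + 3) * 2 ^ (WB (r.1.1, r.2)).2.2 <
        (WB (r.1.1, r.2)).2.1 * 2 ^ (L r.1.1 + 4)) := by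
    have hW : M.Has (fun r : (ℕ × ℕ) × ℕ => WB (r.1.1, r.2)) :=
      hWBM.comp (Has.pair (Has.fst.comp Has.fst) Has.snd)
    have hl : M.Has (fun r : (ℕ × ℕ) × ℕ => L r.1.1 + 4) :=
      Has.addc (hL.comp (Has.fst.comp Has.fst)) 4
    exact Dec.lt (Has.mul (Has.addc (hp.hD.comp (Has.pair (Has.snd.comp Has.fst) (Has.pair
      (Has.fst.comp hW) hl))) 3) (Has.pow2 (Has.snd.comp (Has.snd.comp hW))))
      (Has.mul (Has.fst.comp (Has.snd.comp hW)) (Has.pow2 hl))
  obtain ⟨nn, hnn, hnn'⟩ := Has.find hcertD (fun q => by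
    obtain ⟨m, -, hm⟩ := hcert q
    exact ⟨m, hm⟩)
  have hnnL : ∀ k j, nn (k, j) < L k := by
    intro k j
    obtain ⟨m, hm1, hm2⟩ := hcert (k, j)
    refine lt_of_le_of_lt ?_ hm1
    by_contra hcc
    push Not at hcc
    exact (hnn' (k, j)).2 m hcc hm2
  have hball : ∀ k j x, dist x (α j) ≤ 1 / 2 ^ (L k + 3) →
      dist x (α (WB (k, nn (k, j))).1) <
        rad (WB (k, nn (k, j))).2.1 (WB (k, nn (k, j))).2.2 := by
    intro k j x hx
    have h1 := (hnn' (k, j)).1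
    simp only at h1
    have h2 : ((D (j, (WB (k, nn (k, j))).1, L k + 4) : ℝ) + 3) / 2 ^ (L k + 4) <
        ((WB (k, nn (k, j))).2.1 : ℝ) / 2 ^ (WB (k, nn (k, j))).2.2 := by
      rw [div_lt_div_iff₀ (pow_pos2 _) (pow_pos2 _)]
      exact_mod_cast h1
    have h3 := (abs_le.mp (hp.app j (WB (k, nn (k, j))).1 (L k + 4))).2
    have h4 := dist_triangle x (α j) (α (WB (k, nn (k, j))).1)
    have e1 : (1 : ℝ) / 2 ^ (L k + 3) = 2 * (1 / 2 ^ (L k + 4)) := by
      rw [pow_succ 2 (L k + 3)]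
      field_simp
    have e3 : (3 : ℝ) / 2 ^ (L k + 4) = 3 * (1 / 2 ^ (L k + 4)) := by ring
    rw [e1] at hx
    rw [add_div, e3] at h2
    unfold rad
    linarith
  -- the bound
  set bb : ℕ → ℕ := fun m => ((c (m / 2)).getD d).2.1 + ((c (m / 2)).getD d).2.2.1 with hbb
  have hbbM : M.Has bb := Has.add (Has.fst.comp (Has.snd.comp (hcd Has.id)))
    (Has.fst.comp (Has.snd.comp (Has.snd.comp (hcd Has.id))))
  set B0 : ℕ → ℕ := fun n => Nat.rec 0 (fun y IH => IH + bb y) n with hB0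
  have hB0M : M.Has B0 := by
    have h1 : M.Has (fun r : ℕ × (ℕ × ℕ) => r.2.2 + bb r.2.1) :=
      Has.add (Has.snd.comp Has.snd) (hbbM.comp (Has.fst.comp Has.snd))
    exact Has.nat_rec' (f := fun _ : ℕ => 0) (Has.const _) h1 Has.id
  have hB0le : ∀ n m, m < n → bb m ≤ B0 n := by
    intro n
    induction n with
    | zero => intro m hm; omega
    | succ n ih =>
      intro m hm
      have h1 : B0 (n + 1) = B0 n + bb n := rfl
      rw [h1]
      rcases Nat.lt_succ_iff_lt_or_eq.mp hm with h | rfl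
      · have := ih m h
        omega
      · omega
  refine ⟨fun q => (((c (nn q / 2)).getD d).2.1, ((c (nn q / 2)).getD d).2.2.1,
    ((c (nn q / 2)).getD d).2.2.2.1), fun q => nn q % 2 = 1, fun k => L k + 3,
    fun k => B0 (L k), Has.addc hL 3, hB0M.comp hL, ?_, hmod hnn 1, ?_, ?_⟩
  · exact Has.pair (Has.fst.comp (Has.snd.comp (hcd hnn))) (Has.pair
      (Has.fst.comp (Has.snd.comp (Has.snd.comp (hcd hnn))))
      (Has.fst.comp (Has.snd.comp (Has.snd.comp (Has.snd.comp (hcd hnn))))))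
  · intro x hx k j hd'
    have h1 := hball k j x hd'
    rcases Nat.mod_two_eq_zero_or_one (nn (k, j)) with h2 | h2
    · exfalso
      have h3 : WB (k, nn (k, j)) = (w (nn (k, j) / 2)).getD (0, 0, 0) := by
        simp only [hWB]
        rw [if_pos h2]
      rw [h3] at h1
      cases hv : w (nn (k, j) / 2) with
      | none =>
        rw [hv] at h1
        simp only [Option.getD_none, rad, Nat.cast_zero, zero_div] at h1
        exact absurd h1 (not_lt.mpr dist_nonneg)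
      | some v =>
        obtain ⟨i, a, e⟩ := v
        rw [hv] at h1
        simp only [Option.getD_some] at h1
        have h4 := (hKw x (hKP hx)).mp hx _ i a e hv
        linarith
    · refine ⟨h2, ?_⟩
      have h3 : WB (k, nn (k, j)) = if k ≤ ((c (nn (k, j) / 2)).getD d).2.2.2.2 then
          ((c (nn (k, j) / 2)).getD d).1 else (0, 0, 0) := by
        simp only [hWB]
        rw [if_neg (by omega)]
      rw [h3] at h1
      cases hv : c (nn (k, j) / 2) with
      | none =>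
        exfalso
        rw [hv] at h1
        simp only [Option.getD_none, hd, ite_self, rad, Nat.cast_zero, zero_div] at h1
        exact absurd h1 (not_lt.mpr dist_nonneg)
      | some v =>
        obtain ⟨⟨i, r, s⟩, a, b, e, l⟩ := v
        rw [hv] at h1
        simp only [Option.getD_some] at h1 ⊢
        split at h1
        · rename_i hkl
          exact (hc1 _ i r s a b e l hv x hx h1).trans (inv_pow_le hkl)
        · exfalso
          simp only [rad, Nat.cast_zero, zero_div] at h1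
          exact absurd h1 (not_lt.mpr dist_nonneg)
  · intro k j
    have h1 := hB0le (L k) (nn (k, j)) (hnnL k j)
    simp only [hbb] at h1
    set a := ((c (nn (k, j) / 2)).getD d).2.1 with ha
    set b := ((c (nn (k, j) / 2)).getD d).2.2.1 with hb
    have h2 : ((a : ℝ) + b) ≤ B0 (L k) := by exact_mod_cast h1
    refine le_trans ?_ h2
    unfold dyt dy
    simp only
    rw [abs_div, abs_of_pos (pow_pos2 _)]
    have h3 : |(a : ℝ) - b| ≤ a + b := by
      rw [abs_le]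
      constructor <;> linarith [Nat.cast_nonneg (α := ℝ) a, Nat.cast_nonneg (α := ℝ) b]
    refine (div_le_self (abs_nonneg _) ?_).trans h3
    exact one_le_pow₀ (by norm_num)

/-- **The direct implication.** -/
theorem tietze_of_hb (hP : Presented M α) (HB : XHeineBorel M α) : PTietze M α := by
  intro K hK f hf
  obtain ⟨D, N, hp⟩ := hP.data
  obtain ⟨vl, ok, L, B, H⟩ := exists_FD hp HB hK hf.1
  exact H.extend hp

end Pool.Agent.STT
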