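import Pool.Agent.Lib_helper19.STT.GScheme

/-!
# An extension of the function of a scheme computes a path
-/

namespace Pool.Agent.STT

open TuringIdeal Encodable

variable {X : Type} [MetricSpace X] {M : TuringIdeal} {α : ℕ → X} {T : List Bool → Bool}
  {n : ℕ → ℕ} {E : List Bool → ℕ → Prop} {Cm : List Bool → Prop} {v lv : ℕ → ℕ}
  {Aw : ℕ → ℕ → ℕ → Prop}

theorem exists_ext_above (hT : IsTree T) {ν : List Bool} (hν : Ext T ν) :
    ∀ k, ∃ τ : List Bool, τ.length = ν.length + k ∧ Ext T τ ∧ τ.take ν.length = ν := by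
  intro k
  induction k with
  | zero => exact ⟨ν, rfl, hν, List.take_length⟩
  | succ k ih =>
    obtain ⟨τ, h6, h7, h8⟩ := ih
    rcases Ext.child hT h7 with h9 | h9
    · exact ⟨_, by simp; omega, h9, by rw [List.take_append_of_le_length (by omega), h8]⟩
    · exact ⟨_, by simp; omega, h9, by rw [List.take_append_of_le_length (by omega), h8]⟩

theorem Scheme.decode (S : Scheme M α T n E Cm v lv Aw) {D : ℕ × ℕ × ℕ → ℕ} {N : ℕ → ℕ}
    (hp : Pr M α D N) {F : X → ℝ} (hF : PInC M α (MPt M α) F)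
    (hFf : ∀ x ∈ SK α T E Cm, F x = sf α T E Cm v x) : False := by
  classical
  obtain ⟨hFc, h, hh, hmod⟩ := hF
  obtain ⟨G, hG, hG'⟩ := xapprox hp hFc
  have hT := S.tree
  have hinf := S.inf
  -- the level
  set k0 : ℕ → ℕ := fun i => h (v i + 3) + 1 with hk0
  have hk0M : M.Has k0 := Has.addc (hh.comp (Has.addc S.hv 3)) 1
  set H : ℕ → ℕ := fun i => lv (k0 i) + i + 3 with hHdef
  have hH : M.Has H := Has.addc (Has.add (S.hlv.comp hk0M) Has.id) 3
  -- the colour
  set L : ℕ × ℕ → Prop := fun q => 2 ^ (v q.1 + 1) * (G (v q.1 + 3, q.2)).2.1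
    + 2 ^ (G (v q.1 + 3, q.2)).2.2 < 2 ^ (v q.1 + 1) * (G (v q.1 + 3, q.2)).1 with hLdef
  have hL : M.Dec L := by
    have h3 : M.Has (fun q : ℕ × ℕ => G (v q.1 + 3, q.2)) :=
      hG.comp (Has.pair (Has.addc (S.hv.comp Has.fst) 3) Has.snd)
    have h4 : M.Has (fun q : ℕ × ℕ => 2 ^ (v q.1 + 1)) :=
      Has.pow2 (Has.succ (S.hv.comp Has.fst))
    exact Dec.lt (Has.add (Has.mul h4 (Has.fst.comp (Has.snd.comp h3)))
      (Has.pow2 (Has.snd.comp (Has.snd.comp h3)))) (Has.mul h4 (Has.fst.comp h3))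
  have hLiff : ∀ i x, L (i, x) ↔ 1 / 2 ^ (v i + 1) < dy (G (v i + 3, x)).1 (G (v i + 3, x)).2.1
      (G (v i + 3, x)).2.2 := fun i x => dy_lt_iff.symm
  have hpow : ∀ j : ℕ, (2 : ℝ) ^ (j + 3) = 8 * 2 ^ j := fun j => by rw [pow_add]; ring
  have hpow1 : ∀ j : ℕ, (2 : ℝ) ^ (j + 1) = 2 * 2 ^ j := fun j => by rw [pow_succ]; ring
  have hbig : ∀ i x, 1 / 2 ^ v i - 1 / 2 ^ (v i + 3) ≤ F (α x) → L (i, x) := by
    intro i x h3
    rw [hLiff]
    have h4 := (abs_le.mp (hG' (v i + 3) x)).2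
    rw [hpow] at h3 h4
    rw [hpow1]
    have h5 : (0 : ℝ) < 1 / 2 ^ v i := by positivity
    have h6 : (1 : ℝ) / (8 * 2 ^ v i) = 1 / 8 * (1 / 2 ^ v i) := by field_simp
    have h7 : (1 : ℝ) / (2 * 2 ^ v i) = 1 / 2 * (1 / 2 ^ v i) := by field_simp
    rw [h6] at h3 h4
    rw [h7]
    linarith
  have hsmall : ∀ i x, F (α x) ≤ 2 * (1 / 2 ^ (v i + 3)) → ¬ L (i, x) := by
    intro i x h3
    rw [hLiff, not_lt]
    have h4 := (abs_le.mp (hG' (v i + 3) x)).1
    rw [hpow] at h3 h4
    rw [hpow1]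
    have h5 : (0 : ℝ) < 1 / 2 ^ v i := by positivity
    have h6 : (1 : ℝ) / (8 * 2 ^ v i) = 1 / 8 * (1 / 2 ^ v i) := by field_simp
    have h7 : (1 : ℝ) / (2 * 2 ^ v i) = 1 / 2 * (1 / 2 ^ v i) := by field_simp
    rw [h6] at h3 h4
    rw [h7]
    linarith
  -- oscillation
  have hosc : ∀ i x y, dist (α x) (α y) ≤ 1 / 2 ^ k0 i →
      |F (α x) - F (α y)| ≤ 1 / 2 ^ (v i + 3) := by
    intro i x y hxy
    refine hmod (v i + 3) _ (MPt.base M α x) _ (MPt.base M α y) (lt_of_le_of_lt hxy ?_)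
    simp only [hk0]
    rw [pow_succ]
    have h5 : (0 : ℝ) < 1 / 2 ^ h (v i + 3) := by positivity
    have h6 : (1 : ℝ) / (2 ^ h (v i + 3) * 2) = 1 / 2 * (1 / 2 ^ h (v i + 3)) := by
      field_simp
    rw [h6]
    linarith
  have hvi : ∀ i m, i + 3 ≤ m → v i + 3 ≤ v m := by
    intro i m hm
    have h1 := S.vmono (Nat.lt_succ_self i)
    have h2 := S.vmono (Nat.lt_succ_self (i + 1))
    have h3 := S.vmono (Nat.lt_succ_self (i + 2))
    have h4 := S.vmono.monotone hm
    simp only [Nat.succ_eq_add_one] at h1 h2 h3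
    have h5 : v (i + 2 + 1) = v (i + 3) := rfl
    have h6 : v (i + 1 + 1) = v (i + 2) := rfl
    omega
  -- points of nodes which live forever are small
  have hfor : ∀ i (τ : List Bool) x, τ.length = H i → Ext T τ → E τ x → ¬ L (i, x) := by
    intro i τ x hτ hE hx
    obtain ⟨σ, y, h3, h4, h5, h6, h7⟩ := S.S4 τ x (k0 i) hE hx (by rw [hτ]; simp [hHdef]; omega)
    have hK : α y ∈ SK α T E Cm := ⟨σ, y, h3, h4, h6, rfl⟩
    have h8 := (abs_le.mp (hosc i x y h7)).2
    have h9 : F (α y) ≤ 1 / 2 ^ (v i + 3) := by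
      rw [hFf _ hK, S.sf_eq h3 h6]
      apply inv_pow_le
      apply hvi
      have : i + 3 ≤ H i := by simp [hHdef]
      omega
    exact hsmall i x (by linarith)
  -- the last generation of a dying child of a node which lives forever is large
  have hlast : ∀ (ρ : List Bool) b s, Ext T ρ → ¬ A T (s + 1) (ρ ++ [b]) →
      ∀ σ : List Bool, σ.length = s → σ.take (ρ.length + 1) = ρ ++ [b] → T σ = true →
      H ρ.length ≤ s → ∃ x, E (σ.take (H ρ.length)) x ∧ L (ρ.length, x) := by
    intro ρ b s hE hA σ hσ hσ' hσT hs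
    obtain ⟨h3, h4, h5⟩ := last_leaf hinf hE hA hσ hσ' hσT
    obtain ⟨y, hy⟩ := S.S0 σ hσT
    have hC := S.CmLeaf σ h3
    have hK : α y ∈ SK α T E Cm := ⟨σ, y, hC, h5, hy, rfl⟩
    obtain ⟨x, hx1, hx2⟩ := S.S1 (k0 ρ.length) (H ρ.length) σ y (by simp [hHdef]; omega)
      (by omega) hσT hy
    refine ⟨x, hx1, ?_⟩
    have h8 := (abs_le.mp (hosc ρ.length x y hx2)).1
    have h9 : F (α y) = 1 / 2 ^ v ρ.length := by rw [hFf _ hK, S.sf_eq hC hy, h4]
    exact hbig _ _ (by linarith)
  -- the search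
  have hDA : M.Dec (fun r : ((List Bool × Bool) × ℕ) × List Bool =>
      r.2.take (r.1.1.1.length + 1) = r.1.1.1 ++ [r.1.1.2] ∧ A T r.1.2 r.2) := by
    have hρ : M.Has (fun r : ((List Bool × Bool) × ℕ) × List Bool => r.1.1.1) :=
      Has.fst.comp (Has.fst.comp Has.fst)
    have hb : M.Has (fun r : ((List Bool × Bool) × ℕ) × List Bool => r.1.1.2) :=
      Has.snd.comp (Has.fst.comp Has.fst)
    exact Dec.and (Dec.eq (Has.take (Has.succ (Has.length hρ)) Has.snd)
      (Has.append hρ (Has.single hb)))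
      ((dec_A S.hT).comp ((Has.snd.comp Has.fst).pair Has.snd))
  have hlenr : M.Has (fun r : ((List Bool × Bool) × ℕ) × List Bool => r.1.1.1.length) :=
    Has.length (Has.fst.comp (Has.fst.comp Has.fst))
  have hDLa : M.Dec (fun r : ((List Bool × Bool) × ℕ) × List Bool =>
      ∀ x < n (H r.1.1.1.length), E r.2 x → L (r.1.1.1.length, x)) := by
    refine Dec.forall_lt (p := fun r : (((List Bool × Bool) × ℕ) × List Bool) × ℕ =>
      E r.1.2 r.2 → L (r.1.1.1.1.length, r.2)) ?_ (S.hn.comp (hH.comp hlenr))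
    exact Dec.imp (S.decE.comp (Has.pair (Has.snd.comp Has.fst) Has.snd))
      (hL.comp (Has.pair (hlenr.comp Has.fst) Has.snd))
  have hDLb : M.Dec (fun r : ((List Bool × Bool) × ℕ) × List Bool =>
      ∀ x < n (H r.1.1.1.length), E r.2 x → ¬ L (r.1.1.1.length, x)) := by
    refine Dec.forall_lt (p := fun r : (((List Bool × Bool) × ℕ) × List Bool) × ℕ =>
      E r.1.2 r.2 → ¬ L (r.1.1.1.1.length, r.2)) ?_ (S.hn.comp (hH.comp hlenr))
    exact Dec.imp (S.decE.comp (Has.pair (Has.snd.comp Has.fst) Has.snd))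
      (hL.comp (Has.pair (hlenr.comp Has.fst) Has.snd)).not
  have hHq : M.Has (fun q : (List Bool × Bool) × ℕ => H q.1.1.length) :=
    hH.comp (Has.length (Has.fst.comp Has.fst))
  have hsearch : M.Dec (fun q : (List Bool × Bool) × ℕ =>
      (H q.1.1.length ≤ q.2 ∧
        ((∀ τ : List Bool, τ.length = H q.1.1.length →
            (τ.take (q.1.1.length + 1) = q.1.1 ++ [q.1.2] ∧ A T q.2 τ) →
              ∀ x < n (H q.1.1.length), E τ x → L (q.1.1.length, x)) ∨
          (∀ τ : List Bool, τ.length = H q.1.1.length →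
            (τ.take (q.1.1.length + 1) = q.1.1 ++ [q.1.2] ∧ A T q.2 τ) →
              ∀ x < n (H q.1.1.length), E τ x → ¬ L (q.1.1.length, x)))) ∨
      (q.1.1.length ≤ q.2 ∧ ¬ A T q.2 q.1.1)) := by
    refine Dec.or (Dec.and (Dec.le hHq Has.snd) (Dec.or ?_ ?_)) (Dec.and ?_ ?_)
    · exact Dec.forall_len (p := fun r : ((List Bool × Bool) × ℕ) × List Bool =>
        (r.2.take (r.1.1.1.length + 1) = r.1.1.1 ++ [r.1.1.2] ∧ A T r.1.2 r.2) →
          ∀ x < n (H r.1.1.1.length), E r.2 x → L (r.1.1.1.length, x)) (Dec.imp hDA hDLa) hHq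
    · exact Dec.forall_len (p := fun r : ((List Bool × Bool) × ℕ) × List Bool =>
        (r.2.take (r.1.1.1.length + 1) = r.1.1.1 ++ [r.1.1.2] ∧ A T r.1.2 r.2) →
          ∀ x < n (H r.1.1.1.length), E r.2 x → ¬ L (r.1.1.1.length, x)) (Dec.imp hDA hDLb) hHq
    · exact Dec.le (Has.length (Has.fst.comp Has.fst)) Has.snd
    · exact ((dec_A S.hT).comp (Has.snd.pair (Has.fst.comp Has.fst))).not
  -- the search is successful
  have hfin : ∀ (Q : Finset (List Bool)), (∀ τ ∈ Q, ¬ Ext T τ) →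
      ∃ t0, ∀ τ ∈ Q, ∀ t, t0 ≤ t → ¬ A T t τ := by
    intro Q
    induction Q using Finset.induction_on with
    | empty => exact fun _ => ⟨0, by simp⟩
    | insert τ Q _ ih =>
      intro hQ
      obtain ⟨t0, ht0⟩ := ih fun τ' h' => hQ τ' (Finset.mem_insert_of_mem h')
      have h3 := hQ τ (Finset.mem_insert_self _ _)
      unfold Ext at h3
      push Not at h3
      obtain ⟨t1, h4, h5⟩ := h3
      refine ⟨max t0 t1, fun τ' h' t ht => ?_⟩
      rcases Finset.mem_insert.mp h' with rfl | h'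
      · exact fun hA => h5 (hA.mono hT ((le_max_right _ _).trans ht) h4)
      · exact ht0 τ' h' t ((le_max_left _ _).trans ht)
  obtain ⟨g, hg, hg'⟩ := Has.find hsearch (by
    rintro ⟨ρ, b⟩
    by_cases hρ : Ext T ρ
    · by_cases hb : Ext T (ρ ++ [b])
      · -- wait until all nodes which do not live forever are dead
        obtain ⟨t0, ht0⟩ := hfin ((Finset.univ : Finset (List.Vector Bool (H ρ.length))).image
          (fun v => v.toList) |>.filter fun τ => ¬ Ext T τ) (by
            intro τ hτ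
            exact (Finset.mem_filter.mp hτ).2)
        refine ⟨max t0 (H ρ.length), Or.inl ⟨le_max_right _ _, Or.inr ?_⟩⟩
        rintro τ hτ ⟨-, hτA⟩ x _ hx
        refine hfor _ _ _ hτ ?_ hx
        by_contra hne
        refine ht0 τ ?_ _ (le_max_left _ _) hτA
        rw [Finset.mem_filter]
        exact ⟨Finset.mem_image.mpr ⟨⟨τ, hτ⟩, Finset.mem_univ _, rfl⟩, hne⟩
      · unfold Ext at hb
        push Not at hb
        obtain ⟨t, ht1, ht2⟩ := hb
        refine ⟨max t (H ρ.length), Or.inl ⟨le_max_right _ _, Or.inl ?_⟩⟩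
        rintro τ hτ ⟨hτ1, hτA⟩
        exfalso
        have h3 := hτA.take (ρ.length + 1)
        rw [hτ1] at h3
        exact ht2 (h3.mono hT (le_max_left _ _) ht1)
    · unfold Ext at hρ
      push Not at hρ
      obtain ⟨t, ht1, ht2⟩ := hρ
      exact ⟨t, Or.inr ⟨ht1, ht2⟩⟩)
  -- the verdict
  set V : List Bool × Bool → Prop := fun q => ∃ τ : List Bool, τ.length = H q.1.length ∧
    ((τ.take (q.1.length + 1) = q.1 ++ [q.2] ∧ A T (g q) τ) ∧
      ¬ ∀ x < n (H q.1.length), E τ x → L (q.1.length, x)) with hVdef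
  have hV : M.Dec V := by
    have hq : M.Has (fun r : (List Bool × Bool) × List Bool => ((r.1, g r.1), r.2)) :=
      Has.pair (Has.pair Has.fst (hg.comp Has.fst)) Has.snd
    exact Dec.exists_len (p := fun r : (List Bool × Bool) × List Bool =>
      (r.2.take (r.1.1.length + 1) = r.1.1 ++ [r.1.2] ∧ A T (g r.1) r.2) ∧
        ¬ ∀ x < n (H r.1.1.length), E r.2 x → L (r.1.1.length, x))
      (Dec.and (hDA.comp hq) (hDLa.comp hq).not) (hH.comp (Has.length Has.fst))
  have hverdict : ∀ ρ b, Ext T ρ → (V (ρ, b) ↔ Ext T (ρ ++ [b])) := by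
    intro ρ b hρ
    obtain ⟨hs, -⟩ := hg' (ρ, b)
    simp only at hs
    rcases hs with ⟨hle, hmono⟩ | ⟨h3, h4⟩
    swap
    · exact absurd (hρ _ h3) h4
    constructor
    · rintro ⟨τ, hτ1, ⟨hτ2, hτ3⟩, hτ4⟩
      simp only at hτ1 hτ2 hτ3 hτ4
      by_contra hb
      -- all living points are small
      have hall : ∀ τ : List Bool, τ.length = H ρ.length →
          (τ.take (ρ.length + 1) = ρ ++ [b] ∧ A T (g (ρ, b)) τ) →
            ∀ x < n (H ρ.length), E τ x → ¬ L (ρ.length, x) := by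
        rcases hmono with h5 | h5
        · exact absurd (h5 τ hτ1 ⟨hτ2, hτ3⟩) hτ4
        · exact h5
      have hTb : T (ρ ++ [b]) = true := by
        rw [← hτ2]
        exact hT.take (hτ3.mem hT) _
      obtain ⟨s, hs1, ⟨σ, hσ1, hσ2, hσ3⟩, hs2⟩ := last_level hTb hb
      rw [List.length_append, List.length_singleton] at hσ2 hs1
      -- the child is alive at the stage of the verdict, so this stage is at most `s`
      have hgs : g (ρ, b) ≤ s := by
        by_contra hc
        push Not at hc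
        have h6 := hτ3.take (ρ.length + 1)
        rw [hτ2] at h6
        exact hs2 (h6.mono hT hc (by simp; omega))
      have hHs : H ρ.length ≤ s := hle.trans hgs
      have hlen : (σ.take (H ρ.length)).length = H ρ.length := by simp; omega
      obtain ⟨x, hx1, hx2⟩ := hlast ρ b s hρ hs2 σ hσ1 hσ2 hσ3 hHs
      have hxn := S.Elt _ _ hx1
      rw [hlen] at hxn
      refine hall (σ.take (H ρ.length)) hlen ⟨?_, ?_⟩ x hxn hx1 hx2
      · rw [List.take_take, min_eq_left, hσ2]
        simp only [hHdef]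
        omega
      · refine A.mono hT hgs (by simp; omega) ?_
        rw [← hσ1]
        exact A.of_extends hσ3 (by rw [List.length_take, min_eq_left (by omega)])
    · intro hb
      -- a node which lives forever
      have h10 : (ρ ++ [b]).length ≤ H ρ.length := by
        simp only [List.length_append, List.length_singleton, hHdef]
        omega
      obtain ⟨τ, h6, h7, h8⟩ := exists_ext_above hT hb (H ρ.length - (ρ ++ [b]).length)
      have hτ1 : τ.length = H ρ.length := by omega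
      rw [List.length_append, List.length_singleton] at h8
      obtain ⟨x, hx⟩ := S.S0 τ (h7.mem hT)
      refine ⟨τ, hτ1, ⟨h8, h7 _ (by rw [hτ1]; exact hle)⟩, fun hall => ?_⟩
      have hxn := S.Elt _ _ hx
      rw [hτ1] at hxn
      exact hfor _ _ _ hτ1 h7 hx (hall x hxn hx)
  -- the path
  obtain ⟨w, hw, hw'⟩ := hV
  set P : ℕ → List Bool := fun n => Nat.rec [] (fun _ ρ => ρ ++ [!(w (ρ, false))]) n with hP
  have hPM : M.Has P := by
    have h3 : M.Has (fun r : ℕ × (ℕ × List Bool) => r.2.2 ++ [!(w (r.2.2, false))]) := by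
      refine Has.append (Has.snd.comp Has.snd) (Has.single ?_)
      exact (Has.of_primrec Primrec.not).comp (hw.comp (Has.pair (Has.snd.comp Has.snd)
        (Has.const false)))
    exact Has.nat_rec' (f := fun _ : ℕ => ([] : List Bool)) (Has.const []) h3 Has.id
  have hPE : ∀ n, Ext T (P n) ∧ (P n).length = n := by
    intro n
    induction n with
    | zero => exact ⟨Ext.nil hinf, rfl⟩
    | succ n ih =>
      have h3 : P (n + 1) = P n ++ [!(w (P n, false))] := rfl
      refine ⟨?_, by rw [h3, List.length_append, ih.2]; rfl⟩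
      rw [h3]
      cases hb : w (P n, false) with
      | true => exact (hverdict _ _ ih.1).mp ((hw' _).mp hb)
      | false =>
        rcases Ext.child hT ih.1 with h4 | h4
        · have := (hw' _).mpr ((hverdict _ _ ih.1).mpr h4)
          rw [hb] at this
          exact absurd this (by simp)
        · exact h4
  set x : ℕ → Bool := fun n => !(w (P n, false)) with hx
  have hxM : M.Has x := (Has.of_primrec Primrec.not).comp (hw.comp (Has.pair hPM
    (Has.const false)))
  have hxP : ∀ n, pre x n = P n := by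
    intro n
    induction n with
    | zero => rfl
    | succ n ih => rw [pre_succ, ih]
  have hxT : ∀ n, T (pre x n) = true := by
    intro n
    rw [hxP]
    exact (hPE n).1.mem hT
  exact S.nopath ⟨x, hxM, hxT⟩

/-- A scheme refutes the strong Tietze theorem. -/
theorem Scheme.not_tietze (S : Scheme M α T n E Cm v lv Aw) {D : ℕ × ℕ × ℕ → ℕ} {N : ℕ → ℕ}
    (hp : Pr M α D N) (h : PTietzeDiscrete M α) : False := by
  obtain ⟨F, hF, hFf⟩ := h (SK α T E Cm) (S.closed hp) (S.weaklyLocated hp) S.discrete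
    (sf α T E Cm v) S.cont
    (fun x _ => Scheme.sf_range x) S.lip
  exact S.decode hp hF hFf

end Pool.Agent.STT
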