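import Pool.Agent.Lib_helper19.STT.Paths

/-!
# Compact metric spaces of a Turing ideal
-/

namespace Pool.Agent.STT

variable {X : Type} [MetricSpace X]

/-- The dyadic rational `a / 2 ^ e`. -/
noncomputable def rad (a e : ℕ) : ℝ := (a : ℝ) / 2 ^ e

/-- The sequence `α` presents `X` as a compact metric space of the ideal `M`: the distances of the
points `α i` are reals of `M`, uniformly, and `M` has a sequence of finite nets. -/
structure Presented (M : TuringIdeal) (α : ℕ → X) : Prop where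
  dist : ∃ D : ℕ × ℕ × ℕ → ℕ, M.Has D ∧
    ∀ i j k, |dist (α i) (α j) - (D (i, j, k) : ℝ) / 2 ^ k| ≤ 1 / 2 ^ k
  net : ∃ N : ℕ → ℕ, M.Has N ∧ ∀ k x, ∃ i < N k, Dist.dist x (α i) ≤ 1 / 2 ^ k

/-- The points of `X` which belong to `M`: the limits of fast converging sequences in `M`. -/
def MPt (M : TuringIdeal) (α : ℕ → X) : Set X :=
  {x | ∃ p : ℕ → ℕ, M.Has p ∧ ∀ k, dist x (α (p k)) ≤ 1 / 2 ^ k}

/-- `K` is a closed set of the model: its complement is the union of a sequence in `M` of open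
balls `B(α i, a / 2 ^ e)`. -/
def XClosed (M : TuringIdeal) (α : ℕ → X) (K : Set X) : Prop :=
  K ⊆ MPt M α ∧ ∃ w : ℕ → Option (ℕ × ℕ × ℕ), M.Has w ∧
    ∀ x ∈ MPt M α, x ∈ K ↔ ∀ n i a e, w n = some (i, a, e) → rad a e ≤ dist x (α i)

/-- `K` is weakly located in the model: the set of the triples `(i, a, e)` such that the distance
of `α i` from `K` is greater than `a / 2 ^ e` is enumerated by a sequence in `M`. -/
def XWeaklyLocated (M : TuringIdeal) (α : ℕ → X) (K : Set X) : Prop :=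
  ∃ w : ℕ → Option (ℕ × ℕ × ℕ), M.Has w ∧
    ∀ i a e, (∃ n, w n = some (i, a, e)) ↔ ∃ ε > 0, ∀ x ∈ K, rad a e + ε ≤ dist x (α i)

/-- The sequence `c` codes a continuous function from a part of `X` to the real numbers: it is a
sequence of conditions `((i, r, s), (a, b, e, k))`, each saying that the function differs from
`(a - b) / 2 ^ e` by at most `2 ^ (-k)` on the ball `B(α i, r / 2 ^ s)`, and the conditions for
balls which have a common point are consistent. -/
def XCode (α : ℕ → X) (c : ℕ → Option ((ℕ × ℕ × ℕ) × (ℕ × ℕ × ℕ × ℕ))) : Prop :=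
  ∀ n i r s a b e k, c n = some ((i, r, s), (a, b, e, k)) →
    ∀ n' i' r' s' a' b' e' k', c n' = some ((i', r', s'), (a', b', e', k')) →
      (∃ x, dist x (α i) < rad r s ∧ dist x (α i') < rad r' s') →
        |dy a b e - dy a' b' e'| ≤ 1 / 2 ^ k + 1 / 2 ^ k'

/-- `f` is a continuous real function on `K` with a code in `M`: there is a code in `M` of a
continuous partial function whose domain contains `K` and whose values on `K` are those of `f`. -/
def XCont (M : TuringIdeal) (α : ℕ → X) (K : Set X) (f : X → ℝ) : Prop :=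
  ∃ c : ℕ → Option ((ℕ × ℕ × ℕ) × (ℕ × ℕ × ℕ × ℕ)), M.Has c ∧ XCode α c ∧
    (∀ n i r s a b e k, c n = some ((i, r, s), (a, b, e, k)) → ∀ x ∈ K, dist x (α i) < rad r s →
      |f x - dy a b e| ≤ 1 / 2 ^ k) ∧
    ∀ x ∈ K, ∀ k, ∃ n i r s a b e l, c n = some ((i, r, s), (a, b, e, l)) ∧
      dist x (α i) < rad r s ∧ k ≤ l

/-- `f` has a modulus of uniform continuity on `K` in `M`. -/
def XModulus (M : TuringIdeal) (K : Set X) (f : X → ℝ) : Prop :=
  ∃ h : ℕ → ℕ, M.Has h ∧ ∀ k, ∀ x ∈ K, ∀ y ∈ K, dist x y < 1 / 2 ^ h k →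
    |f x - f y| ≤ 1 / 2 ^ k

/-- The space `C(K)` of the model `M`. -/
def XInC (M : TuringIdeal) (α : ℕ → X) (K : Set X) (f : X → ℝ) : Prop :=
  XCont M α K f ∧ XModulus M K f

/-- The strong Tietze theorem for the closed subsets of `X`, in the model `M`. -/
def XTietze (M : TuringIdeal) (α : ℕ → X) : Prop :=
  ∀ K, XClosed M α K → ∀ f, XInC M α K f → ∃ F, XInC M α (MPt M α) F ∧ ∀ x ∈ K, F x = f x

/-- The strong Tietze theorem for the closed and weakly located subsets of `X`, in the model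
`M`. -/
def XTietzeWL (M : TuringIdeal) (α : ℕ → X) : Prop :=
  ∀ K, XClosed M α K → XWeaklyLocated M α K → ∀ f, XInC M α K f →
    ∃ F, XInC M α (MPt M α) F ∧ ∀ x ∈ K, F x = f x

/-- The strong Tietze theorem for the closed and weakly located subsets of `X` which have no
accumulation points, and for `1`-Lipschitz functions with values in `[0, 1]`, in the model `M`. -/
def XTietzeDiscrete (M : TuringIdeal) (α : ℕ → X) : Prop :=
  ∀ K, XClosed M α K → XWeaklyLocated M α K →
    (∀ x ∈ K, ∃ ε > 0, ∀ y ∈ K, dist y x < ε → y = x) →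
    ∀ f, XCont M α K f → (∀ x ∈ K, 0 ≤ f x ∧ f x ≤ 1) →
      (∀ x ∈ K, ∀ y ∈ K, |f x - f y| ≤ dist x y) →
      ∃ F, XInC M α (MPt M α) F ∧ ∀ x ∈ K, F x = f x

/-- The McShane-Whitney extension theorem for closed subsets of `X`, in the model `M`: a
`1`-Lipschitz function on `K` with values in `[0, c]` has a `1`-Lipschitz extension with values in
`[0, c]`. -/
def XMcShane (M : TuringIdeal) (α : ℕ → X) : Prop :=
  ∀ K, XClosed M α K → ∀ (c : ℕ) (f : X → ℝ), XCont M α K f → (∀ x ∈ K, 0 ≤ f x ∧ f x ≤ c) →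
    (∀ x ∈ K, ∀ y ∈ K, |f x - f y| ≤ dist x y) →
    ∃ F, XCont M α (MPt M α) F ∧ (∀ x ∈ MPt M α, 0 ≤ F x ∧ F x ≤ c) ∧
      (∀ x ∈ MPt M α, ∀ y ∈ MPt M α, |F x - F y| ≤ dist x y) ∧ ∀ x ∈ K, F x = f x

/-- The Heine-Borel theorem for `X` in the model `M`: each sequence in `M` of open balls which
covers `X` has a finite subcover. -/
def XHeineBorel (M : TuringIdeal) (α : ℕ → X) : Prop :=
  ∀ w : ℕ → Option (ℕ × ℕ × ℕ), M.Has w →
    (∀ x ∈ MPt M α, ∃ n i a e, w n = some (i, a, e) ∧ dist x (α i) < rad a e) →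
    ∃ m, ∀ x ∈ MPt M α, ∃ n < m, ∃ i a e, w n = some (i, a, e) ∧ dist x (α i) < rad a e

end Pool.Agent.STT
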