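import Pool.Agent.Lib_helper19.STT.GBasic

/-!
# Extensions from finite covers
-/

namespace Pool.Agent.STT

open TuringIdeal Encodable Filter Topology

variable {M : TuringIdeal}

/-! ### Arithmetic of dyadic numbers -/

/-- The dyadic number of a triple. -/
noncomputable def dyt (t : ℕ × ℕ × ℕ) : ℝ := dy t.1 t.2.1 t.2.2

/-- Sum. -/
def tadd (t u : ℕ × ℕ × ℕ) : ℕ × ℕ × ℕ :=
  (t.1 * 2 ^ u.2.2 + u.1 * 2 ^ t.2.2, t.2.1 * 2 ^ u.2.2 + u.2.1 * 2 ^ t.2.2, t.2.2 + u.2.2)

theorem dyt_tadd (t u : ℕ × ℕ × ℕ) : dyt (tadd t u) = dyt t + dyt u := by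
  unfold dyt dy tadd
  push_cast
  rw [pow_add, div_add_div _ _ (pow_pos2 _).ne' (pow_pos2 _).ne']
  congr 1
  ring

/-- Comparison. -/
def tle (t u : ℕ × ℕ × ℕ) : Prop :=
  t.1 * 2 ^ u.2.2 + u.2.1 * 2 ^ t.2.2 ≤ t.2.1 * 2 ^ u.2.2 + u.1 * 2 ^ t.2.2

theorem tle_iff (t u : ℕ × ℕ × ℕ) : tle t u ↔ dyt t ≤ dyt u := by
  unfold dyt dy tle
  rw [div_le_div_iff₀ (pow_pos2 _) (pow_pos2 _)]
  constructor
  · intro h
    have h1 : ((t.1 * 2 ^ u.2.2 + u.2.1 * 2 ^ t.2.2 : ℕ) : ℝ) ≤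
      ((t.2.1 * 2 ^ u.2.2 + u.1 * 2 ^ t.2.2 : ℕ) : ℝ) := by exact_mod_cast h
    push_cast at h1
    linarith
  · intro h
    have h1 : ((t.1 * 2 ^ u.2.2 + u.2.1 * 2 ^ t.2.2 : ℕ) : ℝ) ≤
      ((t.2.1 * 2 ^ u.2.2 + u.1 * 2 ^ t.2.2 : ℕ) : ℝ) := by
        push_cast
        linarith
    exact_mod_cast h1

open Classical in
/-- Minimum. -/
noncomputable def tmin (t u : ℕ × ℕ × ℕ) : ℕ × ℕ × ℕ := if tle t u then t else u

open Classical in
/-- Maximum. -/
noncomputable def tmax (t u : ℕ × ℕ × ℕ) : ℕ × ℕ × ℕ := if tle t u then u else t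

theorem dyt_tmin (t u : ℕ × ℕ × ℕ) : dyt (tmin t u) = min (dyt t) (dyt u) := by
  unfold tmin
  split
  · rename_i h
    rw [min_eq_left ((tle_iff t u).mp h)]
  · rename_i h
    rw [tle_iff, not_le] at h
    rw [min_eq_right h.le]

theorem dyt_tmax (t u : ℕ × ℕ × ℕ) : dyt (tmax t u) = max (dyt t) (dyt u) := by
  unfold tmax
  split
  · rename_i h
    rw [max_eq_right ((tle_iff t u).mp h)]
  · rename_i h
    rw [tle_iff, not_le] at h
    rw [max_eq_left h.le]

section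

variable {β : Type} [Primcodable β] {f g : β → ℕ × ℕ × ℕ}

theorem Has.tadd (hf : M.Has f) (hg : M.Has g) : M.Has (fun a => tadd (f a) (g a)) := by
  unfold Pool.Agent.STT.tadd
  have f1 := Has.fst.comp hf
  have f2 := Has.fst.comp (Has.snd.comp hf)
  have f3 := Has.snd.comp (Has.snd.comp hf)
  have g1 := Has.fst.comp hg
  have g2 := Has.fst.comp (Has.snd.comp hg)
  have g3 := Has.snd.comp (Has.snd.comp hg)
  exact Has.pair (Has.add (Has.mul f1 (Has.pow2 g3)) (Has.mul g1 (Has.pow2 f3)))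
    (Has.pair (Has.add (Has.mul f2 (Has.pow2 g3)) (Has.mul g2 (Has.pow2 f3))) (Has.add f3 g3))

theorem Dec.tle (hf : M.Has f) (hg : M.Has g) : M.Dec (fun a => tle (f a) (g a)) := by
  unfold Pool.Agent.STT.tle
  have f1 := Has.fst.comp hf
  have f2 := Has.fst.comp (Has.snd.comp hf)
  have f3 := Has.snd.comp (Has.snd.comp hf)
  have g1 := Has.fst.comp hg
  have g2 := Has.fst.comp (Has.snd.comp hg)
  have g3 := Has.snd.comp (Has.snd.comp hg)
  exact Dec.le (Has.add (Has.mul f1 (Has.pow2 g3)) (Has.mul g2 (Has.pow2 f3)))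
    (Has.add (Has.mul f2 (Has.pow2 g3)) (Has.mul g1 (Has.pow2 f3)))

theorem Has.tmin (hf : M.Has f) (hg : M.Has g) : M.Has (fun a => tmin (f a) (g a)) := by
  classical
  unfold Pool.Agent.STT.tmin
  exact Has.ite (p := fun a => Pool.Agent.STT.tle (f a) (g a)) (Dec.tle hf hg) hf hg

theorem Has.tmax (hf : M.Has f) (hg : M.Has g) : M.Has (fun a => tmax (f a) (g a)) := by
  classical
  unfold Pool.Agent.STT.tmax
  exact Has.ite (p := fun a => Pool.Agent.STT.tle (f a) (g a)) (Dec.tle hf hg) hg hf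

end

/-! ### Truncation -/

/-- The number `u` moved to the distance at most `c` from `v`. -/
noncomputable def rst (c u v : ℝ) : ℝ := max (min u (v + c)) (v - c)

theorem rst_close {c u v : ℝ} (hc : 0 ≤ c) : |rst c u v - v| ≤ c := by
  unfold rst
  rw [abs_le]
  constructor
  · have := le_max_right (min u (v + c)) (v - c)
    linarith
  · have h1 : max (min u (v + c)) (v - c) ≤ v + c :=
      max_le (min_le_right _ _) (by linarith)
    linarith

theorem rst_eq {c u v : ℝ} (h : |u - v| ≤ c) : rst c u v = u := by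
  rw [abs_le] at h
  unfold rst
  rw [min_eq_left (by linarith), max_eq_left (by linarith)]

theorem rst_lip {c u v u' v' ε : ℝ} (hu : |u - u'| ≤ ε) (hv : |v - v'| ≤ ε) :
    |rst c u v - rst c u' v'| ≤ ε := by
  unfold rst
  refine (abs_max_sub_max_le_max _ _ _ _).trans (max_le ?_ ?_)
  · refine (abs_min_sub_min_le_max _ _ _ _).trans (max_le hu ?_)
    rw [add_sub_add_right_eq_sub]
    exact hv
  · rw [sub_sub_sub_cancel_right]
    exact hv

variable {X : Type} [MetricSpace X] {α : ℕ → X}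
  {D : ℕ × ℕ × ℕ → ℕ} {N C n b : ℕ → ℕ} {K : Set X} {f : X → ℝ}
  {vl : ℕ × ℕ → ℕ × ℕ × ℕ} {ok : ℕ × ℕ → Prop}

open Classical in
/-- The minimum of the constant `b k` and of cones of the slope `C k`. -/
noncomputable def gr (α : ℕ → X) (vl : ℕ × ℕ → ℕ × ℕ × ℕ) (ok : ℕ × ℕ → Prop) (C b : ℕ → ℕ)
    (k n : ℕ) (x : X) : ℝ :=
  Nat.rec (b k : ℝ)
    (fun j IH => if ok (k, j) then min IH (dyt (vl (k, j)) + C k * dist x (α j)) else IH) n

theorem gr_le {k n j : ℕ} {x : X} (hj : j < n) (hok : ok (k, j)) :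
    gr α vl ok C b k n x ≤ dyt (vl (k, j)) + C k * dist x (α j) := by
  induction n with
  | zero => omega
  | succ n ih =>
    unfold gr
    simp only
    rcases Nat.lt_succ_iff_lt_or_eq.mp hj with h | rfl
    · split
      · exact (min_le_left _ _).trans (ih h)
      · exact ih h
    · rw [if_pos hok]
      exact min_le_right _ _

theorem gr_le_cap (k n : ℕ) (x : X) : gr α vl ok C b k n x ≤ b k := by
  induction n with
  | zero => exact le_rfl
  | succ n ih =>
    unfold gr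
    simp only
    split
    · exact (min_le_left _ _).trans ih
    · exact ih

theorem le_gr {k n : ℕ} {x : X} {a : ℝ} (h0 : a ≤ b k)
    (h : ∀ j < n, ok (k, j) → a ≤ dyt (vl (k, j)) + C k * dist x (α j)) :
    a ≤ gr α vl ok C b k n x := by
  induction n with
  | zero => exact h0
  | succ n ih =>
    unfold gr
    simp only
    split
    · rename_i h1
      exact le_min (ih fun j hj => h j (by omega)) (h n (by omega) h1)
    · exact ih fun j hj => h j (by omega)

theorem gr_lip (k n : ℕ) (x y : X) :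
    |gr α vl ok C b k n x - gr α vl ok C b k n y| ≤ C k * dist x y := by
  have h0 : 0 ≤ (C k : ℝ) * dist x y := mul_nonneg (Nat.cast_nonneg _) dist_nonneg
  induction n with
  | zero =>
    show |(b k : ℝ) - (b k : ℝ)| ≤ _
    rw [sub_self, abs_zero]
    exact h0
  | succ n ih =>
    unfold gr
    simp only
    split
    · refine (abs_min_sub_min_le_max _ _ _ _).trans (max_le ih ?_)
      rw [add_sub_add_left_eq_sub, ← mul_sub, abs_mul, abs_of_nonneg (Nat.cast_nonneg _)]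
      exact mul_le_mul_of_nonneg_left (abs_dist_sub_le _ _ _) (Nat.cast_nonneg _)
    · exact ih

/-- Approximations of `f` on `K` by minima of cones. -/
structure GA (M : TuringIdeal) (α : ℕ → X) (K : Set X) (f : X → ℝ)
    (vl : ℕ × ℕ → ℕ × ℕ × ℕ) (ok : ℕ × ℕ → Prop) (C n b : ℕ → ℕ) : Prop where
  hC : M.Has C
  hn : M.Has n
  hb : M.Has b
  hvl : M.Has vl
  hok : M.Dec ok
  close : ∀ x ∈ K, ∀ k, |gr α vl ok C b k (n k) x - f x| ≤ 8 / 2 ^ k

namespace GA

/-- The approximations which converge fast. -/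
noncomputable def FF (α : ℕ → X) (vl : ℕ × ℕ → ℕ × ℕ × ℕ) (ok : ℕ × ℕ → Prop)
    (C n b : ℕ → ℕ) (k : ℕ) (x : X) : ℝ :=
  Nat.rec (gr α vl ok C b 0 (n 0) x)
    (fun y IH => rst (16 / 2 ^ y) (gr α vl ok C b (y + 1) (n (y + 1)) x) IH) k

theorem FF_succ (k : ℕ) (x : X) : FF α vl ok C n b (k + 1) x =
    rst (16 / 2 ^ k) (gr α vl ok C b (k + 1) (n (k + 1)) x) (FF α vl ok C n b k x) := rfl

theorem FF_step (k : ℕ) (x : X) :
    |FF α vl ok C n b k x - FF α vl ok C n b (k + 1) x| ≤ 16 / 2 ^ k := by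
  rw [FF_succ, abs_sub_comm]
  exact rst_close (by positivity)

theorem FF_dist (x : X) {k m : ℕ} (h : k ≤ m) :
    |FF α vl ok C n b k x - FF α vl ok C n b m x| ≤ 32 / 2 ^ k - 32 / 2 ^ m := by
  induction m, h using Nat.le_induction with
  | base => simp
  | succ m _ ih =>
    have h1 := FF_step (α := α) (vl := vl) (ok := ok) (C := C) (n := n) (b := b) m x
    have h2 := abs_sub_le (FF α vl ok C n b k x) (FF α vl ok C n b m x)
      (FF α vl ok C n b (m + 1) x)
    have h3 : (32 : ℝ) / 2 ^ (m + 1) = 32 / 2 ^ m - 16 / 2 ^ m := by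
      rw [pow_succ]
      field_simp
      norm_num
    rw [h3]
    linarith

theorem FF_close (H : GA M α K f vl ok C n b) {x : X} (hx : x ∈ K) (k : ℕ) :
    |FF α vl ok C n b k x - f x| ≤ 8 / 2 ^ k := by
  induction k with
  | zero => exact H.close x hx 0
  | succ k ih =>
    have h1 := H.close x hx (k + 1)
    have h2 : |gr α vl ok C b (k + 1) (n (k + 1)) x - FF α vl ok C n b k x| ≤ 16 / 2 ^ k := by
      have h3 := abs_sub_le (gr α vl ok C b (k + 1) (n (k + 1)) x) (f x)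
        (FF α vl ok C n b k x)
      rw [abs_sub_comm (f x)] at h3
      have h4 : (8 : ℝ) / 2 ^ (k + 1) ≤ 8 / 2 ^ k := by
        rw [pow_succ, div_le_div_iff₀ (by positivity) (by positivity)]
        nlinarith [pow_pos2 k]
      have h5 : (16 : ℝ) / 2 ^ k = 8 / 2 ^ k + 8 / 2 ^ k := by ring
      linarith
    rw [FF_succ, rst_eq h2]
    exact h1

/-- The sum of the Lipschitz constants. -/
def LL (C : ℕ → ℕ) (k : ℕ) : ℕ := Nat.rec (C 0) (fun y IH => IH + C (y + 1)) k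

theorem LL_succ (k : ℕ) : LL C (k + 1) = LL C k + C (k + 1) := rfl

theorem FF_lip (k : ℕ) (x y : X) :
    |FF α vl ok C n b k x - FF α vl ok C n b k y| ≤ LL C k * dist x y := by
  induction k with
  | zero => exact gr_lip _ _ _ _
  | succ k ih =>
    rw [FF_succ, FF_succ]
    have hd : 0 ≤ dist x y := dist_nonneg
    refine rst_lip ?_ ?_
    · refine (gr_lip _ _ _ _).trans (mul_le_mul_of_nonneg_right ?_ hd)
      rw [LL_succ]
      push_cast
      linarith [Nat.cast_nonneg (α := ℝ) (LL C k)]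
    · refine ih.trans (mul_le_mul_of_nonneg_right ?_ hd)
      rw [LL_succ]
      push_cast
      linarith [Nat.cast_nonneg (α := ℝ) (C (k + 1))]

/-- A common Lipschitz constant. -/
theorem FF_lip' {c : ℝ} (hc : ∀ k, (C k : ℝ) ≤ c) (k : ℕ) (x y : X) :
    |FF α vl ok C n b k x - FF α vl ok C n b k y| ≤ c * dist x y := by
  have hd : 0 ≤ dist x y := dist_nonneg
  induction k with
  | zero => exact (gr_lip _ _ _ _).trans (mul_le_mul_of_nonneg_right (hc 0) hd)
  | succ k ih =>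
    rw [FF_succ, FF_succ]
    exact rst_lip ((gr_lip _ _ _ _).trans (mul_le_mul_of_nonneg_right (hc _) hd)) ih

theorem FF_range {c : ℝ} (hb : ∀ k, (b k : ℝ) ≤ c) (hv : ∀ k j, ok (k, j) → 0 ≤ dyt (vl (k, j)))
    (k : ℕ) (x : X) : 0 ≤ FF α vl ok C n b k x ∧ FF α vl ok C n b k x ≤ c := by
  have hg : ∀ k, 0 ≤ gr α vl ok C b k (n k) x ∧ gr α vl ok C b k (n k) x ≤ c := fun k =>
    ⟨le_gr (Nat.cast_nonneg _) fun j _ hj => add_nonneg (hv k j hj)
      (mul_nonneg (Nat.cast_nonneg _) dist_nonneg), (gr_le_cap _ _ _).trans (hb k)⟩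
  induction k with
  | zero => exact hg 0
  | succ k ih =>
    rw [FF_succ]
    have h1 := hg (k + 1)
    have h2 : (0 : ℝ) ≤ 16 / 2 ^ k := by positivity
    unfold rst
    constructor
    · exact le_max_of_le_left (le_min h1.1 (by linarith [ih.1]))
    · exact max_le ((min_le_left _ _).trans h1.2) (by linarith [ih.2])

/-! ### The approximations are in the model -/

open Classical in
/-- Approximation of `gr` at the point `α i`, with the precision `s` of the distances. -/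
noncomputable def grt (D : ℕ × ℕ × ℕ → ℕ) (vl : ℕ × ℕ → ℕ × ℕ × ℕ) (ok : ℕ × ℕ → Prop)
    (C b : ℕ → ℕ) (s k n i : ℕ) : ℕ × ℕ × ℕ :=
  Nat.rec (b k, 0, 0)
    (fun j IH => if ok (k, j) then
      tmin IH (tadd (vl (k, j)) (C k * D (i, j, s), 0, s)) else IH) n

theorem grt_close (hp : Pr M α D N) (s k n i : ℕ) :
    |dyt (grt D vl ok C b s k n i) - gr α vl ok C b k n (α i)| ≤ C k * (1 / 2 ^ s) := by
  have h0 : (0 : ℝ) ≤ C k * (1 / 2 ^ s) := by positivity
  induction n with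
  | zero =>
    show |dyt (b k, 0, 0) - (b k : ℝ)| ≤ _
    have h1 : dyt (b k, 0, 0) = (b k : ℝ) := by
      unfold dyt dy
      push_cast
      simp
    rw [h1, sub_self, abs_zero]
    exact h0
  | succ n ih =>
    unfold grt gr
    simp only
    split
    · rw [dyt_tmin, dyt_tadd]
      refine (abs_min_sub_min_le_max _ _ _ _).trans (max_le ih ?_)
      rw [add_sub_add_left_eq_sub]
      have h1 : dyt (C k * D (i, n, s), 0, s) = C k * ((D (i, n, s) : ℝ) / 2 ^ s) := by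
        unfold dyt dy
        push_cast
        ring
      rw [h1, ← mul_sub, abs_mul, abs_of_nonneg (Nat.cast_nonneg _), abs_sub_comm]
      exact mul_le_mul_of_nonneg_left (hp.app i n s) (Nat.cast_nonneg _)
    · exact ih

/-- Approximation of `FF` at the point `α i`. -/
noncomputable def Ft (D : ℕ × ℕ × ℕ → ℕ) (vl : ℕ × ℕ → ℕ × ℕ × ℕ)
    (ok : ℕ × ℕ → Prop) (C n b : ℕ → ℕ) (s k i : ℕ) : ℕ × ℕ × ℕ :=
  Nat.rec (grt D vl ok C b s 0 (n 0) i)
    (fun y IH => tmax (tmin (grt D vl ok C b s (y + 1) (n (y + 1)) i)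
      (tadd IH (16, 0, y))) (tadd IH (0, 16, y))) k

theorem Ft_close (hp : Pr M α D N) (s k i : ℕ) :
    |dyt (Ft D vl ok C n b s k i) - FF α vl ok C n b k (α i)| ≤ LL C k * (1 / 2 ^ s) := by
  induction k with
  | zero => exact grt_close hp _ _ _ _
  | succ k ih =>
    have h1 : dyt (Ft D vl ok C n b s (k + 1) i) = rst (16 / 2 ^ k)
        (dyt (grt D vl ok C b s (k + 1) (n (k + 1)) i))
        (dyt (Ft D vl ok C n b s k i)) := by
      show dyt (tmax (tmin (grt D vl ok C b s (k + 1) (n (k + 1)) i)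
        (tadd (Ft D vl ok C n b s k i) (16, 0, k))) (tadd (Ft D vl ok C n b s k i) (0, 16, k))) = _
      rw [dyt_tmax, dyt_tmin, dyt_tadd, dyt_tadd]
      have h2 : dyt (16, 0, k) = 16 / 2 ^ k := by unfold dyt dy; push_cast; ring
      have h3 : dyt (0, 16, k) = -(16 / 2 ^ k) := by unfold dyt dy; push_cast; ring
      rw [h2, h3]
      rfl
    rw [h1, FF_succ]
    have hs : (0 : ℝ) ≤ 1 / 2 ^ s := by positivity
    refine rst_lip ?_ ?_
    · refine (grt_close hp _ _ _ _).trans (mul_le_mul_of_nonneg_right ?_ hs)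
      rw [LL_succ]
      push_cast
      linarith [Nat.cast_nonneg (α := ℝ) (LL C k)]
    · refine ih.trans (mul_le_mul_of_nonneg_right ?_ hs)
      rw [LL_succ]
      push_cast
      linarith [Nat.cast_nonneg (α := ℝ) (C (k + 1))]

theorem has_LL (H : GA M α K f vl ok C n b) : M.Has (LL C) := by
  have h1 : M.Has (fun r : ℕ × (ℕ × ℕ) => r.2.2 + C (r.2.1 + 1)) :=
    Has.add (Has.snd.comp Has.snd) (H.hC.comp (Has.addc (Has.fst.comp Has.snd) 1))
  exact Has.nat_rec' (f := fun _ : ℕ => C 0) (Has.const _) h1 Has.id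

theorem has_grt (H : GA M α K f vl ok C n b) (hp : Pr M α D N) :
    M.Has (fun q : ((ℕ × ℕ) × ℕ) × ℕ => grt D vl ok C b q.1.1.1 q.1.1.2 q.2 q.1.2) := by
  classical
  have h1 : M.Has (fun r : ((ℕ × ℕ) × ℕ) × (ℕ × (ℕ × ℕ × ℕ)) =>
      if ok (r.1.1.2, r.2.1) then tmin r.2.2 (tadd (vl (r.1.1.2, r.2.1))
        (C r.1.1.2 * D (r.1.2, r.2.1, r.1.1.1), 0, r.1.1.1)) else r.2.2) := by
    have hk : M.Has (fun r : ((ℕ × ℕ) × ℕ) × (ℕ × (ℕ × ℕ × ℕ)) => r.1.1.2) :=
      Has.snd.comp (Has.fst.comp Has.fst)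
    have hs : M.Has (fun r : ((ℕ × ℕ) × ℕ) × (ℕ × (ℕ × ℕ × ℕ)) => r.1.1.1) :=
      Has.fst.comp (Has.fst.comp Has.fst)
    have hi : M.Has (fun r : ((ℕ × ℕ) × ℕ) × (ℕ × (ℕ × ℕ × ℕ)) => r.1.2) :=
      Has.snd.comp Has.fst
    have hj : M.Has (fun r : ((ℕ × ℕ) × ℕ) × (ℕ × (ℕ × ℕ × ℕ)) => r.2.1) :=
      Has.fst.comp Has.snd
    have hI : M.Has (fun r : ((ℕ × ℕ) × ℕ) × (ℕ × (ℕ × ℕ × ℕ)) => r.2.2) :=
      Has.snd.comp Has.snd
    refine Has.ite (p := fun r : ((ℕ × ℕ) × ℕ) × (ℕ × (ℕ × ℕ × ℕ)) => ok (r.1.1.2, r.2.1))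
      (H.hok.comp (Has.pair hk hj)) ?_ hI
    exact Has.tmin hI (Has.tadd (H.hvl.comp (Has.pair hk hj)) (Has.pair (Has.mul
      (H.hC.comp hk) (hp.hD.comp (Has.pair hi (Has.pair hj hs)))) (Has.pair (Has.const 0) hs)))
  exact Has.nat_rec (f := fun a : (ℕ × ℕ) × ℕ => (b a.1.2, 0, 0)) (Has.pair
    (H.hb.comp (Has.snd.comp Has.fst)) (Has.const (0, 0))) h1

theorem has_Ft (H : GA M α K f vl ok C n b) (hp : Pr M α D N) :
    M.Has (fun q : (ℕ × ℕ) × ℕ => Ft D vl ok C n b q.1.1 q.2 q.1.2) := by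
  have h0 : M.Has (fun a : ℕ × ℕ => grt D vl ok C b a.1 0 (n 0) a.2) :=
    (H.has_grt hp).comp (Has.pair (Has.pair (Has.pair Has.fst (Has.const 0)) Has.snd)
      (Has.const (n 0)))
  have h1 : M.Has (fun r : (ℕ × ℕ) × (ℕ × (ℕ × ℕ × ℕ)) =>
      tmax (tmin (grt D vl ok C b r.1.1 (r.2.1 + 1) (n (r.2.1 + 1)) r.1.2)
        (tadd r.2.2 (16, 0, r.2.1))) (tadd r.2.2 (0, 16, r.2.1))) := by
    have hs : M.Has (fun r : (ℕ × ℕ) × (ℕ × (ℕ × ℕ × ℕ)) => r.1.1) := Has.fst.comp Has.fst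
    have hi : M.Has (fun r : (ℕ × ℕ) × (ℕ × (ℕ × ℕ × ℕ)) => r.1.2) := Has.snd.comp Has.fst
    have hy : M.Has (fun r : (ℕ × ℕ) × (ℕ × (ℕ × ℕ × ℕ)) => r.2.1) := Has.fst.comp Has.snd
    have hI : M.Has (fun r : (ℕ × ℕ) × (ℕ × (ℕ × ℕ × ℕ)) => r.2.2) := Has.snd.comp Has.snd
    refine Has.tmax (Has.tmin ?_ (Has.tadd hI (Has.pair (Has.const 16) (Has.pair
      (Has.const 0) hy)))) (Has.tadd hI (Has.pair (Has.const 0) (Has.pair (Has.const 16) hy)))
    exact (H.has_grt hp).comp (Has.pair (Has.pair (Has.pair hs (Has.addc hy 1)) hi)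
      (H.hn.comp (Has.addc hy 1)))
  exact Has.nat_rec h0 h1

/-- **The extension.** -/
theorem extend (H : GA M α K f vl ok C n b) (hp : Pr M α D N) :
    ∃ F, PInC M α (MPt M α) F ∧ (∀ x ∈ K, F x = f x) ∧
      (∀ c : ℝ, (∀ k, (C k : ℝ) ≤ c) → ∀ x y, |F x - F y| ≤ c * dist x y) ∧
      (∀ c : ℝ, (∀ k, (b k : ℝ) ≤ c) → (∀ k j, ok (k, j) → 0 ≤ dyt (vl (k, j))) →
        ∀ x, 0 ≤ F x ∧ F x ≤ c) := by
  have hlim : ∀ x, ∃ l, Tendsto (fun k => FF α vl ok C n b k x) atTop (𝓝 l) := by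
    intro x
    refine cauchySeq_tendsto_of_complete (cauchySeq_of_le_geometric_two (C := 32) fun m => ?_)
    rw [Real.dist_eq]
    refine (FF_step m x).trans (le_of_eq ?_)
    norm_num
  choose F hF using hlim
  have hFk : ∀ k x, |F x - FF α vl ok C n b k x| ≤ 32 / 2 ^ k := by
    intro k x
    have h1 : Tendsto (fun m => |FF α vl ok C n b m x - FF α vl ok C n b k x|) atTop
        (𝓝 |F x - FF α vl ok C n b k x|) := ((hF x).sub_const _).abs
    refine le_of_tendsto h1 ?_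
    filter_upwards [eventually_ge_atTop k] with m hm
    have h2 := FF_dist (α := α) (vl := vl) (ok := ok) (C := C) (n := n) (b := b) x hm
    have h3 : (0 : ℝ) < 32 / 2 ^ m := by positivity
    rw [abs_sub_comm]
    linarith
  have hLs : ∀ k r : ℕ, (LL C k : ℝ) * (1 / 2 ^ (LL C k + r)) ≤ 1 / 2 ^ r := by
    intro k r
    have h1 : (LL C k : ℝ) ≤ 2 ^ LL C k := by
      exact_mod_cast (Nat.lt_two_pow_self (n := LL C k)).le
    rw [mul_one_div, pow_add, div_le_div_iff₀ (by positivity) (by positivity)]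
    nlinarith [pow_pos2 r, mul_le_mul_of_nonneg_right h1 (pow_pos2 r).le]
  refine ⟨F, ⟨?_, ?_⟩, ?_, ?_, ?_⟩
  · -- a code
    refine xcont_intro (γ := ℕ × ℕ) (fun q => some ((q.2, 1, LL C (q.1 + 6) + (q.1 + 6)),
      ((Ft D vl ok C n b (LL C (q.1 + 6) + (q.1 + 6)) (q.1 + 6) q.2).1,
       (Ft D vl ok C n b (LL C (q.1 + 6) + (q.1 + 6)) (q.1 + 6) q.2).2.1,
       (Ft D vl ok C n b (LL C (q.1 + 6) + (q.1 + 6)) (q.1 + 6) q.2).2.2, q.1))) ?_ ?_ ?_
    · have h4 : M.Has (fun q : ℕ × ℕ => q.1 + 6) := Has.addc Has.fst 6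
      have hs : M.Has (fun q : ℕ × ℕ => LL C (q.1 + 6) + (q.1 + 6)) :=
        Has.add (H.has_LL.comp h4) h4
      have hFt : M.Has (fun q : ℕ × ℕ =>
          Ft D vl ok C n b (LL C (q.1 + 6) + (q.1 + 6)) (q.1 + 6) q.2) :=
        (H.has_Ft hp).comp (Has.pair (Has.pair hs Has.snd) h4)
      exact (Has.of_primrec Primrec.option_some).comp (Has.pair (Has.pair Has.snd
        (Has.pair (Has.const 1) hs)) (Has.pair (Has.fst.comp hFt) (Has.pair
          (Has.fst.comp (Has.snd.comp hFt)) (Has.pair (Has.snd.comp (Has.snd.comp hFt))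
            Has.fst))))
    · rintro ⟨k, j⟩ i r s a c e l hg x _ hd
      simp only [Option.some.injEq, Prod.mk.injEq] at hg
      obtain ⟨⟨rfl, rfl, rfl⟩, rfl, rfl, rfl, rfl⟩ := hg
      rw [rad_one] at hd
      have h1 := hFk (k + 6) x
      have h2 := FF_lip (α := α) (vl := vl) (ok := ok) (C := C) (n := n) (b := b)
        (k + 6) x (α j)
      have h3 := Ft_close (vl := vl) (ok := ok) (C := C) (n := n) (b := b) hp
        (LL C (k + 6) + (k + 6)) (k + 6) j
      have h4 : (LL C (k + 6) : ℝ) * dist x (α j) ≤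
          LL C (k + 6) * (1 / 2 ^ (LL C (k + 6) + (k + 6))) :=
        mul_le_mul_of_nonneg_left hd.le (Nat.cast_nonneg _)
      have h5 := hLs (k + 6) (k + 6)
      set T := Ft D vl ok C n b (LL C (k + 6) + (k + 6)) (k + 6) j with hT
      have h6 : |F x - dyt T| ≤ 32 / 2 ^ (k + 6) + 1 / 2 ^ (k + 6) + 1 / 2 ^ (k + 6) := by
        have h7 := abs_sub_le (F x) (FF α vl ok C n b (k + 6) x) (dyt T)
        have h8 := abs_sub_le (FF α vl ok C n b (k + 6) x) (FF α vl ok C n b (k + 6) (α j))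
          (dyt T)
        rw [abs_sub_comm (FF α vl ok C n b (k + 6) (α j)) (dyt T)] at h8
        linarith
      refine h6.trans ?_
      rw [pow_add]
      have h9 : (0 : ℝ) < 1 / 2 ^ k := by positivity
      have h10 : (32 : ℝ) / (2 ^ k * 2 ^ 6) + 1 / (2 ^ k * 2 ^ 6) + 1 / (2 ^ k * 2 ^ 6) =
          34 / 64 * (1 / 2 ^ k) := by
        field_simp
        norm_num
      rw [h10]
      linarith
    · intro x _ k
      obtain ⟨j, -, hj⟩ := hp.net (LL C (k + 6) + (k + 6) + 1) x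
      refine ⟨(k, j), j, 1, LL C (k + 6) + (k + 6), _, _, _, k, rfl, ?_, le_rfl⟩
      rw [rad_one]
      refine lt_of_le_of_lt hj ?_
      rw [pow_succ, div_lt_div_iff₀ (by positivity) (by positivity)]
      have := pow_pos2 (LL C (k + 6) + (k + 6))
      linarith
  · -- a modulus
    refine ⟨fun k => LL C (k + 7) + (k + 1), Has.add (H.has_LL.comp (Has.addc Has.id 7))
      (Has.addc Has.id 1), ?_⟩
    intro k x _ y _ hxy
    have h1 := hFk (k + 7) x
    have h2 := hFk (k + 7) y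
    have h3 := FF_lip (α := α) (vl := vl) (ok := ok) (C := C) (n := n) (b := b) (k + 7) x y
    have h4 : (LL C (k + 7) : ℝ) * dist x y ≤
        LL C (k + 7) * (1 / 2 ^ (LL C (k + 7) + (k + 1))) :=
      mul_le_mul_of_nonneg_left hxy.le (Nat.cast_nonneg _)
    have h5 := hLs (k + 7) (k + 1)
    have h6 := abs_sub_le (F x) (FF α vl ok C n b (k + 7) x) (F y)
    have h7 := abs_sub_le (FF α vl ok C n b (k + 7) x) (FF α vl ok C n b (k + 7) y) (F y)
    rw [abs_sub_comm (FF α vl ok C n b (k + 7) y) (F y)] at h7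
    have h8 : (32 : ℝ) / 2 ^ (k + 7) = 1 / 4 * (1 / 2 ^ k) := by
      rw [pow_add]
      field_simp
      norm_num
    have h9 : (1 : ℝ) / 2 ^ (k + 1) = 1 / 2 * (1 / 2 ^ k) := by
      rw [pow_succ]
      field_simp
    rw [h8] at h1 h2
    rw [h9] at h5
    linarith
  · intro x hx
    have h1 : Tendsto (fun k => FF α vl ok C n b k x) atTop (𝓝 (f x)) := by
      rw [tendsto_iff_dist_tendsto_zero]
      have h2 : Tendsto (fun k : ℕ => 8 * (1 / 2 : ℝ) ^ k) atTop (𝓝 (8 * 0)) :=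
        (tendsto_pow_atTop_nhds_zero_of_lt_one (by norm_num) (by norm_num)).const_mul 8
      rw [mul_zero] at h2
      refine squeeze_zero (fun _ => dist_nonneg) (fun k => ?_) h2
      rw [Real.dist_eq]
      refine (H.FF_close hx k).trans (le_of_eq ?_)
      rw [one_div_pow]
      ring
    exact tendsto_nhds_unique (hF x) h1
  · intro c hc x y
    exact le_of_tendsto ((hF x).sub (hF y)).abs (Eventually.of_forall fun k => FF_lip' hc k x y)
  · intro c hc hv x
    exact ⟨ge_of_tendsto (hF x) (Eventually.of_forall fun k => (FF_range hc hv k x).1),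
      le_of_tendsto (hF x) (Eventually.of_forall fun k => (FF_range hc hv k x).2)⟩

end GA

/-- Values of `f` near the points of a net, with the precision `k`. -/
structure FD (M : TuringIdeal) (α : ℕ → X) (K : Set X) (f : X → ℝ)
    (vl : ℕ × ℕ → ℕ × ℕ × ℕ) (ok : ℕ × ℕ → Prop) (L B : ℕ → ℕ) : Prop where
  hL : M.Has L
  hB : M.Has B
  hvl : M.Has vl
  hok : M.Dec ok
  near : ∀ x ∈ K, ∀ k j, dist x (α j) ≤ 1 / 2 ^ L k →
    ok (k, j) ∧ |f x - dyt (vl (k, j))| ≤ 1 / 2 ^ k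
  bd : ∀ k j, |dyt (vl (k, j))| ≤ B k

namespace FD

variable {L B : ℕ → ℕ}

/-- The Lipschitz constant. -/
def CC (L B : ℕ → ℕ) (k : ℕ) : ℕ := 2 ^ L k * (2 * B k + 4)

/-- The precision of the net. -/
def qn (L B : ℕ → ℕ) (k : ℕ) : ℕ := L k + k + (2 * B k + 4)

theorem gk_close (H : FD M α K f vl ok L B) (hp : Pr M α D N) {x : X} (hx : x ∈ K) (k : ℕ) :
    |gr α vl ok (CC L B) (fun k => B k + 1) k (N (qn L B k)) x - f x| ≤ 8 / 2 ^ k := by
  obtain ⟨j, hj, hj'⟩ := hp.net (qn L B k) x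
  have h1 : dist x (α j) ≤ 1 / 2 ^ L k := hj'.trans (inv_pow_le (by unfold qn; omega))
  obtain ⟨h2, h3⟩ := H.near x hx k j h1
  have h4 := abs_le.mp h3
  have h5 := abs_le.mp (H.bd k j)
  have hk : (0 : ℝ) < 1 / 2 ^ k := by positivity
  have hk1 : (1 : ℝ) / 2 ^ k ≤ 1 := by
    rw [div_le_one (pow_pos2 k)]
    exact one_le_pow₀ (by norm_num)
  have e : (8 : ℝ) / 2 ^ k = 8 * (1 / 2 ^ k) := by ring
  rw [e, abs_le]
  constructor
  · have h6 : f x - 2 * (1 / 2 ^ k) ≤
        gr α vl ok (CC L B) (fun k => B k + 1) k (N (qn L B k)) x := by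
      refine le_gr (by push_cast; linarith) fun i _ hi => ?_
      have h7 := abs_le.mp (H.bd k i)
      by_cases h8 : dist x (α i) ≤ 1 / 2 ^ L k
      · have h9 := abs_le.mp (H.near x hx k i h8).2
        have h10 : 0 ≤ (CC L B k : ℝ) * dist x (α i) :=
          mul_nonneg (Nat.cast_nonneg _) dist_nonneg
        linarith
      · push Not at h8
        have h9 : (2 * (B k : ℝ) + 4) ≤ CC L B k * dist x (α i) := by
          unfold CC
          push_cast
          have h10 : 1 ≤ 2 ^ L k * dist x (α i) := by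
            rw [div_lt_iff₀ (pow_pos2 _)] at h8
            linarith
          have h11 : (0 : ℝ) ≤ 2 * (B k : ℝ) + 4 := by positivity
          calc (2 * (B k : ℝ) + 4) = (2 * (B k : ℝ) + 4) * 1 := (mul_one _).symm
            _ ≤ (2 * (B k : ℝ) + 4) * (2 ^ L k * dist x (α i)) :=
              mul_le_mul_of_nonneg_left h10 h11
            _ = _ := by ring
        linarith
    linarith
  · have h6 : gr α vl ok (CC L B) (fun k => B k + 1) k (N (qn L B k)) x ≤
      dyt (vl (k, j)) + CC L B k * dist x (α j) := gr_le hj h2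
    have h7 : (CC L B k : ℝ) * dist x (α j) ≤ 1 / 2 ^ k := by
      have h8 : (CC L B k : ℝ) * dist x (α j) ≤ CC L B k * (1 / 2 ^ qn L B k) :=
        mul_le_mul_of_nonneg_left hj' (Nat.cast_nonneg _)
      refine h8.trans ?_
      unfold CC qn
      push_cast
      rw [pow_add, pow_add]
      have h9 : (2 * (B k : ℝ) + 4) ≤ 2 ^ (2 * B k + 4) := by
        exact_mod_cast (Nat.lt_two_pow_self (n := 2 * B k + 4)).le
      rw [mul_one_div, div_le_div_iff₀ (by positivity) (by positivity)]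
      have h10 : (0 : ℝ) < 2 ^ L k * 2 ^ k := by positivity
      nlinarith [mul_le_mul_of_nonneg_left h9 h10.le]
    linarith

theorem ga (H : FD M α K f vl ok L B) (hp : Pr M α D N) :
    GA M α K f vl ok (CC L B) (fun k => N (qn L B k)) (fun k => B k + 1) where
  hC := Has.mul (Has.pow2 H.hL) (Has.addc (Has.mul (Has.const 2) H.hB) 4)
  hn := hp.hN.comp (Has.add (Has.add H.hL Has.id) (Has.addc (Has.mul (Has.const 2) H.hB) 4))
  hb := Has.addc H.hB 1
  hvl := H.hvl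
  hok := H.hok
  close := fun _ hx k => H.gk_close hp hx k

/-- **The extension.** -/
theorem extend (H : FD M α K f vl ok L B) (hp : Pr M α D N) :
    ∃ F, PInC M α (MPt M α) F ∧ ∀ x ∈ K, F x = f x := by
  obtain ⟨F, h1, h2, -⟩ := (H.ga hp).extend hp
  exact ⟨F, h1, h2⟩

end FD

end Pool.Agent.STT
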