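import Pool.Agent.Lib_helper19.STT.GCover

/-!
# Lipschitz extensions
-/

namespace Pool.Agent.STT

open TuringIdeal Encodable Filter Topology

variable {M : TuringIdeal} {X : Type} [MetricSpace X] {α : ℕ → X} {γ : Type} [Primcodable γ]
  {D : ℕ × ℕ × ℕ → ℕ} {N : ℕ → ℕ} {K : Set X} {f : X → ℝ} {W : γ × ℕ → ℕ × ℕ × ℕ}

/-- The first `L` balls cover the space, with a certificate. -/
def Ver (D : ℕ × ℕ × ℕ → ℕ) (N : ℕ → ℕ) (W : γ × ℕ → ℕ × ℕ × ℕ) (a : γ) (L : ℕ) : Prop :=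
  ∀ j < N (L + 2), ∃ m < L, (D (j, (W (a, m)).1, L + 2) + 3) * 2 ^ (W (a, m)).2.2 <
    (W (a, m)).2.1 * 2 ^ (L + 2)

theorem ver_exists (hp : Pr M α D N) (HB : XHeineBorel M α) (hW : M.Has W) (a : γ)
    (hcov : ∀ x ∈ MPt M α, ∃ m, dist x (α (W (a, m)).1) <
      rad (W (a, m)).2.1 (W (a, m)).2.2) : ∃ L, Ver D N W a L := by
  have hg : M.Has (fun g : ℕ => (some ((W (a, g.unpair.1)).1,
      (W (a, g.unpair.1)).2.1 * 2 ^ g.unpair.2 - 2 ^ (W (a, g.unpair.1)).2.2,
      (W (a, g.unpair.1)).2.2 + g.unpair.2) : Option (ℕ × ℕ × ℕ))) := by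
    have u1 : M.Has (fun g : ℕ => W (a, g.unpair.1)) := hW.comp (Has.pair (Has.const a)
      (Has.of_primrec (Primrec.fst.comp Primrec.unpair)))
    have u2 : M.Has (fun g : ℕ => g.unpair.2) :=
      Has.of_primrec (Primrec.snd.comp Primrec.unpair)
    exact (Has.of_primrec Primrec.option_some).comp (Has.pair (Has.fst.comp u1) (Has.pair
      (Has.sub (Has.mul (Has.fst.comp (Has.snd.comp u1)) (Has.pow2 u2)) (Has.pow2
        (Has.snd.comp (Has.snd.comp u1)))) (Has.add (Has.snd.comp (Has.snd.comp u1)) u2)))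
  obtain ⟨L, hL⟩ := HB _ hg (by
    intro x hx
    obtain ⟨m, hm⟩ := hcov x hx
    obtain ⟨t, ht⟩ := shrink dist_nonneg hm
    refine ⟨Nat.pair m t, _, _, _, rfl, ?_⟩
    simp only [Nat.unpair_pair]
    exact ht)
  refine ⟨L, fun j _ => ?_⟩
  obtain ⟨g, hg1, i, b, e, hg2, hg3⟩ := hL (α j) (MPt.base M α j)
  simp only [Option.some.injEq, Prod.mk.injEq] at hg2
  obtain ⟨rfl, rfl, rfl⟩ := hg2
  refine ⟨g.unpair.1, lt_of_le_of_lt (Nat.unpair_left_le g) hg1, ?_⟩
  have h1 := unshrink dist_nonneg hg3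
  have h2 : (1 : ℝ) / 2 ^ L ≤ 1 / 2 ^ g.unpair.2 :=
    inv_pow_le ((Nat.unpair_right_le g).trans hg1.le)
  have h3 := (abs_le.mp (hp.app j (W (a, g.unpair.1)).1 (L + 2))).1
  have h4 : ((D (j, (W (a, g.unpair.1)).1, L + 2) : ℝ) + 3) / 2 ^ (L + 2) <
      ((W (a, g.unpair.1)).2.1 : ℝ) / 2 ^ (W (a, g.unpair.1)).2.2 := by
    have h5 : (1 : ℝ) / 2 ^ L = 4 / 2 ^ (L + 2) := by
      rw [pow_add]
      field_simp
      norm_num
    rw [h5] at h2
    have h6 : (4 : ℝ) / 2 ^ (L + 2) = 3 / 2 ^ (L + 2) + 1 / 2 ^ (L + 2) := by ring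
    rw [add_div]
    unfold rad at h1
    linarith
  rw [div_lt_div_iff₀ (pow_pos2 _) (pow_pos2 _)] at h4
  exact_mod_cast h4

omit [Primcodable γ] in
theorem ver_sound (hp : Pr M α D N) {a : γ} {L : ℕ} (h : Ver D N W a L) (x : X) :
    ∃ m, dist x (α (W (a, m)).1) < rad (W (a, m)).2.1 (W (a, m)).2.2 := by
  obtain ⟨j, hj, hj'⟩ := hp.net (L + 2) x
  obtain ⟨m, -, hm⟩ := h j hj
  refine ⟨m, ?_⟩
  have h1 : ((D (j, (W (a, m)).1, L + 2) : ℝ) + 3) / 2 ^ (L + 2) <
      ((W (a, m)).2.1 : ℝ) / 2 ^ (W (a, m)).2.2 := by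
    rw [div_lt_div_iff₀ (pow_pos2 _) (pow_pos2 _)]
    exact_mod_cast hm
  have h2 := (abs_le.mp (hp.near (i := (W (a, m)).1) hj')).2
  have h3 : (0 : ℝ) < 1 / 2 ^ (L + 2) := by positivity
  have h4 : (3 : ℝ) / 2 ^ (L + 2) = 2 / 2 ^ (L + 2) + 1 / 2 ^ (L + 2) := by ring
  rw [add_div] at h1
  unfold rad
  linarith

theorem dec_Ver (hp : Pr M α D N) (hW : M.Has W) :
    M.Dec (fun q : γ × ℕ => Ver D N W q.1 q.2) := by
  unfold Ver
  refine Dec.forall_lt (p := fun r : (γ × ℕ) × ℕ => ∃ m < r.1.2,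
    (D (r.2, (W (r.1.1, m)).1, r.1.2 + 2) + 3) * 2 ^ (W (r.1.1, m)).2.2 <
      (W (r.1.1, m)).2.1 * 2 ^ (r.1.2 + 2)) ?_ (hp.hN.comp (Has.addc Has.snd 2))
  refine Dec.exists_lt (p := fun r : ((γ × ℕ) × ℕ) × ℕ =>
    (D (r.1.2, (W (r.1.1.1, r.2)).1, r.1.1.2 + 2) + 3) * 2 ^ (W (r.1.1.1, r.2)).2.2 <
      (W (r.1.1.1, r.2)).2.1 * 2 ^ (r.1.1.2 + 2)) ?_ (Has.snd.comp Has.fst)
  have hW' : M.Has (fun r : ((γ × ℕ) × ℕ) × ℕ => W (r.1.1.1, r.2)) :=
    hW.comp (Has.pair (Has.fst.comp (Has.fst.comp Has.fst)) Has.snd)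
  have hl : M.Has (fun r : ((γ × ℕ) × ℕ) × ℕ => r.1.1.2 + 2) :=
    Has.addc (Has.snd.comp (Has.fst.comp Has.fst)) 2
  exact Dec.lt (Has.mul (Has.addc (hp.hD.comp (Has.pair (Has.snd.comp Has.fst) (Has.pair
    (Has.fst.comp hW') hl))) 3) (Has.pow2 (Has.snd.comp (Has.snd.comp hW'))))
    (Has.mul (Has.fst.comp (Has.snd.comp hW')) (Has.pow2 hl))

/-- Truncation to `[0, c]`. -/
noncomputable def clam (c : ℕ) (t : ℕ × ℕ × ℕ) : ℕ × ℕ × ℕ :=
  tmax (tmin t (c, 0, 0)) (0, 0, 0)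

theorem dyt_nat (c : ℕ) : dyt (c, 0, 0) = c := by
  unfold dyt dy
  push_cast
  simp

theorem dyt_clam (c : ℕ) (t : ℕ × ℕ × ℕ) : dyt (clam c t) = max (min (dyt t) c) 0 := by
  unfold clam
  rw [dyt_tmax, dyt_tmin, dyt_nat]
  have := dyt_nat 0
  rw [Nat.cast_zero] at this
  rw [this]

theorem clam_close {c : ℕ} {t : ℕ × ℕ × ℕ} {y ε : ℝ} (hy : 0 ≤ y ∧ y ≤ c)
    (h : |y - dyt t| ≤ ε) : |y - dyt (clam c t)| ≤ ε := by
  rw [dyt_clam]
  have h1 : y = max (min y c) 0 := by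
    rw [min_eq_left hy.2, max_eq_left hy.1]
  conv_lhs => rw [h1]
  have hε : 0 ≤ ε := (abs_nonneg _).trans h
  refine (abs_max_sub_max_le_max _ _ _ _).trans (max_le ?_ ?_)
  · refine (abs_min_sub_min_le_max _ _ _ _).trans (max_le h ?_)
    rw [sub_self, abs_zero]
    exact hε
  · rw [sub_self, abs_zero]
    exact hε

/-- **Lipschitz extensions.** -/
theorem mcshane_of_hb (hP : Presented M α) (HB : XHeineBorel M α) : PMcShane M α := by
  classical
  intro K hK c f hf hrange hlip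
  obtain ⟨D, N, hp⟩ := hP.data
  obtain ⟨vl, ok, L, B, H⟩ := exists_FD hp HB hK hf
  obtain ⟨hKP, w, hw, hKw⟩ := hK
  have hdiv : Primrec (fun m : ℕ => m / 2) := Primrec.nat_div.comp Primrec.id (Primrec.const 2)
  have un1 : ∀ {β : Type} [Primcodable β] {g : β → ℕ}, M.Has g →
      M.Has (fun a => (g a).unpair.1) := fun hg =>
    (Has.of_primrec (Primrec.fst.comp Primrec.unpair)).comp hg
  have un2 : ∀ {β : Type} [Primcodable β] {g : β → ℕ}, M.Has g →
      M.Has (fun a => (g a).unpair.2) := fun hg =>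
    (Has.of_primrec (Primrec.snd.comp Primrec.unpair)).comp hg
  -- the balls which avoid `K` or a ball around `α j`
  set W : (ℕ × ℕ) × ℕ → ℕ × ℕ × ℕ := fun r => if r.2 % 2 = 0 then (w (r.2 / 2)).getD (0, 0, 0)
    else if 2 ^ (r.2 / 2).unpair.2 + 2 * 2 ^ r.1.2 <
      D ((r.2 / 2).unpair.1, r.1.1, (r.2 / 2).unpair.2) * 2 ^ r.1.2 then
      ((r.2 / 2).unpair.1, 1, (r.2 / 2).unpair.2) else (0, 0, 0) with hWdef
  have hW : M.Has W := by
    have hm : M.Has (fun r : (ℕ × ℕ) × ℕ => r.2 / 2) := (Has.of_primrec hdiv).comp Has.snd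
    have hq : M.Has (fun r : (ℕ × ℕ) × ℕ => r.1.2) := Has.snd.comp Has.fst
    have hj : M.Has (fun r : (ℕ × ℕ) × ℕ => r.1.1) := Has.fst.comp Has.fst
    refine Has.ite (p := fun r : (ℕ × ℕ) × ℕ => r.2 % 2 = 0)
      (Dec.eq (Has.comp₂ Primrec.nat_mod Has.snd (Has.const 2)) (Has.const 0))
      (Has.comp₂ Primrec.option_getD (hw.comp hm) (Has.const (0, 0, 0))) ?_
    refine Has.ite (p := fun r : (ℕ × ℕ) × ℕ => 2 ^ (r.2 / 2).unpair.2 + 2 * 2 ^ r.1.2 <
      D ((r.2 / 2).unpair.1, r.1.1, (r.2 / 2).unpair.2) * 2 ^ r.1.2)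
      (Dec.lt (Has.add (Has.pow2 (un2 hm)) (Has.mul (Has.const 2) (Has.pow2 hq)))
        (Has.mul (hp.hD.comp (Has.pair (un1 hm) (Has.pair hj (un2 hm)))) (Has.pow2 hq)))
      (Has.pair (un1 hm) (Has.pair (Has.const 1) (un2 hm))) (Has.const (0, 0, 0))
  -- soundness
  have hsound : ∀ j q t, Ver D N W (j, q) t → ∀ x ∈ K, ¬ dist x (α j) ≤ 1 / 2 ^ q := by
    intro j q t hV x hx hd
    obtain ⟨m, hm⟩ := ver_sound hp hV x
    simp only [hWdef] at hm
    by_cases h0 : m % 2 = 0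
    · rw [if_pos h0] at hm
      cases hv : w (m / 2) with
      | none =>
        rw [hv] at hm
        simp only [Option.getD_none, rad, Nat.cast_zero, zero_div] at hm
        exact absurd hm (not_lt.mpr dist_nonneg)
      | some v =>
        obtain ⟨i, a, e⟩ := v
        rw [hv] at hm
        simp only [Option.getD_some] at hm
        have := (hKw x (hKP hx)).mp hx _ i a e hv
        linarith
    · rw [if_neg h0] at hm
      split at hm
      · rename_i h1
        simp only at hm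
        rw [rad_one] at hm
        set i := (m / 2).unpair.1 with hi
        set e := (m / 2).unpair.2 with he
        have h2 : (1 : ℝ) / 2 ^ q + 2 / 2 ^ e < (D (i, j, e) : ℝ) / 2 ^ e := by
          rw [div_add_div _ _ (pow_pos2 _).ne' (pow_pos2 _).ne',
            div_lt_div_iff₀ (by positivity) (pow_pos2 _)]
          have h3 : (2 : ℝ) ^ e + 2 * 2 ^ q < (D (i, j, e) : ℝ) * 2 ^ q := by exact_mod_cast h1
          nlinarith [mul_lt_mul_of_pos_right h3 (pow_pos2 e)]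
        have h3 := (abs_le.mp (hp.app i j e)).1
        have h4 := dist_triangle (α i) x (α j)
        rw [dist_comm (α i) x] at h4
        have h5 : (2 : ℝ) / 2 ^ e = 1 / 2 ^ e + 1 / 2 ^ e := by ring
        linarith
      · simp only [rad, Nat.cast_zero, zero_div] at hm
        exact absurd hm (not_lt.mpr dist_nonneg)
  -- completeness
  have hcomplete : ∀ j q, (∀ x ∈ K, 2 / 2 ^ q ≤ dist x (α j)) → ∃ t, Ver D N W (j, q) t := by
    intro j q hfar
    refine ver_exists hp HB hW (j, q) fun x hx => ?_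
    by_cases hxK : x ∈ K
    · have hd := hfar x hxK
      obtain ⟨i, -, hi⟩ := hp.net (q + 2 + 1) x
      refine ⟨2 * Nat.pair i (q + 2) + 1, ?_⟩
      have e1 : (2 * Nat.pair i (q + 2) + 1) / 2 = Nat.pair i (q + 2) := by omega
      simp only [hWdef]
      rw [if_neg (by omega), e1, Nat.unpair_pair]
      simp only
      have h1 := (abs_le.mp (hp.app i j (q + 2))).2
      have h2 : (1 : ℝ) / 2 ^ q + 2 / 2 ^ (q + 2) < (D (i, j, q + 2) : ℝ) / 2 ^ (q + 2) := by
        have h3 := dist_triangle x (α i) (α j)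
        have e2 : (1 : ℝ) / 2 ^ (q + 2 + 1) = 1 / 8 * (1 / 2 ^ q) := by
          rw [pow_add, pow_add]; ring
        have e3 : (1 : ℝ) / 2 ^ (q + 2) = 1 / 4 * (1 / 2 ^ q) := by
          rw [pow_add]; ring
        have e4 : (2 : ℝ) / 2 ^ (q + 2) = 1 / 2 * (1 / 2 ^ q) := by
          rw [pow_add]; ring
        have e5 : (2 : ℝ) / 2 ^ q = 2 * (1 / 2 ^ q) := by ring
        have e6 : (0 : ℝ) < 1 / 2 ^ q := by positivity
        rw [e2] at hi
        rw [e3] at h1
        rw [e4]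
        rw [e5] at hd
        linarith
      rw [div_add_div _ _ (pow_pos2 _).ne' (pow_pos2 _).ne',
        div_lt_div_iff₀ (by positivity) (pow_pos2 _)] at h2
      have h3 : (2 : ℝ) ^ (q + 2) + 2 * 2 ^ q < (D (i, j, q + 2) : ℝ) * 2 ^ q := by
        have h4 : ((2 : ℝ) ^ (q + 2) + 2 * 2 ^ q) * 2 ^ (q + 2) <
            ((D (i, j, q + 2) : ℝ) * 2 ^ q) * 2 ^ (q + 2) := by nlinarith
        exact lt_of_mul_lt_mul_right h4 (pow_pos2 _).le
      have h4 : 2 ^ (q + 2) + 2 * 2 ^ q < D (i, j, q + 2) * 2 ^ q := by exact_mod_cast h3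
      rw [if_pos h4]
      simp only
      rw [rad_one]
      refine lt_of_le_of_lt hi ?_
      rw [pow_succ 2 (q + 2), div_lt_div_iff₀ (by positivity) (by positivity)]
      have := pow_pos2 (q + 2)
      linarith
    · have h1 := (hKw x hx).not.mp hxK
      push Not at h1
      obtain ⟨n, i, a, e, h2, h3⟩ := h1
      refine ⟨2 * n, ?_⟩
      have h5 : 2 * n / 2 = n := by omega
      simp only [hWdef]
      rw [if_pos (by omega), h5, h2]
      exact h3
  -- the precision of the net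
  set q : ℕ → ℕ := fun k => L k + k + 3 with hq
  have hqM : M.Has q := Has.addc (Has.add H.hL Has.id) 3
  set vl' : ℕ × ℕ → ℕ × ℕ × ℕ := fun r => clam c (vl r) with hvl'
  have hvlM : M.Has vl' := Has.tmax (Has.tmin H.hvl (Has.const (c, 0, 0))) (Has.const (0, 0, 0))
  have hnear : ∀ x ∈ K, ∀ k j, dist x (α j) ≤ 1 / 2 ^ L k →
      |f x - dyt (vl' (k, j))| ≤ 1 / 2 ^ k := fun x hx k j hd =>
    clam_close (hrange x hx) (H.near x hx k j hd).2
  -- the survivors
  have hVD := dec_Ver (γ := ℕ × ℕ) hp hW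
  have hRD : M.Dec (fun r : (ℕ × ℕ) × ℕ => ∃ t < r.2, Ver D N W (r.1.2, q r.1.1) t) := by
    refine Dec.exists_lt (p := fun s : ((ℕ × ℕ) × ℕ) × ℕ =>
      Ver D N W (s.1.1.2, q s.1.1.1) s.2) ?_ Has.snd
    exact hVD.comp (Has.pair (Has.pair (Has.snd.comp (Has.fst.comp Has.fst))
      (hqM.comp (Has.fst.comp (Has.fst.comp Has.fst)))) Has.snd)
  have hSD : M.Dec (fun r : ℕ × ℕ => ∀ i < N (q r.1), ∀ j < N (q r.1),
      (∃ t < r.2, Ver D N W (i, q r.1) t) ∨ (∃ t < r.2, Ver D N W (j, q r.1) t) ∨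
        tle (vl' (r.1, i)) (tadd (vl' (r.1, j)) (D (i, j, r.1) + 4, 0, r.1))) := by
    refine Dec.forall_lt (p := fun s : (ℕ × ℕ) × ℕ => ∀ j < N (q s.1.1),
      (∃ t < s.1.2, Ver D N W (s.2, q s.1.1) t) ∨ (∃ t < s.1.2, Ver D N W (j, q s.1.1) t) ∨
        tle (vl' (s.1.1, s.2)) (tadd (vl' (s.1.1, j)) (D (s.2, j, s.1.1) + 4, 0, s.1.1))) ?_
      (hp.hN.comp (hqM.comp Has.fst))
    refine Dec.forall_lt (p := fun s : ((ℕ × ℕ) × ℕ) × ℕ =>
      (∃ t < s.1.1.2, Ver D N W (s.1.2, q s.1.1.1) t) ∨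
      (∃ t < s.1.1.2, Ver D N W (s.2, q s.1.1.1) t) ∨
        tle (vl' (s.1.1.1, s.1.2)) (tadd (vl' (s.1.1.1, s.2))
          (D (s.1.2, s.2, s.1.1.1) + 4, 0, s.1.1.1))) ?_
      (hp.hN.comp (hqM.comp (Has.fst.comp Has.fst)))
    have hk : M.Has (fun s : ((ℕ × ℕ) × ℕ) × ℕ => s.1.1.1) :=
      Has.fst.comp (Has.fst.comp Has.fst)
    have hT : M.Has (fun s : ((ℕ × ℕ) × ℕ) × ℕ => s.1.1.2) :=
      Has.snd.comp (Has.fst.comp Has.fst)
    have hi : M.Has (fun s : ((ℕ × ℕ) × ℕ) × ℕ => s.1.2) := Has.snd.comp Has.fst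
    have hj : M.Has (fun s : ((ℕ × ℕ) × ℕ) × ℕ => s.2) := Has.snd
    refine Dec.or (hRD.comp (Has.pair (Has.pair hk hi) hT)) (Dec.or
      (hRD.comp (Has.pair (Has.pair hk hj) hT)) (Dec.tle (hvlM.comp (Has.pair hk hi))
        (Has.tadd (hvlM.comp (Has.pair hk hj)) (Has.pair (Has.addc (hp.hD.comp (Has.pair hi
          (Has.pair hj hk))) 4) (Has.pair (Has.const 0) hk)))))
  have hex : ∀ k, ∃ T, ∀ i < N (q k), ∀ j < N (q k),
      (∃ t < T, Ver D N W (i, q k) t) ∨ (∃ t < T, Ver D N W (j, q k) t) ∨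
        tle (vl' (k, i)) (tadd (vl' (k, j)) (D (i, j, k) + 4, 0, k)) := by
    intro k
    -- all removals happen before some stage
    have hstage : ∀ n, ∃ T, ∀ i < n, (∀ x ∈ K, 2 / 2 ^ q k ≤ dist x (α i)) →
        ∃ t < T, Ver D N W (i, q k) t := by
      intro n
      induction n with
      | zero => exact ⟨0, by simp⟩
      | succ n ih =>
        obtain ⟨T, hT⟩ := ih
        by_cases hn : ∀ x ∈ K, 2 / 2 ^ q k ≤ dist x (α n)
        · obtain ⟨t, ht⟩ := hcomplete n (q k) hn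
          refine ⟨max T (t + 1), fun i hi hi' => ?_⟩
          rcases Nat.lt_succ_iff_lt_or_eq.mp hi with h | rfl
          · obtain ⟨t', h1, h2⟩ := hT i h hi'
            exact ⟨t', lt_of_lt_of_le h1 (le_max_left _ _), h2⟩
          · exact ⟨t, lt_of_lt_of_le (Nat.lt_succ_self t) (le_max_right _ _), ht⟩
        · refine ⟨T, fun i hi hi' => ?_⟩
          rcases Nat.lt_succ_iff_lt_or_eq.mp hi with h | rfl
          · exact hT i h hi'
          · exact absurd hi' hn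
    obtain ⟨T, hT⟩ := hstage (N (q k))
    refine ⟨T, fun i hi j hj => ?_⟩
    by_cases h1 : ∀ x ∈ K, 2 / 2 ^ q k ≤ dist x (α i)
    · exact Or.inl (hT i hi h1)
    · by_cases h2 : ∀ x ∈ K, 2 / 2 ^ q k ≤ dist x (α j)
      · exact Or.inr (Or.inl (hT j hj h2))
      · right
        right
        push Not at h1 h2
        obtain ⟨x, hx, hx'⟩ := h1
        obtain ⟨y, hy, hy'⟩ := h2
        have hLk : (2 : ℝ) / 2 ^ q k ≤ 1 / 2 ^ L k := by
          have : (2 : ℝ) / 2 ^ q k = 1 / 2 ^ (L k + k + 2) := by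
            simp only [hq]
            rw [pow_succ 2 (L k + k + 2)]
            field_simp
          rw [this]
          exact inv_pow_le (by omega)
        have hkk : (2 : ℝ) / 2 ^ q k ≤ 1 / 4 * (1 / 2 ^ k) := by
          have : (2 : ℝ) / 2 ^ q k = 1 / 2 ^ (L k + k + 2) := by
            simp only [hq]
            rw [pow_succ 2 (L k + k + 2)]
            field_simp
          rw [this]
          have h4 : (1 : ℝ) / 4 * (1 / 2 ^ k) = 1 / 2 ^ (k + 2) := by
            rw [pow_add]; ring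
          rw [h4]
          exact inv_pow_le (by omega)
        have h3 := abs_le.mp (hnear x hx k i (hx'.le.trans hLk))
        have h4 := abs_le.mp (hnear y hy k j (hy'.le.trans hLk))
        have h5 := abs_le.mp (hlip x hx y hy)
        have h6 : dist x y ≤ dist x (α i) + dist (α i) (α j) + dist y (α j) := by
          have h7 := dist_triangle x (α i) y
          have h8 := dist_triangle (α i) (α j) y
          rw [dist_comm (α j) y] at h8
          linarith
        have h7 := (abs_le.mp (hp.app i j k)).2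
        rw [tle_iff, dyt_tadd]
        have h8 : dyt (D (i, j, k) + 4, 0, k) = (D (i, j, k) : ℝ) / 2 ^ k + 4 * (1 / 2 ^ k) := by
          unfold dyt dy
          push_cast
          ring
        rw [h8]
        have h9 : (0 : ℝ) < 1 / 2 ^ k := by positivity
        linarith
  obtain ⟨T, hT, hT'⟩ := Has.find hSD hex
  -- the approximations
  have hqk : ∀ k, (1 : ℝ) / 2 ^ q k ≤ 1 / 2 ^ k := fun k => inv_pow_le (by simp only [hq]; omega)
  have hga : GA M α K f vl' (fun r : ℕ × ℕ => ¬ ∃ t < T r.1, Ver D N W (r.2, q r.1) t)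
      (fun _ => 1) (fun k => N (q k)) (fun _ => c) := by
    refine ⟨Has.const 1, hp.hN.comp hqM, Has.const c, hvlM,
      (hRD.comp (Has.pair Has.id (hT.comp Has.fst))).not, ?_⟩
    intro x hx k
    obtain ⟨j0, hj0, hj0'⟩ := hp.net (q k) x
    have hS0 : ¬ ∃ t < T k, Ver D N W (j0, q k) t := by
      rintro ⟨t, -, ht⟩
      exact hsound j0 (q k) t ht x hx hj0'
    have h1 := abs_le.mp (hnear x hx k j0 (hj0'.trans (inv_pow_le (by simp only [hq]; omega))))
    have h2 := hqk k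
    have h9 : (0 : ℝ) < 1 / 2 ^ k := by positivity
    have e8 : (8 : ℝ) / 2 ^ k = 8 * (1 / 2 ^ k) := by ring
    rw [e8, abs_le]
    constructor
    · have h3 : f x - 8 * (1 / 2 ^ k) ≤ gr α vl' (fun r : ℕ × ℕ => ¬ ∃ t < T r.1,
          Ver D N W (r.2, q r.1) t) (fun _ => 1) (fun _ => c) k (N (q k)) x := by
        refine le_gr (by linarith [(hrange x hx).2]) fun j hj hS => ?_
        simp only at hS
        have h4 := (hT' k).1 j0 hj0 j hj
        simp only at h4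
        rcases h4 with h4 | h4 | h4
        · exact absurd h4 hS0
        · exact absurd h4 hS
        · rw [tle_iff, dyt_tadd] at h4
          have h8 : dyt (D (j0, j, k) + 4, 0, k) =
              (D (j0, j, k) : ℝ) / 2 ^ k + 4 * (1 / 2 ^ k) := by
            unfold dyt dy
            push_cast
            ring
          rw [h8] at h4
          have h5 := (abs_le.mp (hp.app j0 j k)).1
          have h6 := dist_triangle (α j0) x (α j)
          rw [dist_comm (α j0) x] at h6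
          push_cast
          linarith
      linarith
    · have h3 := gr_le (α := α) (vl := vl') (ok := fun r : ℕ × ℕ => ¬ ∃ t < T r.1,
        Ver D N W (r.2, q r.1) t) (C := fun _ => 1) (b := fun _ => c) (k := k) (n := N (q k))
        (x := x) hj0 hS0
      push_cast at h3
      linarith
  obtain ⟨F, hF1, hF2, hF3, hF4⟩ := hga.extend hp
  refine ⟨F, hF1.1, fun x _ => ?_, fun x _ y _ => ?_, hF2⟩
  · refine hF4 c (fun _ => le_rfl) (fun k j _ => ?_) x
    simp only [hvl']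
    rw [dyt_clam]
    exact le_max_right _ _
  · have := hF3 1 (fun _ => by push_cast; exact le_rfl) x y
    linarith

end Pool.Agent.STT
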