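import Pool.Agent.Lib_helper19.STT.GDefs

/-!
# Variants of the definitions

The conditions of the codes need to be correct on `K` only.
-/

namespace Pool.Agent.STT

variable {X : Type} [MetricSpace X]

/-- `f` is a continuous real function on `K` with a code in `M`: a sequence of conditions
`((i, r, s), (a, b, e, k))`, each saying that `f` differs from `(a - b) / 2 ^ e` by at most
`2 ^ (-k)` on the points of `K` in the ball `B(α i, r / 2 ^ s)`, which determine `f` on `K`. -/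
def PCont (M : TuringIdeal) (α : ℕ → X) (K : Set X) (f : X → ℝ) : Prop :=
  ∃ c : ℕ → Option ((ℕ × ℕ × ℕ) × (ℕ × ℕ × ℕ × ℕ)), M.Has c ∧
    (∀ n i r s a b e k, c n = some ((i, r, s), (a, b, e, k)) → ∀ x ∈ K, dist x (α i) < rad r s →
      |f x - dy a b e| ≤ 1 / 2 ^ k) ∧
    ∀ x ∈ K, ∀ k, ∃ n i r s a b e l, c n = some ((i, r, s), (a, b, e, l)) ∧
      dist x (α i) < rad r s ∧ k ≤ l

/-- Continuous with a modulus. -/
def PInC (M : TuringIdeal) (α : ℕ → X) (K : Set X) (f : X → ℝ) : Prop :=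
  PCont M α K f ∧ XModulus M K f

/-- The strong Tietze theorem. -/
def PTietze (M : TuringIdeal) (α : ℕ → X) : Prop :=
  ∀ K, XClosed M α K → ∀ f, PInC M α K f → ∃ F, PInC M α (MPt M α) F ∧ ∀ x ∈ K, F x = f x

/-- The strong Tietze theorem for sets without accumulation points. -/
def PTietzeDiscrete (M : TuringIdeal) (α : ℕ → X) : Prop :=
  ∀ K, XClosed M α K → XWeaklyLocated M α K →
    (∀ x ∈ K, ∃ ε > 0, ∀ y ∈ K, dist y x < ε → y = x) →
    ∀ f, PCont M α K f → (∀ x ∈ K, 0 ≤ f x ∧ f x ≤ 1) →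
      (∀ x ∈ K, ∀ y ∈ K, |f x - f y| ≤ dist x y) →
      ∃ F, PInC M α (MPt M α) F ∧ ∀ x ∈ K, F x = f x

/-- The McShane-Whitney extension theorem. -/
def PMcShane (M : TuringIdeal) (α : ℕ → X) : Prop :=
  ∀ K, XClosed M α K → ∀ (c : ℕ) (f : X → ℝ), PCont M α K f → (∀ x ∈ K, 0 ≤ f x ∧ f x ≤ c) →
    (∀ x ∈ K, ∀ y ∈ K, |f x - f y| ≤ dist x y) →
    ∃ F, PCont M α (MPt M α) F ∧ (∀ x ∈ MPt M α, 0 ≤ F x ∧ F x ≤ c) ∧
      (∀ x ∈ MPt M α, ∀ y ∈ MPt M α, |F x - F y| ≤ dist x y) ∧ ∀ x ∈ K, F x = f x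

end Pool.Agent.STT
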