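import Pool.Agent.Lib_helper19.STT.GCaseN3
import Pool.Agent.Lib_helper19.STT.GCaseZ
import Pool.Agent.Lib_helper19.STT.GDecode

/-!
# The reversal
-/

namespace Pool.Agent.STT

open TuringIdeal Encodable Filter Topology

variable {X : Type} [MetricSpace X] {M : TuringIdeal} {α : ℕ → X}
  {D : ℕ × ℕ × ℕ → ℕ} {N pg sg : ℕ → ℕ} {T : List Bool → Bool}

theorem exists_near' (hTM : M.Has T) (hT : IsTree T)
    (hinf : ∀ n, ∃ σ : List Bool, σ.length = n ∧ T σ = true)
    (hno : ¬ ∃ x : ℕ → Bool, M.Has x ∧ ∀ n, T (pre x n) = true) {τ : List Bool}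
    (hτ : Ext T τ) :
    ∃ σ, Leaf T σ ∧ Good T σ ∧ σ.take τ.length = τ ∧ τ.length ≤ bt T σ := by
  refine exists_near (M := M) (R := fun _ => true) hTM (fun _ _ => rfl) hT hinf ?_ hτ
  rintro ⟨x, hx, hx'⟩
  exact hno ⟨x, hx.1, hx'⟩

namespace CZ

/-- The ball `B(α i, 2 ^ (-r))` is away from the points of the nodes of the level `l`. -/
def AwZ (α : ℕ → X) (pg sg : ℕ → ℕ) (T : List Bool → Bool) (i r l : ℕ) : Prop :=
  T (pre (zb α pg sg (α i)) l) = false ∧ vz sg l ≤ r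

theorem scheme (C : CZ M α D N pg sg) (hT : M.Has T) (htree : IsTree T)
    (hinf : ∀ n, ∃ σ : List Bool, σ.length = n ∧ T σ = true)
    (hno : ¬ ∃ x : ℕ → Bool, M.Has x ∧ ∀ n, T (pre x n) = true)
    (hR : ∀ σ, T σ = true → ∃ j, EZ α N pg sg σ j) :
    Scheme M α T (nz N sg) (EZ α N pg sg) (Leaf T) (fun i => vz sg (i + 1)) (dm N)
      (AwZ α pg sg T) where
  hT := hT
  tree := htree
  inf := hinf
  nopath := hno
  hn := C.has_nz
  decE := C.dec_EZ
  Elt := fun _ _ h => h.1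
  decCm := dec_Leaf hT
  CmT := fun _ h => h.1
  CmLeaf := fun _ h => h
  hv := (has_vz C.hsg).comp (Has.addc Has.id 1)
  vmono := fun _ _ h => vz_mono (Nat.succ_lt_succ h)
  hlv := Has.comp₂ Primrec₂.natPair (C.pr.hN.comp (Has.addc Has.id 3)) (Has.addc Has.id 1)
  decAw := by
    refine Dec.and (Dec.eq (hT.comp (C.has_pre Has.fst (Has.snd.comp Has.snd)))
      (Has.const false)) (Dec.le ((has_vz C.hsg).comp (Has.snd.comp Has.snd))
        (Has.fst.comp Has.snd))
  S0 := hR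
  S1 := by
    intro k l σ y hk hl _ hy
    obtain ⟨x, hx, -⟩ := C.EZ_of_near (x := α y) (l := l)
    have h1 : pre (zb α pg sg (α y)) l = σ.take l := by
      rw [← pre_take _ hl, hy.2]
    rw [h1] at hx
    refine ⟨x, hx, C.close hk ?_⟩
    have h2 : (σ.take l).length = l := by simp; omega
    have h3 := hx.2
    rw [h2] at h3
    rw [h3, h1]
  S2 := by
    intro σ σ' i j j' h1 h2 hne h3 h4
    by_contra hc
    push Not at hc
    have h5 := C.pre_eq hc
    rcases Nat.lt_or_ge i σ.length with h | h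
    · rcases Nat.lt_or_ge i σ'.length with h' | h'
      · apply hne
        rw [← h3.2, ← h4.2, pre_take _ h, pre_take _ h', h5]
      · -- the second node is short
        have h6 : pre (zb α pg sg (α j)) σ'.length = σ' := by
          rw [pre_eq_of_le (by omega : σ'.length ≤ i + 1) h5, h4.2]
        have h7 := leaf_max htree h2 h1.1 (by rw [← h3.2, pre_take _ (by omega), h6])
        omega
    · have h6 : pre (zb α pg sg (α j')) σ.length = σ := by
        rw [← pre_eq_of_le (by omega : σ.length ≤ i + 1) h5, h3.2]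
      have h7 := leaf_unique htree h1 h2 h6 h4.2
      exact hne (by rw [h7])
  S3a := by
    intro i r l σ y hA hσ hl hy
    refine (inv_pow_le hA.2).trans (C.pre_ne fun h => ?_)
    have h1 := htree.take hσ l
    rw [← hy.2, pre_take _ hl, ← h, hA.1] at h1
    exact absurd h1 (by simp)
  S3b := by
    intro z hz r0
    have h1 : ∃ l, T (pre (zb α pg sg z) l) = false := by
      by_contra hc
      push Not at hc
      exact hno ⟨_, C.has_zb hz, fun n => by simpa using hc n⟩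
    obtain ⟨l, hl⟩ := h1
    obtain ⟨i, -, hi⟩ := C.pr.net (max r0 (vz sg l) + 1) z
    have hi' : dist z (α i) < 1 / 2 ^ max r0 (vz sg l) := by
      refine lt_of_le_of_lt hi ?_
      rw [pow_succ, div_lt_div_iff₀ (by positivity) (by positivity)]
      have := pow_pos2 (max r0 (vz sg l))
      linarith
    refine ⟨i, max r0 (vz sg l), l, le_max_left _ _, ⟨?_, le_max_right _ _⟩, hi'⟩
    have h2 := C.pre_eq (l := l) (lt_of_lt_of_le hi' (inv_pow_le (le_max_right _ _)))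
    rw [← h2]
    exact hl
  S4 := by
    intro τ x k hτ hx hk
    obtain ⟨σ, h1, h2, h3, h4⟩ := exists_near' hT htree hinf hno hτ
    obtain ⟨y, hy⟩ := hR σ h1.1
    refine ⟨σ, y, h1, h2, h4, hy, C.close hk ?_⟩
    have h5 : τ.length ≤ σ.length := h4.trans (bt_le σ)
    rw [hx.2]
    have h6 := congrArg (List.take τ.length) hy.2
    rw [pre_take _ h5, h3] at h6
    exact h6.symm

end CZ

theorem exists_CZ [CompactSpace X] (hp : Pr M α D N)
    (hgap : ∀ i k : ℕ, ∃ p t : ℕ, 2 ^ t ≤ p ∧ p + 1 ≤ 2 * 2 ^ t ∧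
      ∀ x : X, (p : ℝ) / 2 ^ (k + 1 + t) ≤ dist x (α i) →
        (p + 1 : ℝ) / 2 ^ (k + 1 + t) < dist x (α i)) :
    ∃ pg sg, CZ M α D N pg sg := by
  set Ver : ℕ × ℕ → Prop := fun c => 2 ^ c.2.unpair.2.unpair.1 ≤ c.2.unpair.1 ∧
    c.2.unpair.1 + 1 ≤ 2 * 2 ^ c.2.unpair.2.unpair.1 ∧
    ∀ j < N c.2.unpair.2.unpair.2,
      (D (j, c.1.unpair.1, c.2.unpair.2.unpair.2) + 2) *
          2 ^ (c.1.unpair.2 + 1 + c.2.unpair.2.unpair.1) <
        c.2.unpair.1 * 2 ^ c.2.unpair.2.unpair.2 ∨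
      (c.2.unpair.1 + 1) * 2 ^ c.2.unpair.2.unpair.2 +
          2 * 2 ^ (c.1.unpair.2 + 1 + c.2.unpair.2.unpair.1) <
        D (j, c.1.unpair.1, c.2.unpair.2.unpair.2) *
          2 ^ (c.1.unpair.2 + 1 + c.2.unpair.2.unpair.1) with hVer
  have un1 : ∀ {β : Type} [Primcodable β] {f : β → ℕ}, M.Has f →
      M.Has (fun a => (f a).unpair.1) := fun hf =>
    (Has.of_primrec (Primrec.fst.comp Primrec.unpair)).comp hf
  have un2 : ∀ {β : Type} [Primcodable β] {f : β → ℕ}, M.Has f →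
      M.Has (fun a => (f a).unpair.2) := fun hf =>
    (Has.of_primrec (Primrec.snd.comp Primrec.unpair)).comp hf
  have hVerD : M.Dec Ver := by
    refine Dec.and (Dec.le (Has.pow2 (un1 (un2 Has.snd))) (un1 Has.snd)) (Dec.and
      (Dec.le (Has.addc (un1 Has.snd) 1) (Has.mul (Has.const 2)
        (Has.pow2 (un1 (un2 Has.snd))))) ?_)
    refine Dec.forall_lt (p := fun r : (ℕ × ℕ) × ℕ =>
      (D (r.2, r.1.1.unpair.1, r.1.2.unpair.2.unpair.2) + 2) *
          2 ^ (r.1.1.unpair.2 + 1 + r.1.2.unpair.2.unpair.1) <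
        r.1.2.unpair.1 * 2 ^ r.1.2.unpair.2.unpair.2 ∨
      (r.1.2.unpair.1 + 1) * 2 ^ r.1.2.unpair.2.unpair.2 +
          2 * 2 ^ (r.1.1.unpair.2 + 1 + r.1.2.unpair.2.unpair.1) <
        D (r.2, r.1.1.unpair.1, r.1.2.unpair.2.unpair.2) *
          2 ^ (r.1.1.unpair.2 + 1 + r.1.2.unpair.2.unpair.1)) ?_ (hp.hN.comp
            (un2 (un2 Has.snd)))
    have hc : M.Has (fun r : (ℕ × ℕ) × ℕ => r.1.1) := Has.fst.comp Has.fst
    have hv : M.Has (fun r : (ℕ × ℕ) × ℕ => r.1.2) := Has.snd.comp Has.fst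
    have hD : M.Has (fun r : (ℕ × ℕ) × ℕ =>
        D (r.2, r.1.1.unpair.1, r.1.2.unpair.2.unpair.2)) :=
      hp.hD.comp (Has.pair Has.snd (Has.pair (un1 hc) (un2 (un2 hv))))
    have hS : M.Has (fun r : (ℕ × ℕ) × ℕ => 2 ^ (r.1.1.unpair.2 + 1 + r.1.2.unpair.2.unpair.1)) :=
      Has.pow2 (Has.add (Has.addc (un2 hc) 1) (un1 (un2 hv)))
    have hq : M.Has (fun r : (ℕ × ℕ) × ℕ => 2 ^ r.1.2.unpair.2.unpair.2) :=
      Has.pow2 (un2 (un2 hv))
    exact Dec.or (Dec.lt (Has.mul (Has.addc hD 2) hS) (Has.mul (un1 hv) hq))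
      (Dec.lt (Has.add (Has.mul (Has.addc (un1 hv) 1) hq) (Has.mul (Has.const 2) hS))
        (Has.mul hD hS))
  obtain ⟨g, hg, hg'⟩ := Has.find hVerD (by
    intro c
    obtain ⟨p, t, h1, h2, h3⟩ := hgap c.unpair.1 c.unpair.2
    -- the distance of the values from the interval
    set fd : X → ℝ := fun x => max ((p : ℝ) / 2 ^ (c.unpair.2 + 1 + t) - dist x (α c.unpair.1))
      (dist x (α c.unpair.1) - (p + 1 : ℝ) / 2 ^ (c.unpair.2 + 1 + t)) with hfd
    have hcont : Continuous fd := by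
      simp only [hfd]
      fun_prop
    obtain ⟨x0, -, hx0⟩ := IsCompact.exists_isMinOn (s := (Set.univ : Set X)) isCompact_univ
      ⟨α 0, trivial⟩ hcont.continuousOn
    have hmin : ∀ x, fd x0 ≤ fd x := fun x => hx0 (Set.mem_univ x)
    have hpos : 0 < fd x0 := by
      simp only [hfd, lt_max_iff]
      by_cases h : (p : ℝ) / 2 ^ (c.unpair.2 + 1 + t) ≤ dist x0 (α c.unpair.1)
      · right
        have := h3 x0 h
        linarith
      · left
        linarith
    obtain ⟨q, hq⟩ := exists_pow_lt (ε := fd x0 / 3) (by linarith)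
    have hq3 : (3 : ℝ) / 2 ^ q < fd x0 := by
      have : (3 : ℝ) / 2 ^ q = 3 * (1 / 2 ^ q) := by ring
      rw [this]
      linarith
    refine ⟨Nat.pair p (Nat.pair t q), ?_⟩
    simp only [hVer, Nat.unpair_pair]
    refine ⟨h1, h2, fun j _ => ?_⟩
    have h4 := abs_le.mp (hp.app j c.unpair.1 q)
    have h5 : (3 : ℝ) / 2 ^ q = 2 / 2 ^ q + 1 / 2 ^ q := by ring
    rcases le_max_iff.mp (hmin (α j)) with h6 | h6
    · left
      have h7 : ((D (j, c.unpair.1, q) : ℝ) + 2) / 2 ^ q <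
          (p : ℝ) / 2 ^ (c.unpair.2 + 1 + t) := by
        rw [add_div]
        linarith
      rw [div_lt_div_iff₀ (pow_pos2 _) (pow_pos2 _)] at h7
      exact_mod_cast h7
    · right
      have h7 : ((p : ℝ) + 1) / 2 ^ (c.unpair.2 + 1 + t) + 2 / 2 ^ q <
          (D (j, c.unpair.1, q) : ℝ) / 2 ^ q := by
        linarith
      rw [div_add_div _ _ (pow_pos2 _).ne' (pow_pos2 _).ne',
        div_lt_div_iff₀ (by positivity) (pow_pos2 _)] at h7
      have h8 : ((p : ℝ) + 1) * 2 ^ q + 2 * 2 ^ (c.unpair.2 + 1 + t) <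
          (D (j, c.unpair.1, q) : ℝ) * 2 ^ (c.unpair.2 + 1 + t) := by
        have h9 : (0 : ℝ) < 2 ^ q := pow_pos2 q
        have h10 : (((p : ℝ) + 1) * 2 ^ q + 2 * 2 ^ (c.unpair.2 + 1 + t)) * 2 ^ q <
            ((D (j, c.unpair.1, q) : ℝ) * 2 ^ (c.unpair.2 + 1 + t)) * 2 ^ q := by
          nlinarith
        exact lt_of_mul_lt_mul_right h10 h9.le
      exact_mod_cast h8)
  refine ⟨fun c => (g c).unpair.1, fun c => c.unpair.2 + 1 + (g c).unpair.2.unpair.1,
    hp, un1 hg, Has.add (Has.addc (un2 Has.id) 1) (un1 (un2 hg)), ?_, ?_, ?_⟩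
  · intro i k
    have h1 := (hg' (Nat.pair i k)).1.1
    simp only at h1
    simp only [Nat.unpair_pair]
    rw [pow_add, mul_comm]
    exact Nat.mul_le_mul_right _ h1
  · intro i k
    have h1 := (hg' (Nat.pair i k)).1.2.1
    simp only at h1
    simp only [Nat.unpair_pair]
    have e : 2 ^ (k + 1 + (g (Nat.pair i k)).unpair.2.unpair.1) =
        2 * 2 ^ (g (Nat.pair i k)).unpair.2.unpair.1 * 2 ^ k := by
      rw [pow_add, pow_add]
      ring
    rw [e]
    exact Nat.mul_le_mul_right _ h1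
  · intro c x
    have h1 := (hg' c).1.2.2
    simp only at h1
    obtain ⟨j, hj, hj'⟩ := hp.net (g c).unpair.2.unpair.2 x
    have h2 := abs_le.mp (hp.near (i := c.unpair.1) hj')
    set q := (g c).unpair.2.unpair.2 with hq
    set S := c.unpair.2 + 1 + (g c).unpair.2.unpair.1 with hS
    set p := (g c).unpair.1 with hp'
    rcases h1 j hj with h3 | h3
    · left
      have h4 : ((D (j, c.unpair.1, q) : ℝ) + 2) / 2 ^ q < (p : ℝ) / 2 ^ S := by
        rw [div_lt_div_iff₀ (pow_pos2 _) (pow_pos2 _)]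
        exact_mod_cast h3
      rw [add_div] at h4
      rw [← lt_div_iff₀ (pow_pos2 _)]
      linarith
    · right
      have h4 : ((p : ℝ) + 1) / 2 ^ S + 2 / 2 ^ q < (D (j, c.unpair.1, q) : ℝ) / 2 ^ q := by
        rw [div_add_div _ _ (pow_pos2 _).ne' (pow_pos2 _).ne',
          div_lt_div_iff₀ (by positivity) (pow_pos2 _)]
        have h5 : ((p : ℝ) + 1) * 2 ^ q + 2 * 2 ^ S < (D (j, c.unpair.1, q) : ℝ) * 2 ^ S := by
          exact_mod_cast h3
        nlinarith [mul_lt_mul_of_pos_right h5 (pow_pos2 q)]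
      rw [← div_lt_iff₀ (pow_pos2 _)]
      linarith

/-- **The reversal.** -/
theorem hb_of_discrete [CompactSpace X] (hP : Presented M α) (h : PTietzeDiscrete M α) :
    XHeineBorel M α := by
  by_contra hHB
  obtain ⟨D, N, hp⟩ := hP.data
  by_cases hN : ∃ i0 s0 P : ℕ, ∀ p t : ℕ, P * 2 ^ t ≤ p → p + 1 ≤ (P + 1) * 2 ^ t →
      ∃ x : X, (p : ℝ) / 2 ^ (s0 + t) ≤ dist x (α i0) ∧
        dist x (α i0) ≤ (p + 1 : ℝ) / 2 ^ (s0 + t)
  · obtain ⟨i0, s0, P, hval⟩ := hN
    obtain ⟨s, u, C⟩ := exists_CN hp hval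
    obtain ⟨T, h1, h2, h3, h4⟩ := tree_of_not_hb hp hHB
    exact (C.scheme h1 h2 h3 h4).not_tietze hp h
  · push Not at hN
    obtain ⟨pg, sg, C⟩ := exists_CZ hp (by
      intro i k
      obtain ⟨p, t, h1, h2, h3⟩ := hN i (k + 1) 1
      exact ⟨p, t, by omega, by omega, h3⟩)
    obtain ⟨T, h1, h2, h3, h4, h5⟩ := C.tree hHB
    exact (C.scheme h1 h2 h3 h4 h5).not_tietze hp h

end Pool.Agent.STT
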