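import Pool.Agent.Lib_helper19.STT.GBasic
import Pool.Agent.Lib_helper19.STT.Decode

/-!
# Schemes: a tree without paths, with finite sets of points at its nodes
-/

namespace Pool.Agent.STT

open TuringIdeal Encodable

variable {X : Type} [MetricSpace X] {M : TuringIdeal}

/-- A tree `T` of the model without paths in the model, and finite sets `E σ` of points. -/
structure Scheme (M : TuringIdeal) (α : ℕ → X) (T : List Bool → Bool) (n : ℕ → ℕ)
    (E : List Bool → ℕ → Prop) (Cm : List Bool → Prop) (v lv : ℕ → ℕ) (Aw : ℕ → ℕ → ℕ → Prop) :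
    Prop where
  hT : M.Has T
  tree : IsTree T
  inf : ∀ n, ∃ σ : List Bool, σ.length = n ∧ T σ = true
  nopath : ¬ ∃ x : ℕ → Bool, M.Has x ∧ ∀ n, T (pre x n) = true
  hn : M.Has n
  decE : M.Dec (fun q : List Bool × ℕ => E q.1 q.2)
  Elt : ∀ σ j, E σ j → j < n σ.length
  decCm : M.Dec Cm
  CmT : ∀ σ, Cm σ → T σ = true
  CmLeaf : ∀ σ, Leaf T σ → Cm σ
  hv : M.Has v
  vmono : StrictMono v
  hlv : M.Has lv
  decAw : M.Dec (fun q : ℕ × ℕ × ℕ => Aw q.1 q.2.1 q.2.2)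
  S0 : ∀ σ, T σ = true → ∃ j, E σ j
  S1 : ∀ k l σ y, lv k ≤ l → l ≤ σ.length → T σ = true → E σ y →
    ∃ x, E (σ.take l) x ∧ dist (α x) (α y) ≤ 1 / 2 ^ k
  S2 : ∀ σ σ' i j j', Cm σ → Cm σ' → σ.take (i + 1) ≠ σ'.take (i + 1) → E σ j → E σ' j' →
    1 / 2 ^ v i ≤ dist (α j) (α j')
  S3a : ∀ i r l σ y, Aw i r l → T σ = true → l ≤ σ.length → E σ y →
    1 / 2 ^ r ≤ dist (α i) (α y)
  S3b : ∀ z ∈ MPt M α, ∀ r0, ∃ i r l, r0 ≤ r ∧ Aw i r l ∧ dist z (α i) < 1 / 2 ^ r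
  S4 : ∀ τ x k, Ext T τ → E τ x → lv k ≤ τ.length →
    ∃ σ y, Cm σ ∧ Good T σ ∧ τ.length ≤ bt T σ ∧ E σ y ∧ dist (α x) (α y) ≤ 1 / 2 ^ k

variable {α : ℕ → X} {T : List Bool → Bool} {n : ℕ → ℕ} {E : List Bool → ℕ → Prop}
  {Cm : List Bool → Prop} {v lv : ℕ → ℕ} {Aw : ℕ → ℕ → ℕ → Prop}

variable (α T E Cm) in
/-- The closed set. -/
def SK : Set X := {x | ∃ σ y, Cm σ ∧ Good T σ ∧ E σ y ∧ x = α y}

open Classical in
variable (α T E Cm v) in
/-- The function. -/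
noncomputable def sf (x : X) : ℝ :=
  if h : ∃ σ, ∃ y, Cm σ ∧ E σ y ∧ x = α y then 1 / 2 ^ v (bt T h.choose) else 0

namespace Scheme

theorem uniq (S : Scheme M α T n E Cm v lv Aw) {σ σ' : List Bool} {j j' : ℕ} (h1 : Cm σ)
    (h2 : Cm σ') (h3 : E σ j) (h4 : E σ' j') (h : α j = α j') : σ = σ' := by
  by_contra hne
  have h5 := S.S2 σ σ' (max σ.length σ'.length) j j' h1 h2 (by
    rw [List.take_of_length_le ((le_max_left _ _).trans (Nat.le_succ _)),
      List.take_of_length_le ((le_max_right _ _).trans (Nat.le_succ _))]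
    exact hne) h3 h4
  rw [h, dist_self] at h5
  have h6 : (0 : ℝ) < 1 / 2 ^ v (max σ.length σ'.length) := by positivity
  linarith

theorem sf_eq (S : Scheme M α T n E Cm v lv Aw) {σ : List Bool} {y : ℕ} (h1 : Cm σ)
    (h3 : E σ y) : sf α T E Cm v (α y) = 1 / 2 ^ v (bt T σ) := by
  have h : ∃ τ, ∃ z, Cm τ ∧ E τ z ∧ α y = α z := ⟨σ, y, h1, h3, rfl⟩
  unfold sf
  rw [dif_pos h]
  obtain ⟨z, h4, h5, h6⟩ := h.choose_spec
  rw [← S.uniq h1 h4 h3 h5 h6]

omit [MetricSpace X] in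
theorem sf_range (x : X) : 0 ≤ sf α T E Cm v x ∧ sf α T E Cm v x ≤ 1 := by
  unfold sf
  split
  · refine ⟨by positivity, ?_⟩
    rw [div_le_one (by positivity)]
    exact one_le_pow₀ (by norm_num)
  · exact ⟨le_rfl, zero_le_one⟩

theorem sub (M : TuringIdeal) : SK α T E Cm ⊆ MPt M α := by
  rintro x ⟨σ, y, -, -, -, rfl⟩
  exact MPt.base M α y

/-- Two good nodes whose points are close have the same initial segments. -/
theorem key (S : Scheme M α T n E Cm v lv Aw) {σ σ' : List Bool} {j j' : ℕ} (h1 : Cm σ)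
    (h2 : Cm σ') (h3 : E σ j) (h4 : E σ' j') (hg : Good T σ') (hlt : bt T σ < bt T σ') :
    1 / 2 ^ v (bt T σ) ≤ dist (α j) (α j') := by
  refine S.S2 σ σ' (bt T σ) j j' h1 h2 (fun heq => ?_) h3 h4
  have h5 : (σ'.take (bt T σ + 1)).length = bt T σ + 1 := by
    have := bt_le (T := T) σ'
    simp
    omega
  have h6 : bt T σ + 1 ≤ σ.length := by
    have := h5
    rw [← heq] at this
    simp only [List.length_take] at this
    omega
  have h7 : Ext T (σ'.take (bt T σ + 1)) := by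
    have := Ext.take S.tree hg (bt T σ + 1)
    rwa [List.take_take, min_eq_left (by omega)] at this
  have h8 : bt T σ + 1 ≤ bt T σ := by
    apply le_bt h6
    rw [heq]
    exact h7 _ (by omega)
  omega

theorem lip (S : Scheme M α T n E Cm v lv Aw) : ∀ x ∈ SK α T E Cm, ∀ y ∈ SK α T E Cm,
    |sf α T E Cm v x - sf α T E Cm v y| ≤ dist x y := by
  rintro x ⟨σ, j, h1, hg, h3, rfl⟩ y ⟨σ', j', h2, hg', h4, rfl⟩
  rw [S.sf_eq h1 h3, S.sf_eq h2 h4]
  have hpos : ∀ i : ℕ, (0 : ℝ) < 1 / 2 ^ v i := fun i => by positivity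
  rcases lt_trichotomy (bt T σ) (bt T σ') with h | h | h
  · have h5 := S.key h1 h2 h3 h4 hg' h
    have h6 := inv_pow_le (S.vmono.monotone h.le)
    have h7 := hpos (bt T σ')
    rw [abs_le]
    constructor <;> linarith [hpos (bt T σ)]
  · rw [h]
    simp
  · have h5 := S.key h2 h1 h4 h3 hg h
    rw [dist_comm] at h5
    have h6 := inv_pow_le (S.vmono.monotone h.le)
    have h7 := hpos (bt T σ)
    rw [abs_le]
    constructor <;> linarith [hpos (bt T σ')]

/-- Near a point of a committing node there are no points of `K` of other nodes. -/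
theorem same (S : Scheme M α T n E Cm v lv Aw) {σ σ' : List Bool} {j j' : ℕ} (h1 : Cm σ)
    (h2 : Cm σ') (h3 : E σ j) (h4 : E σ' j')
    (h : dist (α j) (α j') < 1 / 2 ^ v σ.length) : σ = σ' := by
  by_contra hne
  have h5 : σ.take (σ.length + 1) ≠ σ'.take (σ.length + 1) := by
    rw [List.take_of_length_le (Nat.le_succ _)]
    intro heq
    have h6 := congrArg List.length heq
    simp only [List.length_take] at h6
    have h7 : σ'.length ≤ σ.length + 1 := by omega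
    rw [List.take_of_length_le h7] at heq
    exact hne heq
  have h6 := S.S2 σ σ' σ.length j j' h1 h2 h5 h3 h4
  linarith

theorem discrete (S : Scheme M α T n E Cm v lv Aw) :
    ∀ x ∈ SK α T E Cm, ∃ ε > 0, ∀ y ∈ SK α T E Cm, dist y x < ε → y = x := by
  rintro x ⟨σ, j, h1, -, h3, rfl⟩
  -- the points of the same node
  have hfin : ∀ m, ∃ ε > 0, ∀ i < m, dist (α i) (α j) < ε → α i = α j := by
    intro m
    induction m with
    | zero => exact ⟨1, one_pos, by simp⟩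
    | succ m ih =>
      obtain ⟨ε, hε, h⟩ := ih
      by_cases hm : α m = α j
      · refine ⟨ε, hε, fun i hi hd => ?_⟩
        rcases Nat.lt_succ_iff_lt_or_eq.mp hi with h' | rfl
        · exact h i h' hd
        · exact hm
      · refine ⟨min ε (dist (α m) (α j)), lt_min hε (dist_pos.mpr hm), fun i hi hd => ?_⟩
        rcases Nat.lt_succ_iff_lt_or_eq.mp hi with h' | rfl
        · exact h i h' (lt_of_lt_of_le hd (min_le_left _ _))
        · exact absurd (lt_of_lt_of_le hd (min_le_right _ _)) (lt_irrefl _)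
  obtain ⟨ε, hε, h⟩ := hfin (n σ.length)
  refine ⟨min ε (1 / 2 ^ v σ.length), lt_min hε (by positivity), ?_⟩
  rintro y ⟨σ', j', h2, -, h4, rfl⟩ hd
  have h5 := S.same h1 h2 h3 h4 (by
    rw [dist_comm]
    exact lt_of_lt_of_le hd (min_le_right _ _))
  subst h5
  exact h j' (S.Elt _ _ h4) (lt_of_lt_of_le hd (min_le_left _ _))

theorem dec_good_bad (S : Scheme M α T n E Cm v lv Aw) :
    M.Dec (fun q : ℕ × List Bool => (q.2.take (bt T q.2)).length ≤ q.1 ∧
      ¬ A T q.1 (q.2.take (bt T q.2))) := by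
  have h1 : M.Has (fun q : ℕ × List Bool => q.2.take (bt T q.2)) :=
    Has.take ((has_bt S.hT S.inf).comp Has.snd) Has.snd
  exact Dec.and (Dec.le (Has.length h1) Has.fst) ((dec_A S.hT).comp (Has.fst.pair h1)).not

/-- The ball `B(α i, 2 ^ (-r))` is removed from `K`. -/
def Rem (D : ℕ × ℕ × ℕ → ℕ) (T : List Bool → Bool) (n : ℕ → ℕ) (E : List Bool → ℕ → Prop)
    (Cm : List Bool → Prop) (Aw : ℕ → ℕ → ℕ → Prop) (i r l t : ℕ) : Prop :=
  Aw i r l ∧ ∀ m < l, ∀ σ : List Bool, σ.length = m → ∀ j < n m, Cm σ ∧ E σ j →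
    (5 ≤ D (i, j, r + 2) ∨ ((σ.take (bt T σ)).length ≤ t ∧ ¬ A T t (σ.take (bt T σ))))

theorem dec_rem (S : Scheme M α T n E Cm v lv Aw) {D : ℕ × ℕ × ℕ → ℕ} (hD : M.Has D) :
    M.Dec (fun q : ℕ × ℕ × ℕ × ℕ => Rem D T n E Cm Aw q.1 q.2.1 q.2.2.1 q.2.2.2) := by
  unfold Rem
  refine Dec.and (S.decAw.comp (Has.pair Has.fst (Has.pair (Has.fst.comp Has.snd)
    (Has.fst.comp (Has.snd.comp Has.snd))))) ?_
  refine Dec.forall_lt (p := fun r : (ℕ × ℕ × ℕ × ℕ) × ℕ => ∀ σ : List Bool, σ.length = r.2 →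
    ∀ j < n r.2, Cm σ ∧ E σ j → (5 ≤ D (r.1.1, j, r.1.2.1 + 2) ∨
      ((σ.take (bt T σ)).length ≤ r.1.2.2.2 ∧ ¬ A T r.1.2.2.2 (σ.take (bt T σ))))) ?_
    (Has.fst.comp (Has.snd.comp Has.snd))
  refine Dec.forall_len (p := fun r : ((ℕ × ℕ × ℕ × ℕ) × ℕ) × List Bool =>
    ∀ j < n r.1.2, Cm r.2 ∧ E r.2 j → (5 ≤ D (r.1.1.1, j, r.1.1.2.1 + 2) ∨
      ((r.2.take (bt T r.2)).length ≤ r.1.1.2.2.2 ∧
        ¬ A T r.1.1.2.2.2 (r.2.take (bt T r.2))))) ?_ Has.snd
  refine Dec.forall_lt (p := fun r : (((ℕ × ℕ × ℕ × ℕ) × ℕ) × List Bool) × ℕ =>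
    Cm r.1.2 ∧ E r.1.2 r.2 → (5 ≤ D (r.1.1.1.1, r.2, r.1.1.1.2.1 + 2) ∨
      ((r.1.2.take (bt T r.1.2)).length ≤ r.1.1.1.2.2.2 ∧
        ¬ A T r.1.1.1.2.2.2 (r.1.2.take (bt T r.1.2))))) ?_ (S.hn.comp (Has.snd.comp Has.fst))
  have hσ : M.Has (fun r : (((ℕ × ℕ × ℕ × ℕ) × ℕ) × List Bool) × ℕ => r.1.2) :=
    Has.snd.comp Has.fst
  have hq : M.Has (fun r : (((ℕ × ℕ × ℕ × ℕ) × ℕ) × List Bool) × ℕ => r.1.1.1) :=
    Has.fst.comp (Has.fst.comp Has.fst)
  refine Dec.imp (Dec.and (S.decCm.comp hσ) (S.decE.comp (hσ.pair Has.snd))) (Dec.or ?_ ?_)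
  · refine Dec.le (Has.const 5) (hD.comp (Has.pair (Has.fst.comp hq) (Has.pair Has.snd
      (Has.addc (Has.fst.comp (Has.snd.comp hq)) 2))))
  · exact S.dec_good_bad.comp (Has.pair (Has.snd.comp (Has.snd.comp (Has.snd.comp hq))) hσ)

theorem five_le {D : ℕ × ℕ × ℕ → ℕ} {N : ℕ → ℕ} (hp : Pr M α D N) {i j r : ℕ}
    (h : 5 ≤ D (i, j, r + 2)) : 1 / 2 ^ r ≤ dist (α i) (α j) := by
  have h1 := (abs_le.mp (hp.app i j (r + 2))).1
  have h2 : (5 : ℝ) / 2 ^ (r + 2) ≤ (D (i, j, r + 2) : ℝ) / 2 ^ (r + 2) := by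
    gcongr
    exact_mod_cast h
  have h3 : (1 : ℝ) / 2 ^ r = 5 / 2 ^ (r + 2) - 1 / 2 ^ (r + 2) := by
    rw [pow_add]
    field_simp
    norm_num
  rw [h3]
  linarith

theorem five_of {D : ℕ × ℕ × ℕ → ℕ} {N : ℕ → ℕ} (hp : Pr M α D N) {i j r : ℕ}
    (h : 2 / 2 ^ r ≤ dist (α i) (α j)) : 5 ≤ D (i, j, r + 2) := by
  by_contra hc
  have h1 := (abs_le.mp (hp.app i j (r + 2))).2
  have h2 : (D (i, j, r + 2) : ℝ) / 2 ^ (r + 2) ≤ 4 / 2 ^ (r + 2) := by
    gcongr
    have : D (i, j, r + 2) ≤ 4 := by omega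
    exact_mod_cast this
  have h3 : (2 : ℝ) / 2 ^ r = 8 / 2 ^ (r + 2) := by
    rw [pow_add]
    field_simp
    norm_num
  rw [h3] at h
  have h4 : (8 : ℝ) / 2 ^ (r + 2) = 4 / 2 ^ (r + 2) + 4 * (1 / 2 ^ (r + 2)) := by ring
  have h5 : (0 : ℝ) < 1 / 2 ^ (r + 2) := by positivity
  linarith

theorem closed (S : Scheme M α T n E Cm v lv Aw) {D : ℕ × ℕ × ℕ → ℕ} {N : ℕ → ℕ}
    (hp : Pr M α D N) : XClosed M α (SK α T E Cm) := by
  classical
  refine xclosed_intro (γ := ℕ × ℕ × ℕ × ℕ) (sub M)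
    (fun q => if Rem D T n E Cm Aw q.1 q.2.1 q.2.2.1 q.2.2.2 then some (q.1, 1, q.2.1) else none)
    ?_ ?_
  · refine Has.ite (p := fun q : ℕ × ℕ × ℕ × ℕ => Rem D T n E Cm Aw q.1 q.2.1 q.2.2.1 q.2.2.2)
      (S.dec_rem hp.hD) ?_ (Has.const none)
    exact (Has.of_primrec Primrec.option_some).comp (Has.pair Has.fst (Has.pair (Has.const 1)
      (Has.fst.comp Has.snd)))
  · intro z hz
    constructor
    · rintro ⟨σ, y, h1, hg, h3, rfl⟩ ⟨i, r, l, t⟩ i' a e hw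
      simp only at hw
      split at hw
      · rename_i hR
        simp only [Option.some.injEq, Prod.mk.injEq] at hw
        obtain ⟨rfl, rfl, rfl⟩ := hw
        rw [rad_one, dist_comm]
        by_cases hl : l ≤ σ.length
        · exact S.S3a i r l σ y hR.1 (S.CmT _ h1) hl h3
        · push Not at hl
          rcases hR.2 σ.length hl σ rfl y (S.Elt _ _ h3) ⟨h1, h3⟩ with h4 | ⟨h4, h5⟩
          · exact five_le hp h4
          · exact absurd (hg t h4) h5
      · exact absurd hw (by simp)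
    · intro h
      by_contra hzK
      -- `z` is away from the points of the nodes of large length
      obtain ⟨i0, r0, l0, -, hA0, hd0⟩ := S.S3b z hz 0
      set δ1 : ℝ := 1 / 2 ^ r0 - dist z (α i0) with hδ1
      have hδ1pos : 0 < δ1 := by linarith
      have hfar : ∀ σ y, T σ = true → l0 ≤ σ.length → E σ y → δ1 ≤ dist z (α y) := by
        intro σ y h1 h2 h3
        have h4 := S.S3a i0 r0 l0 σ y hA0 h1 h2 h3
        have h5 := dist_triangle (α i0) z (α y)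
        rw [dist_comm (α i0) z] at h5
        linarith
      -- and from those of the good nodes of small length
      have hnear : ∀ (m : ℕ), ∃ ε > 0, ∀ j < m, (∃ σ, Cm σ ∧ Good T σ ∧ E σ j) →
          ε ≤ dist z (α j) := by
        intro m
        induction m with
        | zero => exact ⟨1, one_pos, by simp⟩
        | succ m ih =>
          obtain ⟨ε, hε, h'⟩ := ih
          by_cases hm : ∃ σ, Cm σ ∧ Good T σ ∧ E σ m
          · have hne : z ≠ α m := by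
              rintro rfl
              obtain ⟨σ, h1, h2, h3⟩ := hm
              exact hzK ⟨σ, m, h1, h2, h3, rfl⟩
            refine ⟨min ε (dist z (α m)), lt_min hε (dist_pos.mpr hne), fun j hj hj' => ?_⟩
            rcases Nat.lt_succ_iff_lt_or_eq.mp hj with h1 | rfl
            · exact (min_le_left _ _).trans (h' j h1 hj')
            · exact min_le_right _ _
          · refine ⟨ε, hε, fun j hj hj' => ?_⟩
            rcases Nat.lt_succ_iff_lt_or_eq.mp hj with h1 | rfl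
            · exact h' j h1 hj'
            · exact absurd hj' hm
      obtain ⟨mm, hmm⟩ : ∃ mm, ∀ m < l0, n m ≤ mm := by
        refine ⟨(Finset.range l0).sup n, fun m hm => Finset.le_sup (f := n) (by simpa using hm)⟩
      obtain ⟨δ2, hδ2pos, hδ2⟩ := hnear mm
      set δ : ℝ := min δ1 δ2 with hδ
      have hδpos : 0 < δ := lt_min hδ1pos hδ2pos
      obtain ⟨q, hq⟩ := exists_pow_lt (ε := δ / 3) (by linarith)
      obtain ⟨i, r, l, hr, hA, hd⟩ := S.S3b z hz q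
      have hr' : (1 : ℝ) / 2 ^ r < δ / 3 := lt_of_le_of_lt (inv_pow_le hr) hq
      have hclear : ∀ j, δ ≤ dist z (α j) → 5 ≤ D (i, j, r + 2) := by
        intro j hj
        apply five_of hp
        have h5 := dist_triangle z (α i) (α j)
        have h6 : (2 : ℝ) / 2 ^ r = 2 * (1 / 2 ^ r) := by ring
        rw [h6]
        linarith
      -- a stage at which the bad nodes are recognised
      have hbad : ∀ (Q : Finset (List Bool)), ∃ t0, ∀ σ ∈ Q, ¬ Good T σ → ∀ t, t0 ≤ t →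
          (σ.take (bt T σ)).length ≤ t ∧ ¬ A T t (σ.take (bt T σ)) := by
        intro Q
        induction Q using Finset.induction_on with
        | empty => exact ⟨0, by simp⟩
        | insert σ Q _ ih =>
          obtain ⟨t0, ht0⟩ := ih
          by_cases hg : Good T σ
          · refine ⟨t0, fun τ hτ hτ' t ht => ?_⟩
            rcases Finset.mem_insert.mp hτ with rfl | h1
            · exact absurd hg hτ'
            · exact ht0 τ h1 hτ' t ht
          · have hg' := hg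
            unfold Good Ext at hg'
            push Not at hg'
            obtain ⟨t1, ht1, ht2⟩ := hg'
            refine ⟨max t0 t1, fun τ hτ hτ' t ht => ?_⟩
            rcases Finset.mem_insert.mp hτ with rfl | h1
            · have h3 : t1 ≤ t := (le_max_right _ _).trans ht
              exact ⟨ht1.trans h3, fun hA' => ht2 (hA'.mono S.tree h3 ht1)⟩
            · exact ht0 τ h1 hτ' t ((le_max_left _ _).trans ht)
      -- all nodes of length less than `l`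
      have hall : ∃ Q : Finset (List Bool), ∀ σ : List Bool, σ.length < l → σ ∈ Q := by
        refine ⟨(Finset.range l).biUnion fun m =>
          (Finset.univ : Finset (List.Vector Bool m)).image (fun w => w.toList), ?_⟩
        intro σ hσ
        rw [Finset.mem_biUnion]
        exact ⟨σ.length, by simpa using hσ, Finset.mem_image.mpr
          ⟨⟨σ, rfl⟩, Finset.mem_univ _, rfl⟩⟩
      obtain ⟨Q, hQ⟩ := hall
      obtain ⟨t, ht⟩ := hbad Q
      have hRem : Rem D T n E Cm Aw i r l t := by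
        refine ⟨hA, ?_⟩
        rintro m hm σ hσ j hj ⟨h1, h3⟩
        by_cases hl0 : l0 ≤ m
        · left
          apply hclear
          exact (min_le_left _ _).trans (hfar σ j (S.CmT _ h1) (by omega) h3)
        · by_cases hg : Good T σ
          · left
            apply hclear
            refine (min_le_right _ _).trans (hδ2 j ?_ ⟨σ, h1, hg, h3⟩)
            exact lt_of_lt_of_le hj (hmm m (by omega))
          · right
            exact ht σ (hQ σ (by omega)) hg t le_rfl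
      have h7 := h (i, r, l, t) i 1 r (by simp [hRem])
      rw [rad_one] at h7
      linarith

theorem cont (S : Scheme M α T n E Cm v lv Aw) :
    PCont M α (SK α T E Cm) (sf α T E Cm v) := by
  classical
  refine xcont_intro (γ := List Bool × ℕ × ℕ) (fun q => if Cm q.1 ∧ E q.1 q.2.1 then
    some ((q.2.1, 1, v q.1.length), (1, 0, v (bt T q.1), q.2.2)) else none) ?_ ?_ ?_
  · refine Has.ite (p := fun q : List Bool × ℕ × ℕ => Cm q.1 ∧ E q.1 q.2.1)
      (Dec.and (S.decCm.comp Has.fst) (S.decE.comp (Has.pair Has.fst (Has.fst.comp Has.snd)))) ?_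
      (Has.const none)
    refine (Has.of_primrec Primrec.option_some).comp (Has.pair (Has.pair (Has.fst.comp Has.snd)
      (Has.pair (Has.const 1) (S.hv.comp (Has.length Has.fst)))) (Has.pair (Has.const 1)
        (Has.pair (Has.const 0) (Has.pair (S.hv.comp ((has_bt S.hT S.inf).comp Has.fst))
          (Has.snd.comp Has.snd)))))
  · rintro ⟨σ, j, k⟩ i r s a b e l hg x ⟨σ', j', h2, -, h4, rfl⟩ hd
    simp only at hg
    split at hg
    · rename_i hσ
      simp only [Option.some.injEq, Prod.mk.injEq] at hg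
      obtain ⟨⟨rfl, rfl, rfl⟩, rfl, rfl, rfl, rfl⟩ := hg
      rw [rad_one, dist_comm] at hd
      have h5 := S.same hσ.1 h2 hσ.2 h4 hd
      subst h5
      rw [S.sf_eq h2 h4]
      unfold dy
      simp
    · exact absurd hg (by simp)
  · rintro x ⟨σ, j, h1, -, h3, rfl⟩ k
    refine ⟨(σ, j, k), j, 1, v σ.length, 1, 0, v (bt T σ), k, by simp [h1, h3], ?_, le_rfl⟩
    rw [rad_one, dist_self]
    positivity

/-- All nodes of some level are above nodes which live forever. -/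
theorem exists_level (S : Scheme M α T n E Cm v lv Aw) (m : ℕ) :
    ∃ l, m ≤ l ∧ ∀ σ : List Bool, σ.length = l → T σ = true → Ext T (σ.take m) := by
  classical
  have hfin : ∀ (Q : Finset (List Bool)), (∀ τ ∈ Q, ¬ Ext T τ) →
      ∃ t0, ∀ τ ∈ Q, ∀ t, t0 ≤ t → ¬ A T t τ := by
    intro Q
    induction Q using Finset.induction_on with
    | empty => exact fun _ => ⟨0, by simp⟩
    | insert τ Q _ ih =>
      intro hQ
      obtain ⟨t0, ht0⟩ := ih fun τ' h' => hQ τ' (Finset.mem_insert_of_mem h')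
      have h3 := hQ τ (Finset.mem_insert_self _ _)
      unfold Ext at h3
      push Not at h3
      obtain ⟨t1, h4, h5⟩ := h3
      refine ⟨max t0 t1, fun τ' h' t ht => ?_⟩
      rcases Finset.mem_insert.mp h' with rfl | h'
      · exact fun hA => h5 (hA.mono S.tree ((le_max_right _ _).trans ht) h4)
      · exact ht0 τ' h' t ((le_max_left _ _).trans ht)
  obtain ⟨t0, ht0⟩ := hfin ((Finset.univ : Finset (List.Vector Bool m)).image
    (fun v => v.toList) |>.filter fun τ => ¬ Ext T τ) (by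
      intro τ hτ
      exact (Finset.mem_filter.mp hτ).2)
  refine ⟨max m t0, le_max_left _ _, fun σ hσ hσT => ?_⟩
  by_contra hne
  have hlen : (σ.take m).length = m := by simp; omega
  refine ht0 (σ.take m) ?_ (max m t0) (le_max_right _ _) ?_
  · rw [Finset.mem_filter]
    exact ⟨Finset.mem_image.mpr ⟨⟨σ.take m, hlen⟩, Finset.mem_univ _, rfl⟩, hne⟩
  · rw [← hσ]
    exact A.of_extends hσT (by rw [hlen])

/-- A stage at which the bad nodes of small length are recognised. -/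
theorem exists_stage (S : Scheme M α T n E Cm v lv Aw) (l : ℕ) :
    ∃ t, ∀ σ : List Bool, σ.length < l → ¬ Good T σ →
      (σ.take (bt T σ)).length ≤ t ∧ ¬ A T t (σ.take (bt T σ)) := by
  classical
  have hbad : ∀ (Q : Finset (List Bool)), ∃ t0, ∀ σ ∈ Q, ¬ Good T σ → ∀ t, t0 ≤ t →
      (σ.take (bt T σ)).length ≤ t ∧ ¬ A T t (σ.take (bt T σ)) := by
    intro Q
    induction Q using Finset.induction_on with
    | empty => exact ⟨0, by simp⟩
    | insert σ Q _ ih =>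
      obtain ⟨t0, ht0⟩ := ih
      by_cases hg : Good T σ
      · refine ⟨t0, fun τ hτ hτ' t ht => ?_⟩
        rcases Finset.mem_insert.mp hτ with rfl | h1
        · exact absurd hg hτ'
        · exact ht0 τ h1 hτ' t ht
      · have hg' := hg
        unfold Good Ext at hg'
        push Not at hg'
        obtain ⟨t1, ht1, ht2⟩ := hg'
        refine ⟨max t0 t1, fun τ hτ hτ' t ht => ?_⟩
        rcases Finset.mem_insert.mp hτ with rfl | h1
        · have h3 : t1 ≤ t := (le_max_right _ _).trans ht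
          exact ⟨ht1.trans h3, fun hA' => ht2 (hA'.mono S.tree h3 ht1)⟩
        · exact ht0 τ h1 hτ' t ((le_max_left _ _).trans ht)
  obtain ⟨t, ht⟩ := hbad ((Finset.range l).biUnion fun m =>
    (Finset.univ : Finset (List.Vector Bool m)).image (fun w => w.toList))
  refine ⟨t, fun σ hσ hg => ht σ ?_ hg t le_rfl⟩
  rw [Finset.mem_biUnion]
  exact ⟨σ.length, by simpa using hσ, Finset.mem_image.mpr ⟨⟨σ, rfl⟩, Finset.mem_univ _, rfl⟩⟩

/-- The certificate for a lower bound of the distance of `α i` from `K`. -/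
def WL (D : ℕ × ℕ × ℕ → ℕ) (T : List Bool → Bool) (n : ℕ → ℕ) (E : List Bool → ℕ → Prop)
    (Cm : List Bool → Prop) (lv : ℕ → ℕ) (i a e l k t : ℕ) : Prop :=
  lv k ≤ l ∧ (∀ σ : List Bool, σ.length = l → T σ = true → ∀ y < n l, E σ y →
    a * 2 ^ k + 4 * 2 ^ e ≤ D (i, y, k) * 2 ^ e) ∧
  ∀ m < l, ∀ σ : List Bool, σ.length = m → ∀ y < n m, Cm σ ∧ E σ y →
    (a * 2 ^ k + 4 * 2 ^ e ≤ D (i, y, k) * 2 ^ e ∨
      ((σ.take (bt T σ)).length ≤ t ∧ ¬ A T t (σ.take (bt T σ))))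

theorem dec_WL (S : Scheme M α T n E Cm v lv Aw) {D : ℕ × ℕ × ℕ → ℕ} (hD : M.Has D) :
    M.Dec (fun q : (ℕ × ℕ × ℕ) × (ℕ × ℕ × ℕ) =>
      WL D T n E Cm lv q.1.1 q.1.2.1 q.1.2.2 q.2.1 q.2.2.1 q.2.2.2) := by
  unfold WL
  have hi : M.Has (fun q : (ℕ × ℕ × ℕ) × (ℕ × ℕ × ℕ) => q.1.1) := Has.fst.comp Has.fst
  have ha : M.Has (fun q : (ℕ × ℕ × ℕ) × (ℕ × ℕ × ℕ) => q.1.2.1) :=
    Has.fst.comp (Has.snd.comp Has.fst)
  have he : M.Has (fun q : (ℕ × ℕ × ℕ) × (ℕ × ℕ × ℕ) => q.1.2.2) :=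
    Has.snd.comp (Has.snd.comp Has.fst)
  have hl : M.Has (fun q : (ℕ × ℕ × ℕ) × (ℕ × ℕ × ℕ) => q.2.1) := Has.fst.comp Has.snd
  have hk : M.Has (fun q : (ℕ × ℕ × ℕ) × (ℕ × ℕ × ℕ) => q.2.2.1) :=
    Has.fst.comp (Has.snd.comp Has.snd)
  have ht : M.Has (fun q : (ℕ × ℕ × ℕ) × (ℕ × ℕ × ℕ) => q.2.2.2) :=
    Has.snd.comp (Has.snd.comp Has.snd)
  -- the comparison
  have hclr : M.Dec (fun q : ((ℕ × ℕ × ℕ) × (ℕ × ℕ × ℕ)) × ℕ =>
      q.1.1.2.1 * 2 ^ q.1.2.2.1 + 4 * 2 ^ q.1.1.2.2 ≤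
        D (q.1.1.1, q.2, q.1.2.2.1) * 2 ^ q.1.1.2.2) :=
    Dec.le (Has.add (Has.mul (ha.comp Has.fst) (Has.pow2 (hk.comp Has.fst)))
      (Has.mul (Has.const 4) (Has.pow2 (he.comp Has.fst))))
      (Has.mul (hD.comp (Has.pair (hi.comp Has.fst) (Has.pair Has.snd (hk.comp Has.fst))))
        (Has.pow2 (he.comp Has.fst)))
  refine Dec.and (Dec.le (S.hlv.comp hk) hl) (Dec.and ?_ ?_)
  · refine Dec.forall_len (p := fun r : ((ℕ × ℕ × ℕ) × (ℕ × ℕ × ℕ)) × List Bool =>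
      T r.2 = true → ∀ y < n r.1.2.1, E r.2 y →
        r.1.1.2.1 * 2 ^ r.1.2.2.1 + 4 * 2 ^ r.1.1.2.2 ≤
          D (r.1.1.1, y, r.1.2.2.1) * 2 ^ r.1.1.2.2) ?_ hl
    refine Dec.imp (Dec.eq_true (S.hT.comp Has.snd)) ?_
    refine Dec.forall_lt (p := fun s : (((ℕ × ℕ × ℕ) × (ℕ × ℕ × ℕ)) × List Bool) × ℕ =>
      E s.1.2 s.2 → s.1.1.1.2.1 * 2 ^ s.1.1.2.2.1 + 4 * 2 ^ s.1.1.1.2.2 ≤
        D (s.1.1.1.1, s.2, s.1.1.2.2.1) * 2 ^ s.1.1.1.2.2) ?_
      (S.hn.comp (hl.comp Has.fst))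
    exact Dec.imp (S.decE.comp (Has.pair (Has.snd.comp Has.fst) Has.snd))
      (hclr.comp (Has.pair (Has.fst.comp Has.fst) Has.snd))
  · refine Dec.forall_lt (p := fun r : ((ℕ × ℕ × ℕ) × (ℕ × ℕ × ℕ)) × ℕ =>
      ∀ σ : List Bool, σ.length = r.2 → ∀ y < n r.2, Cm σ ∧ E σ y →
        (r.1.1.2.1 * 2 ^ r.1.2.2.1 + 4 * 2 ^ r.1.1.2.2 ≤
          D (r.1.1.1, y, r.1.2.2.1) * 2 ^ r.1.1.2.2 ∨
        ((σ.take (bt T σ)).length ≤ r.1.2.2.2 ∧ ¬ A T r.1.2.2.2 (σ.take (bt T σ))))) ?_ hl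
    refine Dec.forall_len (p := fun s : (((ℕ × ℕ × ℕ) × (ℕ × ℕ × ℕ)) × ℕ) × List Bool =>
      ∀ y < n s.1.2, Cm s.2 ∧ E s.2 y →
        (s.1.1.1.2.1 * 2 ^ s.1.1.2.2.1 + 4 * 2 ^ s.1.1.1.2.2 ≤
          D (s.1.1.1.1, y, s.1.1.2.2.1) * 2 ^ s.1.1.1.2.2 ∨
        ((s.2.take (bt T s.2)).length ≤ s.1.1.2.2.2 ∧
          ¬ A T s.1.1.2.2.2 (s.2.take (bt T s.2))))) ?_ Has.snd
    refine Dec.forall_lt (p := fun u : ((((ℕ × ℕ × ℕ) × (ℕ × ℕ × ℕ)) × ℕ) × List Bool) × ℕ =>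
      Cm u.1.2 ∧ E u.1.2 u.2 →
        (u.1.1.1.1.2.1 * 2 ^ u.1.1.1.2.2.1 + 4 * 2 ^ u.1.1.1.1.2.2 ≤
          D (u.1.1.1.1.1, u.2, u.1.1.1.2.2.1) * 2 ^ u.1.1.1.1.2.2 ∨
        ((u.1.2.take (bt T u.1.2)).length ≤ u.1.1.1.2.2.2 ∧
          ¬ A T u.1.1.1.2.2.2 (u.1.2.take (bt T u.1.2))))) ?_
      (S.hn.comp (Has.snd.comp Has.fst))
    have hσ : M.Has (fun u : ((((ℕ × ℕ × ℕ) × (ℕ × ℕ × ℕ)) × ℕ) × List Bool) × ℕ => u.1.2) :=
      Has.snd.comp Has.fst
    have hq : M.Has (fun u : ((((ℕ × ℕ × ℕ) × (ℕ × ℕ × ℕ)) × ℕ) × List Bool) × ℕ =>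
        u.1.1.1) := Has.fst.comp (Has.fst.comp Has.fst)
    exact Dec.imp (Dec.and (S.decCm.comp hσ) (S.decE.comp (hσ.pair Has.snd)))
      (Dec.or (hclr.comp (Has.pair hq Has.snd)) (S.dec_good_bad.comp (Has.pair (ht.comp hq) hσ)))

/-- The closed set of a scheme is weakly located. -/
theorem weaklyLocated (S : Scheme M α T n E Cm v lv Aw) {D : ℕ × ℕ × ℕ → ℕ} {N : ℕ → ℕ}
    (hp : Pr M α D N) : XWeaklyLocated M α (SK α T E Cm) := by
  classical
  have hw : M.Has (fun q : (ℕ × ℕ × ℕ) × (ℕ × ℕ × ℕ) =>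
      if WL D T n E Cm lv q.1.1 q.1.2.1 q.1.2.2 q.2.1 q.2.2.1 q.2.2.2 then some q.1 else none) :=
    Has.ite (p := fun q : (ℕ × ℕ × ℕ) × (ℕ × ℕ × ℕ) =>
      WL D T n E Cm lv q.1.1 q.1.2.1 q.1.2.2 q.2.1 q.2.2.1 q.2.2.2) (S.dec_WL hp.hD)
      ((Has.of_primrec Primrec.option_some).comp Has.fst) (Has.const none)
  refine ⟨_, Has.reindex hw, fun i a e => ?_⟩
  rw [reindex_iff (w := fun q : (ℕ × ℕ × ℕ) × (ℕ × ℕ × ℕ) =>
      if WL D T n E Cm lv q.1.1 q.1.2.1 q.1.2.2 q.2.1 q.2.2.1 q.2.2.2 then some q.1 else none)]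
  have hcl : ∀ y k, a * 2 ^ k + 4 * 2 ^ e ≤ D (i, y, k) * 2 ^ e →
      rad a e + 3 / 2 ^ k ≤ dist (α i) (α y) := by
    intro y k h
    have h1 : (a : ℝ) * 2 ^ k + 4 * 2 ^ e ≤ D (i, y, k) * 2 ^ e := by exact_mod_cast h
    have h2 : (a : ℝ) / 2 ^ e + 4 / 2 ^ k ≤ (D (i, y, k) : ℝ) / 2 ^ k := by
      rw [div_add_div _ _ (pow_pos2 _).ne' (pow_pos2 _).ne',
        div_le_div_iff₀ (by positivity) (pow_pos2 _)]
      nlinarith [mul_le_mul_of_nonneg_right h1 (pow_pos2 k).le]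
    have h3 := (abs_le.mp (hp.app i y k)).1
    have h4 : (4 : ℝ) / 2 ^ k = 3 / 2 ^ k + 1 / 2 ^ k := by ring
    unfold rad
    linarith
  have hcl' : ∀ y k, rad a e + 5 / 2 ^ k ≤ dist (α i) (α y) →
      a * 2 ^ k + 4 * 2 ^ e ≤ D (i, y, k) * 2 ^ e := by
    intro y k h
    have h3 := (abs_le.mp (hp.app i y k)).2
    have h4 : (5 : ℝ) / 2 ^ k = 4 / 2 ^ k + 1 / 2 ^ k := by ring
    have h2 : (a : ℝ) / 2 ^ e + 4 / 2 ^ k ≤ (D (i, y, k) : ℝ) / 2 ^ k := by
      unfold rad at h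
      linarith
    rw [div_add_div _ _ (pow_pos2 _).ne' (pow_pos2 _).ne',
      div_le_div_iff₀ (by positivity) (pow_pos2 _)] at h2
    have h5 : (a : ℝ) * 2 ^ k + 4 * 2 ^ e ≤ D (i, y, k) * 2 ^ e := by
      have h6 : ((a : ℝ) * 2 ^ k + 4 * 2 ^ e) * 2 ^ k ≤ (D (i, y, k) * 2 ^ e) * 2 ^ k := by
        nlinarith
      exact le_of_mul_le_mul_right h6 (pow_pos2 k)
    exact_mod_cast h5
  constructor
  · rintro ⟨⟨⟨i', a', e'⟩, l, k, t⟩, hq⟩
    simp only at hq
    split at hq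
    · rename_i hWL
      simp only [Option.some.injEq, Prod.mk.injEq] at hq
      obtain ⟨rfl, rfl, rfl⟩ := hq
      obtain ⟨h1, h2, h3⟩ := hWL
      refine ⟨2 / 2 ^ k, by positivity, ?_⟩
      rintro x ⟨σ, y, hC, hg, hE, rfl⟩
      rw [dist_comm]
      have hk : (0 : ℝ) < 1 / 2 ^ k := by positivity
      have e3 : (3 : ℝ) / 2 ^ k = 3 * (1 / 2 ^ k) := by ring
      have e2 : (2 : ℝ) / 2 ^ k = 2 * (1 / 2 ^ k) := by ring
      rw [e2]
      by_cases hl : l ≤ σ.length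
      · obtain ⟨x, hx, hx'⟩ := S.S1 k l σ y h1 hl (S.CmT _ hC) hE
        have hlen : (σ.take l).length = l := by simp; omega
        have hxn := S.Elt _ _ hx
        rw [hlen] at hxn
        have h4 := hcl x k (h2 (σ.take l) hlen (S.tree.take (S.CmT _ hC) l) x hxn hx)
        have h5 := dist_triangle (α i') (α y) (α x)
        rw [dist_comm (α y) (α x)] at h5
        rw [e3] at h4
        linarith
      · push Not at hl
        rcases h3 σ.length hl σ rfl y (S.Elt _ _ hE) ⟨hC, hE⟩ with h4 | ⟨h4, h5⟩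
        · have h6 := hcl y k h4
          rw [e3] at h6
          linarith
        · exact absurd (hg t h4) h5
    · exact absurd hq (by simp)
  · rintro ⟨ε, hε, hK⟩
    obtain ⟨k, hk⟩ := exists_pow_lt (ε := ε / 7) (by linarith)
    obtain ⟨l, hl1, hl2⟩ := S.exists_level (lv k)
    obtain ⟨t, ht⟩ := S.exists_stage l
    suffices hWL : WL D T n E Cm lv i a e l k t from ⟨((i, a, e), (l, k, t)), if_pos hWL⟩
    refine ⟨hl1, ?_, ?_⟩
    · intro σ hσ hσT y _ hy
      apply hcl'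
      obtain ⟨x, hx, hx'⟩ := S.S1 k (lv k) σ y le_rfl (by omega) hσT hy
      have hlen : (σ.take (lv k)).length = lv k := by simp; omega
      obtain ⟨σ', y', h1, h2, -, h4, h5⟩ := S.S4 (σ.take (lv k)) x k (hl2 σ hσ hσT) hx
        (by rw [hlen])
      have h6 := hK (α y') ⟨σ', y', h1, h2, h4, rfl⟩
      rw [dist_comm] at h6
      have h7 := dist_triangle (α i) (α y) (α y')
      have h8 := dist_triangle (α y) (α x) (α y')
      rw [dist_comm (α y) (α x)] at h8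
      have e5 : (5 : ℝ) / 2 ^ k = 5 * (1 / 2 ^ k) := by ring
      rw [e5]
      linarith
    · rintro m hm σ hσ y _ ⟨hC, hE⟩
      by_cases hg : Good T σ
      · left
        apply hcl'
        have h6 := hK (α y) ⟨σ, y, hC, hg, hE, rfl⟩
        rw [dist_comm] at h6
        have e5 : (5 : ℝ) / 2 ^ k = 5 * (1 / 2 ^ k) := by ring
        rw [e5]
        have h7 : (0 : ℝ) < 1 / 2 ^ k := by positivity
        linarith
      · right
        exact ht σ (by omega) hg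

end Scheme

end Pool.Agent.STT
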