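import Mathlib

/-!
# Turing ideals and functions coded in them
-/

namespace Pool.Agent.STT

open Encodable

/-- A Turing ideal: a nonempty class of functions closed under join and Turing reducibility. These
are the second-order parts of the `ω`-models of `RCA₀`. -/
structure TuringIdeal where
  carrier : Set (ℕ → ℕ)
  nonempty : carrier.Nonempty
  join : ∀ f ∈ carrier, ∀ g ∈ carrier, (fun n => Nat.pair (f n) (g n)) ∈ carrier
  down : ∀ f g : ℕ → ℕ, g ∈ carrier → TuringReducible (f : ℕ →. ℕ) (g : ℕ →. ℕ) → f ∈ carrier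

/-- A function between coded types belongs to the ideal if the function of the codes does. -/
def TuringIdeal.Has (M : TuringIdeal) {α β : Type} [Primcodable α] [Primcodable β] (f : α → β) :
    Prop :=
  (fun n => encode ((decode (α := α) n).map f)) ∈ M.carrier

namespace TuringIdeal

variable (M : TuringIdeal) {α β γ δ : Type} [Primcodable α] [Primcodable β] [Primcodable γ]
  [Primcodable δ]

/-! ### Functions on the natural numbers -/

theorem mem_two {f g h : ℕ → ℕ} (hf : f ∈ M.carrier) (hg : g ∈ M.carrier)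
    (hh : Nat.RecursiveIn {(f : ℕ →. ℕ), (g : ℕ →. ℕ)} (h : ℕ →. ℕ)) : h ∈ M.carrier := by
  refine M.down h _ (M.join f hf g hg) ?_
  have key : Nat.RecursiveIn {((fun n => Nat.pair (f n) (g n) : ℕ → ℕ) : ℕ →. ℕ)}
      (h : ℕ →. ℕ) := by
    refine hh.subst fun k hk => ?_
    have ho : Nat.RecursiveIn {((fun n => Nat.pair (f n) (g n) : ℕ → ℕ) : ℕ →. ℕ)}
        ((fun n => Nat.pair (f n) (g n) : ℕ → ℕ) : ℕ →. ℕ) := .oracle _ rfl
    rcases hk with rfl | rfl
    · refine Nat.RecursiveIn.of_eq (Nat.RecursiveIn.comp Nat.RecursiveIn.left ho) fun n => ?_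
      simp [PFun.coe_val]
    · refine Nat.RecursiveIn.of_eq (Nat.RecursiveIn.comp Nat.RecursiveIn.right ho) fun n => ?_
      simp [PFun.coe_val]
  exact RecursiveIn.iff_nat.mpr key

theorem mem_primrec {f : ℕ → ℕ} (hf : Nat.Primrec f) : f ∈ M.carrier := by
  obtain ⟨g, hg⟩ := M.nonempty
  exact M.down f g hg (RecursiveIn.iff_nat.mpr hf.recursiveIn)

theorem mem_comp {f g : ℕ → ℕ} (hf : f ∈ M.carrier) (hg : g ∈ M.carrier) :
    (fun n => f (g n)) ∈ M.carrier := by
  refine M.mem_two hf hg ?_
  refine Nat.RecursiveIn.of_eq (Nat.RecursiveIn.comp (f := (f : ℕ →. ℕ)) (h := (g : ℕ →. ℕ))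
    (.oracle _ (by simp)) (.oracle _ (by simp))) fun n => ?_
  simp [PFun.coe_val]

theorem mem_pair {f g : ℕ → ℕ} (hf : f ∈ M.carrier) (hg : g ∈ M.carrier) :
    (fun n => Nat.pair (f n) (g n)) ∈ M.carrier := M.join f hf g hg

theorem mem_comp₂ {p : ℕ → ℕ → ℕ} (hp : Primrec₂ p) {f g : ℕ → ℕ} (hf : f ∈ M.carrier)
    (hg : g ∈ M.carrier) : (fun n => p (f n) (g n)) ∈ M.carrier := by
  have h1 : Nat.Primrec (fun m => p m.unpair.1 m.unpair.2) := by
    have := hp.comp (Primrec.fst.comp Primrec.unpair) (Primrec.snd.comp Primrec.unpair)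
    exact Primrec.nat_iff.mp this
  have h2 := M.mem_comp (M.mem_primrec h1) (M.mem_pair hf hg)
  simpa using h2

theorem mem_rec {f g : ℕ → ℕ} (hf : f ∈ M.carrier) (hg : g ∈ M.carrier) :
    (fun p : ℕ => (Nat.rec (f p.unpair.1)
      (fun y IH => g (Nat.pair p.unpair.1 (Nat.pair y IH))) p.unpair.2 : ℕ)) ∈ M.carrier := by
  refine M.mem_two hf hg ?_
  refine Nat.RecursiveIn.of_eq (Nat.RecursiveIn.prec (f := (f : ℕ →. ℕ)) (h := (g : ℕ →. ℕ))
    (.oracle _ (by simp)) (.oracle _ (by simp))) fun p => ?_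
  simp only [PFun.coe_val]
  induction p.unpair.2 with
  | zero => simp
  | succ n ih => simp only [ih]; simp

theorem mem_find {f : ℕ → ℕ} (hf : f ∈ M.carrier) (h : ∀ a, ∃ n, f (Nat.pair a n) = 0) :
    ∃ g ∈ M.carrier, ∀ a, f (Nat.pair a (g a)) = 0 ∧ ∀ m < g a, f (Nat.pair a m) ≠ 0 := by
  refine ⟨fun a => Nat.find (h a), ?_, fun a => ⟨Nat.find_spec (h a), fun m hm =>
    Nat.find_min (h a) hm⟩⟩
  refine M.mem_two hf hf ?_
  refine Nat.RecursiveIn.of_eq_tot (Nat.RecursiveIn.rfind (f := (f : ℕ →. ℕ))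
    (.oracle _ (by simp))) fun a => ?_
  rw [Nat.mem_rfind]
  constructor
  · simpa using Nat.find_spec (h a)
  · intro m hm
    simpa using Nat.find_min (h a) hm

/-! ### Functions between coded types -/

variable {M}

theorem Has.of_primrec {f : α → β} (hf : Primrec f) : M.Has f := M.mem_primrec hf

theorem Has.comp {g : β → γ} {f : α → β} (hg : M.Has g) (hf : M.Has f) :
    M.Has (fun a => g (f a)) := by
  unfold Has at *
  have h1 : Primrec₂ (fun m k : ℕ => if m = 0 then 0 else k) :=
    Primrec.ite (Primrec.eq.comp Primrec.fst (Primrec.const 0)) (Primrec.const 0) Primrec.snd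
  have h2 : (fun n => encode ((decode (α := β) (encode ((decode (α := α) n).map f) - 1)).map g))
      ∈ M.carrier :=
    M.mem_comp hg (M.mem_comp (M.mem_primrec Nat.Primrec.pred) hf)
  have h3 := M.mem_comp₂ h1 hf h2
  convert h3 using 2 with n
  cases h : decode (α := α) n with
  | none => simp
  | some a => simp

theorem Has.pair {f : α → β} {g : α → γ} (hf : M.Has f) (hg : M.Has g) :
    M.Has (fun a => (f a, g a)) := by
  unfold Has at *
  have h1 : Primrec₂ (fun m k : ℕ => if m = 0 then 0 else Nat.pair (m - 1) (k - 1) + 1) :=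
    Primrec.ite (Primrec.eq.comp Primrec.fst (Primrec.const 0)) (Primrec.const 0)
      (Primrec.succ.comp (Primrec₂.natPair.comp
        (Primrec.pred.comp Primrec.fst) (Primrec.pred.comp Primrec.snd)))
  have h3 := M.mem_comp₂ h1 hf hg
  convert h3 using 2 with n
  cases h : decode (α := α) n with
  | none => simp
  | some a => simp

theorem Has.const (b : β) : M.Has (fun _ : α => b) := .of_primrec (Primrec.const b)

theorem Has.id : M.Has (fun a : α => a) := .of_primrec Primrec.id

theorem Has.fst : M.Has (fun a : α × β => a.1) := .of_primrec Primrec.fst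

theorem Has.snd : M.Has (fun a : α × β => a.2) := .of_primrec Primrec.snd

theorem Has.comp₂ {p : β → γ → δ} (hp : Primrec₂ p) {f : α → β} {g : α → γ} (hf : M.Has f)
    (hg : M.Has g) : M.Has (fun a => p (f a) (g a)) :=
  (Has.of_primrec (M := M) hp).comp (hf.pair hg)

theorem Has.nat_rec {f : α → β} {g : α × (ℕ × β) → β} (hf : M.Has f) (hg : M.Has g) :
    M.Has (fun p : α × ℕ => (Nat.rec (f p.1) (fun y IH => g (p.1, (y, IH))) p.2 : β)) := by
  unfold Has at *
  have h1 : Primrec₂ (fun m k : ℕ => if m = 0 then 0 else k) :=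
    Primrec.ite (Primrec.eq.comp Primrec.fst (Primrec.const 0)) (Primrec.const 0) Primrec.snd
  -- the step on codes
  set G : ℕ → ℕ := fun n => encode ((decode (α := α × (ℕ × β)) n).map g) with hG
  have hq : Nat.Primrec (fun n => n.unpair.2.unpair.2) := by
    have : Primrec (fun n : ℕ => n.unpair.2.unpair.2) :=
      Primrec.snd.comp (Primrec.unpair.comp (Primrec.snd.comp Primrec.unpair))
    exact Primrec.nat_iff.mp this
  have hr : Nat.Primrec (fun n => Nat.pair n.unpair.1 (Nat.pair n.unpair.2.unpair.1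
      (n.unpair.2.unpair.2 - 1))) := by
    have : Primrec (fun n : ℕ => Nat.pair n.unpair.1 (Nat.pair n.unpair.2.unpair.1
        (n.unpair.2.unpair.2 - 1))) :=
      Primrec₂.natPair.comp (Primrec.fst.comp Primrec.unpair)
        (Primrec₂.natPair.comp
          (Primrec.fst.comp (Primrec.unpair.comp (Primrec.snd.comp Primrec.unpair)))
          (Primrec.pred.comp
            (Primrec.snd.comp (Primrec.unpair.comp (Primrec.snd.comp Primrec.unpair)))))
    exact Primrec.nat_iff.mp this
  have h2 := M.mem_comp₂ h1 (M.mem_primrec hq) (M.mem_comp hg (M.mem_primrec hr))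
  have h3 := M.mem_rec hf h2
  convert h3 using 2 with p
  simp only [Nat.unpair_pair]
  have hd : decode (α := α × ℕ) p
      = (decode (α := α) p.unpair.1).map (fun a => (a, p.unpair.2)) := by
    rw [Encodable.decode_prod_val]
    cases decode (α := α) p.unpair.1 with
    | none => rfl
    | some a => simp
  rw [hd]
  cases h : decode (α := α) p.unpair.1 with
  | none =>
    simp only [Option.map_none, encode_none]
    induction p.unpair.2 with
    | zero => rfl
    | succ n ih => simp only [← ih]; simp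
  | some a =>
    simp only [Option.map_some]
    induction p.unpair.2 with
    | zero => rfl
    | succ n ih =>
      simp only [← ih]
      rw [if_neg (by simp)]
      have ha : decode (α := α × (ℕ × β)) (Nat.pair p.unpair.1 (Nat.pair n (encode
          (some (Nat.rec (f a) (fun y IH => g (a, (y, IH))) n : β)) - 1)))
          = some (a, (n, Nat.rec (f a) (fun y IH => g (a, (y, IH))) n)) := by
        rw [Encodable.decode_prod_val]
        simp [h]
      show _ = encode ((decode (α := α × (ℕ × β)) _).map g)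
      rw [ha]
      rfl

theorem Has.nat_rec' {f : α → β} {g : α × (ℕ × β) → β} {b : α → ℕ} (hf : M.Has f)
    (hg : M.Has g) (hb : M.Has b) :
    M.Has (fun a : α => (Nat.rec (f a) (fun y IH => g (a, (y, IH))) (b a) : β)) :=
  (Has.nat_rec hf hg).comp (Has.id.pair hb)

/-! ### Decidable relations -/

variable (M)

/-- The relation is decidable in the ideal. -/
def Dec (p : α → Prop) : Prop := ∃ f : α → Bool, M.Has f ∧ ∀ a, f a = true ↔ p a

variable {M}

theorem Dec.of_eq {p q : α → Prop} (hp : M.Dec p) (h : ∀ a, p a ↔ q a) : M.Dec q := by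
  obtain ⟨f, hf, hf'⟩ := hp
  exact ⟨f, hf, fun a => (hf' a).trans (h a)⟩

theorem Dec.comp {p : β → Prop} {f : α → β} (hp : M.Dec p) (hf : M.Has f) :
    M.Dec (fun a => p (f a)) := by
  obtain ⟨g, hg, hg'⟩ := hp
  exact ⟨fun a => g (f a), hg.comp hf, fun a => hg' (f a)⟩

theorem Dec.not {p : α → Prop} (hp : M.Dec p) : M.Dec (fun a => ¬ p a) := by
  obtain ⟨f, hf, hf'⟩ := hp
  refine ⟨fun a => !(f a), (Has.of_primrec Primrec.not).comp hf, fun a => ?_⟩
  show (!(f a)) = true ↔ ¬ p a
  rw [← hf' a]
  simp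

theorem Dec.and {p q : α → Prop} (hp : M.Dec p) (hq : M.Dec q) : M.Dec (fun a => p a ∧ q a) := by
  obtain ⟨f, hf, hf'⟩ := hp
  obtain ⟨g, hg, hg'⟩ := hq
  refine ⟨fun a => f a && g a, Has.comp₂ Primrec.and hf hg, fun a => ?_⟩
  show (f a && g a) = true ↔ (p a ∧ q a)
  rw [← hf' a, ← hg' a]
  simp

theorem Dec.or {p q : α → Prop} (hp : M.Dec p) (hq : M.Dec q) : M.Dec (fun a => p a ∨ q a) := by
  obtain ⟨f, hf, hf'⟩ := hp
  obtain ⟨g, hg, hg'⟩ := hq
  refine ⟨fun a => f a || g a, Has.comp₂ Primrec.or hf hg, fun a => ?_⟩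
  show (f a || g a) = true ↔ (p a ∨ q a)
  rw [← hf' a, ← hg' a]
  simp

theorem Dec.imp {p q : α → Prop} (hp : M.Dec p) (hq : M.Dec q) : M.Dec (fun a => p a → q a) :=
  (hp.not.or hq).of_eq fun a => by tauto

theorem Dec.eq_true {f : α → Bool} (hf : M.Has f) : M.Dec (fun a => f a = true) :=
  ⟨f, hf, fun _ => Iff.rfl⟩

theorem Dec.eq {f g : α → β} (hf : M.Has f) (hg : M.Has g) : M.Dec (fun a => f a = g a) := by
  classical
  have h1 : Primrec (fun p : ℕ × ℕ => decide (p.1 = p.2)) :=
    (Primrec.eq (α := ℕ)).decide.comp Primrec.fst Primrec.snd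
  refine ⟨fun a => decide (encode (f a) = encode (g a)),
    (Has.of_primrec h1).comp (((Has.of_primrec Primrec.encode).comp hf).pair
      ((Has.of_primrec Primrec.encode).comp hg)), fun a => ?_⟩
  simp

theorem Dec.of_primrec {p : α → Prop} (hp : PrimrecPred p) : M.Dec p := by
  classical
  obtain ⟨_, h⟩ := hp
  exact ⟨_, Has.of_primrec h, fun a => by simp⟩

theorem Dec.le {f g : α → ℕ} (hf : M.Has f) (hg : M.Has g) : M.Dec (fun a => f a ≤ g a) :=
  (Dec.of_primrec (M := M) (p := fun q : ℕ × ℕ => q.1 ≤ q.2)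
    (Primrec.nat_le.comp Primrec.fst Primrec.snd)).comp (hf.pair hg)

theorem Dec.lt {f g : α → ℕ} (hf : M.Has f) (hg : M.Has g) : M.Dec (fun a => f a < g a) :=
  (Dec.of_primrec (M := M) (p := fun q : ℕ × ℕ => q.1 < q.2)
    (Primrec.nat_lt.comp Primrec.fst Primrec.snd)).comp (hf.pair hg)

theorem Has.ite {p : α → Prop} [DecidablePred p] (hp : M.Dec p) {f g : α → β} (hf : M.Has f)
    (hg : M.Has g) : M.Has (fun a => if p a then f a else g a) := by
  obtain ⟨q, hq, hq'⟩ := hp
  have h1 : Primrec (fun r : Bool × (β × β) => bif r.1 then r.2.1 else r.2.2) :=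
    Primrec.cond Primrec.fst (Primrec.fst.comp Primrec.snd) (Primrec.snd.comp Primrec.snd)
  have h2 := (Has.of_primrec (M := M) h1).comp (hq.pair (hf.pair hg))
  have h3 : (fun a => if p a then f a else g a)
      = fun a => bif (q a, (f a, g a)).1 then (q a, (f a, g a)).2.1 else (q a, (f a, g a)).2.2 := by
    funext a
    by_cases h : p a
    · rw [if_pos h]
      have := (hq' a).mpr h
      simp [this]
    · rw [if_neg h]
      have : q a = false := by
        rw [← Bool.not_eq_true]
        exact fun h' => h ((hq' a).mp h')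
      simp [this]
  rw [h3]
  exact h2

/-- Unbounded search. -/
theorem Has.find {p : α × ℕ → Prop} (hp : M.Dec p) (h : ∀ a, ∃ n, p (a, n)) :
    ∃ g : α → ℕ, M.Has g ∧ ∀ a, p (a, g a) ∧ ∀ m < g a, ¬ p (a, m) := by
  classical
  obtain ⟨q, hq, hq'⟩ := hp
  -- a function of codes which vanishes if and only if the search is successful
  have h1 : Nat.Primrec (fun m : ℕ => if m = 1 then 1 else 0) := by
    have : Primrec (fun m : ℕ => if m = 1 then 1 else 0) :=
      Primrec.ite (Primrec.eq.comp Primrec.id (Primrec.const 1)) (Primrec.const 1)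
        (Primrec.const 0)
    exact Primrec.nat_iff.mp this
  have h2 := M.mem_comp (M.mem_primrec h1) hq
  obtain ⟨g, hg, hg'⟩ := M.mem_find h2 (by
    intro a
    cases ha : decode (α := α) a with
    | none =>
      refine ⟨0, ?_⟩
      have : decode (α := α × ℕ) (Nat.pair a 0) = none := by
        rw [Encodable.decode_prod_val]
        simp [ha]
      simp [this]
    | some x =>
      obtain ⟨n, hn⟩ := h x
      refine ⟨n, ?_⟩
      have : decode (α := α × ℕ) (Nat.pair a n) = some (x, n) := by
        rw [Encodable.decode_prod_val]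
        simp [ha]
      simp [this, (hq' (x, n)).mpr hn])
  refine ⟨fun x => g (encode x), ?_, fun x => ?_⟩
  · -- membership
    unfold Has
    have h3 : Nat.Primrec (fun n => encode (decode (α := α) n)) := by
      have : Primrec (fun n : ℕ => encode (decode (α := α) n)) :=
        Primrec.encode.comp Primrec.decode
      exact Primrec.nat_iff.mp this
    have h4 : Primrec₂ (fun m k : ℕ => if m = 0 then 0 else k + 1) :=
      Primrec.ite (Primrec.eq.comp Primrec.fst (Primrec.const 0)) (Primrec.const 0)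
        (Primrec.succ.comp Primrec.snd)
    have h5 := M.mem_comp₂ h4 (M.mem_primrec h3)
      (M.mem_comp hg (M.mem_comp (M.mem_primrec Nat.Primrec.pred) (M.mem_primrec h3)))
    convert h5 using 2 with n
    cases ha : decode (α := α) n with
    | none => simp
    | some x => simp
  · obtain ⟨h3, h4⟩ := hg' (encode x)
    have key : ∀ n, decode (α := α × ℕ) (Nat.pair (encode x) n) = some (x, n) := by
      intro n
      rw [Encodable.decode_prod_val]
      simp
    constructor
    · rw [← hq' (x, g (encode x))]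
      simp only [key] at h3
      by_contra hne
      rw [Bool.not_eq_true] at hne
      simp [hne] at h3
    · intro m hm hpm
      have h5 := h4 m hm
      simp only [key] at h5
      apply h5
      have := (hq' (x, m)).mpr hpm
      simp [this]

/-- Bounded quantifiers. -/
theorem Dec.forall_lt {p : α × ℕ → Prop} {b : α → ℕ} (hp : M.Dec p) (hb : M.Has b) :
    M.Dec (fun a => ∀ i < b a, p (a, i)) := by
  obtain ⟨q, hq, hq'⟩ := hp
  refine ⟨fun a => (Nat.rec true (fun y IH => IH && q (a, y)) (b a) : Bool), ?_, fun a => ?_⟩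
  · have h1 : M.Has (fun r : α × (ℕ × Bool) => r.2.2 && q (r.1, r.2.1)) :=
      Has.comp₂ Primrec.and (Has.snd.comp Has.snd)
        (hq.comp (Has.fst.pair (Has.fst.comp Has.snd)))
    exact Has.nat_rec' (Has.const true) h1 hb
  · show (Nat.rec true (fun y IH => IH && q (a, y)) (b a) : Bool) = true ↔ ∀ i < b a, p (a, i)
    induction b a with
    | zero => simp
    | succ n ih =>
      simp only [Bool.and_eq_true, ih, hq']
      constructor
      · rintro ⟨h1, h2⟩ i hi
        rcases Nat.lt_succ_iff_lt_or_eq.mp hi with h | rfl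
        · exact h1 i h
        · exact h2
      · intro h
        exact ⟨fun i hi => h i (Nat.lt_succ_of_lt hi), h n (Nat.lt_succ_self n)⟩

theorem Dec.exists_lt {p : α × ℕ → Prop} {b : α → ℕ} (hp : M.Dec p) (hb : M.Has b) :
    M.Dec (fun a => ∃ i < b a, p (a, i)) :=
  (Dec.forall_lt hp.not hb).not.of_eq fun a => by push Not; rfl

end TuringIdeal

end Pool.Agent.STT
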