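import Pool.Agent.Lib_helper19.STT.Trees

/-!
# Leftmost paths; enumerations
-/

namespace Pool.Agent.STT

open TuringIdeal Encodable

section

variable (R : List Bool → Bool)

/-- One step of the leftmost path. -/
def stp (ρ : List Bool) : List Bool := ρ ++ [!(R (ρ ++ [false]))]

/-- `n` steps of the leftmost path. -/
def gext (σ : List Bool) (n : ℕ) : List Bool := Nat.rec σ (fun _ s => stp R s) n

/-- The leftmost path of `R` which extends `σ`. -/
def xs (σ : List Bool) (n : ℕ) : Bool := (gext R σ (n + 1)).getD n false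

end

variable {R : List Bool → Bool}

theorem gext_succ (σ : List Bool) (n : ℕ) : gext R σ (n + 1) = stp R (gext R σ n) := rfl

theorem gext_length (σ : List Bool) (n : ℕ) : (gext R σ n).length = σ.length + n := by
  induction n with
  | zero => rfl
  | succ n ih => rw [gext_succ, stp, List.length_append, ih]; rfl

theorem gext_take (σ : List Bool) {m n : ℕ} (h : m ≤ n) :
    (gext R σ n).take (σ.length + m) = gext R σ m := by
  induction n with
  | zero =>
    have : m = 0 := by omega
    subst this
    rw [← gext_length (R := R) σ 0, List.take_length]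
  | succ n ih =>
    rcases Nat.le_succ_iff.mp h with h' | h'
    · rw [gext_succ, stp, List.take_append_of_le_length (by rw [gext_length]; omega), ih h']
    · subst h'
      rw [← gext_length (R := R) σ (n + 1), List.take_length]

theorem getD_gext (σ : List Bool) {m n j : ℕ} (h : m ≤ n) (hj : j < σ.length + m) :
    (gext R σ m).getD j false = (gext R σ n).getD j false := by
  have h1 : j < (gext R σ m).length := by rw [gext_length]; exact hj
  have h2 : j < (gext R σ n).length := by rw [gext_length]; omega
  rw [List.getD_eq_getElem _ _ h1, List.getD_eq_getElem _ _ h2]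
  have h3 := gext_take (R := R) σ h
  have h4 : (gext R σ m)[j] = ((gext R σ n).take (σ.length + m))[j]'(by rw [h3]; exact h1) := by
    simp only [h3]
  rw [h4, List.getElem_take]

theorem pre_xs (σ : List Bool) {n m : ℕ} (h : n ≤ σ.length + m) :
    pre (xs R σ) n = (gext R σ m).take n := by
  refine pre_eq_take (by rw [gext_length]; exact h) fun j hj => ?_
  unfold xs
  rcases le_total (j + 1) m with h' | h'
  · exact getD_gext σ h' (by omega)
  · exact (getD_gext σ h' (by omega)).symm

theorem pre_xs_self (σ : List Bool) : pre (xs R σ) σ.length = σ := by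
  rw [pre_xs σ (m := 0) (by simp)]
  show σ.take σ.length = σ
  rw [List.take_length]

theorem pre_xs_take (σ : List Bool) {n : ℕ} (h : n ≤ σ.length) :
    pre (xs R σ) n = σ.take n := by
  rw [← pre_take _ h, pre_xs_self]

theorem mem_xs_of {σ : List Bool} (hR : IsTree R) (h : ∀ n, R (gext R σ n) = true) (n : ℕ) :
    R (pre (xs R σ) n) = true := by
  rw [pre_xs σ (m := n) (by omega)]
  exact hR.take (h n) n

theorem Space.tree {M : TuringIdeal} (hR : Space M R) : IsTree R := hR.down

theorem Space.mem_gext {M : TuringIdeal} (hR : Space M R) {σ : List Bool} (h : R σ = true)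
    (n : ℕ) : R (gext R σ n) = true := by
  induction n with
  | zero => exact h
  | succ n ih =>
    rw [gext_succ, stp]
    cases hb : R (gext R σ n ++ [false]) with
    | true => exact hb
    | false =>
      obtain ⟨b, hb'⟩ := hR.up _ ih
      cases b with
      | false => rw [hb] at hb'; exact absurd hb' (by simp)
      | true => exact hb'

theorem Space.mem_xs {M : TuringIdeal} (hR : Space M R) {σ : List Bool} (h : R σ = true)
    (n : ℕ) : R (pre (xs R σ) n) = true := mem_xs_of hR.tree (hR.mem_gext h) n

variable {M : TuringIdeal} {α β γ : Type} [Primcodable α] [Primcodable β] [Primcodable γ]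

theorem Has.gext (hR : M.Has R) : M.Has (fun p : List Bool × ℕ => gext R p.1 p.2) := by
  have h : M.Has (fun r : List Bool × (ℕ × List Bool) => stp R r.2.2) := by
    unfold stp
    refine Has.append (Has.snd.comp Has.snd) (Has.single ?_)
    exact (Has.of_primrec Primrec.not).comp
      (hR.comp (Has.append (Has.snd.comp Has.snd) (Has.const [false])))
  exact Has.nat_rec (f := fun σ : List Bool => σ) Has.id h

theorem Has.xs (hR : M.Has R) : M.Has (fun p : List Bool × ℕ => xs R p.1 p.2) :=
  Has.comp₂ (Primrec.list_getD false) ((Has.gext hR).comp (Has.fst.pair (Has.succ Has.snd)))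
    Has.snd

theorem Has.xs_one (hR : M.Has R) (σ : List Bool) : M.Has (Pool.Agent.STT.xs R σ) :=
  (Has.xs hR).comp ((Has.const σ).pair Has.id)

theorem Has.pre_xs (hR : M.Has R) {f : α → List Bool} {g : α → ℕ} (hf : M.Has f)
    (hg : M.Has g) : M.Has (fun a => pre (Pool.Agent.STT.xs R (f a)) (g a)) :=
  Has.pre_two (x := fun p : α × ℕ => Pool.Agent.STT.xs R (f p.1) p.2)
    ((Has.xs hR).comp ((hf.comp Has.fst).pair Has.snd)) hg

theorem Has.option_bind {w : γ → Option β} (hw : M.Has w) :
    M.Has (fun o : Option γ => o.bind w) := by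
  unfold TuringIdeal.Has at *
  have h1 : Primrec₂ (fun m k : ℕ => if m = 0 then 1 else k) :=
    Primrec.ite (Primrec.eq.comp Primrec.fst (Primrec.const 0)) (Primrec.const 1) Primrec.snd
  have hid : (fun n : ℕ => n) ∈ M.carrier := M.mem_primrec Nat.Primrec.id
  have h2 := M.mem_comp₂ h1 hid (M.mem_comp hw (M.mem_primrec Nat.Primrec.pred))
  have e : (fun n => encode ((decode (α := Option γ) n).map fun o => o.bind w))
      = fun n => if n = 0 then 1
        else encode ((decode (α := γ) (Nat.pred n)).map w) := by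
    funext n
    cases n with
    | zero => simp
    | succ n =>
      rw [if_neg (Nat.succ_ne_zero n), Nat.pred_succ, decode_option_succ]
      cases decode (α := γ) n with
      | none => rfl
      | some g => rfl
  rw [e]
  exact h2

theorem Has.reindex {w : γ → Option β} (hw : M.Has w) :
    M.Has (fun n : ℕ => (decode (α := γ) n).bind w) :=
  (Has.option_bind hw).comp (Has.of_primrec Primrec.decode)

omit [Primcodable β] in
theorem reindex_iff {w : γ → Option β} {b : β} :
    (∃ n : ℕ, (decode (α := γ) n).bind w = some b) ↔ ∃ g, w g = some b := by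
  constructor
  · rintro ⟨n, hn⟩
    cases h : decode (α := γ) n with
    | none => rw [h] at hn; exact absurd hn (by simp)
    | some g => rw [h] at hn; exact ⟨g, hn⟩
  · rintro ⟨g, hg⟩
    exact ⟨encode g, by rw [encodek]; exact hg⟩

theorem closed_intro {K : Set (ℕ → Bool)} (hK : K ⊆ Pt M R) (w : γ → Option (List Bool))
    (hw : M.Has w)
    (h : ∀ x ∈ Pt M R, x ∈ K ↔ ∀ g σ, w g = some σ → pre x σ.length ≠ σ) :
    IsClosedIn M R K := by
  refine ⟨hK, _, Has.reindex hw, fun x hx => (h x hx).trans ?_⟩
  constructor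
  · intro h1 n σ hn
    obtain ⟨g, hg⟩ := reindex_iff.mp ⟨n, hn⟩
    exact h1 g σ hg
  · intro h1 g σ hg
    obtain ⟨n, hn⟩ := reindex_iff.mpr ⟨g, hg⟩
    exact h1 n σ hn

theorem cont_intro {K : Set (ℕ → Bool)} {f : (ℕ → Bool) → ℝ}
    (c : γ → Option (List Bool × ℕ × ℕ × ℕ × ℕ)) (hc : M.Has c)
    (h1 : ∀ g σ a b e k, c g = some (σ, a, b, e, k) → ∀ x ∈ K, pre x σ.length = σ →
      |f x - dy a b e| ≤ 1 / 2 ^ k)
    (h2 : ∀ x ∈ K, ∀ k, ∃ g σ a b e l, c g = some (σ, a, b, e, l) ∧ pre x σ.length = σ ∧ k ≤ l) :
    ContOn M K f := by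
  refine ⟨_, Has.reindex hc, ?_, ?_⟩
  · intro n σ a b e k hn
    obtain ⟨g, hg⟩ := reindex_iff.mp ⟨n, hn⟩
    exact h1 g σ a b e k hg
  · intro x hx k
    obtain ⟨g, σ, a, b, e, l, hg, h3, h4⟩ := h2 x hx k
    obtain ⟨n, hn⟩ := reindex_iff.mpr ⟨g, hg⟩
    exact ⟨n, σ, a, b, e, l, hn, h3, h4⟩

/-! ### Decidability of the notions of `Trees.lean` -/

variable {T : List Bool → Bool}

theorem dec_A (hT : M.Has T) : M.Dec (fun p : ℕ × List Bool => A T p.1 p.2) := by
  refine Dec.exists_len (p := fun q : (ℕ × List Bool) × List Bool =>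
    q.2.take q.1.2.length = q.1.2 ∧ T q.2 = true) (Dec.and ?_ ?_) Has.fst
  · exact Dec.eq (Has.take (Has.length (Has.snd.comp Has.fst)) Has.snd) (Has.snd.comp Has.fst)
  · exact Dec.eq_true (hT.comp Has.snd)

theorem dec_Leaf (hT : M.Has T) : M.Dec (fun σ : List Bool => Leaf T σ) :=
  (Dec.eq_true hT).and
    ((dec_A hT).comp ((Has.succ (Has.length Has.id)).pair Has.id)).not

theorem has_bt (hT : M.Has T) (hinf : ∀ n, ∃ σ : List Bool, σ.length = n ∧ T σ = true) :
    M.Has (fun σ : List Bool => bt T σ) := by
  have h1 : M.Dec (fun q : List Bool × ℕ => A T (q.1.length + 1) (q.1.take (q.1.length - q.2))) :=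
    (dec_A hT).comp ((Has.succ (Has.length Has.fst)).pair
      (Has.take (Has.comp₂ Primrec.nat_sub (Has.length Has.fst) Has.snd) Has.fst))
  obtain ⟨g, hg, hg'⟩ := Has.find h1 (fun σ => ⟨σ.length, by
    simp only [Nat.sub_self, List.take_zero]
    exact Ext.nil hinf _ (Nat.zero_le _)⟩)
  have e : (fun σ : List Bool => bt T σ) = fun σ => σ.length - g σ := by
    funext σ
    obtain ⟨h2, h3⟩ := hg' σ
    apply le_antisymm
    · by_contra hc
      push Not at hc
      have h4 := bt_le (T := T) σ
      apply h3 (σ.length - bt T σ) (by omega)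
      simp only
      rw [Nat.sub_sub_self h4]
      exact bt_spec hinf σ
    · exact le_bt (Nat.sub_le _ _) h2
  rw [e]
  exact Has.comp₂ Primrec.nat_sub (Has.length Has.id) hg

end Pool.Agent.STT
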