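import Pool.Agent.Lib_helper19.STT.Defs

/-!
# Binary strings, trees, living nodes
-/

namespace Pool.Agent.STT

open TuringIdeal

/-! ### Strings -/

theorem pre_length (x : ℕ → Bool) (n : ℕ) : (pre x n).length = n := by simp [pre]

theorem pre_succ (x : ℕ → Bool) (n : ℕ) : pre x (n + 1) = pre x n ++ [x n] := by
  simp [pre, List.range_succ]

theorem pre_take (x : ℕ → Bool) {m n : ℕ} (h : m ≤ n) : (pre x n).take m = pre x m := by
  simp [pre, ← List.map_take, List.take_range, min_eq_left h]

theorem pre_eq_of_le {x y : ℕ → Bool} {m n : ℕ} (h : m ≤ n) (hxy : pre x n = pre y n) :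
    pre x m = pre y m := by rw [← pre_take x h, ← pre_take y h, hxy]

theorem pre_eq_iff {x y : ℕ → Bool} {n : ℕ} : pre x n = pre y n ↔ ∀ i < n, x i = y i := by
  unfold pre
  rw [List.map_inj_left]
  simp

theorem exists_pre_ne {x y : ℕ → Bool} (h : x ≠ y) : ∃ n, pre x n ≠ pre y n := by
  by_contra hc
  push Not at hc
  apply h
  funext i
  exact pre_eq_iff.mp (hc (i + 1)) i (Nat.lt_succ_self i)

theorem pre_eq_take {x : ℕ → Bool} {L : List Bool} {n : ℕ} (hn : n ≤ L.length)
    (h : ∀ j < n, x j = L.getD j false) : pre x n = L.take n := by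
  apply List.ext_getElem
  · simp [pre, hn]
  · intro j h1 h2
    have hj : j < n := by simpa [pre] using h1
    have := h j hj
    rw [List.getD_eq_getElem _ _ (lt_of_lt_of_le hj hn)] at this
    simp [pre, this]

/-- The binary strings of length `t`, numbered. -/
def bits (t i : ℕ) : List Bool := (List.range t).map fun j => decide (i / 2 ^ j % 2 = 1)

theorem bits_length (t i : ℕ) : (bits t i).length = t := by simp [bits]

theorem bits_succ (t i : ℕ) : bits (t + 1) i = decide (i % 2 = 1) :: bits t (i / 2) := by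
  unfold bits
  rw [List.range_succ_eq_map]
  simp only [List.map_cons, pow_zero, Nat.div_one, List.map_map, List.cons.injEq, true_and]
  apply List.map_congr_left
  intro j _
  simp only [Function.comp, Nat.succ_eq_add_one]
  rw [pow_succ', Nat.div_div_eq_div_mul]

theorem bits_surj (τ : List Bool) : ∃ i < 2 ^ τ.length, bits τ.length i = τ := by
  induction τ with
  | nil => exact ⟨0, by simp, rfl⟩
  | cons b τ ih =>
    obtain ⟨i, hi, h⟩ := ih
    refine ⟨2 * i + (if b then 1 else 0), ?_, ?_⟩
    · simp only [List.length_cons, pow_succ]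
      split <;> omega
    · rw [List.length_cons, bits_succ]
      have h1 : (2 * i + (if b then 1 else 0)) / 2 = i := by split <;> omega
      have h2 : decide ((2 * i + (if b then 1 else 0)) % 2 = 1) = b := by
        cases b <;> simp
      rw [h1, h2, h]

theorem primrec_pow2 : Primrec (fun n : ℕ => 2 ^ n) := by
  have h : Primrec (fun n : ℕ => (Nat.rec 1 (fun _ r => 2 * r) n : ℕ)) :=
    Primrec.nat_rec₁ 1 (Primrec.nat_mul.comp (Primrec.const 2) Primrec.snd)
  refine h.of_eq fun n => ?_
  induction n with
  | zero => rfl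
  | succ n ih =>
    show 2 * (Nat.rec 1 (fun _ r => 2 * r) n : ℕ) = 2 ^ (n + 1)
    rw [ih, pow_succ']

theorem primrec_bits : Primrec₂ bits := by
  unfold bits
  refine Primrec.list_map (Primrec.list_range.comp Primrec.fst) ?_
  have h1 : Primrec (fun q : (ℕ × ℕ) × ℕ => q.1.2 / 2 ^ q.2 % 2) :=
    Primrec.nat_mod.comp (Primrec.nat_div.comp (Primrec.snd.comp Primrec.fst)
      (primrec_pow2.comp Primrec.snd)) (Primrec.const 2)
  exact (Primrec.eq (α := ℕ)).decide.comp h1 (Primrec.const 1)

variable {M : TuringIdeal} {α β : Type} [Primcodable α] [Primcodable β]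

theorem Dec.forall_len {p : α × List Bool → Prop} {b : α → ℕ} (hp : M.Dec p) (hb : M.Has b) :
    M.Dec (fun a => ∀ τ : List Bool, τ.length = b a → p (a, τ)) := by
  have h1 : M.Dec (fun q : α × ℕ => p (q.1, bits (b q.1) q.2)) :=
    hp.comp (Has.fst.pair (Has.comp₂ primrec_bits (hb.comp Has.fst) Has.snd))
  refine (Dec.forall_lt h1 ((Has.of_primrec primrec_pow2).comp hb)).of_eq fun a => ?_
  constructor
  · intro h τ hτ
    obtain ⟨i, hi, hi'⟩ := bits_surj τ
    have := h i (by rw [← hτ]; exact hi)
    simp only at this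
    rw [← hτ, hi'] at this
    exact this
  · intro h i _
    exact h _ (bits_length _ _)

theorem Dec.exists_len {p : α × List Bool → Prop} {b : α → ℕ} (hp : M.Dec p) (hb : M.Has b) :
    M.Dec (fun a => ∃ τ : List Bool, τ.length = b a ∧ p (a, τ)) :=
  (Dec.forall_len hp.not hb).not.of_eq fun a => by push Not; rfl

theorem Has.take {f : α → ℕ} {g : α → List Bool} (hf : M.Has f) (hg : M.Has g) :
    M.Has (fun a => (g a).take (f a)) := Has.comp₂ Primrec.list_take hf hg

theorem Has.length {g : α → List Bool} (hg : M.Has g) : M.Has (fun a => (g a).length) :=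
  (Has.of_primrec Primrec.list_length).comp hg

theorem Has.append {f g : α → List Bool} (hf : M.Has f) (hg : M.Has g) :
    M.Has (fun a => f a ++ g a) := Has.comp₂ Primrec.list_append hf hg

theorem Has.single {f : α → Bool} (hf : M.Has f) : M.Has (fun a => [f a]) :=
  Has.comp₂ Primrec.list_cons hf (Has.const [])

theorem Has.succ {f : α → ℕ} (hf : M.Has f) : M.Has (fun a => f a + 1) :=
  (Has.of_primrec Primrec.succ).comp hf

theorem Has.pre_two {x : α × ℕ → Bool} (hx : M.Has x) {n : α → ℕ} (hn : M.Has n) :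
    M.Has (fun a => pre (fun i => x (a, i)) (n a)) := by
  have h : M.Has (fun a : α => (Nat.rec [] (fun y IH => IH ++ [x (a, y)]) (n a) : List Bool)) :=
    Has.nat_rec' (g := fun r : α × (ℕ × List Bool) => r.2.2 ++ [x (r.1, r.2.1)]) (Has.const [])
      (Has.append (Has.snd.comp Has.snd)
        (Has.single (hx.comp (Has.fst.pair (Has.fst.comp Has.snd))))) hn
  have e : (fun a => pre (fun i => x (a, i)) (n a))
      = fun a : α => (Nat.rec [] (fun y IH => IH ++ [x (a, y)]) (n a) : List Bool) := by
    funext a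
    induction n a with
    | zero => rfl
    | succ k ih => rw [pre_succ, ih]
  rw [e]
  exact h

/-! ### Trees -/

/-- `T` is closed under initial segments. -/
def IsTree (T : List Bool → Bool) : Prop := ∀ σ b, T (σ ++ [b]) = true → T σ = true

theorem IsTree.take {T : List Bool → Bool} (hT : IsTree T) {τ : List Bool} (h : T τ = true)
    (n : ℕ) : T (τ.take n) = true := by
  induction τ using List.reverseRecOn with
  | nil => simpa using h
  | append_singleton τ b ih =>
    by_cases hn : n ≤ τ.length
    · rw [List.take_append_of_le_length hn]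
      exact ih (hT _ _ h)
    · rw [List.take_of_length_le (by simp; omega)]
      exact h

section

variable (T : List Bool → Bool)

/-- The node `σ` is alive at the level `t`. -/
def A (t : ℕ) (σ : List Bool) : Prop :=
  ∃ τ : List Bool, τ.length = t ∧ τ.take σ.length = σ ∧ T τ = true

/-- The node `σ` has extensions at all levels. -/
def Ext (σ : List Bool) : Prop := ∀ t, σ.length ≤ t → A T t σ

/-- `σ` is a dead end. -/
def Leaf (σ : List Bool) : Prop := T σ = true ∧ ¬ A T (σ.length + 1) σ

open Classical in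
/-- The length of the longest initial segment of `σ` which is alive at the level
`σ.length + 1`. -/
noncomputable def bt (σ : List Bool) : ℕ :=
  Nat.findGreatest (fun i => A T (σ.length + 1) (σ.take i)) σ.length

/-- The estimate `bt` is correct. -/
def Good (σ : List Bool) : Prop := Ext T (σ.take (bt T σ))

end

variable {T : List Bool → Bool}

theorem A.length_le {t : ℕ} {σ : List Bool} (h : A T t σ) : σ.length ≤ t := by
  obtain ⟨τ, h1, h2, -⟩ := h
  have := congrArg List.length h2
  simp only [List.length_take] at this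
  omega

theorem A.mono (hT : IsTree T) {t t' : ℕ} {σ : List Bool} (h : t ≤ t') (hσ : σ.length ≤ t)
    (hA : A T t' σ) : A T t σ := by
  obtain ⟨τ, h1, h2, h3⟩ := hA
  refine ⟨τ.take t, by simp [h1, h], ?_, hT.take h3 t⟩
  rw [List.take_take, min_eq_left hσ, h2]

theorem A.take {t : ℕ} {σ : List Bool} (h : A T t σ) (i : ℕ) : A T t (σ.take i) := by
  obtain ⟨τ, h1, h2, h3⟩ := h
  refine ⟨τ, h1, ?_, h3⟩
  rw [List.length_take]
  conv_rhs => rw [← h2]
  rw [List.take_take]

theorem A.of_mem {σ : List Bool} (h : T σ = true) : A T σ.length σ :=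
  ⟨σ, rfl, by simp, h⟩

theorem A.of_extends {σ τ : List Bool} (h : T τ = true) (hσ : τ.take σ.length = σ) :
    A T τ.length σ := ⟨τ, rfl, hσ, h⟩

theorem A.mem (hT : IsTree T) {t : ℕ} {σ : List Bool} (h : A T t σ) : T σ = true := by
  obtain ⟨τ, h1, h2, h3⟩ := h
  rw [← h2]
  exact hT.take h3 _

theorem Ext.mem (hT : IsTree T) {σ : List Bool} (h : Ext T σ) : T σ = true :=
  (h _ le_rfl).mem hT

theorem Ext.take (hT : IsTree T) {σ : List Bool} (h : Ext T σ) (i : ℕ) : Ext T (σ.take i) := by
  intro t ht
  exact ((h (max t σ.length) (le_max_right _ _)).take i).mono hT (le_max_left _ _) ht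

theorem Ext.nil (hinf : ∀ n, ∃ σ : List Bool, σ.length = n ∧ T σ = true) : Ext T [] := by
  intro t _
  obtain ⟨σ, h1, h2⟩ := hinf t
  exact ⟨σ, h1, by simp, h2⟩

theorem Ext.child (hT : IsTree T) {σ : List Bool} (h : Ext T σ) :
    Ext T (σ ++ [false]) ∨ Ext T (σ ++ [true]) := by
  by_contra hc
  push Not at hc
  obtain ⟨h0, h1⟩ := hc
  unfold Ext at h0 h1
  push Not at h0 h1
  obtain ⟨t0, ht0, h0⟩ := h0
  obtain ⟨t1, ht1, h1⟩ := h1
  obtain ⟨τ, h2, h3, h4⟩ := h (max (max t0 t1) (σ.length + 1))
    (le_trans (Nat.le_succ _) (le_max_right _ _))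
  have hl : σ.length < τ.length := by rw [h2]; exact lt_of_lt_of_le (Nat.lt_succ_self _) (le_max_right _ _)
  have h5 : τ.take (σ.length + 1) = σ ++ [τ[σ.length]] := by
    rw [← List.take_concat_get' _ _ hl, h3]
  have h6 : ∀ b, τ[σ.length] = b → A T (max (max t0 t1) (σ.length + 1)) (σ ++ [b]) := by
    intro b hb
    refine ⟨τ, h2, ?_, h4⟩
    rw [List.length_append, List.length_singleton, h5, hb]
  cases hb : τ[σ.length] with
  | false => exact h0 ((h6 _ hb).mono hT (le_trans (le_max_left _ _) (le_max_left _ _)) ht0)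
  | true => exact h1 ((h6 _ hb).mono hT (le_trans (le_max_right _ _) (le_max_left _ _)) ht1)

theorem bt_le (σ : List Bool) : bt T σ ≤ σ.length := by
  classical
  exact Nat.findGreatest_le _

theorem bt_spec (hinf : ∀ n, ∃ σ : List Bool, σ.length = n ∧ T σ = true) (σ : List Bool) :
    A T (σ.length + 1) (σ.take (bt T σ)) := by
  classical
  have h : A T (σ.length + 1) (σ.take 0) := by
    rw [List.take_zero]
    exact Ext.nil hinf _ (Nat.zero_le _)
  exact Nat.findGreatest_spec (P := fun i => A T (σ.length + 1) (σ.take i)) (Nat.zero_le _) h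

theorem le_bt {σ : List Bool} {i : ℕ} (hi : i ≤ σ.length) (h : A T (σ.length + 1) (σ.take i)) :
    i ≤ bt T σ := by
  classical
  exact Nat.le_findGreatest hi h

theorem Leaf.bt_lt (hinf : ∀ n, ∃ σ : List Bool, σ.length = n ∧ T σ = true) {σ : List Bool}
    (h : Leaf T σ) : bt T σ < σ.length := by
  refine lt_of_le_of_ne (bt_le σ) fun h' => h.2 ?_
  have := bt_spec hinf σ
  rwa [h', List.take_length] at this

/-- The last generation of a dying node. -/
theorem last_level {ρ : List Bool} (h1 : T ρ = true) (h2 : ¬ Ext T ρ) :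
    ∃ s, ρ.length ≤ s ∧ A T s ρ ∧ ¬ A T (s + 1) ρ := by
  unfold Ext at h2
  push Not at h2
  obtain ⟨t, ht, ht'⟩ := h2
  by_contra hc
  push Not at hc
  apply ht'
  have : ∀ k, A T (ρ.length + k) ρ := by
    intro k
    induction k with
    | zero => exact A.of_mem h1
    | succ k ih => exact hc _ (Nat.le_add_right _ _) ih
  have h3 := this (t - ρ.length)
  rwa [Nat.add_sub_cancel' ht] at h3

theorem last_leaf (hinf : ∀ n, ∃ σ : List Bool, σ.length = n ∧ T σ = true)
    {ρ' : List Bool} {b : Bool} {s : ℕ} (hE : Ext T ρ')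
    (h2 : ¬ A T (s + 1) (ρ' ++ [b])) {σ : List Bool} (hσ : σ.length = s)
    (hσ' : σ.take (ρ'.length + 1) = ρ' ++ [b]) (hσT : T σ = true) :
    Leaf T σ ∧ bt T σ = ρ'.length ∧ Good T σ := by
  have hlen : ρ'.length + 1 ≤ σ.length := by
    have := congrArg List.length hσ'
    simp only [List.length_take, List.length_append, List.length_singleton] at this
    omega
  have htk : ∀ i, ρ'.length + 1 ≤ i → i ≤ σ.length → ¬ A T (σ.length + 1) (σ.take i) := by
    intro i hi hi' hA
    apply h2
    have := hA.take (ρ'.length + 1)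
    rw [List.take_take, min_eq_left hi, hσ', hσ] at this
    exact this
  have hleaf : Leaf T σ := by
    refine ⟨hσT, fun hA => ?_⟩
    have := htk σ.length hlen le_rfl
    rw [List.take_length] at this
    exact this hA
  have hp : σ.take ρ'.length = ρ' := by
    have := congrArg (List.take ρ'.length) hσ'
    rw [List.take_take, min_eq_left (Nat.le_succ _)] at this
    simpa using this
  have hb : bt T σ = ρ'.length := by
    apply le_antisymm
    · by_contra hc
      push Not at hc
      exact htk _ hc (bt_le σ) (bt_spec hinf σ)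
    · apply le_bt (by omega)
      rw [hp]
      exact hE _ (by omega)
  exact ⟨hleaf, hb, by unfold Good; rw [hb, hp]; exact hE⟩

end Pool.Agent.STT
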