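import Pool.Agent.Lib_helper19.STT.Decode
import Pool.Agent.Lib_helper19.STT.Forward

namespace Pool.Agent.STT.ZeroDim

open Pool.Agent.STT

/-- In every `ω`-model of `RCA₀` (every Turing ideal `M`) and for every nonempty binary tree `R` of
`M` without dead ends, the following are equivalent, `X` being the compact metric space of the
paths of `R` in `M`:
1. weak König's lemma for the subtrees of `R`, that is, the compactness of `X` in `M`;
2. the strong Tietze theorem for the closed subsets `K` of `X`;
3. the strong Tietze theorem for the closed subsets `K` of `X` without accumulation points and the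
   `1`-Lipschitz functions from `K` to `[0, 1]`. -/
theorem result (M : TuringIdeal) (R : List Bool → Bool) (hR : Space M R) :
    List.TFAE [WKLin M R, StrongTietze M R, StrongTietzeDiscrete M R] := by
  tfae_have 1 → 2 := tietze_of_wkl hR
  tfae_have 2 → 3 := by
    intro h K hK _ f hf _ hl
    refine h K hK f ⟨hf, fun k => k, TuringIdeal.Has.id, ?_⟩
    intro k x hx y hy hxy
    exact hl x hx y hy k hxy
  tfae_have 3 → 1 := wkl_of_discrete hR
  tfae_finish

end Pool.Agent.STT.ZeroDim
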